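import Mathlib

/-!
# Covering centrally symmetric bodies by translates of the interior (MP_eba1ef_gt)

Definitions. `n` is the dimension, `K` the body.
-/

set_option autoImplicit false

open MeasureTheory Set
open scoped Pointwise

namespace Pool.Agent.Rog

/-- Euclidean space. -/
abbrev E (n : ℕ) := EuclideanSpace ℝ (Fin n)

/-- Convex bodies which are symmetric with respect to the origin. -/
structure SymBody {n : ℕ} (K : Set (E n)) : Prop where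
  cpt : IsCompact K
  cvx : Convex ℝ K
  int : (interior K).Nonempty
  symm : ∀ x ∈ K, -x ∈ K

/-- The polar set. -/
def pol {n : ℕ} (K : Set (E n)) : Set (E n) := {y | ∀ x ∈ K, inner ℝ y x ≤ 1}

/-- The volume of `K ∩ (2 x - K)`. -/
noncomputable def mac {n : ℕ} (K : Set (E n)) (x : E n) : ℝ :=
  volume.real {y | y ∈ K ∧ (2 : ℝ) • x - y ∈ K}

/-- The `n`-th root of the normalised volume of `K ∩ (2 x - K)`. -/
noncomputable def W {n : ℕ} (K : Set (E n)) (x : E n) : ℝ :=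
  (mac K x / volume.real K) ^ ((1 : ℝ) / n)

/-- The dual cap of depth `s` at the point `x`. -/
def dcap {n : ℕ} (K : Set (E n)) (x : E n) (s : ℝ) : Set (E n) :=
  {y | y ∈ pol K ∧ 1 - inner ℝ y x ≤ s}

/-- The star hull of the dual cap with respect to the origin. -/
def shull {n : ℕ} (K : Set (E n)) (x : E n) (s : ℝ) : Set (E n) :=
  {z | ∃ r : ℝ, 0 ≤ r ∧ r ≤ 1 ∧ ∃ y ∈ dcap K x s, z = r • y}

/-- The constant of the dual caps. -/
noncomputable def cc : ℝ := 1 / 16000000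

/-- The constant of the count. -/
noncomputable def c3 : ℝ := 64 * (4 / cc + 2) / cc

/-! ### The smooth norm -/

variable {n : ℕ}

/-- A square of a smooth norm `Q` (`Q = N ^ 2`) with its half gradient `G`. -/
structure Nice (Q : E n → ℝ) (G : E n → E n) : Prop where
  inner_self : ∀ x, inner ℝ x (G x) = Q x
  even : ∀ x, Q (-x) = Q x
  homQ : ∀ (s : ℝ) (x : E n), 0 ≤ s → Q (s • x) = s ^ 2 * Q x
  holder : ∀ z x, inner ℝ z (G x) ≤ √(Q z) * √(Q x)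
  mono : ∀ x z, x ≠ z → 0 < inner ℝ (G x - G z) (x - z)
  homG : ∀ (s : ℝ) (x : E n), 0 ≤ s → G (s • x) = s • G x
  contG : Continuous G
  lower : ∃ c : ℝ, 0 < c ∧ ∀ x, c * (‖x‖ ^ 2 + ‖G x‖ ^ 2) ≤ Q x
  upper : ∃ C : ℝ, 0 < C ∧ ∀ x, Q x ≤ C * ‖x‖ ^ 2 ∧ ‖G x‖ ≤ C * ‖x‖
  grad : ∀ x, HasFDerivAt Q ((2 : ℝ) • (innerSL ℝ (G x))) x
  diffG : ∀ x, x ≠ 0 → DifferentiableAt ℝ G x

/-- The power sum. -/
noncomputable def Pf {T : ℕ} (y : Fin T → E n) (m : ℕ) (x : E n) : ℝ :=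
  ∑ k, (inner ℝ x (y k)) ^ (2 * m)

/-- The square of the `ℓ_{2m}` norm defined by a family of vectors. -/
noncomputable def Qf {T : ℕ} (y : Fin T → E n) (m : ℕ) (x : E n) : ℝ :=
  (Pf y m x) ^ ((1 : ℝ) / m)

/-- Half its gradient. -/
noncomputable def Gf {T : ℕ} (y : Fin T → E n) (m : ℕ) (x : E n) : E n :=
  (Pf y m x) ^ ((1 : ℝ) / m - 1) • ∑ k, (inner ℝ x (y k)) ^ (2 * m - 1) • y k

/-- The family spans the space. -/
def Spans {T : ℕ} (y : Fin T → E n) : Prop := ∀ x : E n, (∀ k, inner ℝ x (y k) = 0) → x = 0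

/-- The change of variables. -/
def Sm (G : E n → E n) (p : E n × E n) : E n × E n := (p.1 + p.2, G p.1 - G p.2)

/-- Its Jacobian. -/
noncomputable def DD (G : E n → E n) (p : E n × E n) : ℝ := |(fderiv ℝ (Sm G) p).det|

/-- The Gaussian test function. -/
noncomputable def gau (ε : ℝ) (p : E n × E n) : ℂ :=
  Complex.exp (Complex.I * (inner ℝ p.1 p.2 : ℝ) - ((ε / 2 * (‖p.1‖ ^ 2 + ‖p.2‖ ^ 2) : ℝ) : ℂ))

/-- The coefficient of `exp w`. -/
noncomputable def al (Q : E n → ℝ) (G : E n → E n) (ε : ℝ) (x : E n) : ℂ :=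
  Complex.I * (Q x : ℝ) - ((ε / 2 * (‖x‖ ^ 2 + ‖G x‖ ^ 2) : ℝ) : ℂ)

/-- The coefficient of `exp (-w)`. -/
noncomputable def be (Q : E n → ℝ) (G : E n → E n) (ε : ℝ) (a : E n) : ℂ :=
  -(Complex.I * (Q a : ℝ)) - ((ε / 2 * (‖a‖ ^ 2 + ‖G a‖ ^ 2) : ℝ) : ℂ)

/-- The constant coefficient. -/
noncomputable def ga (G : E n → E n) (ε : ℝ) (p : E n × E n) : ℂ :=
  Complex.I * ((inner ℝ p.2 (G p.1) - inner ℝ p.1 (G p.2) : ℝ) : ℂ) -
    ((ε * (inner ℝ p.1 p.2 - inner ℝ (G p.1) (G p.2)) : ℝ) : ℂ)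

/-- The exponent. -/
noncomputable def ex (Q : E n → ℝ) (G : E n → E n) (ε : ℝ) (w : ℂ) (p : E n × E n) : ℂ :=
  Complex.exp w * al Q G ε p.1 + Complex.exp (-w) * be Q G ε p.2 + ga G ε p

/-- The analytic family of integrals. -/
noncomputable def Jf (Q : E n → ℝ) (G : E n → E n) (ε : ℝ) (w : ℂ) : ℂ :=
  ∫ p : E n × E n, (DD G p : ℂ) * Complex.exp (ex Q G ε w p)

/-- The dual norm. -/
noncomputable def dn (Q : E n → ℝ) (y : E n) : ℝ := sSup {r | ∃ z, Q z ≤ 1 ∧ r = inner ℝ z y}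

end Pool.Agent.Rog
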