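import Pool.Agent.Rog.Targets

/-!
# Target MAXN: maximal separated sets
-/

set_option autoImplicit false

open MeasureTheory Set
open scoped Pointwise

namespace Pool.Agent.Rog

namespace MAXN_

lemma zero_mem {n : ℕ} {K : Set (E n)} (hK : SymBody K) : (0 : E n) ∈ K := by
  obtain ⟨x, hx⟩ := hK.int
  have hx' := interior_subset hx
  have h := hK.cvx hx' (hK.symm x hx') (by norm_num : (0 : ℝ) ≤ 1 / 2)
    (by norm_num : (0 : ℝ) ≤ 1 / 2) (by norm_num)
  have e : (1 / 2 : ℝ) • x + (1 / 2 : ℝ) • -x = 0 := by rw [smul_neg, add_neg_cancel]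
  rwa [e] at h

end MAXN_

/-- Maximal separated sets. -/
theorem p_MAXN (hP : T_PACK) : T_MAXN := by
  classical
  intro n K S r hK hS hr
  have h0 := MAXN_.zero_mem hK
  -- bound on the cardinality of separated sets
  have hbd : ∀ X : Finset (E n), (∀ x ∈ X, x ∈ S) →
      (∀ x ∈ X, ∀ y ∈ X, x ≠ y → x - y ∉ r • K) → X.card ≤ ⌊((2 * 1 + r) / r) ^ n⌋₊ := by
    intro X hX1 hX2
    apply Nat.le_floor
    refine hP n K X 0 1 r hK hr zero_le_one (fun x hx => ?_) hX2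
    rw [sub_zero, one_smul]
    exact hS (hX1 x hx)
  -- maximal cardinality
  have hex : ∃ X : Finset (E n), ((∀ x ∈ X, x ∈ S) ∧
      (∀ x ∈ X, ∀ y ∈ X, x ≠ y → x - y ∉ r • K)) ∧ ∀ Y : Finset (E n), (∀ x ∈ Y, x ∈ S) →
      (∀ x ∈ Y, ∀ y ∈ Y, x ≠ y → x - y ∉ r • K) → Y.card ≤ X.card := by
    have hfin : {m : ℕ | ∃ X : Finset (E n), ((∀ x ∈ X, x ∈ S) ∧
        (∀ x ∈ X, ∀ y ∈ X, x ≠ y → x - y ∉ r • K)) ∧ X.card = m}.Finite := by
      refine (Set.finite_Iic ⌊((2 * 1 + r) / r) ^ n⌋₊).subset ?_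
      rintro m ⟨X, ⟨h1, h2⟩, rfl⟩
      exact hbd X h1 h2
    have hne : {m : ℕ | ∃ X : Finset (E n), ((∀ x ∈ X, x ∈ S) ∧
        (∀ x ∈ X, ∀ y ∈ X, x ≠ y → x - y ∉ r • K)) ∧ X.card = m}.Nonempty :=
      ⟨0, ∅, ⟨by simp, by simp⟩, by simp⟩
    obtain ⟨m, ⟨X, hX, hXm⟩, hmax⟩ := Set.exists_max_image _ id hfin hne
    refine ⟨X, hX, fun Y h1 h2 => ?_⟩
    have := hmax Y.card ⟨Y, ⟨h1, h2⟩, rfl⟩
    simp only [id] at this
    omega
  obtain ⟨X, ⟨hX1, hX2⟩, hmax⟩ := hex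
  refine ⟨X, hX1, hX2, fun z hz => ?_⟩
  by_contra hcon
  push Not at hcon
  have hzX : z ∉ X := by
    intro hzX
    apply hcon z hzX
    rw [sub_self]
    exact ⟨0, h0, smul_zero r⟩
  have hneg : ∀ x : E n, x ∈ r • K → -x ∈ r • K := by
    rintro x ⟨k, hk, rfl⟩
    exact ⟨-k, hK.symm k hk, by simp only [smul_neg]⟩
  have hle := hmax (insert z X) (by
    intro x hx
    rcases Finset.mem_insert.1 hx with rfl | hx
    · exact hz
    · exact hX1 x hx) (by
    intro x hx y hy hxy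
    rcases Finset.mem_insert.1 hx with hx1 | hx1
    · rcases Finset.mem_insert.1 hy with hy1 | hy1
      · exact absurd (hx1.trans hy1.symm) hxy
      · rw [hx1]; exact hcon y hy1
    · rcases Finset.mem_insert.1 hy with hy1 | hy1
      · intro h
        apply hcon x hx1
        have := hneg _ h
        rwa [neg_sub, hy1] at this
      · exact hX2 x hx1 y hy1 hxy)
  rw [Finset.card_insert_of_notMem hzX] at hle
  omega

end Pool.Agent.Rog
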