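import Pool.Agent.Rog.Targets

/-!
# Basic properties of polars
-/

set_option autoImplicit false

open MeasureTheory Set
open scoped Pointwise

namespace Pool.Agent.Rog

namespace POLB_

variable {n : ℕ}

lemma pol_closed (A : Set (E n)) : IsClosed (pol A) := by
  have h : pol A = ⋂ x ∈ A, {y : E n | inner ℝ y x ≤ 1} := by
    ext y
    simp only [pol, mem_iInter]
    exact Iff.rfl
  rw [h]
  exact isClosed_biInter fun x _ => isClosed_le (by fun_prop) continuous_const

lemma pol_convex (A : Set (E n)) : Convex ℝ (pol A) := by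
  intro y hy z hz a b ha hb hab x hx
  have h1 : inner ℝ y x ≤ (1 : ℝ) := hy x hx
  have h2 : inner ℝ z x ≤ (1 : ℝ) := hz x hx
  rw [inner_add_left, real_inner_smul_left, real_inner_smul_left]
  have h3 := mul_le_mul_of_nonneg_left h1 ha
  have h4 := mul_le_mul_of_nonneg_left h2 hb
  linarith

lemma pol_bdd {A : Set (E n)} {r : ℝ} (hr : 0 < r) (hA : Metric.closedBall (0 : E n) r ⊆ A) :
    pol A ⊆ Metric.closedBall 0 (1 / r) := by
  intro y hy
  rw [mem_closedBall_zero_iff]
  by_cases h0 : y = 0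
  · rw [h0, norm_zero]
    positivity
  have hn : 0 < ‖y‖ := norm_pos_iff.2 h0
  have hx : (r / ‖y‖) • y ∈ A := by
    apply hA
    rw [mem_closedBall_zero_iff, norm_smul, Real.norm_of_nonneg (by positivity),
      div_mul_cancel₀ _ hn.ne']
  have h1 : inner ℝ y ((r / ‖y‖) • y) ≤ (1 : ℝ) := hy _ hx
  rw [real_inner_smul_right, real_inner_self_eq_norm_sq] at h1
  rw [le_div_iff₀ hr]
  have h2 : r / ‖y‖ * ‖y‖ ^ 2 = ‖y‖ * r := by
    field_simp
  linarith

lemma pol_int {A : Set (E n)} (hA : IsCompact A) : (0 : E n) ∈ interior (pol A) := by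
  obtain ⟨R, hR⟩ := hA.isBounded.subset_closedBall 0
  have hR1 : 0 < |R| + 1 := by positivity
  refine mem_interior.2 ⟨Metric.ball 0 (1 / (|R| + 1)), ?_, Metric.isOpen_ball,
    Metric.mem_ball_self (by positivity)⟩
  intro y hy x hx
  rw [mem_ball_zero_iff] at hy
  have h1 : ‖x‖ ≤ |R| + 1 := by
    have := mem_closedBall_zero_iff.1 (hR hx)
    have h2 := le_abs_self R
    linarith
  calc inner ℝ y x ≤ ‖y‖ * ‖x‖ := real_inner_le_norm _ _
    _ ≤ 1 / (|R| + 1) * (|R| + 1) := by gcongr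
    _ = 1 := by field_simp

lemma pol_all {A : Set (E n)} (hA : IsCompact A) (h0 : (0 : E n) ∈ interior A) :
    IsCompact (pol A) ∧ Convex ℝ (pol A) ∧ (0 : E n) ∈ interior (pol A) := by
  obtain ⟨U, hU, hUo, h0U⟩ := mem_interior.1 h0
  obtain ⟨r, hr, hb⟩ := Metric.isOpen_iff.1 hUo 0 h0U
  have hb2 : Metric.closedBall (0 : E n) (r / 2) ⊆ A :=
    ((Metric.closedBall_subset_ball (by linarith)).trans hb).trans hU
  refine ⟨?_, pol_convex A, pol_int hA⟩
  exact (isCompact_closedBall (0 : E n) (1 / (r / 2))).of_isClosed_subset (pol_closed A)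
    (pol_bdd (by positivity) hb2)

lemma sym_int {K : Set (E n)} (hK : SymBody K) : (0 : E n) ∈ interior K := by
  obtain ⟨c, hc⟩ := hK.int
  obtain ⟨U, hU, hUo, hcU⟩ := mem_interior.1 hc
  obtain ⟨r, hr, hb⟩ := Metric.isOpen_iff.1 hUo c hcU
  refine mem_interior.2 ⟨Metric.ball 0 r, ?_, Metric.isOpen_ball, Metric.mem_ball_self hr⟩
  intro z hz
  rw [mem_ball_zero_iff] at hz
  have h1 : c + z ∈ K := by
    apply hU
    apply hb
    rw [Metric.mem_ball, dist_eq_norm, add_sub_cancel_left]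
    exact hz
  have h2 : c - z ∈ K := by
    apply hU
    apply hb
    rw [Metric.mem_ball, dist_eq_norm, sub_sub_cancel_left, norm_neg]
    exact hz
  have h3 := hK.symm _ h2
  have h4 := hK.cvx h1 h3 (a := 1 / 2) (b := 1 / 2) (by norm_num) (by norm_num) (by norm_num)
  have h5 : (1 / 2 : ℝ) • (c + z) + (1 / 2 : ℝ) • (-(c - z)) = z := by
    rw [← smul_add, show c + z + -(c - z) = (2 : ℝ) • z by rw [two_smul]; abel, smul_smul]
    norm_num
  rw [h5] at h4
  exact h4

end POLB_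

open POLB_ in
theorem p_POLB : T_POLB := by
  refine ⟨fun n A hA _ h0 => pol_all hA h0, fun n K hK => ⟨sym_int hK, ?_⟩⟩
  obtain ⟨h1, h2, h3⟩ := pol_all hK.cpt (sym_int hK)
  refine ⟨h1, h2, ⟨0, h3⟩, ?_⟩
  intro y hy x hx
  rw [inner_neg_left, ← inner_neg_right]
  exact hy _ (hK.symm x hx)

end Pool.Agent.Rog
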