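import Pool.Agent.Rog.Defs

/-!
# Covering centrally symmetric bodies by translates of the interior: the targets

Complete proofs of all targets: `Pool/Agent/Rog/Blueprint.lean.txt`.
-/

set_option autoImplicit false

open MeasureTheory Set Filter Topology
open scoped Pointwise Real

namespace Pool.Agent.Rog

/-! ### Part 1: convexity -/

/-- Brunn-Minkowski. -/
def T_BMI : Prop := ∀ (n : ℕ) (A B : Set (E n)), 1 ≤ n → IsCompact A → Convex ℝ A → A.Nonempty →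
  IsCompact B → Convex ℝ B → B.Nonempty → ∀ a b : ℝ, 0 ≤ a → 0 ≤ b → a + b = 1 →
  a * volume.real A ^ ((1 : ℝ) / n) + b * volume.real B ^ ((1 : ℝ) / n) ≤
    volume.real (a • A + b • B) ^ ((1 : ℝ) / n)

/-- Basic properties of `W`. -/
def T_WC : Prop := ∀ (n : ℕ) (K : Set (E n)), 1 ≤ n → SymBody K →
  0 < volume.real K ∧ W K 0 = 1 ∧ (∀ x, 0 ≤ W K x) ∧
  (∀ x, mac K x = volume.real K * W K x ^ n) ∧
  (∀ x ∈ K, ∀ y ∈ K, ∀ a b : ℝ, 0 ≤ a → 0 ≤ b → a + b = 1 →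
    a * W K x + b * W K y ≤ W K (a • x + b • y)) ∧
  (∀ x ∈ K, 1 / 2 ≤ W K ((1 / 2 : ℝ) • x)) ∧ (∀ x, W K x ≤ 1)

/-- The supporting affine function at half a sharp point. -/
def T_SUPP : Prop := ∀ (n : ℕ) (K : Set (E n)) (x : E n) (t : ℝ), 1 ≤ n → SymBody K → x ∈ K →
  0 ≤ t → W K ((1 / 2 : ℝ) • x) ≤ (1 + t) / 2 →
  ∃ (a : ℝ) (g : E n), (∀ w ∈ K, W K w ≤ a - inner ℝ g w) ∧ a - inner ℝ g x ≤ t ∧ 1 ≤ a ∧
    a ≤ 1 + t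

/-- The volume of caps. -/
def T_CAPV : Prop := ∀ (n : ℕ) (K : Set (E n)) (a : ℝ) (g : E n), 1 ≤ n → SymBody K →
  (∀ w ∈ K, W K w ≤ a - inner ℝ g w) → ∀ s : ℝ, 0 < s →
  volume.real {w | w ∈ K ∧ a - inner ℝ g w ≤ s} ≤ (2 * s) ^ n * volume.real K

/-- The difference body. -/
def T_DIFF : Prop := ∀ (n : ℕ) (A : Set (E n)), IsCompact A → Convex ℝ A →
  (interior A).Nonempty → volume.real (A - A) ≤ 4 ^ n * volume.real A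

/-- Basic properties of polars. -/
def T_POLB : Prop := (∀ (n : ℕ) (A : Set (E n)), IsCompact A → Convex ℝ A →
    (0 : E n) ∈ interior A → IsCompact (pol A) ∧ Convex ℝ (pol A) ∧ (0 : E n) ∈ interior (pol A)) ∧
  (∀ (n : ℕ) (K : Set (E n)), SymBody K → (0 : E n) ∈ interior K ∧ SymBody (pol K))

/-- The polar of an intersection. -/
def T_POLD : Prop := ∀ (n : ℕ) (A : Set (E n)), IsCompact A → Convex ℝ A →
  (0 : E n) ∈ interior A → pol (A ∩ (-A)) ⊆ pol A - pol A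

/-- Volume of the polar of a translate. -/
def T_SHELL : Prop := ∀ (n : ℕ) (K : Set (E n)) (x : E n) (t s : ℝ), SymBody K → x ∈ K →
  0 < t → t ≤ 1 / 2 → 0 < s →
  volume.real (pol ((fun y => y - (1 - t) • x) '' K)) ≤
    (2 / s) ^ n * volume.real (pol K) + (1 / t) ^ n * volume.real (shull K x s)

/-- Peeling the star hull. -/
def T_PEEL : Prop := ∀ (n : ℕ) (K : Set (E n)) (x : E n) (s : ℝ), 1 ≤ n → SymBody K → x ∈ K →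
  0 ≤ s → volume.real (shull K x s) ≤ 2 * volume.real (dcap K x (s + 1 / n))

/-- Dual caps at sharp points are big. -/
def T_DCAP : Prop := ∀ (n : ℕ) (K : Set (E n)) (x : E n) (t : ℝ), 1 ≤ n → SymBody K → x ∈ K →
  1 / (n : ℝ) ≤ t → t ≤ 1 / 2 → W K ((1 / 2 : ℝ) • x) ≤ (1 + t) / 2 →
  1 / 4 * cc ^ n * volume.real (pol K) ≤ volume.real (dcap K x ((4 / cc + 1) * t))

/-! ### Part 2: counting and covering -/

/-- Number of separated sharp points. -/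
def T_CNT : Prop := ∀ (n : ℕ) (K : Set (E n)) (t : ℝ) (X : Finset (E n)), 1 ≤ n → SymBody K →
  1 / (n : ℝ) ≤ t → t ≤ 1 / 2 → (∀ x ∈ X, x ∈ K ∧ W K ((1 / 2 : ℝ) • x) ≤ (1 + t) / 2) →
  (∀ x ∈ X, ∀ y ∈ X, x ≠ y → x - y ∉ t • K) → (X.card : ℝ) ≤ 4 * c3 ^ n

/-- Packing. -/
def T_PACK : Prop := ∀ (n : ℕ) (K : Set (E n)) (X : Finset (E n)) (y : E n) (R r : ℝ), SymBody K →
  0 < r → 0 ≤ R → (∀ x ∈ X, x - y ∈ R • K) → (∀ x ∈ X, ∀ z ∈ X, x ≠ z → x - z ∉ r • K) →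
  (X.card : ℝ) ≤ ((2 * R + r) / r) ^ n

/-- Maximal separated sets. -/
def T_MAXN : Prop := ∀ (n : ℕ) (K S : Set (E n)) (r : ℝ), SymBody K → S ⊆ K → 0 < r →
  ∃ X : Finset (E n), (∀ x ∈ X, x ∈ S) ∧ (∀ x ∈ X, ∀ y ∈ X, x ≠ y → x - y ∉ r • K) ∧
    ∀ z ∈ S, ∃ x ∈ X, z - x ∈ r • K

/-- Number of sharp points of a net. -/
def T_NETC : Prop := ∀ (n : ℕ) (K : Set (E n)) (Y : Finset (E n)) (t : ℝ), 1 ≤ n → SymBody K →
  (∀ x ∈ Y, x ∈ K ∧ W K ((1 / 2 : ℝ) • x) ≤ (1 + t) / 2) →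
  (∀ x ∈ Y, ∀ y ∈ Y, x ≠ y → x - y ∉ (1 / (2 * n) : ℝ) • K) → 1 / (n : ℝ) ≤ t →
  (Y.card : ℝ) ≤ 4 * (5 * c3 * n * t) ^ n

/-- The covering probability. -/
def T_CONDP : Prop := ∀ (n : ℕ) (K : Set (E n)) (x : E n) (q : ℝ), SymBody K → x ∈ K → 0 ≤ q →
  q ≤ 1 → q ^ n * mac K ((1 / 2 : ℝ) • x) ≤ volume.real (K ∩ {z | x - z ∈ q • K})

/-- The method of conditional expectations. -/
def T_DER : Prop := ∀ (n m : ℕ) (K : Set (E n)) (X : Finset (E n)) (A : E n → Set (E n))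
  (p : E n → ℝ), IsCompact K → 0 < volume.real K →
  (∀ x ∈ X, MeasurableSet (A x) ∧ 0 ≤ p x ∧ p x ≤ 1 ∧
    p x * volume.real K ≤ volume.real (K ∩ A x)) →
  ∑ x ∈ X, (1 - p x) ^ m < 1 →
  ∃ z : Fin m → E n, (∀ i, z i ∈ K) ∧ ∀ x ∈ X, ∃ i, z i ∈ A x

/-- The sum over the levels. -/
def T_SUM : Prop := ∀ (n : ℕ) (X : Finset (E n)) (u : E n → ℝ), 1 ≤ n →
  (∀ x ∈ X, 1 / 2 ≤ u x ∧ u x ≤ 1) →
  (∀ (t : ℝ) (Y : Finset (E n)), Y ⊆ X → 1 / (n : ℝ) ≤ t → (∀ x ∈ Y, u x ≤ (1 + t) / 2) →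
    (Y.card : ℝ) ≤ 4 * (5 * c3 * n * t) ^ n) →
  ∑ x ∈ X, (1 - u x ^ n / 4) ^ (176 * n * 2 ^ n) < 1

/-- The theorem. -/
def T_FIN : Prop := ∀ (n : ℕ) (K : Set (E n)), 1 ≤ n → SymBody K →
  ∃ T : Finset (E n), T.card ≤ 176 * n * 2 ^ n ∧ K ⊆ ⋃ t ∈ T, (fun x => t + x) '' interior K

/-! ### Part 3: weak Santalo -/

/-- Extrapolation of the cosine. -/
def T_LAG : Prop := ∀ n : ℕ, 1 ≤ n → ∃ s c : Fin n → ℝ, (∀ j, 1 / 2 ≤ s j ∧ s j ≤ 1) ∧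
  ∑ j, |c j| ≤ (4 * Real.exp 1) ^ n ∧
  ∀ y : ℝ, |y| ≤ n / 120 → |1 - ∑ j, c j * Real.cos (s j * y)| ≤ 1 / 2

/-- Plancherel for the cosine transform of the indicator function of a compact set. -/
def T_PLAN : Prop := ∀ (n : ℕ) (K : Set (E n)) (s : ℝ), IsCompact K → 0 < s →
  Integrable (fun v : E n => (∫ x in K, Real.cos (s * inner ℝ v x)) ^ 2) ∧
  ∫ v : E n, (∫ x in K, Real.cos (s * inner ℝ v x)) ^ 2 ≤ (2 * π / s) ^ n * volume.real K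

/-- Santalo's inequality with a worse constant. -/
def T_SL : Prop := ∀ (n : ℕ) (K : Set (E n)), 1 ≤ n → SymBody K →
  volume.real K * volume.real (pol K) ≤ (713200 / n) ^ n

/-! ### Part 4: Bourgain-Milman -/

/-- Algebra of the smooth norm. -/
def T_NA : Prop := ∀ (n T m : ℕ) (y : Fin T → E n), 1 ≤ m →
  (∀ x, inner ℝ x (Gf y m x) = Qf y m x) ∧ (∀ x, Qf y m (-x) = Qf y m x) ∧
  (∀ (s : ℝ) (x : E n), 0 ≤ s → Qf y m (s • x) = s ^ 2 * Qf y m x) ∧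
  (∀ z x, inner ℝ z (Gf y m x) ≤ √(Qf y m z) * √(Qf y m x)) ∧
  (∀ (s : ℝ) (x : E n), 0 ≤ s → Gf y m (s • x) = s • Gf y m x)

/-- Monotonicity. -/
def T_NB : Prop := ∀ (n T m : ℕ) (y : Fin T → E n), 1 ≤ m → Spans y →
  ∀ x z, x ≠ z → 0 < inner ℝ (Gf y m x - Gf y m z) (x - z)

/-- Bounds. -/
def T_NC : Prop := ∀ (n T m : ℕ) (y : Fin T → E n), 1 ≤ m → Spans y →
  (∃ c : ℝ, 0 < c ∧ ∀ x, c * (‖x‖ ^ 2 + ‖Gf y m x‖ ^ 2) ≤ Qf y m x) ∧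
  (∃ C : ℝ, 0 < C ∧ ∀ x, Qf y m x ≤ C * ‖x‖ ^ 2 ∧ ‖Gf y m x‖ ≤ C * ‖x‖)

/-- Continuity and derivatives. -/
def T_ND : Prop := ∀ (n T m : ℕ) (y : Fin T → E n), 1 ≤ m → Spans y →
  Continuous (Gf y m) ∧ (∀ x, HasFDerivAt (Qf y m) ((2 : ℝ) • (innerSL ℝ (Gf y m x))) x) ∧
  (∀ x, x ≠ 0 → DifferentiableAt ℝ (Gf y m) x)

/-- The change of variables is bijective. -/
def T_BIJ : Prop := ∀ (n : ℕ) (Q : E n → ℝ) (G : E n → E n), Nice Q G → Function.Bijective (Sm G)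

/-- Differentiability of the change of variables and homogeneity of the Jacobian. -/
def T_SD : Prop := ∀ (n : ℕ) (Q : E n → ℝ) (G : E n → E n), Nice Q G →
  (∀ x a : E n, x ≠ 0 → a ≠ 0 → DifferentiableAt ℝ (Sm G) (x, a)) ∧
  (∀ (x a : E n) (s t : ℝ), x ≠ 0 → a ≠ 0 → 0 < s → 0 < t → DD G (s • x, t • a) = DD G (x, a))

/-- The change of variables formula, complex functions. -/
def T_COVC : Prop := ∀ (n : ℕ) (Q : E n → ℝ) (G : E n → E n), 1 ≤ n → Nice Q G →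
  ∀ f : E n × E n → ℂ, Integrable f →
    Integrable (fun p => (DD G p : ℂ) * f (Sm G p)) ∧ ∫ p, (DD G p : ℂ) * f (Sm G p) = ∫ p, f p

/-- The change of variables formula, real functions. -/
def T_COVR : Prop := ∀ (n : ℕ) (Q : E n → ℝ) (G : E n → E n), 1 ≤ n → Nice Q G →
  ∀ f : E n × E n → ℝ, Integrable f →
    Integrable (fun p => DD G p * f (Sm G p)) ∧ ∫ p, DD G p * f (Sm G p) = ∫ p, f p

/-- Integrability of the Jacobian against Gaussians. -/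
def T_DINT : Prop := ∀ (n : ℕ) (Q : E n → ℝ) (G : E n → E n), 1 ≤ n → Nice Q G →
  ∀ c : ℝ, 0 < c → Integrable (fun p : E n × E n => DD G p * Real.exp (-(c * (‖p.1‖ ^ 2 + ‖p.2‖ ^ 2))))

/-- The Gaussian integral. -/
def T_GI : Prop := ∀ (n : ℕ) (ε : ℝ), 0 < ε → Integrable (gau (n := n) ε) ∧
  ∫ p : E n × E n, gau ε p = ((2 * π / √(1 + ε ^ 2)) ^ n : ℝ)

/-- The integral is constant on the real line. -/
def T_JR : Prop := ∀ (n : ℕ) (Q : E n → ℝ) (G : E n → E n) (ε : ℝ), 1 ≤ n → Nice Q G → 0 < ε →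
  ∀ w : ℝ, Jf Q G ε w = ∫ p : E n × E n, gau ε p

/-- The real part of the exponent. -/
def T_RE : Prop := ∀ (n : ℕ) (Q : E n → ℝ) (G : E n → E n), Nice Q G →
  ∃ k : ℝ, 0 < k ∧ ∀ ε : ℝ, 0 < ε → ε ≤ k → ∀ s : ℝ, 0 ≤ s → s ≤ π / 2 →
    ∃ c : ℝ, 0 < c ∧ ∀ p : E n × E n,
      (ex Q G ε (Complex.I * s) p).re ≤ -(c * (‖p.1‖ ^ 2 + ‖p.2‖ ^ 2))

/-- Analyticity. -/
def T_JA : Prop := ∀ (n : ℕ) (Q : E n → ℝ) (G : E n → E n) (ε : ℝ) (w : ℂ), 1 ≤ n → Nice Q G →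
  (∃ c : ℝ, 0 < c ∧ ∀ p : E n × E n, (ex Q G ε w p).re ≤ -(c * (‖p.1‖ ^ 2 + ‖p.2‖ ^ 2))) →
  AnalyticAt ℂ (Jf Q G ε) w

/-- The value at `i π / 2`. -/
def T_JC : Prop := ∀ (n : ℕ) (Q : E n → ℝ) (G : E n → E n), 1 ≤ n → Nice Q G →
  ∃ k : ℝ, 0 < k ∧ ∀ ε : ℝ, 0 < ε → ε ≤ k →
    Jf Q G ε (Complex.I * (π / 2 : ℝ)) = ((2 * π / √(1 + ε ^ 2)) ^ n : ℝ)

/-- The main inequality. -/
def T_BZ : Prop := ∀ (n : ℕ) (Q : E n → ℝ) (G : E n → E n), 1 ≤ n → Nice Q G →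
  (2 * π) ^ n ≤ ∫ p : E n × E n, DD G p * Real.exp (-(Q p.1 + Q p.2))

/-- Bourgain-Milman in integral form. -/
def T_EB : Prop := ∀ (n : ℕ) (Q : E n → ℝ) (G : E n → E n), 1 ≤ n → Nice Q G →
  (π / 2) ^ n ≤ (∫ x, Real.exp (-Q x)) * ∫ y, Real.exp (-(dn Q y) ^ 2)

/-- The volumes. -/
def T_VF : Prop := ∀ (n : ℕ) (Q : E n → ℝ) (G : E n → E n), 1 ≤ n → Nice Q G →
  (∫ x, Real.exp (-Q x)) ≤ Real.Gamma (n / 2 + 1) * volume.real {x | Q x ≤ 1} ∧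
  (∫ y, Real.exp (-(dn Q y) ^ 2)) ≤ Real.Gamma (n / 2 + 1) * volume.real (pol {x | Q x ≤ 1})

/-- Approximation of a symmetric body. -/
def T_APX : Prop := ∀ (n : ℕ) (M : Set (E n)), SymBody M → ∃ (T m : ℕ) (y : Fin T → E n), 1 ≤ m ∧
  Spans y ∧ (∀ x ∈ M, Qf y m x ≤ 4) ∧ ∀ x, Qf y m x ≤ 1 → x ∈ (2 : ℝ) • M

/-- The Gamma function. -/
def T_GAM : Prop := ∀ n : ℕ, 1 ≤ n → Real.Gamma (n / 2 + 1) ^ 2 ≤ (n : ℝ) ^ n

/-- Bourgain-Milman. -/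
def T_BM : Prop := ∀ (n : ℕ) (M : Set (E n)), 1 ≤ n → SymBody M →
  (3 / (8 * n)) ^ n ≤ volume.real M * volume.real (pol M)

end Pool.Agent.Rog
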