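import Pool.Agent.Rog.Targets
import Pool.Agent.ShadowA.PLB

/-!
# Brunn-Minkowski inequality, `1 / n`-concave form
-/

set_option autoImplicit false

open MeasureTheory Set Filter Topology Metric
open scoped Pointwise ENNReal

namespace Pool.Agent.Rog

namespace BMI_

variable {n : ℕ}

lemma vol_smul (r : ℝ) (hr : 0 ≤ r) (S : Set (E n)) :
    volume.real (r • S) = r ^ n * volume.real S := by
  rw [Measure.real, Measure.addHaar_smul_of_nonneg _ hr, finrank_euclideanSpace_fin,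
    ENNReal.toReal_mul, ENNReal.toReal_ofReal (by positivity)]
  rfl

lemma low {A B : Set (E n)} (hA : IsCompact A) (hAn : A.Nonempty) (hB : IsCompact B) (a b : ℝ)
    (hb : 0 ≤ b) : b ^ n * volume.real B ≤ volume.real (a • A + b • B) := by
  obtain ⟨z, hz⟩ := hAn
  have h1 : (fun x => a • z + x) '' (b • B) ⊆ a • A + b • B := by
    rintro _ ⟨y, hy, rfl⟩
    exact Set.add_mem_add (Set.smul_mem_smul_set hz) hy
  have h2 : volume ((fun x => a • z + x) '' (b • B)) = volume (b • B) := by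
    rw [Set.image_add_left, measure_preimage_add]
  have h3 : volume (a • A + b • B) ≠ ⊤ := ((hA.smul a).add (hB.smul b)).measure_lt_top.ne
  rw [← vol_smul b hb B, Measure.real, Measure.real, ← h2]
  exact ENNReal.toReal_mono h3 (measure_mono h1)

lemma low_rpow {A B : Set (E n)} (hn : 1 ≤ n) (hA : IsCompact A) (hAn : A.Nonempty)
    (hB : IsCompact B) (a b : ℝ) (hb : 0 ≤ b) :
    b * volume.real B ^ ((1 : ℝ) / n) ≤ volume.real (a • A + b • B) ^ ((1 : ℝ) / n) := by
  have h1 := low hA hAn hB a b hb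
  have hn0 : (n : ℝ) ≠ 0 := by exact_mod_cast (by omega : n ≠ 0)
  have h2 : b * volume.real B ^ ((1 : ℝ) / n) = (b ^ n * volume.real B) ^ ((1 : ℝ) / n) := by
    rw [Real.mul_rpow (by positivity) measureReal_nonneg, ← Real.rpow_natCast,
      ← Real.rpow_mul hb, mul_one_div_cancel hn0, Real.rpow_one]
  rw [h2]
  exact Real.rpow_le_rpow (mul_nonneg (by positivity) measureReal_nonneg) h1 (by positivity)

/-- the segment between the two bodies -/
def C (A B : Set (E n)) (s : ℝ) : Set (E n) := (1 - s) • A + s • B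

lemma C_compact {A B : Set (E n)} (hA : IsCompact A) (hB : IsCompact B) (s : ℝ) :
    IsCompact (C A B s) := (hA.smul _).add (hB.smul _)

lemma C_mid {A B : Set (E n)} (hA : IsCompact A) (hB : IsCompact B) (hAc : Convex ℝ A)
    (hBc : Convex ℝ B) {s r : ℝ} (hs : s ∈ Icc (0 : ℝ) 1) (hr : r ∈ Icc (0 : ℝ) 1)
    (h1 : 1 ≤ volume (C A B s)) (h2 : 1 ≤ volume (C A B r)) :
    1 ≤ volume (C A B ((s + r) / 2)) := by
  have key : ∀ (S : Set (E n)), Convex ℝ S → ∀ p q : ℝ, 0 ≤ p → 0 ≤ q → ∀ x ∈ S, ∀ y ∈ S,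
      ∃ z ∈ S, p • x + q • y = (p + q) • z := by
    intro S hS p q hp hq x hx y hy
    rcases (add_nonneg hp hq).eq_or_lt with h | h
    · have hp0 : p = 0 := by linarith
      have hq0 : q = 0 := by linarith
      refine ⟨x, hx, ?_⟩
      rw [hp0, hq0]
      simp
    · refine ⟨(p / (p + q)) • x + (q / (p + q)) • y, hS hx hy (by positivity) (by positivity)
        (by field_simp), ?_⟩
      rw [smul_add, smul_smul, smul_smul, mul_div_cancel₀ _ h.ne', mul_div_cancel₀ _ h.ne']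
  have h3 := Pool.Agent.ShadowA.p_PLB n (C A B s) (C A B r) (C A B ((s + r) / 2))
    (C_compact hA hB s).measurableSet (C_compact hA hB r).measurableSet
    (C_compact hA hB _).measurableSet (by
      rintro _ ⟨_, ⟨x, hx, rfl⟩, _, ⟨y, hy, rfl⟩, rfl⟩ _ ⟨_, ⟨x', hx', rfl⟩, _, ⟨y', hy', rfl⟩, rfl⟩
      obtain ⟨z, hz, hz1⟩ := key A hAc ((1 - s) / 2) ((1 - r) / 2) (by linarith [hs.2])
        (by linarith [hr.2]) x hx x' hx'
      obtain ⟨w, hw, hw1⟩ := key B hBc (s / 2) (r / 2) (by linarith [hs.1])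
        (by linarith [hr.1]) y hy y' hy'
      refine ⟨(1 - (s + r) / 2) • z, Set.smul_mem_smul_set hz, ((s + r) / 2) • w,
        Set.smul_mem_smul_set hw, ?_⟩
      have e1 : (1 - (s + r) / 2) • z = ((1 - s) / 2 + (1 - r) / 2) • z := by
        congr 1; ring
      have e2 : ((s + r) / 2) • w = (s / 2 + r / 2) • w := by
        congr 1; ring
      change (1 - (s + r) / 2) • z + ((s + r) / 2) • w = _
      rw [e1, e2, ← hz1, ← hw1]
      simp only
      module)
  by_contra hcon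
  push Not at hcon
  have h4 : volume (C A B ((s + r) / 2)) ^ 2 < 1 := pow_lt_one₀ zero_le hcon (by norm_num)
  have h5 : (1 : ℝ≥0∞) ≤ volume (C A B s) * volume (C A B r) := one_le_mul h1 h2
  exact absurd (h5.trans h3) (not_le.2 h4)

lemma C_closed {A B : Set (E n)} (hA : IsCompact A) (hB : IsCompact B) :
    IsClosed {s : ℝ | s ∈ Icc (0 : ℝ) 1 ∧ 1 ≤ volume (C A B s)} := by
  obtain ⟨R, hR⟩ := hA.isBounded.exists_norm_le
  obtain ⟨R', hR'⟩ := hB.isBounded.exists_norm_le
  rw [← isSeqClosed_iff_isClosed]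
  intro u s hu hlim
  refine ⟨isClosed_Icc.mem_of_tendsto hlim (Eventually.of_forall fun k => (hu k).1), ?_⟩
  have hsub : ∀ k, C A B (u k) ⊆ cthickening (|u k - s| * (|R| + |R'|)) (C A B s) := by
    intro k
    rintro _ ⟨_, ⟨x, hx, rfl⟩, _, ⟨y, hy, rfl⟩, rfl⟩
    refine mem_cthickening_of_dist_le _ ((1 - s) • x + s • y) _ _
      (Set.add_mem_add (Set.smul_mem_smul_set hx) (Set.smul_mem_smul_set hy)) ?_
    rw [dist_eq_norm]
    have e : (fun x => (1 - u k) • x) x + (fun x => u k • x) y - ((1 - s) • x + s • y) =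
        (u k - s) • (y - x) := by
      simp only
      module
    rw [e, norm_smul, Real.norm_eq_abs]
    apply mul_le_mul_of_nonneg_left _ (abs_nonneg _)
    calc ‖y - x‖ ≤ ‖y‖ + ‖x‖ := norm_sub_le _ _
      _ ≤ |R'| + |R| := add_le_add ((hR' y hy).trans (le_abs_self _))
          ((hR x hx).trans (le_abs_self _))
      _ = _ := add_comm _ _
  have ht : Tendsto (fun k => |u k - s| * (|R| + |R'|)) atTop (𝓝 0) := by
    have h1 : Tendsto (fun k => |u k - s|) atTop (𝓝 |s - s|) := (hlim.sub_const s).abs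
    rw [sub_self, abs_zero] at h1
    have h2 := h1.mul_const (|R| + |R'|)
    rwa [zero_mul] at h2
  have h3 : Tendsto (fun k => volume (cthickening (|u k - s| * (|R| + |R'|)) (C A B s))) atTop
      (𝓝 (volume (C A B s))) :=
    (tendsto_measure_cthickening_of_isCompact (C_compact hA hB s)).comp ht
  exact ge_of_tendsto h3 (Eventually.of_forall fun k => (hu k).2.trans (measure_mono (hsub k)))

lemma closed_mid {D : Set ℝ} (hD : IsClosed D) (h0 : (0 : ℝ) ∈ D)
    (h1 : (1 : ℝ) ∈ D) (hm : ∀ s ∈ D, ∀ r ∈ D, (s + r) / 2 ∈ D) : Icc (0 : ℝ) 1 ⊆ D := by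
  intro s hs
  have hP : IsClosed (D ∩ Iic s) := hD.inter isClosed_Iic
  have hQ : IsClosed (D ∩ Ici s) := hD.inter isClosed_Ici
  have hPn : (D ∩ Iic s).Nonempty := ⟨0, h0, hs.1⟩
  have hQn : (D ∩ Ici s).Nonempty := ⟨1, h1, hs.2⟩
  have hPb : BddAbove (D ∩ Iic s) := ⟨s, fun x hx => hx.2⟩
  have hQb : BddBelow (D ∩ Ici s) := ⟨s, fun x hx => hx.2⟩
  have hp := hP.csSup_mem hPn hPb
  have hq := hQ.csInf_mem hQn hQb
  set p := sSup (D ∩ Iic s) with hpd
  set q := sInf (D ∩ Ici s) with hqd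
  have hps : p ≤ s := hp.2
  have hqs : s ≤ q := hq.2
  have hmid := hm p hp.1 q hq.1
  rcases le_total ((p + q) / 2) s with h | h
  · have h2 : (p + q) / 2 ≤ p := le_csSup hPb ⟨hmid, h⟩
    have h3 : p = s := by linarith
    rw [← h3]
    exact hp.1
  · have h2 : q ≤ (p + q) / 2 := csInf_le hQb ⟨hmid, h⟩
    have h3 : q = s := by linarith
    rw [← h3]
    exact hq.1

lemma one_le_C {A B : Set (E n)} (hA : IsCompact A) (hB : IsCompact B) (hAc : Convex ℝ A)
    (hBc : Convex ℝ B) (hAn : A.Nonempty) (hBn : B.Nonempty) (h1 : 1 ≤ volume A)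
    (h2 : 1 ≤ volume B) {s : ℝ} (hs : s ∈ Icc (0 : ℝ) 1) : 1 ≤ volume (C A B s) := by
  have h := closed_mid (C_closed hA hB)
    (show (0 : ℝ) ∈ {s : ℝ | s ∈ Icc (0 : ℝ) 1 ∧ 1 ≤ volume (C A B s)} from
      ⟨⟨le_rfl, zero_le_one⟩, by
        unfold C
        rw [sub_zero, one_smul, zero_smul_set hBn, add_zero]
        exact h1⟩)
    (show (1 : ℝ) ∈ {s : ℝ | s ∈ Icc (0 : ℝ) 1 ∧ 1 ≤ volume (C A B s)} from
      ⟨⟨zero_le_one, le_rfl⟩, by
        unfold C
        rw [sub_self, one_smul, zero_smul_set hAn, zero_add]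
        exact h2⟩)
    (fun s hs r hr => ⟨⟨by linarith [hs.1.1, hr.1.1], by linarith [hs.1.2, hr.1.2]⟩,
      C_mid hA hB hAc hBc hs.1 hr.1 hs.2 hr.2⟩)
  exact (h hs).2

end BMI_

open BMI_

/-- Brunn-Minkowski. -/
theorem p_BMI : T_BMI := by
  intro n A B hn hA hAc hAn hB hBc hBn a b ha hb hab
  have hn0 : (n : ℝ) ≠ 0 := by exact_mod_cast (by omega : n ≠ 0)
  have hn1 : (1 : ℝ) / n ≠ 0 := one_div_ne_zero hn0
  -- the degenerate cases
  by_cases hz1 : a * volume.real A ^ ((1 : ℝ) / n) = 0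
  · rw [hz1, zero_add]
    exact low_rpow hn hA hAn hB a b hb
  by_cases hz2 : b * volume.real B ^ ((1 : ℝ) / n) = 0
  · rw [hz2, add_zero, add_comm (a • A)]
    exact low_rpow hn hB hBn hA b a ha
  have ha0 : 0 < a := by
    refine lt_of_le_of_ne ha fun h => hz1 ?_
    rw [← h, zero_mul]
  have hb0 : 0 < b := by
    refine lt_of_le_of_ne hb fun h => hz2 ?_
    rw [← h, zero_mul]
  have hvA : 0 < volume.real A := by
    refine lt_of_le_of_ne measureReal_nonneg fun h => hz1 ?_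
    rw [← h, Real.zero_rpow hn1, mul_zero]
  have hvB : 0 < volume.real B := by
    refine lt_of_le_of_ne measureReal_nonneg fun h => hz2 ?_
    rw [← h, Real.zero_rpow hn1, mul_zero]
  set x : ℝ := volume.real A ^ ((1 : ℝ) / n) with hx
  set y : ℝ := volume.real B ^ ((1 : ℝ) / n) with hy
  have hx0 : 0 < x := Real.rpow_pos_of_pos hvA _
  have hy0 : 0 < y := Real.rpow_pos_of_pos hvB _
  have hxn : x ^ n = volume.real A := by
    rw [hx, ← Real.rpow_natCast, ← Real.rpow_mul hvA.le, one_div_mul_cancel hn0, Real.rpow_one]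
  have hyn : y ^ n = volume.real B := by
    rw [hy, ← Real.rpow_natCast, ← Real.rpow_mul hvB.le, one_div_mul_cancel hn0, Real.rpow_one]
  set c : ℝ := a * x + b * y with hc
  have hc0 : 0 < c := by positivity
  set s : ℝ := b * y / c with hs
  have hs1 : s ∈ Icc (0 : ℝ) 1 := by
    refine ⟨by positivity, ?_⟩
    rw [hs, div_le_one hc0, hc]
    have : 0 < a * x := by positivity
    linarith
  have one_le : ∀ (S : Set (E n)) (z : ℝ), IsCompact S → 0 < z → z ^ n = volume.real S →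
      1 ≤ volume (z⁻¹ • S) := by
    intro S z hS hz h
    have h1 : volume.real (z⁻¹ • S) = 1 := by
      rw [vol_smul _ (by positivity), ← h, inv_pow, inv_mul_cancel₀ (by positivity)]
    have h2 : volume (z⁻¹ • S) ≠ ⊤ := (hS.smul _).measure_lt_top.ne
    rw [← ENNReal.ofReal_toReal h2]
    change 1 ≤ ENNReal.ofReal (volume.real (z⁻¹ • S))
    rw [h1, ENNReal.ofReal_one]
  have h1 := one_le_C (hA.smul x⁻¹) (hB.smul y⁻¹) (hAc.smul _) (hBc.smul _) (hAn.smul_set)
    (hBn.smul_set) (one_le A x hA hx0 hxn) (one_le B y hB hy0 hyn) hs1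
  have e : a • A + b • B = c • C (x⁻¹ • A) (y⁻¹ • B) s := by
    unfold C
    rw [smul_add, smul_smul, smul_smul, smul_smul, smul_smul]
    congr 2
    · rw [hs]
      field_simp
      rw [hc]
      ring
    · rw [hs]
      field_simp
  have h2 : c ^ n ≤ volume.real (a • A + b • B) := by
    rw [e, vol_smul c hc0.le]
    have h3 : 1 ≤ volume.real (C (x⁻¹ • A) (y⁻¹ • B) s) := by
      have h4 : volume (C (x⁻¹ • A) (y⁻¹ • B) s) ≠ ⊤ :=
        (C_compact (hA.smul _) (hB.smul _) s).measure_lt_top.ne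
      have h5 := ENNReal.toReal_mono h4 h1
      rwa [ENNReal.toReal_one] at h5
    have h6 : 0 ≤ c ^ n := by positivity
    nlinarith
  calc c = (c ^ n) ^ ((1 : ℝ) / n) := by
        rw [← Real.rpow_natCast, ← Real.rpow_mul hc0.le, mul_one_div_cancel hn0, Real.rpow_one]
    _ ≤ _ := Real.rpow_le_rpow (by positivity) h2 (by positivity)

end Pool.Agent.Rog
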