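import Pool.Agent.Rog.Targets

/-!
# Approximation of a symmetric body
-/

set_option autoImplicit false

open MeasureTheory Set
open scoped Pointwise

namespace Pool.Agent.Rog

namespace APX_

theorem bipolar {n : ℕ} (M : Set (E n)) (hM : SymBody M) (h0 : (0 : E n) ∈ M) (z : E n)
    (hz : ∀ y ∈ pol M, inner ℝ y z ≤ 1) : z ∈ M := by
  by_contra hzM
  obtain ⟨f, u, hf1, hf2⟩ :=
    geometric_hahn_banach_closed_point hM.cvx hM.cpt.isClosed hzM
  have hu : 0 < u := by simpa using hf1 0 h0
  set v : E n := (InnerProductSpace.toDual ℝ (E n)).symm f with hv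
  have hin : ∀ w : E n, inner ℝ v w = f w := fun w => by
    rw [hv, InnerProductSpace.toDual_symm_apply]
  have hy : u⁻¹ • v ∈ pol M := by
    intro w hw
    rw [real_inner_smul_left, hin, inv_mul_le_iff₀ hu]
    linarith [hf1 w hw]
  have h1 := hz _ hy
  rw [real_inner_smul_left, hin, inv_mul_le_iff₀ hu] at h1
  linarith

end APX_

theorem p_APX (hB : T_POLB) : T_APX := by
  intro n M hM
  classical
  obtain ⟨h0i, hP⟩ := hB.2 n M hM
  have h0M : (0 : E n) ∈ M := interior_subset h0i
  obtain ⟨hP0, -⟩ := hB.2 n (pol M) hP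
  have hPne : (pol M).Nonempty := ⟨0, interior_subset hP0⟩
  obtain ⟨t, htP, htc⟩ := hP.cpt.elim_nhds_subcover
    (fun y => {z : E n | (2 : ℝ) • (z - y) ∈ interior (pol M)}) (by
      intro y _
      have hc : Continuous (fun z : E n => (2 : ℝ) • (z - y)) := by fun_prop
      have hopen : IsOpen {z : E n | (2 : ℝ) • (z - y) ∈ interior (pol M)} :=
        isOpen_interior.preimage hc
      refine hopen.mem_nhds ?_
      simpa using hP0)
  have key : ∀ x : E n, ∃ yk ∈ t, ∀ y ∈ pol M, inner ℝ y x ≤ 2 * inner ℝ x yk := by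
    intro x
    obtain ⟨ys, hys, hmax⟩ := hP.cpt.exists_isMaxOn hPne
      (f := fun y : E n => (inner ℝ y x : ℝ)) (by fun_prop)
    have hys2 := htc hys
    simp only [mem_iUnion, exists_prop] at hys2
    obtain ⟨yk, hyk, hk⟩ := hys2
    refine ⟨yk, hyk, fun y hy => ?_⟩
    have h1 : (inner ℝ ((2 : ℝ) • (ys - yk)) x : ℝ) ≤ inner ℝ ys x := hmax (interior_subset hk)
    have h2 : (inner ℝ y x : ℝ) ≤ inner ℝ ys x := hmax hy
    rw [real_inner_smul_left, inner_sub_left] at h1
    rw [real_inner_comm yk x]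
    linarith
  obtain ⟨e⟩ : Nonempty (Fin t.card ≃ t) := ⟨t.equivFin.symm⟩
  refine ⟨t.card, t.card + 1, fun k => (e k : E n), by omega, ?_, ?_, ?_⟩
  · intro x hx
    obtain ⟨yk, hyk, hk⟩ := key x
    have h1 : (inner ℝ x yk : ℝ) = 0 := by
      have := hx (e.symm ⟨yk, hyk⟩)
      simpa using this
    by_contra hx0
    obtain ⟨r, hr, hball⟩ := Metric.isOpen_iff.mp isOpen_interior 0 hP0
    have hxn : 0 < ‖x‖ := norm_pos_iff.mpr hx0
    have hmem : (r / (2 * ‖x‖)) • x ∈ pol M := by
      apply interior_subset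
      apply hball
      rw [mem_ball_zero_iff, norm_smul, Real.norm_of_nonneg (by positivity)]
      have : r / (2 * ‖x‖) * ‖x‖ = r / 2 := by field_simp
      rw [this]
      linarith
    have h2 := hk _ hmem
    rw [h1, real_inner_smul_left, real_inner_self_eq_norm_sq] at h2
    have h3 : 0 < r / (2 * ‖x‖) * ‖x‖ ^ 2 := by positivity
    linarith
  · intro x hx
    have habs : ∀ k : Fin t.card, |(inner ℝ x (e k : E n) : ℝ)| ≤ 1 := by
      intro k
      have hk : (e k : E n) ∈ pol M := htP _ (e k).2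
      have h1 := hk x hx
      have h2 := hk (-x) (hM.symm x hx)
      rw [inner_neg_right] at h2
      rw [real_inner_comm (e k : E n) x] at *
      rw [abs_le]
      constructor <;> linarith
    have hP1 : Pf (fun k => (e k : E n)) (t.card + 1) x ≤ (4 : ℝ) ^ (t.card + 1) := by
      unfold Pf
      calc ∑ k, (inner ℝ x (e k : E n) : ℝ) ^ (2 * (t.card + 1))
          ≤ ∑ _k : Fin t.card, (1 : ℝ) := by
            refine Finset.sum_le_sum fun k _ => ?_
            rw [pow_mul, ← sq_abs, ← pow_mul]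
            exact pow_le_one₀ (abs_nonneg _) (habs k)
        _ = (t.card : ℝ) := by simp
        _ ≤ (4 : ℝ) ^ (t.card + 1) := by
            have h1 : t.card < 4 ^ t.card := Nat.lt_pow_self (by norm_num)
            have h2 : (t.card : ℝ) ≤ (4 : ℝ) ^ t.card := by exact_mod_cast h1.le
            have h3 : (4 : ℝ) ^ t.card ≤ (4 : ℝ) ^ (t.card + 1) :=
              pow_le_pow_right₀ (by norm_num) (by omega)
            linarith
    have hP0' : 0 ≤ Pf (fun k => (e k : E n)) (t.card + 1) x := by
      unfold Pf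
      refine Finset.sum_nonneg fun k _ => ?_
      rw [pow_mul]
      positivity
    unfold Qf
    calc (Pf (fun k => (e k : E n)) (t.card + 1) x) ^ ((1 : ℝ) / ((t.card + 1 : ℕ) : ℝ))
        ≤ ((4 : ℝ) ^ (t.card + 1)) ^ ((1 : ℝ) / ((t.card + 1 : ℕ) : ℝ)) :=
          Real.rpow_le_rpow hP0' hP1 (by positivity)
      _ = 4 := by
          rw [one_div, Real.pow_rpow_inv_natCast (by norm_num) (by omega)]
  · intro x hx
    have hP0' : 0 ≤ Pf (fun k => (e k : E n)) (t.card + 1) x := by
      unfold Pf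
      refine Finset.sum_nonneg fun k _ => ?_
      rw [pow_mul]
      positivity
    have hP1 : Pf (fun k => (e k : E n)) (t.card + 1) x ≤ 1 := by
      have h1 : Pf (fun k => (e k : E n)) (t.card + 1) x =
          (Qf (fun k => (e k : E n)) (t.card + 1) x) ^ (t.card + 1) := by
        unfold Qf
        rw [one_div, Real.rpow_inv_natCast_pow hP0' (by omega)]
      rw [h1]
      refine pow_le_one₀ ?_ hx
      unfold Qf
      exact Real.rpow_nonneg hP0' _
    have hterm : ∀ k : Fin t.card, (inner ℝ x (e k : E n) : ℝ) ≤ 1 := by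
      intro k
      have h1 : (inner ℝ x (e k : E n) : ℝ) ^ (2 * (t.card + 1)) ≤ 1 := by
        refine le_trans ?_ hP1
        unfold Pf
        refine Finset.single_le_sum (f := fun k : Fin t.card =>
          (inner ℝ x (e k : E n) : ℝ) ^ (2 * (t.card + 1))) (fun j _ => ?_) (Finset.mem_univ k)
        rw [pow_mul]
        positivity
      rw [pow_mul, ← sq_abs, ← pow_mul] at h1
      have h2 : |(inner ℝ x (e k : E n) : ℝ)| ≤ 1 :=
        (pow_le_one_iff_of_nonneg (abs_nonneg _) (by omega)).mp h1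
      exact (le_abs_self _).trans h2
    obtain ⟨yk, hyk, hk⟩ := key x
    have h1 : (inner ℝ x yk : ℝ) ≤ 1 := by
      have := hterm (e.symm ⟨yk, hyk⟩)
      simpa using this
    refine ⟨(1 / 2 : ℝ) • x, ?_, ?_⟩
    · refine APX_.bipolar M hM h0M _ fun y hy => ?_
      rw [real_inner_smul_right]
      have := hk y hy
      linarith
    · simp only [smul_smul]
      norm_num

end Pool.Agent.Rog
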