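import Pool.Agent.Rog.Targets

/-!
# The change of variables is bijective
-/

set_option autoImplicit false

open MeasureTheory Set Filter
open scoped Pointwise Topology

namespace Pool.Agent.Rog

namespace BIJ_

variable {n : ℕ} {Q : E n → ℝ} {G : E n → E n}

lemma cont (h : Nice Q G) : Continuous Q :=
  continuous_iff_continuousAt.2 fun x => (h.grad x).continuousAt

lemma inj (h : Nice Q G) : Function.Injective (Sm G) := by
  rintro ⟨x, a⟩ ⟨x', a'⟩ he
  simp only [Sm, Prod.mk.injEq] at he
  obtain ⟨h1, h2⟩ := he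
  have e1 : x - x' = -(a - a') := by
    rw [neg_sub, sub_eq_sub_iff_add_eq_add, h1, add_comm]
  have e2 : G x - G x' = G a - G a' := by
    rw [sub_eq_sub_iff_add_eq_add] at h2 ⊢
    rw [h2, add_comm]
  have hx : x = x' := by
    by_contra hne
    have ha : a ≠ a' := by
      rintro rfl
      rw [sub_self, neg_zero, sub_eq_zero] at e1
      exact hne e1
    have p1 := h.mono x x' hne
    have p2 := h.mono a a' ha
    rw [e1, e2, inner_neg_right] at p1
    linarith
  subst hx
  have ha : a = a' := add_left_cancel h1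
  rw [ha]

lemma coercive (h : Nice Q G) (X Y : E n) :
    Tendsto (fun x => Q x / 2 + Q (X - x) / 2 - inner ℝ x Y) (cocompact (E n)) atTop := by
  obtain ⟨c, hc, hl⟩ := h.lower
  have h1 : Tendsto (fun r : ℝ => r * (c / 2 * r - ‖Y‖)) atTop atTop := by
    refine tendsto_id.atTop_mul_atTop₀ ?_
    exact tendsto_atTop_add_const_right _ _ (tendsto_id.const_mul_atTop (by positivity))
  refine tendsto_atTop_mono (fun x => ?_) (h1.comp (tendsto_norm_cocompact_atTop (E := E n)))
  show ‖x‖ * (c / 2 * ‖x‖ - ‖Y‖) ≤ _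
  have q1 := hl x
  have q2 := hl (X - x)
  have q3 : 0 ≤ c * (‖X - x‖ ^ 2 + ‖G (X - x)‖ ^ 2) := by positivity
  have q4 : 0 ≤ c * ‖G x‖ ^ 2 := by positivity
  have q5 := real_inner_le_norm x Y
  nlinarith

lemma surj (h : Nice Q G) : Function.Surjective (Sm G) := by
  rintro ⟨X, Y⟩
  have hc : Continuous fun x => Q x / 2 + Q (X - x) / 2 - inner ℝ x Y := by
    have := cont h
    fun_prop
  obtain ⟨x, hx⟩ := hc.exists_forall_le (coercive h X Y)
  have d1 := h.grad x
  have d2 : HasFDerivAt (fun x => Q (X - x))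
      (((2 : ℝ) • innerSL ℝ (G (X - x))).comp (-(ContinuousLinearMap.id ℝ (E n)))) x :=
    (h.grad (X - x)).comp x ((hasFDerivAt_id x).const_sub X)
  have d3 : HasFDerivAt (fun x : E n => inner ℝ x Y) (innerSL ℝ Y) x := by
    have := (innerSL ℝ Y).hasFDerivAt (x := x)
    refine this.congr_of_eventuallyEq (Eventually.of_forall fun z => ?_)
    simp [real_inner_comm]
  have d4 := ((d1.mul_const (1 / 2 : ℝ)).add (d2.mul_const (1 / 2 : ℝ))).sub d3
  have d5 : HasFDerivAt (fun x => Q x / 2 + Q (X - x) / 2 - inner ℝ x Y) _ x :=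
    d4.congr_of_eventuallyEq (Eventually.of_forall fun z => by
      simp only [Pi.add_apply, Pi.sub_apply]
      ring)
  have hmin : IsLocalMin (fun x => Q x / 2 + Q (X - x) / 2 - inner ℝ x Y) x :=
    Eventually.of_forall hx
  have hz := hmin.hasFDerivAt_eq_zero d5
  have key : G x - G (X - x) = Y := by
    refine ext_inner_right ℝ fun v => ?_
    have := congrArg (fun L : E n →L[ℝ] ℝ => L v) hz
    simp only [ContinuousLinearMap.sub_apply, ContinuousLinearMap.add_apply,
      ContinuousLinearMap.smul_apply, ContinuousLinearMap.comp_apply,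
      ContinuousLinearMap.neg_apply, ContinuousLinearMap.id_apply, innerSL_apply_apply,
      ContinuousLinearMap.zero_apply, smul_eq_mul, inner_neg_right] at this
    rw [inner_sub_left]
    linarith
  refine ⟨(x, X - x), ?_⟩
  simp only [Sm]
  rw [key, add_sub_cancel]

end BIJ_

/-- BIJ -/
theorem p_BIJ : T_BIJ := fun _ _ _ h => ⟨BIJ_.inj h, BIJ_.surj h⟩

end Pool.Agent.Rog
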