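import Pool.Agent.Rog.Targets

/-!
# ROG-BM: the Bourgain-Milman inequality for symmetric bodies
-/

set_option autoImplicit false

open MeasureTheory Set Filter Topology
open scoped Pointwise Real

namespace Pool.Agent.Rog

namespace BM_

theorem nice (hNA : T_NA) (hNB : T_NB) (hNC : T_NC) (hND : T_ND) {n T m : ℕ} (y : Fin T → E n)
    (hm : 1 ≤ m) (hs : Spans y) : Nice (Qf y m) (Gf y m) := by
  obtain ⟨a1, a2, a3, a4, a5⟩ := hNA n T m y hm
  have b1 := hNB n T m y hm hs
  obtain ⟨c1, c2⟩ := hNC n T m y hm hs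
  obtain ⟨d1, d2, d3⟩ := hND n T m y hm hs
  exact ⟨a1, a2, a3, a4, b1, a5, d1, c1, c2, d2, d3⟩

theorem real_smul {n : ℕ} (A : Set (E n)) :
    volume.real ((2 : ℝ) • A) = 2 ^ n * volume.real A := by
  rw [Measure.real, Measure.addHaar_smul, ENNReal.toReal_mul, finrank_euclideanSpace_fin,
    ENNReal.toReal_ofReal (abs_nonneg _), abs_of_pos (by positivity)]
  rfl

end BM_

open BM_

theorem p_BM (hNA : T_NA) (hNB : T_NB) (hNC : T_NC) (hND : T_ND) (hEB : T_EB) (hVF : T_VF)
    (hAPX : T_APX) (hGAM : T_GAM) (hPOLB : T_POLB) : T_BM := by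
  intro n M hn hM
  obtain ⟨T, m, y, hm, hs, h4, h1⟩ := hAPX n M hM
  have hN := nice hNA hNB hNC hND y hm hs
  have e1 := hEB n _ _ hn hN
  obtain ⟨e2, e3⟩ := hVF n _ _ hn hN
  have e4 := hGAM n hn
  obtain ⟨-, hpM⟩ := hPOLB.2 n M hM
  have f1 : volume.real {x | Qf y m x ≤ 1} ≤ 2 ^ n * volume.real M := by
    rw [← real_smul]
    refine measureReal_mono (fun x hx => h1 x hx) ?_
    exact ((hM.cpt.smul (2 : ℝ)).measure_lt_top).ne
  have f2 : volume.real (pol {x | Qf y m x ≤ 1}) ≤ 2 ^ n * volume.real (pol M) := by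
    rw [← real_smul]
    refine measureReal_mono (fun z hz => ?_) ?_
    · rw [mem_smul_set]
      refine ⟨(1 / 2 : ℝ) • z, ?_, by rw [smul_smul]; norm_num⟩
      intro x hx
      have h5 : Qf y m ((1 / 2 : ℝ) • x) ≤ 1 := by
        rw [hN.homQ _ _ (by norm_num)]
        have := h4 x hx
        linarith
      have h6 := hz _ h5
      rw [inner_smul_right] at h6
      rw [inner_smul_left]
      simpa using h6
    · exact ((hpM.cpt.smul (2 : ℝ)).measure_lt_top).ne
  have g1 : 0 ≤ ∫ x, Real.exp (-Qf y m x) := integral_nonneg fun _ => (Real.exp_pos _).le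
  have g2 : 0 ≤ ∫ x, Real.exp (-(dn (Qf y m) x) ^ 2) := integral_nonneg fun _ => (Real.exp_pos _).le
  have g3 : 0 < Real.Gamma ((n : ℝ) / 2 + 1) := Real.Gamma_pos_of_pos (by positivity)
  have hn0 : (0 : ℝ) < n := by exact_mod_cast hn
  have key : (π / 2) ^ n ≤ (n : ℝ) ^ n * (4 ^ n * (volume.real M * volume.real (pol M))) := by
    calc (π / 2) ^ n ≤ _ := e1
      _ ≤ (Real.Gamma ((n : ℝ) / 2 + 1) * (2 ^ n * volume.real M)) *
          (Real.Gamma ((n : ℝ) / 2 + 1) * (2 ^ n * volume.real (pol M))) := by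
          apply mul_le_mul (e2.trans ?_) (e3.trans ?_) g2
          · positivity
          · gcongr
          · gcongr
      _ = Real.Gamma ((n : ℝ) / 2 + 1) ^ 2 *
          (4 ^ n * (volume.real M * volume.real (pol M))) := by
          have : (4 : ℝ) ^ n = 2 ^ n * 2 ^ n := by
            rw [← mul_pow]
            norm_num
          rw [this]
          ring
      _ ≤ _ := by gcongr
  have h7 : (3 / (8 * (n : ℝ))) ^ n ≤ (π / 2) ^ n / ((n : ℝ) ^ n * 4 ^ n) := by
    rw [← mul_pow, ← div_pow]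
    apply pow_le_pow_left₀ (by positivity)
    rw [div_le_div_iff₀ (by positivity) (by positivity)]
    nlinarith [Real.pi_gt_three, mul_pos hn0 (show (0 : ℝ) < π - 3 by linarith [Real.pi_gt_three])]
  refine h7.trans ?_
  rw [div_le_iff₀ (by positivity)]
  calc _ ≤ _ := key
    _ = _ := by ring

end Pool.Agent.Rog
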