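import Pool.Agent.Rog.Targets

/-!
# The main inequality of part 4
-/

set_option autoImplicit false

open MeasureTheory Set Filter Topology
open scoped Pointwise Real

namespace Pool.Agent.Rog

namespace BZ_

variable {n : ℕ}

/-- the real part of the exponent at `i π / 2` -/
lemma re_ex (Q : E n → ℝ) (G : E n → E n) (ε : ℝ) (p : E n × E n) :
    (ex Q G ε (Complex.I * (π / 2 : ℝ)) p).re =
      -(Q p.1 + Q p.2) - ε * (inner ℝ p.1 p.2 - inner ℝ (G p.1) (G p.2)) := by
  have h1 : Complex.exp (Complex.I * (π / 2 : ℝ)) = Complex.I := by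
    rw [mul_comm]
    push_cast
    exact Complex.exp_pi_div_two_mul_I
  have h2 : Complex.exp (-(Complex.I * (π / 2 : ℝ))) = -Complex.I := by
    rw [Complex.exp_neg, h1, Complex.inv_I]
  unfold ex al be ga
  rw [h1, h2]
  simp only [Complex.add_re, Complex.mul_re, Complex.sub_re, Complex.neg_re, Complex.I_re,
    Complex.I_im, Complex.sub_im, Complex.mul_im, Complex.neg_im, Complex.ofReal_re,
    Complex.ofReal_im]
  ring

/-- almost every pair has both components different from zero -/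
lemma ae_ne (hn : 1 ≤ n) : ∀ᵐ p : E n × E n, p.1 ≠ 0 ∧ p.2 ≠ 0 := by
  have : Nonempty (Fin n) := ⟨⟨0, hn⟩⟩
  have : Nontrivial (E n) := inferInstance
  have h0 : ∀ᵐ x : E n, x ≠ 0 := by
    have : volume ({0} : Set (E n)) = 0 := measure_singleton 0
    rw [ae_iff]
    simp
  have h1 : ∀ᵐ p : E n × E n, p.1 ≠ 0 := Measure.quasiMeasurePreserving_fst.ae h0
  have h2 : ∀ᵐ p : E n × E n, p.2 ≠ 0 := Measure.quasiMeasurePreserving_snd.ae h0
  filter_upwards [h1, h2] with p hp1 hp2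
  exact ⟨hp1, hp2⟩

lemma DD_nonneg (G : E n → E n) (p : E n × E n) : 0 ≤ DD G p := abs_nonneg _

/-- integrability -/
lemma integ {Q : E n → ℝ} {G : E n → E n} (hn : 1 ≤ n) (hN : Nice Q G) (hD : T_DINT) {c : ℝ}
    (hc : 0 < c) (hcQ : ∀ x, c * ‖x‖ ^ 2 ≤ Q x) (l : ℝ) (hl : 0 < l) :
    Integrable (fun p : E n × E n => DD G p * Real.exp (-(l * (Q p.1 + Q p.2)))) := by
  have h1 := hD n Q G hn hN (l * c) (mul_pos hl hc)
  have hQc : Continuous Q := continuous_iff_continuousAt.2 fun x => (hN.grad x).continuousAt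
  have h2 : Continuous (fun p : E n × E n => Real.exp (l * c * (‖p.1‖ ^ 2 + ‖p.2‖ ^ 2) -
      l * (Q p.1 + Q p.2))) := by
    have := hQc.comp (continuous_fst : Continuous (Prod.fst : E n × E n → E n))
    have := hQc.comp (continuous_snd : Continuous (Prod.snd : E n × E n → E n))
    fun_prop
  have h3 : Integrable (fun p : E n × E n => (DD G p *
      Real.exp (-(l * c * (‖p.1‖ ^ 2 + ‖p.2‖ ^ 2)))) *
      Real.exp (l * c * (‖p.1‖ ^ 2 + ‖p.2‖ ^ 2) - l * (Q p.1 + Q p.2))) := by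
    refine h1.mul_bdd (c := 1) h2.aestronglyMeasurable (ae_of_all _ fun p => ?_)
    rw [Real.norm_eq_abs, abs_of_pos (Real.exp_pos _)]
    apply Real.exp_le_one_iff.2
    have h4 := hcQ p.1
    have h5 := hcQ p.2
    nlinarith
  refine h3.congr (ae_of_all _ fun p => ?_)
  dsimp only
  rw [mul_assoc, ← Real.exp_add]
  congr 2
  ring

end BZ_

open BZ_ in
theorem p_BZ (hJC : T_JC) (hD : T_DINT) (hSD : T_SD) : T_BZ := by
  intro n Q G hn hN
  obtain ⟨c, hc, hlow⟩ := hN.lower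
  have hcQ : ∀ x, c * ‖x‖ ^ 2 ≤ Q x := by
    intro x
    refine le_trans ?_ (hlow x)
    have : 0 ≤ ‖G x‖ ^ 2 := by positivity
    nlinarith
  obtain ⟨k, hk, hJ⟩ := hJC n Q G hn hN
  obtain ⟨-, hscal⟩ := hSD n Q G hN
  obtain ⟨I, hI⟩ : ∃ I : ℝ, I = ∫ p : E n × E n, DD G p * Real.exp (-(Q p.1 + Q p.2)) := ⟨_, rfl⟩
  rw [← hI]
  have main : ∀ ε : ℝ, 0 < ε → ε ≤ k → ε < 2 * c →
      (2 * π / √(1 + ε ^ 2)) ^ n * (1 - ε / (2 * c)) ^ n ≤ I := by
    intro ε hε hεk hεc
    obtain ⟨l, hl⟩ : ∃ l : ℝ, l = 1 - ε / (2 * c) := ⟨_, rfl⟩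
    have hl0 : 0 < l := by
      rw [hl, sub_pos, div_lt_one (by linarith)]
      exact hεc
    have h1 := hJ ε hε hεk
    have h2 : (2 * π / √(1 + ε ^ 2)) ^ n = ‖Jf Q G ε (Complex.I * (π / 2 : ℝ))‖ := by
      rw [h1, Complex.norm_real, Real.norm_eq_abs, abs_of_nonneg (by positivity)]
    have h3 : ‖Jf Q G ε (Complex.I * (π / 2 : ℝ))‖ ≤
        ∫ p : E n × E n, DD G p * Real.exp (-(l * (Q p.1 + Q p.2))) := by
      unfold Jf
      refine (norm_integral_le_integral_norm _).trans ?_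
      refine integral_mono_of_nonneg (ae_of_all _ fun p => norm_nonneg _)
        (integ hn hN hD hc hcQ l hl0) (ae_of_all _ fun p => ?_)
      dsimp only
      rw [norm_mul, Complex.norm_real, Real.norm_eq_abs, abs_of_nonneg (DD_nonneg G p),
        Complex.norm_exp, re_ex]
      apply mul_le_mul_of_nonneg_left _ (DD_nonneg G p)
      apply Real.exp_le_exp.2
      have h4 : |inner ℝ p.1 p.2 - inner ℝ (G p.1) (G p.2)| ≤
          ((‖p.1‖ ^ 2 + ‖G p.1‖ ^ 2) + (‖p.2‖ ^ 2 + ‖G p.2‖ ^ 2)) / 2 := by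
        refine (abs_sub _ _).trans ?_
        have h5 := abs_real_inner_le_norm p.1 p.2
        have h6 := abs_real_inner_le_norm (G p.1) (G p.2)
        have h7 : ‖p.1‖ * ‖p.2‖ ≤ (‖p.1‖ ^ 2 + ‖p.2‖ ^ 2) / 2 := by
          nlinarith [sq_nonneg (‖p.1‖ - ‖p.2‖)]
        have h8 : ‖G p.1‖ * ‖G p.2‖ ≤ (‖G p.1‖ ^ 2 + ‖G p.2‖ ^ 2) / 2 := by
          nlinarith [sq_nonneg (‖G p.1‖ - ‖G p.2‖)]
        linarith
      have h9 : (‖p.1‖ ^ 2 + ‖G p.1‖ ^ 2) + (‖p.2‖ ^ 2 + ‖G p.2‖ ^ 2) ≤ (Q p.1 + Q p.2) / c := by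
        rw [le_div_iff₀ hc]
        have h10 := hlow p.1
        have h11 := hlow p.2
        linarith
      have h12 : -(ε * (inner ℝ p.1 p.2 - inner ℝ (G p.1) (G p.2))) ≤
          ε / (2 * c) * (Q p.1 + Q p.2) := by
        have h13 := (abs_le.1 h4).1
        have h14 : -(inner ℝ p.1 p.2 - inner ℝ (G p.1) (G p.2)) ≤ (Q p.1 + Q p.2) / c / 2 := by
          linarith
        have h15 := mul_le_mul_of_nonneg_left h14 hε.le
        calc -(ε * (inner ℝ p.1 p.2 - inner ℝ (G p.1) (G p.2))) =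
            ε * -(inner ℝ p.1 p.2 - inner ℝ (G p.1) (G p.2)) := by ring
          _ ≤ ε * ((Q p.1 + Q p.2) / c / 2) := h15
          _ = _ := by
            field_simp
      rw [hl]
      linarith
    have h5 : ∫ p : E n × E n, DD G p * Real.exp (-(l * (Q p.1 + Q p.2))) =
        (l ^ n)⁻¹ * I := by
      have hH : (volume : Measure (E n × E n)).IsAddHaarMeasure := by
        rw [Measure.volume_eq_prod]
        infer_instance
      have h6 := Measure.integral_comp_smul (μ := (volume : Measure (E n × E n)))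
        (fun p : E n × E n => DD G p * Real.exp (-(Q p.1 + Q p.2))) (√l)
      rw [← hI] at h6
      have h7 : Module.finrank ℝ (E n × E n) = 2 * n := by
        rw [Module.finrank_prod, finrank_euclideanSpace_fin]
        ring
      rw [h7, pow_mul, Real.sq_sqrt hl0.le, abs_of_pos (by positivity), smul_eq_mul] at h6
      rw [← h6]
      apply integral_congr_ae
      filter_upwards [ae_ne hn] with p hp
      have h8 : DD G (√l • p) = DD G p := by
        have := hscal p.1 p.2 (√l) (√l) hp.1 hp.2 (Real.sqrt_pos.2 hl0) (Real.sqrt_pos.2 hl0)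
        exact this
      rw [h8, Prod.smul_fst, Prod.smul_snd, hN.homQ _ _ (Real.sqrt_nonneg _),
        hN.homQ _ _ (Real.sqrt_nonneg _), Real.sq_sqrt hl0.le]
      congr 2
      ring
    rw [← hl, h2]
    rw [h5] at h3
    calc ‖Jf Q G ε (Complex.I * (π / 2 : ℝ))‖ * l ^ n ≤ (l ^ n)⁻¹ * I * l ^ n :=
          mul_le_mul_of_nonneg_right h3 (by positivity)
      _ = I := by
        field_simp
  have hcont : ContinuousAt (fun ε : ℝ => (2 * π / √(1 + ε ^ 2)) ^ n * (1 - ε / (2 * c)) ^ n)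
      0 := by
    apply ContinuousAt.mul
    · apply ContinuousAt.pow
      apply ContinuousAt.div continuousAt_const
      · fun_prop
      · simp
    · fun_prop
  have hlim : Tendsto (fun ε : ℝ => (2 * π / √(1 + ε ^ 2)) ^ n * (1 - ε / (2 * c)) ^ n)
      (𝓝[>] 0) (𝓝 ((2 * π) ^ n)) := by
    have e : (2 * π / √(1 + (0 : ℝ) ^ 2)) ^ n * (1 - 0 / (2 * c)) ^ n = (2 * π) ^ n := by
      simp
    rw [← e]
    exact hcont.tendsto.mono_left nhdsWithin_le_nhds
  refine le_of_tendsto hlim ?_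
  have h1 : ∀ᶠ ε : ℝ in 𝓝[>] 0, ε < min k (2 * c) :=
    (gt_mem_nhds (lt_min hk (by linarith))).filter_mono nhdsWithin_le_nhds
  filter_upwards [h1, self_mem_nhdsWithin] with ε hε hε0
  exact main ε hε0 (hε.le.trans (min_le_left _ _)) (hε.trans_le (min_le_right _ _))

end Pool.Agent.Rog
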