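import Pool.Agent.Rog.Targets

/-!
# ROG-CNT: number of separated sharp points
-/

set_option autoImplicit false

open MeasureTheory Set Filter Topology
open scoped Pointwise Real

namespace Pool.Agent.Rog

namespace CNT_

variable {n : ℕ}

lemma vol_aff (c : E n) (r : ℝ) (hr : 0 ≤ r) (S : Set (E n)) :
    volume.real (c +ᵥ (r • S)) = r ^ n * volume.real S := by
  unfold Measure.real
  rw [measure_vadd, Measure.addHaar_smul, ENNReal.toReal_mul, finrank_euclideanSpace_fin,
    ENNReal.toReal_ofReal (abs_nonneg _), abs_of_nonneg (by positivity)]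

lemma dcap_compact {K : Set (E n)} (hK : IsCompact (pol K)) (x : E n) (s : ℝ) :
    IsCompact (dcap K x s) := by
  have h1 : IsClosed {y : E n | 1 - inner ℝ y x ≤ s} :=
    isClosed_le (by fun_prop) continuous_const
  exact hK.inter_right h1

lemma compact_aff (c : E n) (r : ℝ) {S : Set (E n)} (hS : IsCompact S) :
    IsCompact (c +ᵥ (r • S)) := by
  have : (c +ᵥ (r • S)) = (fun y => c + r • y) '' S := by
    ext z
    simp only [mem_vadd_set, mem_smul_set, mem_image]
    constructor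
    · rintro ⟨y, ⟨w, hw, rfl⟩, rfl⟩
      exact ⟨w, hw, rfl⟩
    · rintro ⟨w, hw, rfl⟩
      exact ⟨r • w, ⟨w, hw, rfl⟩, rfl⟩
  rw [this]
  exact hS.image (by fun_prop)

lemma mem_aff {c z : E n} {r : ℝ} {S : Set (E n)} :
    z ∈ (c +ᵥ (r • S)) ↔ ∃ y ∈ S, z = c + r • y := by
  simp only [mem_vadd_set, mem_smul_set]
  constructor
  · rintro ⟨y, ⟨w, hw, rfl⟩, rfl⟩
    exact ⟨w, hw, rfl⟩
  · rintro ⟨w, hw, rfl⟩
    exact ⟨r • w, ⟨w, hw, rfl⟩, rfl⟩

/-- averaging: a finite family of subsets of a set `P` has a point covered many times -/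
lemma avg {ι : Type*} (X : Finset ι) (P : Set (E n)) (G : ι → Set (E n)) (hP : IsCompact P)
    (hP0 : 0 < volume.real P) (hG : ∀ x ∈ X, MeasurableSet (G x) ∧ G x ⊆ P) (θ : ℝ) (hθ : 0 < θ)
    (hv : θ * volume.real P ≤ ∑ x ∈ X, volume.real (G x)) :
    ∃ u ∈ P, ∃ I : Finset ι, I ⊆ X ∧ (∀ x ∈ I, u ∈ G x) ∧ θ ≤ (I.card : ℝ) := by
  classical
  by_contra hcon
  push Not at hcon
  have hfin : volume P < ⊤ := hP.measure_lt_top
  set r : ℕ := ⌈θ⌉₊ - 1 with hr
  have hr1 : 1 ≤ ⌈θ⌉₊ := Nat.one_le_ceil_iff.2 hθ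
  have hrθ : (r : ℝ) < θ := by
    have : r < ⌈θ⌉₊ := by omega
    exact Nat.lt_ceil.1 this
  have hcount : ∀ u ∈ P, ∑ x ∈ X, (G x).indicator (1 : E n → ENNReal) u ≤ (r : ENNReal) := by
    intro u hu
    have h1 := hcon u hu (X.filter (fun x => u ∈ G x)) (Finset.filter_subset _ _)
      (fun x hx => (Finset.mem_filter.1 hx).2)
    have h2 : (X.filter (fun x => u ∈ G x)).card < ⌈θ⌉₊ := Nat.lt_ceil.2 h1
    have h3 : ∑ x ∈ X, (G x).indicator (1 : E n → ENNReal) u =
        ((X.filter (fun x => u ∈ G x)).card : ENNReal) := by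
      rw [Finset.card_filter, Nat.cast_sum]
      refine Finset.sum_congr rfl fun x _ => ?_
      by_cases hx : u ∈ G x
      · rw [indicator_of_mem hx, if_pos hx]
        simp
      · rw [indicator_of_notMem hx, if_neg hx]
        simp
    rw [h3]
    exact_mod_cast (by omega : (X.filter (fun x => u ∈ G x)).card ≤ r)
  have hsum : ∑ x ∈ X, volume (G x) ≤ (r : ENNReal) * volume P := by
    have h1 : ∀ x ∈ X, volume (G x) = ∫⁻ u in P, (G x).indicator (1 : E n → ENNReal) u := by
      intro x hx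
      rw [lintegral_indicator_one (hG x hx).1, Measure.restrict_apply (hG x hx).1,
        inter_eq_self_of_subset_left (hG x hx).2]
    rw [Finset.sum_congr rfl h1, ← lintegral_finsetSum]
    · calc ∫⁻ u in P, ∑ x ∈ X, (G x).indicator (1 : E n → ENNReal) u
          ≤ ∫⁻ u in P, (r : ENNReal) := by
            refine lintegral_mono_ae ?_
            rw [ae_restrict_iff' hP.measurableSet]
            exact ae_of_all _ hcount
        _ = (r : ENNReal) * volume P := by
            rw [lintegral_const, Measure.restrict_apply_univ]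
    · intro x hx
      exact measurable_one.indicator (hG x hx).1
  have hreal : ∑ x ∈ X, volume.real (G x) ≤ r * volume.real P := by
    have h1 : ∑ x ∈ X, volume.real (G x) = (∑ x ∈ X, volume (G x)).toReal := by
      rw [ENNReal.toReal_sum]
      · rfl
      · intro x hx
        exact (lt_of_le_of_lt (measure_mono (hG x hx).2) hfin).ne
    rw [h1]
    have h2 : ((r : ENNReal) * volume P).toReal = r * volume.real P := by
      rw [ENNReal.toReal_mul]
      simp [Measure.real]
    rw [← h2]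
    exact ENNReal.toReal_mono (ENNReal.mul_ne_top (ENNReal.natCast_ne_top r) hfin.ne) hsum
  have := mul_lt_mul_of_pos_right hrθ hP0
  linarith

lemma smul_mono {K : Set (E n)} (hK : SymBody K) {r s : ℝ} (hr : 0 ≤ r) (hrs : r ≤ s) {x : E n}
    (hx : x ∈ r • K) : x ∈ s • K := by
  obtain ⟨y, hy, rfl⟩ := hx
  have h0 : (0 : E n) ∈ K := by
    have := hK.cvx hy (hK.symm y hy) (by norm_num : (0 : ℝ) ≤ 1 / 2)
      (by norm_num : (0 : ℝ) ≤ 1 / 2) (by norm_num)
    simpa using this
  rcases hrs.eq_or_lt with h | h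
  · subst h
    exact ⟨y, hy, rfl⟩
  · have hs : 0 < s := lt_of_le_of_lt hr h
    refine ⟨(r / s) • y, ?_, ?_⟩
    · have := hK.cvx h0 hy (by rw [sub_nonneg, div_le_one hs]; exact hrs : (0 : ℝ) ≤ 1 - r / s)
        (by positivity : (0 : ℝ) ≤ r / s) (by ring)
      simpa using this
    · show s • (r / s) • y = r • y
      rw [smul_smul, mul_div_cancel₀ _ hs.ne']

end CNT_

open CNT_

theorem p_CNT (hWC : T_WC) (hSUPP : T_SUPP) (hCAPV : T_CAPV) (hPOLB : T_POLB) (hDCAP : T_DCAP) :
    T_CNT := by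
  classical
  intro n K t X hn hK ht1 ht2 hX hsep
  have hn0 : (0 : ℝ) < n := by exact_mod_cast hn
  have ht0 : 0 < t := lt_of_lt_of_le (by positivity) ht1
  obtain ⟨hK0, -, hW0, -⟩ := hWC n K hn hK
  obtain ⟨-, hPS⟩ := hPOLB.2 n K hK
  obtain ⟨hP0, -⟩ := hWC n (pol K) hn hPS
  have hcc : (0 : ℝ) < cc := by unfold cc; norm_num
  rcases X.eq_empty_or_nonempty with hXe | hXne
  · subst hXe
    have : 0 ≤ 4 * c3 ^ n := by
      unfold c3
      positivity
    simpa using this
  -- supporting functions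
  have hsup : ∀ x : E n, ∃ (a : ℝ) (g : E n), x ∈ X → (∀ w ∈ K, W K w ≤ a - inner ℝ g w) ∧
      a - inner ℝ g x ≤ t ∧ 1 ≤ a ∧ a ≤ 1 + t := by
    intro x
    by_cases hx : x ∈ X
    · obtain ⟨a, g, h⟩ := hSUPP n K x t hn hK (hX x hx).1 ht0.le (hX x hx).2
      exact ⟨a, g, fun _ => h⟩
    · exact ⟨0, 0, fun h => absurd h hx⟩
  choose a g hag using hsup
  set B : ℝ := 4 / cc with hB
  have hB0 : 0 < B := by positivity
  set v : E n → E n := fun x => (a x)⁻¹ • g x with hv
  have hvP : ∀ x ∈ X, v x ∈ pol K := by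
    intro x hx w hw
    obtain ⟨h1, -, h3, -⟩ := hag x hx
    have h4 := h1 w hw
    have h5 := hW0 w
    rw [real_inner_smul_left, inv_mul_le_iff₀ (by linarith)]
    linarith
  set G : E n → Set (E n) := fun x => ((1 / 2 : ℝ) • v x) +ᵥ ((1 / 2 : ℝ) •
    dcap K x ((B + 1) * t)) with hG
  have hGP : ∀ x ∈ X, MeasurableSet (G x) ∧ G x ⊆ pol K := by
    intro x hx
    refine ⟨(compact_aff _ _ (dcap_compact hPS.cpt x _)).measurableSet, ?_⟩
    intro z hz
    obtain ⟨y, hy, rfl⟩ := mem_aff.1 hz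
    exact hPS.cvx (hvP x hx) hy.1 (by norm_num) (by norm_num) (by norm_num)
  set N : ℝ := (X.card : ℝ) with hN
  have hN0 : 0 < N := by
    rw [hN]
    exact_mod_cast Finset.card_pos.2 hXne
  set θ : ℝ := N * ((cc / 2) ^ n / 4) with hθ
  have hθ0 : 0 < θ := by positivity
  have hvol : θ * volume.real (pol K) ≤ ∑ x ∈ X, volume.real (G x) := by
    have h1 : ∀ x ∈ X, (cc / 2) ^ n / 4 * volume.real (pol K) ≤ volume.real (G x) := by
      intro x hx
      simp only [hG]
      rw [vol_aff _ _ (by norm_num)]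
      have h2 := hDCAP n K x t hn hK (hX x hx).1 ht1 ht2 (hX x hx).2
      have h3 : (0 : ℝ) < (1 / 2) ^ n := by positivity
      have h4 := mul_le_mul_of_nonneg_left h2 h3.le
      refine le_trans (le_of_eq ?_) h4
      rw [div_pow, div_pow, one_pow]
      ring
    calc θ * volume.real (pol K) = ∑ x ∈ X, (cc / 2) ^ n / 4 * volume.real (pol K) := by
          rw [Finset.sum_const, nsmul_eq_mul, hθ]
          ring
      _ ≤ _ := Finset.sum_le_sum h1
  obtain ⟨u, huP, I, hIX, hIG, hIc⟩ := avg X (pol K) G hPS.cpt hP0 hGP θ hθ0 hvol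
  have hIne : I.Nonempty := by
    rw [← Finset.card_pos]
    have : (0 : ℝ) < I.card := lt_of_lt_of_le hθ0 hIc
    exact_mod_cast this
  -- key facts for x in I
  have hkey : ∀ x ∈ I, (∀ w ∈ K, (a x - inner ℝ (g x) w) / 4 ≤ 1 - inner ℝ u w) ∧
      1 - inner ℝ u x ≤ (B + 1) * t := by
    intro x hx
    obtain ⟨h1, h2, h3, h4⟩ := hag x (hIX hx)
    obtain ⟨y, hy, huy⟩ := mem_aff.1 (hIG x hx)
    have hin : ∀ w, inner ℝ u w = (1 / 2) * (inner ℝ (g x) w / a x) + (1 / 2) * inner ℝ y w := by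
      intro w
      rw [huy, inner_add_left, real_inner_smul_left, real_inner_smul_left,
        real_inner_smul_left, div_eq_inv_mul (inner ℝ (g x) w)]
    have ha0 : 0 < a x := by linarith
    refine ⟨fun w hw => ?_, ?_⟩
    · rw [hin w]
      have h5 : inner ℝ y w ≤ 1 := hy.1 w hw
      have h6 : 0 ≤ a x - inner ℝ (g x) w := le_trans (hW0 w) (h1 w hw)
      have h7 : (a x - inner ℝ (g x) w) / 4 ≤ (1 / 2) * ((a x - inner ℝ (g x) w) / a x) := by
        rw [div_le_iff₀ (by norm_num)]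
        have : (1 / 2) * ((a x - inner ℝ (g x) w) / a x) * 4 =
          (a x - inner ℝ (g x) w) * (2 / a x) := by ring
        rw [this]
        have h8 : 1 ≤ 2 / a x := by
          rw [le_div_iff₀ ha0]
          linarith
        nlinarith
      have h8 : (a x - inner ℝ (g x) w) / a x = 1 - inner ℝ (g x) w / a x := by
        rw [sub_div, div_self ha0.ne']
      rw [h8] at h7
      linarith
    · rw [hin x]
      have h5 : 1 - inner ℝ y x ≤ (B + 1) * t := hy.2
      have h6 : 1 - inner ℝ (g x) x / a x ≤ t := by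
        have h8 : (a x - inner ℝ (g x) x) / a x = 1 - inner ℝ (g x) x / a x := by
          rw [sub_div, div_self ha0.ne']
        rw [← h8, div_le_iff₀ ha0]
        nlinarith
      nlinarith [mul_pos hB0 ht0]
  -- the small copies
  set H : E n → Set (E n) := fun x => ((1 - t / 4) • x) +ᵥ ((t / 4) • K) with hH
  have hHvol : ∀ x, volume.real (H x) = (t / 4) ^ n * volume.real K := fun x =>
    vol_aff _ _ (by linarith) _
  have hHm : ∀ x, MeasurableSet (H x) := fun x => (compact_aff _ _ hK.cpt).measurableSet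
  have hHd : (I : Set (E n)).PairwiseDisjoint H := by
    intro x hx y hy hxy
    rw [Function.onFun, Set.disjoint_left]
    intro z hz1 hz2
    obtain ⟨k1, hk1, e1⟩ := mem_aff.1 hz1
    obtain ⟨k2, hk2, e2⟩ := mem_aff.1 hz2
    apply hsep x (hIX hx) y (hIX hy) hxy
    have e3 : (1 - t / 4) • (x - y) = (t / 4) • (k2 - k1) := by
      have := e1.symm.trans e2
      rw [smul_sub, smul_sub]
      rw [sub_eq_sub_iff_add_eq_add, this]
      abel
    have hpos : 0 < 1 - t / 4 := by linarith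
    have e4 : x - y = ((t / 2) / (1 - t / 4)) • ((1 / 2 : ℝ) • k2 + (1 / 2 : ℝ) • (-k1)) := by
      have : x - y = (1 - t / 4)⁻¹ • ((1 - t / 4) • (x - y)) := by
        rw [smul_smul, inv_mul_cancel₀ hpos.ne', one_smul]
      rw [this, e3, smul_smul, smul_neg, ← sub_eq_add_neg, ← smul_sub, smul_smul]
      congr 1
      rw [div_eq_mul_inv]
      ring
    have e5 : x - y ∈ ((t / 2) / (1 - t / 4)) • K := by
      rw [e4]
      exact ⟨_, hK.cvx hk2 (hK.symm k1 hk1) (by norm_num) (by norm_num) (by norm_num), rfl⟩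
    refine smul_mono hK (by positivity) ?_ e5
    rw [div_le_iff₀ hpos]
    nlinarith
  have hHsub : ∀ x ∈ I, H x ⊆ {w | w ∈ K ∧ 1 - inner ℝ u w ≤ (B + 2) * t} := by
    intro x hx w hw
    obtain ⟨k, hk, rfl⟩ := mem_aff.1 hw
    have hxK : x ∈ K := (hX x (hIX hx)).1
    refine ⟨hK.cvx hxK hk (by linarith) (by linarith) (by ring), ?_⟩
    rw [inner_add_right, inner_smul_right, inner_smul_right]
    have h1 : 1 - inner ℝ u x ≤ (B + 1) * t := (hkey x hx).2
    have h2 : inner ℝ u x ≤ 1 := huP x hxK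
    have h3 : -inner ℝ u k ≤ 1 := by
      have := huP (-k) (hK.symm k hk)
      rwa [inner_neg_right] at this
    have e1 : 1 - ((1 - t / 4) * inner ℝ u x + t / 4 * inner ℝ u k) =
        (1 - t / 4) * (1 - inner ℝ u x) + t / 4 * (1 - inner ℝ u k) := by ring
    rw [e1]
    have h4 : (1 - t / 4) * (1 - inner ℝ u x) ≤ 1 - inner ℝ u x := by nlinarith
    have h5 : t / 4 * (1 - inner ℝ u k) ≤ t / 4 * 2 := by
      refine mul_le_mul_of_nonneg_left (by linarith) (by linarith)
    linarith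
  have hcapv : volume.real {w | w ∈ K ∧ 1 - inner ℝ u w ≤ (B + 2) * t} ≤
      (8 * ((B + 2) * t)) ^ n * volume.real K := by
    obtain ⟨x, hx⟩ := hIne
    obtain ⟨h1, -⟩ := hag x (hIX hx)
    have h2 := hCAPV n K (a x) (g x) hn hK h1 (4 * ((B + 2) * t)) (by positivity)
    have h3 : (2 * (4 * ((B + 2) * t))) ^ n = (8 * ((B + 2) * t)) ^ n := by
      congr 1
      ring
    rw [h3] at h2
    refine le_trans ?_ h2
    refine measureReal_mono ?_ ?_
    · rintro w ⟨hw, hw2⟩
      refine ⟨hw, ?_⟩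
      have := (hkey x hx).1 w hw
      linarith
    · exact (lt_of_le_of_lt (measure_mono (fun w hw => hw.1)) hK.cpt.measure_lt_top).ne
  have hcard : (I.card : ℝ) * ((t / 4) ^ n * volume.real K) ≤
      (8 * ((B + 2) * t)) ^ n * volume.real K := by
    refine le_trans ?_ hcapv
    have h1 : volume.real (⋃ x ∈ I, H x) = ∑ x ∈ I, volume.real (H x) := by
      refine measureReal_biUnion_finset hHd (fun x _ => hHm x) (fun x _ => ?_)
      exact (compact_aff _ _ hK.cpt).measure_lt_top.ne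
    have h2 : ∑ x ∈ I, volume.real (H x) = (I.card : ℝ) * ((t / 4) ^ n * volume.real K) := by
      rw [Finset.sum_congr rfl (fun x _ => hHvol x), Finset.sum_const, nsmul_eq_mul]
    rw [← h2, ← h1]
    refine measureReal_mono (iUnion₂_subset hHsub) ?_
    exact (lt_of_le_of_lt (measure_mono (fun w hw => hw.1)) hK.cpt.measure_lt_top).ne
  have hcard2 : (I.card : ℝ) ≤ (32 * (B + 2)) ^ n := by
    have h1 : (I.card : ℝ) * (t / 4) ^ n ≤ (8 * ((B + 2) * t)) ^ n := by
      rw [← mul_assoc] at hcard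
      exact le_of_mul_le_mul_right hcard hK0
    have h2 : (8 * ((B + 2) * t)) ^ n = (32 * (B + 2)) ^ n * (t / 4) ^ n := by
      rw [← mul_pow]
      congr 1
      ring
    rw [h2] at h1
    exact le_of_mul_le_mul_right h1 (by positivity)
  have hfin : N * ((cc / 2) ^ n / 4) ≤ (32 * (B + 2)) ^ n := hIc.trans hcard2
  have hpos2 : (0 : ℝ) < (cc / 2) ^ n / 4 := by positivity
  rw [← le_div_iff₀ hpos2] at hfin
  refine hfin.trans (le_of_eq ?_)
  unfold c3
  rw [← hB]
  rw [div_div_eq_mul_div, mul_comm _ (4 : ℝ), mul_div_assoc, ← div_pow]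
  congr 2
  field_simp
  ring

end Pool.Agent.Rog
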