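import Pool.Agent.Rog.TargetsG

/-!
# The covering probability, general bodies
-/

set_option autoImplicit false

open MeasureTheory Set
open scoped Pointwise

namespace Pool.Agent.Rog

theorem p_CONDPG : T_CONDPG := by
  intro n K x q hKc hcv hx hq0 hq1
  classical
  have hsub : (fun y => q • y + (1 - q) • x) ''
      {y : E n | y ∈ K ∧ (2 : ℝ) • ((1 / 2 : ℝ) • x) - y ∈ K} ⊆ K ∩ {z | x - z ∈ q • K} := by
    rintro _ ⟨y, ⟨hy, hy2⟩, rfl⟩
    have hy3 : x - y ∈ K := by
      have : (2 : ℝ) • ((1 / 2 : ℝ) • x) = x := by rw [smul_smul]; norm_num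
      rwa [this] at hy2
    refine ⟨hcv hy hx hq0 (by linarith) (by ring), ?_⟩
    refine ⟨x - y, hy3, ?_⟩
    simp only [smul_sub, sub_smul, one_smul]
    abel
  have hfin : volume (K ∩ {z | x - z ∈ q • K}) ≠ ⊤ :=
    ne_top_of_le_ne_top hKc.measure_lt_top.ne (measure_mono inter_subset_left)
  have him : (fun y => q • y + (1 - q) • x) ''
      {y : E n | y ∈ K ∧ (2 : ℝ) • ((1 / 2 : ℝ) • x) - y ∈ K} =
      (fun z => z + (1 - q) • x) '' (q • {y : E n | y ∈ K ∧ (2 : ℝ) • ((1 / 2 : ℝ) • x) - y ∈ K}) := by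
    rw [← image_smul, image_image]
  have hvol : volume.real ((fun y => q • y + (1 - q) • x) ''
      {y : E n | y ∈ K ∧ (2 : ℝ) • ((1 / 2 : ℝ) • x) - y ∈ K}) =
      q ^ n * mac K ((1 / 2 : ℝ) • x) := by
    rw [him, mac, Measure.real, Measure.real, image_add_right, measure_preimage_add_right,
      Measure.addHaar_smul]
    simp only [finrank_euclideanSpace_fin]
    rw [ENNReal.toReal_mul, ENNReal.toReal_ofReal (abs_nonneg _), abs_of_nonneg (pow_nonneg hq0 n)]
  rw [← hvol]
  exact measureReal_mono hsub hfin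

end Pool.Agent.Rog
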