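import Pool.Agent.Rog.Targets

/-!
# The change of variables formula
-/

set_option autoImplicit false

open MeasureTheory Set Filter Topology
open scoped Pointwise Real

namespace Pool.Agent.Rog

namespace COVC_

variable {n : ℕ}

theorem nontriv (hn : 1 ≤ n) : Nontrivial (E n) := by
  apply Module.nontrivial_of_finrank_pos (R := ℝ)
  rw [finrank_euclideanSpace_fin]
  omega

theorem graph_null (hn : 1 ≤ n) (h : E n → E n) (hc : Continuous h) :
    volume {p : E n × E n | p.2 = h p.1} = 0 := by
  have := nontriv hn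
  have hm : MeasurableSet {p : E n × E n | p.2 = h p.1} :=
    (isClosed_eq continuous_snd (hc.comp continuous_fst)).measurableSet
  rw [Measure.volume_eq_prod, Measure.measure_prod_null hm]
  refine Eventually.of_forall fun x => ?_
  have : Prod.mk x ⁻¹' {p : E n × E n | p.2 = h p.1} = {h x} := by
    ext y
    simp
  show volume (Prod.mk x ⁻¹' {p : E n × E n | p.2 = h p.1}) = 0
  rw [this]
  exact measure_singleton _

/-- The good set. -/
def S0 : Set (E n × E n) := {p | p.1 ≠ 0 ∧ p.2 ≠ 0}

theorem S0_open : IsOpen (S0 (n := n)) :=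
  (isOpen_ne_fun continuous_fst continuous_const).inter
    (isOpen_ne_fun continuous_snd continuous_const)

theorem S0_ae (hn : 1 ≤ n) : ∀ᵐ p : E n × E n, p ∈ S0 (n := n) := by
  have := nontriv hn
  rw [ae_iff]
  have h : {p : E n × E n | ¬ p ∈ S0 (n := n)} ⊆
      {p : E n × E n | p.2 = (fun _ => (0 : E n)) p.1} ∪ (({0} : Set (E n)) ×ˢ univ) := by
    rintro ⟨a, b⟩ hp
    simp only [S0, mem_ofPred_eq, not_and_or, not_not] at hp
    rcases hp with hp | hp
    · right
      simpa using hp
    · left
      simpa using hp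
  refine measure_mono_null h (measure_union_null (graph_null hn _ continuous_const) ?_)
  rw [Measure.volume_eq_prod, Measure.prod_prod]
  simp

theorem image_ae (hn : 1 ≤ n) {Q : E n → ℝ} {G : E n → E n} (hG : Nice Q G)
    (hbij : Function.Bijective (Sm G)) : ∀ᵐ p : E n × E n, p ∈ Sm G '' S0 := by
  have hG0 : G 0 = 0 := by
    have := hG.homG 0 0 le_rfl
    simpa using this
  rw [ae_iff]
  have h : {p : E n × E n | ¬ p ∈ Sm G '' S0} ⊆
      {p : E n × E n | p.2 = (fun x => G x) p.1} ∪
      {p : E n × E n | p.2 = (fun x => -G x) p.1} := by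
    intro p hp
    obtain ⟨⟨a, b⟩, rfl⟩ := hbij.2 p
    have hab : ¬ ((a, b) : E n × E n) ∈ S0 := fun h => hp ⟨_, h, rfl⟩
    simp only [S0, mem_ofPred_eq, not_and_or, not_not] at hab
    rcases hab with rfl | rfl
    · right
      simp [Sm, hG0]
    · left
      simp [Sm, hG0]
  exact measure_mono_null h (measure_union_null (graph_null hn _ hG.contG)
    (graph_null hn _ hG.contG.neg))

theorem cov {F : Type} [NormedAddCommGroup F] [NormedSpace ℝ F] (hBIJ : T_BIJ) (hSD : T_SD)
    (hn : 1 ≤ n) {Q : E n → ℝ} {G : E n → E n} (hG : Nice Q G) (f : E n × E n → F) :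
    (Integrable f ↔ Integrable fun p => DD G p • f (Sm G p)) ∧
      ∫ p, DD G p • f (Sm G p) = ∫ p, f p := by
  have hbij := hBIJ n Q G hG
  have hd : ∀ p ∈ S0 (n := n), HasFDerivWithinAt (Sm G) (fderiv ℝ (Sm G) p) S0 p := by
    rintro ⟨a, b⟩ ⟨h1, h2⟩
    exact ((hSD n Q G hG).1 a b h1 h2).hasFDerivAt.hasFDerivWithinAt
  have hm : MeasurableSet (S0 (n := n)) := S0_open.measurableSet
  have hr1 : (volume : Measure (E n × E n)).restrict S0 = volume :=
    Measure.restrict_eq_self_of_ae_mem (S0_ae hn)
  have hr2 : (volume : Measure (E n × E n)).restrict (Sm G '' S0) = volume :=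
    Measure.restrict_eq_self_of_ae_mem (image_ae hn hG hbij)
  have hmu : (volume : Measure (E n × E n)).IsAddHaarMeasure :=
    inferInstanceAs ((volume : Measure (E n)).prod (volume : Measure (E n))).IsAddHaarMeasure
  constructor
  · have h := integrableOn_image_iff_integrableOn_abs_det_fderiv_smul
      (volume : Measure (E n × E n)) hm hd hbij.1.injOn f
    unfold IntegrableOn at h
    rw [hr1, hr2] at h
    exact h
  · have h := integral_image_eq_integral_abs_det_fderiv_smul
      (volume : Measure (E n × E n)) hm hd hbij.1.injOn f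
    rw [hr1, hr2] at h
    exact h.symm

end COVC_

/-- COVC -/
theorem p_COVC (hBIJ : T_BIJ) (hSD : T_SD) : T_COVC := by
  intro n Q G hn hG f hf
  have h := COVC_.cov hBIJ hSD hn hG f
  have e : ∀ p : E n × E n, (DD G p : ℂ) * f (Sm G p) = DD G p • f (Sm G p) := fun p =>
    (Complex.real_smul).symm
  simp only [e]
  exact ⟨h.1.1 hf, h.2⟩

end Pool.Agent.Rog
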