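import Pool.Agent.Rog.COVC

/-!
# The change of variables formula, real functions
-/

set_option autoImplicit false

open MeasureTheory Set Filter Topology
open scoped Pointwise Real

namespace Pool.Agent.Rog

/-- COVR -/
theorem p_COVR (hBIJ : T_BIJ) (hSD : T_SD) : T_COVR := by
  intro n Q G hn hG f hf
  have h := COVC_.cov hBIJ hSD hn hG f
  simp only [smul_eq_mul] at h
  exact ⟨h.1.1 hf, h.2⟩

end Pool.Agent.Rog
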