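import Pool.Agent.Rog.TargetsG

/-!
# Dual caps at sharp points are big, general bodies
-/

set_option autoImplicit false

open MeasureTheory Set Filter Topology
open scoped Pointwise Real

namespace Pool.Agent.Rog

namespace DCAPG_

variable {n : ℕ}

/-- the translate of the body -/
def AA (K : Set (E n)) (x : E n) (t : ℝ) : Set (E n) := (fun y => y - (1 - t) • x) '' K

theorem mem_AA {K : Set (E n)} {x : E n} {t : ℝ} {y : E n} :
    y ∈ AA K x t ↔ y + (1 - t) • x ∈ K := by
  unfold AA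
  constructor
  · rintro ⟨z, hz, rfl⟩
    simpa using hz
  · intro h
    exact ⟨_, h, by simp⟩

theorem cpt_AA {K : Set (E n)} (hK : GB K) (x : E n) (t : ℝ) : IsCompact (AA K x t) :=
  hK.cpt.image (by fun_prop)

theorem cvx_AA {K : Set (E n)} (hK : GB K) (x : E n) (t : ℝ) : Convex ℝ (AA K x t) := by
  intro y hy z hz a b ha hb hab
  rw [mem_AA] at *
  have := hK.cvx hy hz ha hb hab
  have e : a • y + b • z + (1 - t) • x =
      a • (y + (1 - t) • x) + b • (z + (1 - t) • x) := by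
    have : (1 - t) • x = a • (1 - t) • x + b • (1 - t) • x := by
      rw [← add_smul, hab, one_smul]
    rw [smul_add, smul_add]
    nth_rewrite 1 [this]
    abel
  rw [e]
  exact this

theorem smul_sub {K : Set (E n)} (hK : GB K) {x : E n} (hx : x ∈ K) {t : ℝ} (ht : 0 ≤ t)
    (ht1 : t ≤ 1) : t • K ⊆ AA K x t := by
  rintro _ ⟨k, hk, rfl⟩
  rw [mem_AA]
  exact hK.cvx hk hx ht (by linarith) (by ring)

theorem smul_sub' {K : Set (E n)} (hK : GB K) {x : E n} (hx : x ∈ K) {t : ℝ} (ht : 0 ≤ t)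
    (ht1 : t ≤ 1) : t • sy K ⊆ AA K x t ∩ -(AA K x t) := by
  rintro _ ⟨k, hk, rfl⟩
  refine ⟨smul_sub hK hx ht ht1 ⟨k, hk.1, rfl⟩, ?_⟩
  rw [Set.mem_neg]
  exact smul_sub hK hx ht ht1 ⟨-k, hk.2, by simp⟩

theorem int_smul {K : Set (E n)} (h0 : (0 : E n) ∈ interior K) {t : ℝ} (ht : 0 < t) {B : Set (E n)}
    (hB : t • K ⊆ B) : (0 : E n) ∈ interior B := by
  rw [mem_interior]
  refine ⟨t • interior K, (smul_set_mono interior_subset).trans hB,
    isOpen_interior.smul₀ ht.ne', ⟨0, h0, by simp⟩⟩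

theorem vol_M (K : Set (E n)) (x : E n) (t : ℝ) :
    volume.real (AA K x t ∩ -(AA K x t)) = mac K ((1 - t) • x) := by
  unfold mac
  have e : AA K x t ∩ -(AA K x t) =
      (fun y => y + (1 - t) • x) ⁻¹' {y | y ∈ K ∧ (2 : ℝ) • (1 - t) • x - y ∈ K} := by
    ext y
    simp only [mem_inter_iff, Set.mem_neg, mem_AA, mem_preimage, mem_ofPred_eq]
    have e2 : (2 : ℝ) • (1 - t) • x - (y + (1 - t) • x) = -y + (1 - t) • x := by
      rw [two_smul]
      abel
    rw [e2]
  rw [e, Measure.real, Measure.real, measure_preimage_add_right]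

end DCAPG_

open DCAPG_ in
theorem p_DCAPG (hWC : T_WCG) (hSUPP : T_SUPPG) (hSYB : T_SYB) (hBM : T_BM) (hSL : T_SL)
    (hDIFF : T_DIFF) (hPOLB : T_POLB) (hPOLD : T_POLD) (hSHELL : T_SHELLG) (hPEEL : T_PEELG) :
    T_DCAPG := by
  intro n K x t hn hK hx htn ht2 hW
  have hn0 : (0 : ℝ) < n := by exact_mod_cast hn
  have ht : 0 < t := lt_of_lt_of_le (by positivity) htn
  have ht1 : t ≤ 1 := by linarith
  obtain ⟨hV, hR, hR0, hW0, hmac, -, -, -⟩ := hWC n K hn hK
  obtain ⟨hSb, hSv, -, hpsub, hpKc, -, -⟩ := hSYB n K hK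
  obtain ⟨a, g, hg, hgx, ha1, ha2⟩ := hSUPP n K x t hn hK hx ht.le hW
  obtain ⟨h0S, hpS⟩ := hPOLB.2 n (sy K) hSb
  -- the point p
  have hpmem : (1 - t) • x ∈ K := by
    have := hK.cvx hx (interior_subset hK.zero) (by linarith : (0 : ℝ) ≤ 1 - t) ht.le (by ring)
    simpa using this
  have hWp : W K ((1 - t) • x) ≤ (2 * t) * W K 0 := by
    have h1 := hg _ hpmem
    rw [inner_smul_right] at h1
    nlinarith
  set A := AA K x t with hA
  set M := A ∩ -A with hM
  have hMvol : volume.real M ≤ (2 * t) ^ n * volume.real (sy K) := by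
    have h0 : volume.real (sy K) = volume.real K * W K 0 ^ n := by
      rw [← hR0, hmac]
    rw [hM, hA, vol_M, hmac, h0]
    calc volume.real K * W K ((1 - t) • x) ^ n ≤ volume.real K * ((2 * t) * W K 0) ^ n := by
          gcongr
          exact hW0 _
      _ = _ := by rw [mul_pow]; ring
  have hAc : IsCompact A := cpt_AA hK x t
  have hAv : Convex ℝ A := cvx_AA hK x t
  have hA0 : (0 : E n) ∈ interior A := int_smul hK.zero ht (smul_sub hK hx ht.le ht1)
  have hM0 : (0 : E n) ∈ interior M := int_smul h0S ht (smul_sub' hK hx ht.le ht1)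
  have hMb : SymBody M := by
    refine ⟨hAc.inter hAc.neg, hAv.inter hAv.neg, ⟨0, hM0⟩, fun y hy => ⟨?_, ?_⟩⟩
    · exact hy.2
    · rw [Set.mem_neg, neg_neg]
      exact hy.1
  obtain ⟨hpAc, hpAv, hpA0⟩ := hPOLB.1 n A hAc hAv hA0
  have hbm := hBM n M hn hMb
  have hsl := hSL n (sy K) hn hSb
  -- the polar of M
  have hPM : volume.real (pol M) ≤ 4 ^ n * volume.real (pol A) := by
    refine le_trans (measureReal_mono (hPOLD n A hAc hAv hA0) ?_) (hDIFF n (pol A) hpAc hpAv ⟨0, hpA0⟩)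
    rw [sub_eq_add_neg]
    exact (hpAc.add hpAc.neg).measure_lt_top.ne
  have hPS : volume.real (pol K) ≤ volume.real (pol (sy K)) :=
    measureReal_mono hpsub hpS.cpt.measure_lt_top.ne
  have hsl2 : volume.real (sy K) * volume.real (pol K) ≤ (713200 / n) ^ n :=
    le_trans (by gcongr) hsl
  set vK := volume.real (sy K)
  set vP := volume.real (pol K)
  set vM := volume.real M
  set vPM := volume.real (pol M)
  set vPA := volume.real (pol A)
  have hvP : 0 ≤ vP := measureReal_nonneg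
  have hvPM : 0 ≤ vPM := measureReal_nonneg
  have hvPA : 0 ≤ vPA := measureReal_nonneg
  have h1 : (3 / (8 * n) : ℝ) ^ n * vP ≤ ((2 * t) * (713200 / n)) ^ n * vPM := by
    calc (3 / (8 * n) : ℝ) ^ n * vP ≤ (vM * vPM) * vP := by gcongr
      _ ≤ (((2 * t) ^ n * vK) * vPM) * vP := by gcongr
      _ = (2 * t) ^ n * vPM * (vK * vP) := by ring
      _ ≤ (2 * t) ^ n * vPM * (713200 / n) ^ n := by gcongr
      _ = _ := by rw [mul_pow (2 * t)]; ring
  have h2 : (3 / (8 * n) : ℝ) ^ n * vP ≤ ((2 * t) * (713200 / n) * 4) ^ n * vPA := by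
    refine h1.trans ?_
    calc ((2 * t) * (713200 / n)) ^ n * vPM ≤ ((2 * t) * (713200 / n)) ^ n * (4 ^ n * vPA) := by
          gcongr
      _ = _ := by rw [mul_pow _ (4 : ℝ)]; ring
  have hcc : (0 : ℝ) < cc := by unfold cc; norm_num
  have h3 : (cc / t) ^ n * vP ≤ vPA := by
    have hpos : (0 : ℝ) < ((2 * t) * (713200 / n) * 4) ^ n := by positivity
    refine le_of_mul_le_mul_left ?_ hpos
    refine le_trans ?_ h2
    rw [← mul_assoc, ← mul_pow]
    gcongr
    have e : (2 * t) * (713200 / n) * 4 * (cc / t) = (8 * 713200 * cc) / n := by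
      field_simp
      ring
    rw [e]
    have e2 : (3 / (8 * n) : ℝ) = (3 / 8) / n := by
      field_simp
    rw [e2]
    gcongr
    unfold cc
    norm_num
  -- the shell
  have hs : 0 < 4 * t / cc := by positivity
  have h4 := hSHELL n K x t (4 * t / cc) hK hx ht ht2 hs
  have h5 : (cc / t) ^ n * vP ≤ (2 / (4 * t / cc)) ^ n * vP +
      (1 / t) ^ n * volume.real (shull K x (4 * t / cc)) := h3.trans h4
  have e6 : 2 / (4 * t / cc) = (1 / 2) * (cc / t) := by
    field_simp
    ring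
  have h7 : ((1 : ℝ) / 2) ^ n ≤ 1 / 2 := by
    calc ((1 : ℝ) / 2) ^ n ≤ (1 / 2) ^ 1 :=
          pow_le_pow_of_le_one (by norm_num) (by norm_num) hn
      _ = 1 / 2 := by norm_num
  have h8 : 1 / 2 * ((cc / t) ^ n * vP) ≤ (1 / t) ^ n * volume.real (shull K x (4 * t / cc)) := by
    rw [e6, mul_pow, mul_assoc] at h5
    have : (1 / 2) ^ n * ((cc / t) ^ n * vP) ≤ 1 / 2 * ((cc / t) ^ n * vP) := by gcongr
    linarith
  have h9 : 1 / 2 * (cc ^ n * vP) ≤ volume.real (shull K x (4 * t / cc)) := by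
    have hpos : (0 : ℝ) < (1 / t) ^ n := by positivity
    refine le_of_mul_le_mul_left ?_ hpos
    refine le_trans (le_of_eq ?_) h8
    rw [div_pow, div_pow, one_pow]
    ring
  have h10 := hPEEL n K x (4 * t / cc) hn hK hx hs.le
  have h11 : volume.real (dcap K x (4 * t / cc + 1 / n)) ≤
      volume.real (dcap K x ((4 / cc + 1) * t)) := by
    refine measureReal_mono ?_ ?_
    · rintro y ⟨hy1, hy2⟩
      refine ⟨hy1, hy2.trans ?_⟩
      have : (4 / cc + 1) * t = 4 * t / cc + t := by ring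
      rw [this]
      linarith
    · have : dcap K x ((4 / cc + 1) * t) ⊆ pol K := fun y hy => hy.1
      exact ((measure_mono this).trans_lt hpKc.measure_lt_top).ne
  linarith

end Pool.Agent.Rog
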