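import Pool.Agent.Rog.Targets

/-!
# The difference body

The volume of `A - A` is at most `4 ^ n` times the volume of `A`.
-/

set_option autoImplicit false

open MeasureTheory Set
open scoped Pointwise ENNReal

namespace Pool.Agent.Rog

namespace DIFF_

variable {n : ℕ}

theorem sec1 {A : Set (E n)} (hA : MeasurableSet A) (u : E n) :
    volume {z : E n | u - z ∈ A} = volume A :=
  (Measure.measurePreserving_sub_left (volume : Measure (E n)) u).measure_preimage
    hA.nullMeasurableSet

theorem sec2 {A : Set (E n)} (hc : Convex ℝ A) {z : E n} (hz : z ∈ (1 / 2 : ℝ) • (A - A)) :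
    ENNReal.ofReal ((1 / 2) ^ n) * volume A ≤ volume {u : E n | u ∈ A ∧ u - z ∈ A} := by
  obtain ⟨w, hw, rfl⟩ := hz
  obtain ⟨p, hp, q, hq, rfl⟩ := hw
  have h1 : (fun u => (1 / 2 : ℝ) • p + u) '' ((1 / 2 : ℝ) • A) ⊆
      {u : E n | u ∈ A ∧ u - (1 / 2 : ℝ) • (p - q) ∈ A} := by
    rintro _ ⟨_, ⟨a, ha, rfl⟩, rfl⟩
    constructor
    · exact hc hp ha (by norm_num) (by norm_num) (by norm_num)
    · have h2 : (1 / 2 : ℝ) • p + (fun x => (1 / 2 : ℝ) • x) a - (1 / 2 : ℝ) • (p - q) =
        (1 / 2 : ℝ) • q + (1 / 2 : ℝ) • a := by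
        beta_reduce
        rw [smul_sub]
        abel
      change (1 / 2 : ℝ) • p + (fun x => (1 / 2 : ℝ) • x) a - (1 / 2 : ℝ) • (p - q) ∈ A
      rw [h2]
      exact hc hq ha (by norm_num) (by norm_num) (by norm_num)
  refine le_trans (le_of_eq ?_) (measure_mono h1)
  rw [image_add_left, measure_preimage_add, Measure.addHaar_smul, finrank_euclideanSpace_fin,
    abs_of_nonneg (by positivity)]

theorem main (A : Set (E n)) (hA : IsCompact A) (hc : Convex ℝ A) :
    ENNReal.ofReal ((1 / 2) ^ n) * volume A * (ENNReal.ofReal ((1 / 2) ^ n) * volume (A - A)) ≤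
      volume A * volume A := by
  have hm : MeasurableSet {p : E n × E n | p.1 ∈ A ∧ p.1 - p.2 ∈ A} := by
    have h1 : IsClosed {p : E n × E n | p.1 ∈ A ∧ p.1 - p.2 ∈ A} :=
      (hA.isClosed.preimage continuous_fst).inter
        (hA.isClosed.preimage (continuous_fst.sub continuous_snd))
    exact h1.measurableSet
  have h1 : (volume : Measure (E n × E n)) {p : E n × E n | p.1 ∈ A ∧ p.1 - p.2 ∈ A} =
      volume A * volume A := by
    rw [Measure.volume_eq_prod, Measure.prod_apply hm]
    have h2 : ∀ u : E n, volume (Prod.mk u ⁻¹' {p : E n × E n | p.1 ∈ A ∧ p.1 - p.2 ∈ A}) =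
        A.indicator (fun _ => volume A) u := by
      intro u
      by_cases hu : u ∈ A
      · rw [indicator_of_mem hu]
        have h3 : Prod.mk u ⁻¹' {p : E n × E n | p.1 ∈ A ∧ p.1 - p.2 ∈ A} =
            {z : E n | u - z ∈ A} := by
          ext z
          simp [hu]
        rw [h3, sec1 hA.measurableSet]
      · rw [indicator_of_notMem hu]
        have h3 : Prod.mk u ⁻¹' {p : E n × E n | p.1 ∈ A ∧ p.1 - p.2 ∈ A} = ∅ := by
          ext z
          simp [hu]
        rw [h3, measure_empty]
    rw [lintegral_congr h2, lintegral_indicator_const hA.measurableSet]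
  rw [← h1, Measure.volume_eq_prod, Measure.prod_apply_symm hm]
  have hcm : MeasurableSet ((1 / 2 : ℝ) • (A - A)) :=
    by
    have h5 : IsCompact (A - A) := by
      rw [sub_eq_add_neg]
      exact hA.add hA.neg
    exact (h5.smul _).measurableSet
  have h4 : ENNReal.ofReal ((1 / 2) ^ n) * volume (A - A) =
      volume ((1 / 2 : ℝ) • (A - A)) := by
    rw [Measure.addHaar_smul, finrank_euclideanSpace_fin, abs_of_nonneg (by positivity)]
  rw [h4, ← setLIntegral_const]
  refine le_trans ?_ (setLIntegral_le_lintegral ((1 / 2 : ℝ) • (A - A)) _)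
  refine setLIntegral_mono' hcm fun z hz => ?_
  exact sec2 hc hz

end DIFF_

theorem p_DIFF : T_DIFF := by
  intro n A hA hc hi
  have h1 := DIFF_.main A hA hc
  have hpos : 0 < volume.real A := by
    rw [measureReal_def]
    exact ENNReal.toReal_pos (Measure.measure_pos_of_nonempty_interior volume hi).ne'
      hA.measure_lt_top.ne
  have hfin : volume A * volume A ≠ ∞ :=
    ENNReal.mul_ne_top hA.measure_lt_top.ne hA.measure_lt_top.ne
  have h2 := ENNReal.toReal_mono hfin h1
  rw [ENNReal.toReal_mul, ENNReal.toReal_mul, ENNReal.toReal_mul, ENNReal.toReal_mul,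
    ENNReal.toReal_ofReal (by positivity)] at h2
  change (1 / 2) ^ n * volume.real A * ((1 / 2) ^ n * volume.real (A - A)) ≤
    volume.real A * volume.real A at h2
  have h3 : (1 / 2 : ℝ) ^ n * (1 / 2) ^ n * volume.real (A - A) ≤ volume.real A := by
    refine le_of_mul_le_mul_right ?_ hpos
    linarith
  have h4 : (4 : ℝ) ^ n * ((1 / 2 : ℝ) ^ n * (1 / 2) ^ n) = 1 := by
    rw [← mul_pow, ← mul_pow]
    norm_num
  calc volume.real (A - A) = 4 ^ n * ((1 / 2 : ℝ) ^ n * (1 / 2) ^ n * volume.real (A - A)) := by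
        rw [← mul_assoc, h4, one_mul]
    _ ≤ 4 ^ n * volume.real A := mul_le_mul_of_nonneg_left h3 (by positivity)

end Pool.Agent.Rog
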