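import Pool.Agent.Rog.Targets

/-!
# ROG-EB: the Bourgain-Milman inequality in integral form
-/

set_option autoImplicit false

open MeasureTheory Set Filter Topology
open scoped Pointwise Real

namespace Pool.Agent.Rog

namespace EB_

variable {n : ℕ} {Q : E n → ℝ} {G : E n → E n}

theorem gauss_int {b : ℝ} (hb : 0 < b) : Integrable (fun v : E n => Real.exp (-(b * ‖v‖ ^ 2))) := by
  have h := (GaussianFourier.integrable_cexp_neg_mul_sq_norm_add (b := (b : ℂ))
    (by simpa using hb) 0 (0 : E n)).norm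
  refine h.congr (Filter.Eventually.of_forall fun v => ?_)
  beta_reduce
  rw [Complex.norm_exp]
  congr 1
  have : (-(b : ℂ) * (‖v‖ : ℂ) ^ 2 + 0 * (inner ℝ (0 : E n) v : ℝ)) =
      ((-(b * ‖v‖ ^ 2) : ℝ) : ℂ) := by
    push_cast
    ring
  rw [this, Complex.ofReal_re]

theorem contQ (h : Nice Q G) : Continuous Q :=
  continuous_iff_continuousAt.2 fun x => (h.grad x).continuousAt

theorem Q_zero (h : Nice Q G) : Q 0 = 0 := by
  have := h.homQ 0 0 le_rfl
  simpa using this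

theorem G_zero (h : Nice Q G) : G 0 = 0 := by
  have := h.homG 0 0 le_rfl
  simpa using this

theorem Q_nonneg (h : Nice Q G) (x : E n) : 0 ≤ Q x := by
  obtain ⟨c, hc, hl⟩ := h.lower
  exact (by positivity : (0 : ℝ) ≤ c * (‖x‖ ^ 2 + ‖G x‖ ^ 2)).trans (hl x)

theorem Q_pos (h : Nice Q G) {x : E n} (hx : x ≠ 0) : 0 < Q x := by
  obtain ⟨c, hc, hl⟩ := h.lower
  have h1 : 0 < ‖x‖ := norm_pos_iff.2 hx
  exact (by positivity : (0 : ℝ) < c * (‖x‖ ^ 2 + ‖G x‖ ^ 2)).trans_le (hl x)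

theorem sqrt_sub (h : Nice Q G) (x a : E n) : √(Q (x + a)) ≤ √(Q x) + √(Q a) := by
  have h1 : Q (x + a) ≤ (√(Q x) + √(Q a)) * √(Q (x + a)) := by
    calc Q (x + a) = inner ℝ (x + a) (G (x + a)) := (h.inner_self _).symm
      _ = inner ℝ x (G (x + a)) + inner ℝ a (G (x + a)) := inner_add_left _ _ _
      _ ≤ √(Q x) * √(Q (x + a)) + √(Q a) * √(Q (x + a)) :=
        add_le_add (h.holder _ _) (h.holder _ _)
      _ = _ := by ring
  have h2 : √(Q (x + a)) * √(Q (x + a)) = Q (x + a) := Real.mul_self_sqrt (Q_nonneg h _)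
  rcases (Real.sqrt_nonneg (Q (x + a))).eq_or_lt with h3 | h3
  · rw [← h3]
    positivity
  · exact le_of_mul_le_mul_right (h2.le.trans h1) h3

theorem Q_add (h : Nice Q G) (x a : E n) : Q (x + a) ≤ 2 * (Q x + Q a) := by
  have h1 := sqrt_sub h x a
  have h2 := Real.sq_sqrt (Q_nonneg h (x + a))
  have h3 := Real.sq_sqrt (Q_nonneg h x)
  have h4 := Real.sq_sqrt (Q_nonneg h a)
  have h5 := Real.sqrt_nonneg (Q (x + a))
  have h6 := Real.sqrt_nonneg (Q x)
  have h7 := Real.sqrt_nonneg (Q a)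
  nlinarith [sq_nonneg (√(Q x) - √(Q a)), mul_self_le_mul_self h5 h1]

theorem exists_rad (h : Nice Q G) : ∃ R : ℝ, 0 < R ∧ ∀ z, Q z ≤ 1 → ‖z‖ ≤ R := by
  obtain ⟨c, hc, hl⟩ := h.lower
  refine ⟨√(1 / c), by positivity, fun z hz => ?_⟩
  apply Real.le_sqrt_of_sq_le
  rw [le_div_iff₀ hc]
  have := hl z
  nlinarith [sq_nonneg ‖G z‖, mul_nonneg hc.le (sq_nonneg ‖G z‖)]

theorem mem_zero (h : Nice Q G) (y : E n) : (0 : ℝ) ∈ {r | ∃ z, Q z ≤ 1 ∧ r = inner ℝ z y} :=
  ⟨0, by rw [Q_zero h]; exact zero_le_one, by simp⟩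

theorem bdd (h : Nice Q G) (y : E n) : BddAbove {r | ∃ z, Q z ≤ 1 ∧ r = inner ℝ z y} := by
  obtain ⟨R, hR, hz⟩ := exists_rad h
  refine ⟨R * ‖y‖, ?_⟩
  rintro r ⟨z, hz1, rfl⟩
  exact (real_inner_le_norm z y).trans (mul_le_mul_of_nonneg_right (hz z hz1) (norm_nonneg _))

theorem le_dn (h : Nice Q G) {z : E n} (hz : Q z ≤ 1) (y : E n) : inner ℝ z y ≤ dn Q y :=
  le_csSup (bdd h y) ⟨z, hz, rfl⟩

theorem dn_le (h : Nice Q G) {y : E n} {r : ℝ} (hr : ∀ z, Q z ≤ 1 → inner ℝ z y ≤ r) :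
    dn Q y ≤ r := by
  apply csSup_le ⟨0, mem_zero h y⟩
  rintro s ⟨z, hz, rfl⟩
  exact hr z hz

theorem dn_nonneg (h : Nice Q G) (y : E n) : 0 ≤ dn Q y := le_csSup (bdd h y) (mem_zero h y)

theorem dn_add (h : Nice Q G) (y y' : E n) : dn Q (y + y') ≤ dn Q y + dn Q y' := by
  apply dn_le h
  intro z hz
  rw [inner_add_right]
  exact add_le_add (le_dn h hz y) (le_dn h hz y')

theorem dn_neg (h : Nice Q G) (y : E n) : dn Q (-y) = dn Q y := by
  have key : ∀ y, dn Q (-y) ≤ dn Q y := by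
    intro y
    apply dn_le h
    intro z hz
    rw [inner_neg_right, ← inner_neg_left]
    exact le_dn h (by rw [h.even]; exact hz) y
  refine le_antisymm (key y) ?_
  have := key (-y)
  rwa [neg_neg] at this

theorem dn_cont (h : Nice Q G) : Continuous (dn Q) := by
  obtain ⟨R, hR, hz⟩ := exists_rad h
  have hle : ∀ y, dn Q y ≤ R * ‖y‖ := by
    intro y
    apply dn_le h
    intro z hz1
    exact (real_inner_le_norm z y).trans (mul_le_mul_of_nonneg_right (hz z hz1) (norm_nonneg _))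
  have key : ∀ x y, dn Q x ≤ dn Q y + R * dist x y := by
    intro x y
    have h1 := dn_add h y (x - y)
    rw [add_sub_cancel] at h1
    rw [dist_eq_norm]
    exact h1.trans (by linarith [hle (x - y)])
  exact (LipschitzWith.of_le_add_mul ⟨R, hR.le⟩ key).continuous

theorem dn_lower (h : Nice Q G) : ∃ c : ℝ, 0 < c ∧ ∀ y, c * ‖y‖ ^ 2 ≤ dn Q y ^ 2 := by
  obtain ⟨C, hC, hu⟩ := h.upper
  refine ⟨1 / C, by positivity, fun y => ?_⟩
  rcases eq_or_ne y 0 with rfl | hy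
  · simp only [norm_zero]
    norm_num
    positivity
  have h0 : 0 < ‖y‖ := norm_pos_iff.2 hy
  have h1 : Q ((1 / (√C * ‖y‖)) • y) ≤ 1 := by
    refine (hu _).1.trans ?_
    rw [norm_smul, Real.norm_of_nonneg (by positivity), mul_pow, div_pow, mul_pow,
      Real.sq_sqrt hC.le]
    have : C * (1 ^ 2 / (C * ‖y‖ ^ 2) * ‖y‖ ^ 2) = 1 := by
      field_simp
    exact this.le
  have h2 := le_dn h h1 y
  rw [inner_smul_left, real_inner_self_eq_norm_sq] at h2
  have h3 : (starRingEnd ℝ) (1 / (√C * ‖y‖)) * ‖y‖ ^ 2 = ‖y‖ / √C := by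
    simp only [conj_trivial]
    field_simp
  rw [h3] at h2
  have h4 : (‖y‖ / √C) ^ 2 ≤ dn Q y ^ 2 := by
    gcongr
  rw [div_pow, Real.sq_sqrt hC.le] at h4
  calc 1 / C * ‖y‖ ^ 2 = ‖y‖ ^ 2 / C := by ring
    _ ≤ _ := h4

theorem dn_G (h : Nice Q G) (x : E n) : dn Q (G x) ≤ √(Q x) := by
  apply dn_le h
  intro z hz
  refine (h.holder z x).trans ?_
  have h1 : √(Q z) ≤ 1 := by
    rw [Real.sqrt_le_one]
    exact hz
  calc √(Q z) * √(Q x) ≤ 1 * √(Q x) := by gcongr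
    _ = _ := one_mul _

theorem dn_sub (h : Nice Q G) (x a : E n) : dn Q (G x - G a) ^ 2 ≤ 2 * (Q x + Q a) := by
  have h1 : dn Q (G x - G a) ≤ √(Q x) + √(Q a) := by
    have := dn_add h (G x) (-G a)
    rw [← sub_eq_add_neg, dn_neg h] at this
    exact this.trans (add_le_add (dn_G h x) (dn_G h a))
  have h0 := dn_nonneg h (G x - G a)
  have h3 := Real.sq_sqrt (Q_nonneg h x)
  have h4 := Real.sq_sqrt (Q_nonneg h a)
  nlinarith [sq_nonneg (√(Q x) - √(Q a)), mul_self_le_mul_self h0 h1]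

theorem intQ (h : Nice Q G) : Integrable (fun x => Real.exp (-Q x)) := by
  obtain ⟨c, hc, hl⟩ := h.lower
  refine (gauss_int (n := n) hc).mono' (Real.continuous_exp.comp (contQ h).neg).aestronglyMeasurable
    (Filter.Eventually.of_forall fun x => ?_)
  rw [Real.norm_of_nonneg (Real.exp_pos _).le]
  apply Real.exp_le_exp.2
  have := hl x
  nlinarith [mul_nonneg hc.le (sq_nonneg ‖G x‖)]

theorem intdn (h : Nice Q G) : Integrable (fun x => Real.exp (-(dn Q x) ^ 2)) := by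
  obtain ⟨c, hc, hl⟩ := dn_lower h
  refine (gauss_int (n := n) hc).mono'
    (Real.continuous_exp.comp ((dn_cont h).pow 2).neg).aestronglyMeasurable
    (Filter.Eventually.of_forall fun x => ?_)
  rw [Real.norm_of_nonneg (Real.exp_pos _).le]
  apply Real.exp_le_exp.2
  have := hl x
  linarith

theorem null_axes (hn : 1 ≤ n) : ∀ᵐ p : E n × E n, p.1 ≠ 0 ∧ p.2 ≠ 0 := by
  have hnt : Nontrivial (E n) := by
    have : 0 < Module.finrank ℝ (E n) := by
      rw [finrank_euclideanSpace_fin]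
      omega
    exact Module.nontrivial_of_finrank_pos this
  have h0 : ∀ᵐ x : E n, x ≠ 0 := by
    rw [ae_iff]
    simp
  have h1 : ∀ᵐ p : E n × E n ∂(volume : Measure (E n)).prod volume, p.1 ≠ 0 :=
    Measure.quasiMeasurePreserving_fst.ae h0
  have h2 : ∀ᵐ p : E n × E n ∂(volume : Measure (E n)).prod volume, p.2 ≠ 0 :=
    Measure.quasiMeasurePreserving_snd.ae h0
  filter_upwards [h1, h2] with p a b using ⟨a, b⟩

end EB_

open EB_

theorem p_EB (hBZ : T_BZ) (hC : T_COVR) (hSD : T_SD) : T_EB := by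
  intro n Q G hn h
  have hf : Integrable (fun p : E n × E n => Real.exp (-Q p.1) * Real.exp (-(dn Q p.2) ^ 2)) :=
    (intQ h).mul_prod (intdn h)
  obtain ⟨h1, h2⟩ := hC n Q G hn h _ hf
  have h3 : ∫ p : E n × E n, Real.exp (-Q p.1) * Real.exp (-(dn Q p.2) ^ 2) =
      (∫ x, Real.exp (-Q x)) * ∫ y, Real.exp (-(dn Q y) ^ 2) :=
    integral_prod_mul (fun x => Real.exp (-Q x)) (fun y => Real.exp (-(dn Q y) ^ 2))
  rw [← h3, ← h2]
  have hDD : ∀ p, 0 ≤ DD G p := fun p => abs_nonneg _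
  -- scaling
  have h4 := hBZ n Q G hn h
  have h5 : ∫ p : E n × E n, DD G ((2 : ℝ) • p) *
      Real.exp (-(Q ((2 : ℝ) • p).1 + Q ((2 : ℝ) • p).2)) =
      (4 ^ n)⁻¹ * ∫ p : E n × E n, DD G p * Real.exp (-(Q p.1 + Q p.2)) := by
    have : (volume : Measure (E n × E n)).IsAddHaarMeasure :=
      inferInstanceAs (((volume : Measure (E n)).prod (volume : Measure (E n))).IsAddHaarMeasure)
    have h6 := Measure.integral_comp_smul (volume : Measure (E n × E n))
      (fun p => DD G p * Real.exp (-(Q p.1 + Q p.2))) (2 : ℝ)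
    rw [h6, Module.finrank_prod, finrank_euclideanSpace_fin, smul_eq_mul]
    congr 1
    rw [abs_of_pos (by positivity)]
    congr 1
    rw [← two_mul, pow_mul]
    norm_num
  have h6 : ∫ p : E n × E n, DD G ((2 : ℝ) • p) *
      Real.exp (-(Q ((2 : ℝ) • p).1 + Q ((2 : ℝ) • p).2)) ≤
      ∫ p : E n × E n, DD G p * (Real.exp (-Q (Sm G p).1) * Real.exp (-(dn Q (Sm G p).2) ^ 2)) := by
    refine integral_mono_of_nonneg
      (Filter.Eventually.of_forall fun p => mul_nonneg (hDD _) (Real.exp_pos _).le) h1 ?_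
    filter_upwards [null_axes hn] with p hp
    have e1 : DD G ((2 : ℝ) • p) = DD G p := by
      have := (hSD n Q G h).2 p.1 p.2 2 2 hp.1 hp.2 (by norm_num) (by norm_num)
      exact this
    rw [e1]
    refine mul_le_mul_of_nonneg_left ?_ (hDD p)
    rw [← Real.exp_add]
    apply Real.exp_le_exp.2
    have e2 : Q ((2 : ℝ) • p).1 = 4 * Q p.1 := by
      rw [Prod.smul_fst, h.homQ _ _ (by norm_num)]
      norm_num
    have e3 : Q ((2 : ℝ) • p).2 = 4 * Q p.2 := by
      rw [Prod.smul_snd, h.homQ _ _ (by norm_num)]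
      norm_num
    rw [e2, e3]
    have e4 := Q_add h p.1 p.2
    have e5 := dn_sub h p.1 p.2
    unfold Sm
    beta_reduce
    simp only
    linarith
  refine le_trans ?_ h6
  rw [h5]
  have h7 : (π / 2) ^ n = (4 ^ n)⁻¹ * (2 * π) ^ n := by
    rw [← inv_pow, ← mul_pow]
    congr 1
    ring
  rw [h7]
  gcongr

end Pool.Agent.Rog
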