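import Pool.Agent.Rog.TargetsG

set_option autoImplicit false

/-! The covering theorem for general bodies whose symmetric part is not too small. -/

open MeasureTheory Set
open scoped Pointwise

namespace Pool.Agent.Rog

namespace FING_

lemma smul_int {n : ℕ} {K : Set (E n)} (hcv : Convex ℝ K) (h0 : (0 : E n) ∈ interior K) (c : ℝ)
    (hc0 : 0 ≤ c) (hc1 : c < 1) {k : E n} (hk : k ∈ K) : c • k ∈ interior K := by
  have := hcv.combo_interior_self_mem_interior h0 hk (a := 1 - c) (b := c) (by linarith) hc0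
    (by ring)
  simpa using this

lemma quarter (n : ℕ) (hn : 2 ≤ n) : (1 : ℝ) / 4 ≤ (1 - 1 / (n : ℝ)) ^ n := by
  have hn' : (2 : ℝ) ≤ n := by exact_mod_cast hn
  have hn0 : (0 : ℝ) < n := by linarith
  have h1 : (1 : ℝ) / n ≤ 1 / 2 := one_div_le_one_div_of_le (by norm_num) hn'
  have h2 := one_add_mul_self_le_rpow_one_add (s := -(1 / (n : ℝ))) (by linarith)
    (p := (n : ℝ) / 2) (by linarith)
  have h3 : 1 + (n : ℝ) / 2 * -(1 / (n : ℝ)) = 1 / 2 := by field_simp; norm_num
  rw [h3] at h2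
  have h4 : (0 : ℝ) ≤ 1 + -(1 / (n : ℝ)) := by linarith
  have h5 : ((1 + -(1 / (n : ℝ))) ^ ((n : ℝ) / 2)) ^ 2 = (1 - 1 / (n : ℝ)) ^ n := by
    rw [← Real.rpow_natCast, ← Real.rpow_mul h4, ← sub_eq_add_neg]
    have : (n : ℝ) / 2 * ((2 : ℕ) : ℝ) = (n : ℝ) := by push_cast; ring
    rw [this, Real.rpow_natCast]
  rw [← h5]
  nlinarith

lemma log_c3 : 0 < 200 * c3 ∧ Real.log (200 * c3) ≤ 45 := by
  have h1 : 200 * c3 = 13107200409600000000 := by
    rw [c3, cc]
    norm_num
  rw [h1]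
  refine ⟨by norm_num, ?_⟩
  rw [Real.log_le_iff_le_exp (by norm_num)]
  have h2 : (2.7 : ℝ) ≤ Real.exp 1 := by
    have := Real.exp_one_gt_d9
    linarith
  calc (13107200409600000000 : ℝ) ≤ 2.7 ^ 45 := by norm_num
    _ ≤ Real.exp 1 ^ 45 := by gcongr
    _ = Real.exp 45 := by rw [← Real.exp_nat_mul]; norm_num

/-- the number of steps of the greedy algorithm -/
lemma steps {n m : ℕ} {q H : ℝ} (hn : 2 ≤ n) (hq : q = 1 - 1 / (n : ℝ)) (hH : 1 ≤ H)
    (hm : 4 * 2 ^ n * Real.log H < m) : H * (1 - (q / (1 + q)) ^ n) ^ m < 1 := by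
  have hn' : (2 : ℝ) ≤ n := by exact_mod_cast hn
  have h1 : (1 : ℝ) / n ≤ 1 / 2 := one_div_le_one_div_of_le (by norm_num) hn'
  have h1' : (0 : ℝ) < 1 / n := by positivity
  have hq0 : 0 < q := by linarith
  have hq1 : q ≤ 1 := by linarith
  have hqq : 1 / 4 ≤ q ^ n := by rw [hq]; exact quarter n hn
  set δ := (q / (1 + q)) ^ n with hδ
  have hr0 : 0 ≤ q / (1 + q) := by positivity
  have hr1 : q / (1 + q) ≤ 1 := by
    rw [div_le_one (by linarith)]
    linarith
  have hδ1 : δ ≤ 1 := pow_le_one₀ hr0 hr1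
  have hδ2 : 1 / (4 * 2 ^ n) ≤ δ := by
    have h2 : q / 2 ≤ q / (1 + q) := by
      apply div_le_div_of_nonneg_left hq0.le (by linarith) (by linarith)
    calc 1 / (4 * 2 ^ n) = 1 / 4 / 2 ^ n := by rw [div_div]
      _ ≤ q ^ n / 2 ^ n := by gcongr
      _ = (q / 2) ^ n := by rw [div_pow]
      _ ≤ δ := by rw [hδ]; gcongr
  have h3 : (1 - δ) ^ m ≤ Real.exp (-(1 / (4 * 2 ^ n) * m)) := by
    calc (1 - δ) ^ m ≤ Real.exp (-δ) ^ m := by
          have := Real.add_one_le_exp (-δ)
          gcongr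
          linarith
      _ = Real.exp (-(δ * m)) := by rw [← Real.exp_nat_mul]; ring_nf
      _ ≤ Real.exp (-(1 / (4 * 2 ^ n) * m)) := by
          apply Real.exp_le_exp.2
          have : 1 / (4 * 2 ^ n) * (m : ℝ) ≤ δ * m := by gcongr
          linarith
  have hH0 : 0 < H := by linarith
  have h4 : Real.log H < 1 / (4 * 2 ^ n) * m := by
    rw [one_div, ← div_eq_inv_mul, lt_div_iff₀ (by positivity)]
    linarith
  calc H * (1 - δ) ^ m ≤ H * Real.exp (-(1 / (4 * 2 ^ n) * m)) := by gcongr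
    _ < H * Real.exp (-Real.log H) := by
        gcongr
    _ = 1 := by rw [Real.exp_neg, Real.exp_log hH0, mul_inv_cancel₀ hH0.ne']

end FING_

open FING_

theorem p_FING (hWCG : T_WCG) (hSYB : T_SYB) (hPACKK : T_PACKK) (hMAXB : T_MAXB) (hNETG : T_NETG)
    (hCONDPG : T_CONDPG) (hDERG : T_DERG) (hGRE : T_GRE) (hSUMG : T_SUMG) : T_FING := by
  classical
  intro n K hn hK hhalf
  have h0 : (0 : E n) ∈ interior K := hK.zero
  obtain ⟨hSM, hw, hwv, -⟩ := hSYB n K hK
  obtain ⟨hvol, hρ0, hmac0, hW0, hmac, -, hWhalf, hW1⟩ := hWCG n K hn hK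
  set v := volume.real K with hv
  set w := volume.real (sy K) with hwdef
  set ρ := W K 0 with hρ
  have hρn : w = v * ρ ^ n := by
    rw [← hmac0]
    exact hmac 0
  have hρ1 : ρ ≤ 1 := hW1 0
  have hρh : 1 / 2 ≤ ρ := by
    by_contra hc
    push Not at hc
    have h1 : ρ ^ n < (1 / 2) ^ n := pow_lt_pow_left₀ hc hρ0.le (by omega)
    have h2 : v * ρ ^ n < v * (1 / 2) ^ n := by gcongr
    linarith
  have hL : Real.log (v / w) = n * Real.log (1 / ρ) := by
    rw [hρn, ← Real.log_pow]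
    congr 1
    rw [one_div, inv_pow]
    field_simp
  have hL0 : 0 ≤ Real.log (v / w) := by
    apply Real.log_nonneg
    rw [le_div_iff₀ hw]
    linarith
  have hlog2 : 0 ≤ Real.log (2 + Real.log (v / w)) := Real.log_nonneg (by linarith)
  have hsub : ∀ k, k ∈ sy K → k ∈ K := fun k hk => hk.1
  rcases Nat.eq_or_lt_of_le hn with h1 | h2
  · -- dimension one
    obtain ⟨X, hXK, hXs, hXn⟩ := hMAXB n (sy K) K (1 / 2) hSM hK.cpt.isBounded (by norm_num)
    have hcard := hPACKK n K X (1 / 2) hK (by norm_num) hXK hXs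
    refine ⟨X, ?_, ?_⟩
    · have h2 : ((2 + (1 : ℝ) / 2) / (1 / 2)) ^ n = 5 := by rw [← h1]; norm_num
      rw [h2] at hcard
      have h3 : (1 / 2 : ℝ) ^ n = 1 / 2 := by rw [← h1]; norm_num
      rw [h3] at hhalf
      have h4 : (X.card : ℝ) ≤ 10 := by
        have h5 : (X.card : ℝ) * w ≤ 10 * w := by linarith
        exact le_of_mul_le_mul_right h5 hw
      have h6 : (2 : ℝ) ^ n * n = 2 := by rw [← h1]; norm_num
      rw [h6]
      linarith
    · intro z hz
      obtain ⟨x, hx, k, hk, hkz⟩ := hXn z hz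
      simp only [Set.mem_iUnion]
      refine ⟨x, hx, z - x, ?_, by simp⟩
      rw [← hkz]
      exact smul_int hK.cvx h0 _ (by norm_num) (by norm_num) (hsub k hk)
  · have hn2 : 2 ≤ n := h2
    have hn' : (2 : ℝ) ≤ n := by exact_mod_cast hn2
    have hn0 : (0 : ℝ) < n := by linarith
    obtain ⟨X, hXK, hXs, hXn⟩ := hMAXB n (sy K) K (1 / (2 * n)) hSM hK.cpt.isBounded
      (by positivity)
    have hcard : (X.card : ℝ) ≤ (5 * n / ρ) ^ n := by
      have h3 := hPACKK n K X (1 / (2 * n)) hK (by positivity) hXK hXs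
      have h4 : (2 + 1 / (2 * (n : ℝ))) / (1 / (2 * n)) = 4 * n + 1 := by
        field_simp
        ring
      rw [h4] at h3
      have h5 : (4 * (n : ℝ) + 1) ^ n ≤ (5 * n) ^ n := by
        gcongr
        linarith
      have h6 : (5 * (n : ℝ) / ρ) ^ n * w = (5 * n) ^ n * v := by
        rw [hρn, div_pow]
        field_simp
      have h7 : (X.card : ℝ) * w ≤ (5 * n / ρ) ^ n * w := by
        rw [h6]
        refine h3.trans ?_
        gcongr
      exact le_of_mul_le_mul_right h7 hw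
    have hsum := hSUMG n X (fun x => W K ((1 / 2 : ℝ) • x)) ρ hn hρh hρ1
      (fun x hx => ⟨hWhalf x (hXK x hx), hW1 _⟩) hcard (by
        intro t Y hY ht ht2 hu
        exact hNETG n K Y t hn hK (fun x hx => ⟨hXK x (hY hx), hu x hx⟩)
          (fun x hx y hy hxy => hXs x (hY hx) y (hY hy) hxy) ht ht2)
    rw [← hL] at hsum
    set H : ℝ := (200 * c3 * (2 + Real.log (v / w))) ^ n with hH
    have hq := quarter n hn2
    have h1n : (1 : ℝ) / n ≤ 1 / 2 := one_div_le_one_div_of_le (by norm_num) hn'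
    have h1n0 : (0 : ℝ) < 1 / n := by positivity
    obtain ⟨z, Y, hzK, hYX, hz, hYc⟩ := hDERG n (4 * n * 2 ^ n) K X
      (fun x => {z | x - z ∈ (1 - 1 / (n : ℝ)) • K})
      (fun x => W K ((1 / 2 : ℝ) • x) ^ n / 4) hK.cpt hvol (by
        intro x hx
        have hu0 : 0 ≤ W K ((1 / 2 : ℝ) • x) := hW0 _
        have hu1 : W K ((1 / 2 : ℝ) • x) ≤ 1 := hW1 _
        have hp0 : 0 ≤ W K ((1 / 2 : ℝ) • x) ^ n := pow_nonneg hu0 n
        have hp1 : W K ((1 / 2 : ℝ) • x) ^ n ≤ 1 := pow_le_one₀ hu0 hu1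
        refine ⟨?_, by positivity, by linarith, ?_⟩
        · have hcl : IsClosed ((1 - 1 / (n : ℝ)) • K) := (hK.cpt.smul _).isClosed
          exact (hcl.preimage (continuous_const.sub continuous_id)).measurableSet
        · refine le_trans ?_ (hCONDPG n K x (1 - 1 / (n : ℝ)) hK.cpt hK.cvx (hXK x hx)
            (by linarith) (by linarith))
          rw [hmac]
          have h6 : 0 ≤ volume.real K * W K ((1 / 2 : ℝ) • x) ^ n := by positivity
          nlinarith [mul_le_mul_of_nonneg_right hq h6])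
    have hYH : (Y.card : ℝ) ≤ H := hYc.trans hsum
    obtain ⟨hc0, hc45⟩ := log_c3
    have h200 : 1 ≤ 200 * c3 := by
      have : 200 * c3 = 13107200409600000000 := by
        rw [c3, cc]
        norm_num
      rw [this]
      norm_num
    have hbase : 1 ≤ 200 * c3 * (2 + Real.log (v / w)) :=
      one_le_mul_of_one_le_of_one_le h200 (by linarith)
    have hH1 : 1 ≤ H := one_le_pow₀ hbase
    set m : ℕ := ⌊4 * 2 ^ n * Real.log H⌋₊ + 1 with hm
    have hlogH0 : 0 ≤ Real.log H := Real.log_nonneg hH1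
    have hm1 : 4 * 2 ^ n * Real.log H < m := by
      rw [hm]
      push_cast
      exact Nat.lt_floor_add_one _
    have hm2 : (m : ℝ) ≤ 4 * 2 ^ n * Real.log H + 1 := by
      rw [hm]
      push_cast
      have := Nat.floor_le (show 0 ≤ 4 * 2 ^ n * Real.log H by positivity)
      linarith
    have hst := steps (m := m) hn2 rfl hH1 hm1
    have hq0 : (0 : ℝ) < 1 - 1 / (n : ℝ) := by linarith
    have hpos : 0 ≤ (1 - ((1 - 1 / (n : ℝ)) / (1 + (1 - 1 / (n : ℝ)))) ^ n) ^ m := by
      apply pow_nonneg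
      have : ((1 - 1 / (n : ℝ)) / (1 + (1 - 1 / (n : ℝ)))) ^ n ≤ 1 := by
        apply pow_le_one₀ (by positivity)
        rw [div_le_one (by linarith)]
        linarith
      linarith
    obtain ⟨z', hz'⟩ := hGRE n m K Y (1 - 1 / (n : ℝ)) hK hq0 (fun x hx => hXK x (hYX hx))
      (lt_of_le_of_lt (mul_le_mul_of_nonneg_right hYH hpos) hst)
    refine ⟨Finset.univ.image z ∪ Finset.univ.image z', ?_, ?_⟩
    · have hc1 : (Finset.univ.image z ∪ Finset.univ.image z').card ≤ 4 * n * 2 ^ n + m := by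
        refine (Finset.card_union_le _ _).trans (Nat.add_le_add ?_ ?_)
        · refine Finset.card_image_le.trans ?_
          simp
        · refine Finset.card_image_le.trans ?_
          simp
      have hc2 : ((Finset.univ.image z ∪ Finset.univ.image z').card : ℝ) ≤
          4 * n * 2 ^ n + m := by exact_mod_cast hc1
      have hlogH : Real.log H ≤ n * (45 + Real.log (2 + Real.log (v / w))) := by
        rw [hH, Real.log_pow, Real.log_mul hc0.ne' (by linarith)]
        gcongr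
      have h2n : (1 : ℝ) ≤ 2 ^ n := one_le_pow₀ (by norm_num)
      have h3 : 4 * 2 ^ n * Real.log H ≤
          4 * 2 ^ n * (n * (45 + Real.log (2 + Real.log (v / w)))) := by gcongr
      have h4 : (1 : ℝ) ≤ 2 ^ n * n := one_le_mul_of_one_le_of_one_le h2n (by linarith)
      calc ((Finset.univ.image z ∪ Finset.univ.image z').card : ℝ) ≤ 4 * n * 2 ^ n + m := hc2
        _ ≤ 4 * n * 2 ^ n + (4 * 2 ^ n * (n * (45 + Real.log (2 + Real.log (v / w)))) + 1) := by
            linarith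
        _ ≤ 2 ^ n * n * (200 + 4 * Real.log (2 + Real.log (v / w))) := by nlinarith
    · intro y hy
      obtain ⟨x, hx, k, hk, hkz⟩ := hXn y hy
      have hzx : ∃ t ∈ Finset.univ.image z ∪ Finset.univ.image z',
          x - t ∈ (1 - 1 / (n : ℝ)) • K := by
        by_cases hxY : x ∈ Y
        · obtain ⟨i, hi⟩ := hz' x hxY
          exact ⟨z' i, Finset.mem_union_right _ (Finset.mem_image_of_mem _ (Finset.mem_univ _)), hi⟩
        · obtain ⟨i, hi⟩ := hz x hx hxY
          exact ⟨z i, Finset.mem_union_left _ (Finset.mem_image_of_mem _ (Finset.mem_univ _)), hi⟩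
      obtain ⟨t, ht, k', hk', hkz'⟩ := hzx
      simp only [Set.mem_iUnion]
      refine ⟨t, ht, y - t, ?_, by simp⟩
      have h7 : y - t ∈ ((1 / (2 * (n : ℝ))) + (1 - 1 / (n : ℝ))) • K := by
        rw [hK.cvx.add_smul (by positivity) (by linarith)]
        have : y - t = (y - x) + (x - t) := by abel
        rw [this]
        exact Set.add_mem_add ⟨k, hsub k hk, hkz⟩ ⟨k', hk', hkz'⟩
      obtain ⟨k2, hk2, hk2z⟩ := h7
      rw [← hk2z]
      have h8 : (1 : ℝ) / (2 * (n : ℝ)) = (1 / (n : ℝ)) / 2 := by field_simp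
      refine smul_int hK.cvx h0 _ ?_ ?_ hk2
      · rw [h8]; linarith
      · rw [h8]; linarith

end Pool.Agent.Rog
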