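import Pool.Agent.Rog.Targets

/-!
# The Gamma function at half integers
-/

set_option autoImplicit false

namespace Pool.Agent.Rog

theorem p_GAM : T_GAM := by
  intro n hn
  have hn0 : (0 : ℝ) < n := by exact_mod_cast hn
  have h := Real.Gamma_mul_add_mul_le_rpow_Gamma_mul_rpow_Gamma (s := 1) (t := (n : ℝ) + 1)
    (a := 1 / 2) (b := 1 / 2) one_pos (by positivity) (by norm_num) (by norm_num) (by norm_num)
  have e : (1 / 2 : ℝ) * 1 + 1 / 2 * ((n : ℝ) + 1) = n / 2 + 1 := by ring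
  rw [e, Real.Gamma_one, Real.one_rpow, one_mul, Real.Gamma_nat_eq_factorial] at h
  have h0 : 0 < Real.Gamma ((n : ℝ) / 2 + 1) := Real.Gamma_pos_of_pos (by positivity)
  have h1 : Real.Gamma ((n : ℝ) / 2 + 1) ^ 2 ≤ (((Nat.factorial n : ℕ) : ℝ) ^ (1 / 2 : ℝ)) ^ 2 :=
    pow_le_pow_left₀ h0.le h 2
  have h2 : (((Nat.factorial n : ℕ) : ℝ) ^ (1 / 2 : ℝ)) ^ 2 = ((Nat.factorial n : ℕ) : ℝ) := by
    rw [← Real.rpow_natCast, ← Real.rpow_mul (by positivity)]
    norm_num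
  rw [h2] at h1
  refine h1.trans ?_
  have h3 : Nat.factorial n ≤ n ^ n := Nat.factorial_le_pow n
  exact_mod_cast h3

end Pool.Agent.Rog
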