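import Pool.Agent.Rog.Targets

/-!
# Target GI: the Gaussian integral
-/

set_option autoImplicit false

open MeasureTheory Set
open scoped Pointwise Real

namespace Pool.Agent.Rog

namespace GI_

lemma cont_gau {n : ℕ} (ε : ℝ) : Continuous (gau (n := n) ε) := by
  unfold gau
  fun_prop

lemma norm_gau {n : ℕ} (ε : ℝ) (p : E n × E n) :
    ‖gau ε p‖ = Real.exp (-(ε / 2) * ‖p.1‖ ^ 2) * Real.exp (-(ε / 2) * ‖p.2‖ ^ 2) := by
  unfold gau
  rw [Complex.norm_exp, ← Real.exp_add]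
  congr 1
  simp only [Complex.sub_re, Complex.mul_re, Complex.I_re, Complex.I_im, Complex.ofReal_re,
    Complex.ofReal_im]
  ring

lemma int1 {n : ℕ} {b : ℝ} (hb : 0 < b) : Integrable fun x : E n => Real.exp (-b * ‖x‖ ^ 2) := by
  have h := (GaussianFourier.integrable_cexp_neg_mul_sq_norm_add (V := E n) (b := (b : ℂ))
    (by simpa using hb) 0 0).norm
  refine h.congr (Filter.Eventually.of_forall fun x => ?_)
  simp only [zero_mul, add_zero]
  rw [Complex.norm_exp]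
  congr 1
  rw [← Complex.ofReal_neg, ← Complex.ofReal_pow, ← Complex.ofReal_mul, Complex.ofReal_re]

lemma integrable_gau {n : ℕ} {ε : ℝ} (hε : 0 < ε) : Integrable (gau (n := n) ε) := by
  have h := (int1 (n := n) (half_pos hε)).mul_prod (int1 (n := n) (half_pos hε))
  rw [Measure.volume_eq_prod]
  refine h.mono' (cont_gau ε).aestronglyMeasurable (Filter.Eventually.of_forall fun p => ?_)
  rw [norm_gau]

lemma cpow_real {x : ℝ} (hx : 0 < x) (n : ℕ) :
    ((x : ℂ)) ^ ((n : ℂ) / 2) = ((x ^ ((n : ℝ) / 2) : ℝ) : ℂ) := by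
  rw [Complex.ofReal_cpow hx.le]
  congr 1
  push_cast
  ring

lemma inner_int {n : ℕ} {ε : ℝ} (hε : 0 < ε) (X : E n) :
    ∫ Y : E n, gau ε (X, Y) = (((2 * π / ε) ^ ((n : ℝ) / 2) : ℝ) : ℂ) *
      Complex.exp (-(((ε / 2 + 1 / (2 * ε) : ℝ)) : ℂ) * (‖X‖ : ℂ) ^ 2) := by
  have hb : 0 < (((ε / 2 : ℝ)) : ℂ).re := by
    rw [Complex.ofReal_re]; exact half_pos hε
  have h1 : ∀ Y : E n, gau ε (X, Y) = Complex.exp (-(((ε / 2 : ℝ)) : ℂ) * (‖X‖ : ℂ) ^ 2) *
      Complex.exp (-(((ε / 2 : ℝ)) : ℂ) * (‖Y‖ : ℂ) ^ 2 + Complex.I * (inner ℝ X Y : ℝ)) := by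
    intro Y
    unfold gau
    rw [← Complex.exp_add]
    congr 1
    push_cast
    ring
  simp_rw [h1]
  rw [integral_const_mul, GaussianFourier.integral_cexp_neg_mul_sq_norm_add hb Complex.I X,
    finrank_euclideanSpace_fin]
  have h2 : ((π : ℂ) / (((ε / 2 : ℝ)) : ℂ)) ^ ((n : ℂ) / 2) =
      (((2 * π / ε) ^ ((n : ℝ) / 2) : ℝ) : ℂ) := by
    rw [← cpow_real (by positivity : 0 < 2 * π / ε) n]
    congr 1
    push_cast
    have : (ε : ℂ) ≠ 0 := by exact_mod_cast hε.ne'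
    field_simp
  rw [h2, mul_left_comm, ← Complex.exp_add]
  congr 2
  rw [Complex.I_sq]
  push_cast
  have : (ε : ℂ) ≠ 0 := by exact_mod_cast hε.ne'
  field_simp
  ring

lemma const_eq {n : ℕ} {ε : ℝ} (hε : 0 < ε) :
    (2 * π / ε) ^ ((n : ℝ) / 2) * (π / (ε / 2 + 1 / (2 * ε))) ^ ((n : ℝ) / 2) =
      (2 * π / √(1 + ε ^ 2)) ^ n := by
  have h1 : (0 : ℝ) < 1 + ε ^ 2 := by positivity
  have h2 : 0 < √(1 + ε ^ 2) := Real.sqrt_pos.2 h1
  rw [← Real.mul_rpow (by positivity) (by positivity)]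
  have h3 : 2 * π / ε * (π / (ε / 2 + 1 / (2 * ε))) = (2 * π / √(1 + ε ^ 2)) ^ (2 : ℝ) := by
    rw [Real.rpow_two, div_pow, Real.sq_sqrt h1.le]
    field_simp
    ring
  rw [h3, ← Real.rpow_mul (by positivity), ← Real.rpow_natCast _ n, mul_div_cancel₀ _ two_ne_zero]

end GI_

open GI_ in
/-- The Gaussian integral. -/
theorem p_GI : T_GI := by
  intro n ε hε
  refine ⟨integrable_gau hε, ?_⟩
  have hint := integrable_gau (n := n) hε
  rw [Measure.volume_eq_prod] at hint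
  rw [Measure.volume_eq_prod, integral_prod _ hint]
  simp_rw [inner_int hε]
  have hb : 0 < (((ε / 2 + 1 / (2 * ε) : ℝ)) : ℂ).re := by
    rw [Complex.ofReal_re]; positivity
  rw [integral_const_mul, GaussianFourier.integral_cexp_neg_mul_sq_norm hb,
    finrank_euclideanSpace_fin, ← Complex.ofReal_div, cpow_real (by positivity),
    ← Complex.ofReal_mul, const_eq hε]

end Pool.Agent.Rog
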