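import Pool.Agent.Rog.TargetsG
import Pool.Agent.FracH.Frac

/-!
# GRE: greedy covering of the remaining points
-/

set_option autoImplicit false

open MeasureTheory Set Module
open scoped Pointwise

namespace Pool.Agent.Rog

namespace GRE_

lemma step {n : ℕ} {K : Set (E n)} (hK : GB K) {q : ℝ} (hq : 0 < q) (Y : Finset (E n))
    (hY : ∀ x ∈ Y, x ∈ K) (hne : Y.Nonempty) :
    ∃ (z : E n) (Y' : Finset (E n)), Y' ⊆ Y ∧ (∀ x ∈ Y, x ∉ Y' → x - z ∈ q • K) ∧
      (Y'.card : ℝ) ≤ (Y.card : ℝ) * (1 - (q / (1 + q)) ^ n) := by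
  classical
  set e := Y.equivFin with he
  obtain ⟨z, hz⟩ := Pool.Agent.FracH.discrete (E := E n) (K := K) hK.cvx hK.cpt ⟨0, hK.zero⟩ hq
    (n := Y.card) (fun i => (e.symm i : E n)) (fun i => hY _ (e.symm i).2) (fun _ => 1)
    (fun _ => zero_le_one) (by
      simp only [Finset.sum_const, Finset.card_univ, Fintype.card_fin, nsmul_eq_mul, mul_one]
      exact_mod_cast Finset.card_pos.mpr hne)
  set T : Set (E n) := (fun y => z + y) '' (q • K) with hT
  have hsum : ∑ i : Fin Y.card, (1 : ℝ) * T.indicator (fun _ => (1 : ℝ)) (e.symm i : E n) =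
      ((Y.filter (fun x => x ∈ T)).card : ℝ) := by
    have h1 : ∑ i : Fin Y.card, (1 : ℝ) * T.indicator (fun _ => (1 : ℝ)) (e.symm i : E n) =
        ∑ y : Y, T.indicator (fun _ => (1 : ℝ)) (y : E n) := by
      rw [← Equiv.sum_comp e.symm]
      simp
    rw [h1, Finset.sum_coe_sort Y (fun y => T.indicator (fun _ => (1 : ℝ)) y),
      Finset.card_filter]
    push_cast
    refine Finset.sum_congr rfl fun x _ => ?_
    by_cases hx : x ∈ T
    · simp [hx]
    · simp [hx]
  rw [hsum] at hz
  simp only [Finset.sum_const, Finset.card_univ, Fintype.card_fin, nsmul_eq_mul, mul_one,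
    finrank_euclideanSpace_fin] at hz
  refine ⟨z, Y.filter (fun x => x ∉ T), Finset.filter_subset _ _, ?_, ?_⟩
  · intro x hx hx'
    rw [Finset.mem_filter, not_and, not_not] at hx'
    obtain ⟨y, hy, hyx⟩ := hx' hx
    have hyx' : z + y = x := hyx
    rw [← hyx', add_sub_cancel_left]
    exact hy
  · have h2 := Finset.card_filter_add_card_filter_not (s := Y) (fun x => x ∈ T)
    have h3 : ((Y.filter (fun x => x ∈ T)).card : ℝ) + ((Y.filter (fun x => x ∉ T)).card : ℝ) =
        (Y.card : ℝ) := by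
      exact_mod_cast h2
    nlinarith

end GRE_

theorem p_GRE : T_GRE := by
  classical
  intro n m
  induction m with
  | zero =>
    intro K Y q hK hq hY hc
    refine ⟨fun i => i.elim0, ?_⟩
    intro x hx
    exfalso
    rw [pow_zero, mul_one] at hc
    have h1 : Y.card < 1 := by exact_mod_cast hc
    have h2 := Finset.card_pos.mpr ⟨x, hx⟩
    omega
  | succ m ih =>
    intro K Y q hK hq hY hc
    have hr0 : 0 ≤ q / (1 + q) := by positivity
    have hr1 : q / (1 + q) ≤ 1 := by
      rw [div_le_one (by positivity)]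
      linarith
    have hr2 : (q / (1 + q)) ^ n ≤ 1 := pow_le_one₀ hr0 hr1
    rcases Y.eq_empty_or_nonempty with he | hne
    · subst he
      exact ⟨fun _ => 0, fun x hx => absurd hx (Finset.notMem_empty x)⟩
    · obtain ⟨z0, Y', hY', hcov, hcard⟩ := GRE_.step hK hq Y hY hne
      obtain ⟨z, hz⟩ := ih K Y' q hK hq (fun x hx => hY x (hY' hx)) (by
        refine lt_of_le_of_lt ?_ hc
        rw [pow_succ' (1 - (q / (1 + q)) ^ n) m, ← mul_assoc]
        exact mul_le_mul_of_nonneg_right hcard (pow_nonneg (by linarith) _))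
      refine ⟨Fin.cons z0 z, ?_⟩
      intro x hx
      by_cases hxY : x ∈ Y'
      · obtain ⟨i, hi⟩ := hz x hxY
        exact ⟨i.succ, by simpa using hi⟩
      · exact ⟨0, by simpa using hcov x hx hxY⟩

end Pool.Agent.Rog
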