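import Pool.Agent.Rog.Targets

/-!
# Analyticity of the family of integrals
-/

set_option autoImplicit false

open MeasureTheory Set Filter Topology
open scoped Pointwise Real

namespace Pool.Agent.Rog

namespace JA_

variable {n : ℕ} {Q : E n → ℝ} {G : E n → E n}

lemma contQ (hN : Nice Q G) : Continuous Q := by
  have : Q = fun x => inner ℝ x (G x) := by
    funext x
    exact (hN.inner_self x).symm
  rw [this]
  have hG := hN.contG
  fun_prop

lemma Q_nonneg (hN : Nice Q G) (x : E n) : 0 ≤ Q x := by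
  obtain ⟨c, hc, h⟩ := hN.lower
  exact le_trans (by positivity) (h x)

lemma al_be_bound (hN : Nice Q G) (ε : ℝ) :
    ∃ D : ℝ, 0 < D ∧ (∀ x, ‖al Q G ε x‖ ≤ D * ‖x‖ ^ 2) ∧ ∀ a, ‖be Q G ε a‖ ≤ D * ‖a‖ ^ 2 := by
  obtain ⟨C, hC, h⟩ := hN.upper
  have key : ∀ x : E n, |Q x| + |ε / 2 * (‖x‖ ^ 2 + ‖G x‖ ^ 2)| ≤
      (C + |ε| / 2 * (1 + C ^ 2)) * ‖x‖ ^ 2 := by
    intro x
    have h1 := (h x).1
    have h2 := (h x).2
    have h3 : ‖G x‖ ^ 2 ≤ C ^ 2 * ‖x‖ ^ 2 := by
      rw [← mul_pow]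
      exact pow_le_pow_left₀ (norm_nonneg _) h2 2
    rw [abs_of_nonneg (Q_nonneg hN x), abs_mul, abs_div, abs_two,
      abs_of_nonneg (by positivity : (0 : ℝ) ≤ ‖x‖ ^ 2 + ‖G x‖ ^ 2)]
    have h4 : |ε| / 2 * (‖x‖ ^ 2 + ‖G x‖ ^ 2) ≤ |ε| / 2 * (‖x‖ ^ 2 + C ^ 2 * ‖x‖ ^ 2) := by
      apply mul_le_mul_of_nonneg_left _ (by positivity)
      linarith
    nlinarith
  refine ⟨C + |ε| / 2 * (1 + C ^ 2), by positivity, ?_, ?_⟩
  · intro x
    refine le_trans ?_ (key x)
    unfold al
    refine (norm_sub_le _ _).trans ?_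
    rw [norm_mul, Complex.norm_I, one_mul, Complex.norm_real, Complex.norm_real]
    rfl
  · intro x
    refine le_trans ?_ (key x)
    unfold be
    refine (norm_sub_le _ _).trans ?_
    rw [norm_neg, norm_mul, Complex.norm_I, one_mul, Complex.norm_real, Complex.norm_real]
    rfl

lemma cont_al (hN : Nice Q G) (ε : ℝ) : Continuous (al Q G ε) := by
  have hG := hN.contG
  have hQ := contQ hN
  unfold al
  fun_prop

lemma cont_be (hN : Nice Q G) (ε : ℝ) : Continuous (be Q G ε) := by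
  have hG := hN.contG
  have hQ := contQ hN
  unfold be
  fun_prop

lemma cont_ga (hN : Nice Q G) (ε : ℝ) : Continuous (ga G ε) := by
  have hG := hN.contG
  unfold ga
  fun_prop

lemma cont_ex (hN : Nice Q G) (ε : ℝ) (w : ℂ) : Continuous (ex Q G ε w) := by
  have h1 := cont_al hN ε
  have h2 := cont_be hN ε
  have h3 := cont_ga hN ε
  unfold ex
  fun_prop

lemma meas_DD (hD : T_DINT) (hn : 1 ≤ n) (hN : Nice Q G) :
    AEStronglyMeasurable (fun p : E n × E n => (DD G p : ℂ)) volume := by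
  have h1 := (hD n Q G hn hN 1 one_pos).aestronglyMeasurable
  have h2 : Continuous (fun p : E n × E n => Real.exp (‖p.1‖ ^ 2 + ‖p.2‖ ^ 2)) := by fun_prop
  have h3 := h1.mul (h2.aestronglyMeasurable (μ := (volume : Measure (E n × E n))))
  have h4 : AEStronglyMeasurable (DD G) (volume : Measure (E n × E n)) := by
    refine h3.congr (Eventually.of_forall fun p => ?_)
    simp only [Pi.mul_apply]
    rw [mul_assoc, ← Real.exp_add, one_mul, neg_add_cancel, Real.exp_zero, mul_one]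
  exact Complex.continuous_ofReal.comp_aestronglyMeasurable h4

lemma re_step {D : ℝ} {ε : ℝ} (hal : ∀ x, ‖al Q G ε x‖ ≤ D * ‖x‖ ^ 2)
    (hbe : ∀ a, ‖be Q G ε a‖ ≤ D * ‖a‖ ^ 2) (w w0 : ℂ) (p : E n × E n) (hD0 : 0 ≤ D) :
    (ex Q G ε w p).re ≤ (ex Q G ε w0 p).re +
      (‖Complex.exp w - Complex.exp w0‖ + ‖Complex.exp (-w) - Complex.exp (-w0)‖) * D *
        (‖p.1‖ ^ 2 + ‖p.2‖ ^ 2) := by
  have h1 : ex Q G ε w p = ex Q G ε w0 p + ((Complex.exp w - Complex.exp w0) * al Q G ε p.1 +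
      (Complex.exp (-w) - Complex.exp (-w0)) * be Q G ε p.2) := by
    unfold ex
    ring
  rw [h1, Complex.add_re]
  have h2 : ((Complex.exp w - Complex.exp w0) * al Q G ε p.1 +
      (Complex.exp (-w) - Complex.exp (-w0)) * be Q G ε p.2).re ≤
      ‖Complex.exp w - Complex.exp w0‖ * (D * ‖p.1‖ ^ 2) +
        ‖Complex.exp (-w) - Complex.exp (-w0)‖ * (D * ‖p.2‖ ^ 2) := by
    refine (Complex.re_le_norm _).trans ((norm_add_le _ _).trans ?_)
    rw [norm_mul, norm_mul]
    exact add_le_add (mul_le_mul_of_nonneg_left (hal _) (norm_nonneg _))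
      (mul_le_mul_of_nonneg_left (hbe _) (norm_nonneg _))
  have h3 : 0 ≤ ‖Complex.exp w - Complex.exp w0‖ * D * ‖p.2‖ ^ 2 := by positivity
  have h4 : 0 ≤ ‖Complex.exp (-w) - Complex.exp (-w0)‖ * D * ‖p.1‖ ^ 2 := by positivity
  nlinarith

lemma deriv_norm {D : ℝ} {ε : ℝ} (hal : ∀ x, ‖al Q G ε x‖ ≤ D * ‖x‖ ^ 2)
    (hbe : ∀ a, ‖be Q G ε a‖ ≤ D * ‖a‖ ^ 2) (w : ℂ) (p : E n × E n) (B : ℝ)
    (hB : ‖Complex.exp w‖ ≤ B) (hB' : ‖Complex.exp (-w)‖ ≤ B) (hD0 : 0 ≤ D) :
    ‖Complex.exp w * al Q G ε p.1 - Complex.exp (-w) * be Q G ε p.2‖ ≤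
      B * D * (‖p.1‖ ^ 2 + ‖p.2‖ ^ 2) := by
  refine (norm_sub_le _ _).trans ?_
  rw [norm_mul, norm_mul]
  have hB0 : 0 ≤ B := le_trans (norm_nonneg _) hB
  have h1 : ‖Complex.exp w‖ * ‖al Q G ε p.1‖ ≤ B * (D * ‖p.1‖ ^ 2) :=
    mul_le_mul hB (hal _) (norm_nonneg _) hB0
  have h2 : ‖Complex.exp (-w)‖ * ‖be Q G ε p.2‖ ≤ B * (D * ‖p.2‖ ^ 2) :=
    mul_le_mul hB' (hbe _) (norm_nonneg _) hB0
  linarith

end JA_

open JA_ in
theorem p_JA (hD : T_DINT) : T_JA := by
  intro n Q G ε w0 hn hN ⟨c, hc, hre⟩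
  obtain ⟨D, hD0, hal, hbe⟩ := al_be_bound hN ε
  -- a good ball
  set B : ℝ := ‖Complex.exp w0‖ + ‖Complex.exp (-w0)‖ + 1 with hB
  have hB0 : 0 < B := by positivity
  have hev : ∀ᶠ w in 𝓝 w0,
      (‖Complex.exp w - Complex.exp w0‖ + ‖Complex.exp (-w) - Complex.exp (-w0)‖) * D < c / 2 ∧
        ‖Complex.exp w‖ < B ∧ ‖Complex.exp (-w)‖ < B := by
    refine Filter.Eventually.and ?_ (Filter.Eventually.and ?_ ?_)
    · have hcont : Continuous (fun w : ℂ =>
          (‖Complex.exp w - Complex.exp w0‖ + ‖Complex.exp (-w) - Complex.exp (-w0)‖) * D) := by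
        fun_prop
      apply hcont.continuousAt.eventually_lt continuousAt_const
      simp
      positivity
    · have hcont : Continuous (fun w : ℂ => ‖Complex.exp w‖) := by fun_prop
      apply hcont.continuousAt.eventually_lt continuousAt_const
      have := norm_nonneg (Complex.exp (-w0))
      rw [hB]
      linarith
    · have hcont : Continuous (fun w : ℂ => ‖Complex.exp (-w)‖) := by fun_prop
      apply hcont.continuousAt.eventually_lt continuousAt_const
      have := norm_nonneg (Complex.exp w0)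
      rw [hB]
      linarith
  obtain ⟨δ, hδ, hball⟩ := Metric.eventually_nhds_iff_ball.mp hev
  -- real part on the ball
  have hre2 : ∀ w ∈ Metric.ball w0 δ, ∀ p : E n × E n,
      (ex Q G ε w p).re ≤ -(c / 2 * (‖p.1‖ ^ 2 + ‖p.2‖ ^ 2)) := by
    intro w hw p
    have h1 := re_step hal hbe w w0 p hD0.le
    have h2 := hre p
    have h3 := mul_le_mul_of_nonneg_right (hball w hw).1.le
      (by positivity : (0 : ℝ) ≤ ‖p.1‖ ^ 2 + ‖p.2‖ ^ 2)
    linarith
  have hDD0 : ∀ p : E n × E n, 0 ≤ DD G p := fun p => abs_nonneg _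
  have hmeas := meas_DD hD hn hN
  have hFmeas : ∀ w : ℂ, AEStronglyMeasurable
      (fun p : E n × E n => (DD G p : ℂ) * Complex.exp (ex Q G ε w p)) volume := by
    intro w
    exact hmeas.mul (Complex.continuous_exp.comp (cont_ex hN ε w)).aestronglyMeasurable
  have hF'meas : ∀ w : ℂ, AEStronglyMeasurable
      (fun p : E n × E n => (DD G p : ℂ) * (Complex.exp (ex Q G ε w p) *
        (Complex.exp w * al Q G ε p.1 - Complex.exp (-w) * be Q G ε p.2))) volume := by
    intro w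
    have h1 := cont_ex hN ε w
    have h2 := cont_al hN ε
    have h3 := cont_be hN ε
    have hcont : Continuous (fun p : E n × E n => Complex.exp (ex Q G ε w p) *
        (Complex.exp w * al Q G ε p.1 - Complex.exp (-w) * be Q G ε p.2)) := by
      fun_prop
    exact hmeas.mul hcont.aestronglyMeasurable
  have hint : ∀ w ∈ Metric.ball w0 δ, Integrable
      (fun p : E n × E n => (DD G p : ℂ) * Complex.exp (ex Q G ε w p)) := by
    intro w hw
    refine (hD n Q G hn hN (c / 2) (by positivity)).mono' (hFmeas w)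
      (Eventually.of_forall fun p => ?_)
    rw [norm_mul, Complex.norm_real, Real.norm_of_nonneg (hDD0 p), Complex.norm_exp]
    exact mul_le_mul_of_nonneg_left (Real.exp_le_exp.mpr (hre2 w hw p)) (hDD0 p)
  have hbd : ∀ w ∈ Metric.ball w0 δ, ∀ p : E n × E n,
      ‖(DD G p : ℂ) * (Complex.exp (ex Q G ε w p) *
        (Complex.exp w * al Q G ε p.1 - Complex.exp (-w) * be Q G ε p.2))‖ ≤
      (B * D * (4 / c)) * (DD G p * Real.exp (-(c / 4 * (‖p.1‖ ^ 2 + ‖p.2‖ ^ 2)))) := by
    intro w hw p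
    rw [norm_mul, norm_mul, Complex.norm_real, Real.norm_of_nonneg (hDD0 p), Complex.norm_exp]
    set N : ℝ := ‖p.1‖ ^ 2 + ‖p.2‖ ^ 2 with hNdef
    have hN0 : 0 ≤ N := by positivity
    have h1 : Real.exp (ex Q G ε w p).re ≤ Real.exp (-(c / 2 * N)) :=
      Real.exp_le_exp.mpr (hre2 w hw p)
    have h2 := deriv_norm hal hbe w p B (hball w hw).2.1.le (hball w hw).2.2.le hD0.le
    have h3 : N ≤ 4 / c * Real.exp (c / 4 * N) := by
      have h4 : c / 4 * N + 1 ≤ Real.exp (c / 4 * N) := Real.add_one_le_exp _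
      have h5 : N = 4 / c * (c / 4 * N) := by field_simp
      calc N = 4 / c * (c / 4 * N) := h5
        _ ≤ 4 / c * Real.exp (c / 4 * N) := by
          apply mul_le_mul_of_nonneg_left _ (by positivity)
          linarith
    have h6 : Real.exp (-(c / 2 * N)) * Real.exp (c / 4 * N) = Real.exp (-(c / 4 * N)) := by
      rw [← Real.exp_add]
      congr 1
      ring
    calc DD G p * (Real.exp (ex Q G ε w p).re *
          ‖Complex.exp w * al Q G ε p.1 - Complex.exp (-w) * be Q G ε p.2‖)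
        ≤ DD G p * (Real.exp (-(c / 2 * N)) * (B * D * N)) := by
          apply mul_le_mul_of_nonneg_left _ (hDD0 p)
          exact mul_le_mul h1 h2 (norm_nonneg _) (Real.exp_nonneg _)
      _ ≤ DD G p * (Real.exp (-(c / 2 * N)) * (B * D * (4 / c * Real.exp (c / 4 * N)))) := by
          apply mul_le_mul_of_nonneg_left _ (hDD0 p)
          apply mul_le_mul_of_nonneg_left _ (Real.exp_nonneg _)
          exact mul_le_mul_of_nonneg_left h3 (by positivity)
      _ = (B * D * (4 / c)) * (DD G p * (Real.exp (-(c / 2 * N)) * Real.exp (c / 4 * N))) := by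
          ring
      _ = (B * D * (4 / c)) * (DD G p * Real.exp (-(c / 4 * N))) := by rw [h6]
  have hderiv : ∀ (p : E n × E n) (w : ℂ), HasDerivAt
      (fun w => (DD G p : ℂ) * Complex.exp (ex Q G ε w p))
      ((DD G p : ℂ) * (Complex.exp (ex Q G ε w p) *
        (Complex.exp w * al Q G ε p.1 - Complex.exp (-w) * be Q G ε p.2))) w := by
    intro p w
    have h1 : HasDerivAt (fun w => ex Q G ε w p)
        (Complex.exp w * al Q G ε p.1 - Complex.exp (-w) * be Q G ε p.2) w := by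
      unfold ex
      have e1 : HasDerivAt (fun w : ℂ => Complex.exp w * al Q G ε p.1)
          (Complex.exp w * al Q G ε p.1) w := (Complex.hasDerivAt_exp w).mul_const _
      have e2 : HasDerivAt (fun w : ℂ => Complex.exp (-w) * be Q G ε p.2)
          (Complex.exp (-w) * -1 * be Q G ε p.2) w :=
        ((hasDerivAt_neg w).cexp).mul_const _
      have e3 := (e1.add e2).add_const (ga G ε p)
      exact e3.congr_deriv (by ring)
    exact (h1.cexp).const_mul _
  have hdiff : ∀ w ∈ Metric.ball w0 δ, DifferentiableAt ℂ (Jf Q G ε) w := by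
    intro w hw
    have hs : Metric.ball w0 δ ∈ 𝓝 w := Metric.isOpen_ball.mem_nhds hw
    have := hasDerivAt_integral_of_dominated_loc_of_deriv_le (μ := (volume : Measure (E n × E n)))
      (F := fun w p => (DD G p : ℂ) * Complex.exp (ex Q G ε w p))
      (F' := fun w p => (DD G p : ℂ) * (Complex.exp (ex Q G ε w p) *
        (Complex.exp w * al Q G ε p.1 - Complex.exp (-w) * be Q G ε p.2)))
      (bound := fun p => (B * D * (4 / c)) *
        (DD G p * Real.exp (-(c / 4 * (‖p.1‖ ^ 2 + ‖p.2‖ ^ 2)))))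
      hs (Eventually.of_forall hFmeas) (hint w hw) (hF'meas w)
      (Eventually.of_forall fun p w' hw' => hbd w' hw' p)
      ((hD n Q G hn hN (c / 4) (by positivity)).const_mul _)
      (Eventually.of_forall fun p w' _ => hderiv p w')
    exact this.2.differentiableAt
  have hdo : DifferentiableOn ℂ (Jf Q G ε) (Metric.ball w0 δ) :=
    fun w hw => (hdiff w hw).differentiableWithinAt
  exact hdo.analyticAt (Metric.isOpen_ball.mem_nhds (Metric.mem_ball_self hδ))

end Pool.Agent.Rog
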