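import Pool.Agent.Rog.Targets

/-!
# The value of the integral at `i π / 2`
-/

set_option autoImplicit false

open MeasureTheory Set Filter Topology
open scoped Pointwise Real

namespace Pool.Agent.Rog

theorem p_JC (hJR : T_JR) (hJA : T_JA) (hRE : T_RE) (hGI : T_GI) : T_JC := by
  intro n Q G hn hN
  obtain ⟨k, hk, hre⟩ := hRE n Q G hN
  refine ⟨k, hk, ?_⟩
  intro ε hε hεk
  set U : Set ℂ := (fun s : ℝ => Complex.I * (s : ℂ)) '' Icc 0 (π / 2) with hU
  have hUpre : IsPreconnected U := by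
    apply isPreconnected_Icc.image
    fun_prop
  have hana : AnalyticOnNhd ℂ (Jf Q G ε) U := by
    rintro w ⟨s, hs, rfl⟩
    exact hJA n Q G ε _ hn hN (hre ε hε hεk s hs.1 hs.2)
  have hconst : AnalyticOnNhd ℂ (fun _ : ℂ => (((2 * π / √(1 + ε ^ 2)) ^ n : ℝ) : ℂ)) U :=
    fun w _ => analyticAt_const
  have h0 : (0 : ℂ) ∈ U := ⟨0, ⟨le_rfl, by positivity⟩, by simp⟩
  have hfreq : ∃ᶠ z in 𝓝[≠] (0 : ℂ), Jf Q G ε z = (((2 * π / √(1 + ε ^ 2)) ^ n : ℝ) : ℂ) := by
    have hseq : Tendsto (fun m : ℕ => (((1 : ℝ) / ((m : ℝ) + 1) : ℝ) : ℂ)) atTop (𝓝[≠] (0 : ℂ)) := by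
      rw [tendsto_nhdsWithin_iff]
      constructor
      · have := tendsto_one_div_add_atTop_nhds_zero_nat (𝕜 := ℝ)
        have h2 := (Complex.continuous_ofReal.tendsto (0 : ℝ)).comp this
        simpa [Function.comp_def] using h2
      · refine Eventually.of_forall fun m => ?_
        rw [mem_compl_iff, mem_singleton_iff, Complex.ofReal_eq_zero]
        positivity
    refine hseq.frequently (Frequently.of_forall fun m => ?_)
    rw [hJR n Q G ε hn hN hε]
    exact (hGI n ε hε).2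
  have := hana.eqOn_of_preconnected_of_frequently_eq hconst hUpre h0 hfreq
  exact this ⟨π / 2, ⟨by positivity, le_rfl⟩, by simp⟩

end Pool.Agent.Rog
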