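import Pool.Agent.Rog.Targets

/-!
# The integral is constant on the real line
-/

set_option autoImplicit false

open MeasureTheory Set Filter Topology
open scoped Pointwise Real

namespace Pool.Agent.Rog

namespace JR_

variable {n : ℕ}

/-- The exponent at a real point. -/
theorem pt (Q : E n → ℝ) (G : E n → E n) (hN : Nice Q G) (ε w : ℝ) (p : E n × E n) :
    Complex.exp (ex Q G ε w p) =
      gau ε (Sm G (Real.exp (w / 2) • p.1, Real.exp (-(w / 2)) • p.2)) := by
  obtain ⟨x, a⟩ := p
  have hs : 0 ≤ Real.exp (w / 2) := (Real.exp_pos _).le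
  have ht : 0 ≤ Real.exp (-(w / 2)) := (Real.exp_pos _).le
  have hst : Real.exp (w / 2) * Real.exp (-(w / 2)) = 1 := by
    rw [← Real.exp_add]; simp
  have hss : Complex.exp w = ((Real.exp (w / 2) * Real.exp (w / 2) : ℝ) : ℂ) := by
    rw [← Real.exp_add, ← Complex.ofReal_exp]; ring_nf
  have htt : Complex.exp (-w) = ((Real.exp (-(w / 2)) * Real.exp (-(w / 2)) : ℝ) : ℂ) := by
    rw [← Real.exp_add, ← Complex.ofReal_neg, ← Complex.ofReal_exp]; ring_nf
  generalize Real.exp (w / 2) = s at *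
  generalize Real.exp (-(w / 2)) = t at *
  have h1 : inner ℝ (s • x + t • a) (s • G x - t • G a) =
      s * s * Q x - t * t * Q a + (inner ℝ a (G x) - inner ℝ x (G a)) := by
    simp only [inner_add_left, inner_sub_right, real_inner_smul_left, real_inner_smul_right,
      hN.inner_self]
    linear_combination (inner ℝ a (G x) - inner ℝ x (G a)) * hst
  have h2 : ‖s • x + t • a‖ ^ 2 = s * s * ‖x‖ ^ 2 + 2 * inner ℝ x a + t * t * ‖a‖ ^ 2 := by
    rw [norm_add_sq_real, norm_smul, norm_smul, real_inner_smul_left, real_inner_smul_right,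
      mul_pow, mul_pow, Real.norm_eq_abs, Real.norm_eq_abs, sq_abs, sq_abs]
    linear_combination 2 * inner ℝ x a * hst
  have h3 : ‖s • G x - t • G a‖ ^ 2 =
      s * s * ‖G x‖ ^ 2 - 2 * inner ℝ (G x) (G a) + t * t * ‖G a‖ ^ 2 := by
    rw [norm_sub_sq_real, norm_smul, norm_smul, real_inner_smul_left, real_inner_smul_right,
      mul_pow, mul_pow, Real.norm_eq_abs, Real.norm_eq_abs, sq_abs, sq_abs]
    linear_combination -(2 * inner ℝ (G x) (G a)) * hst
  unfold ex gau Sm al be ga
  simp only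
  rw [hss, htt, hN.homG s x hs, hN.homG t a ht, h1, h2, h3]
  congr 1
  push_cast
  ring

/-- The map. -/
noncomputable def L (n : ℕ) (s t : ℝ) (hs : s ≠ 0) (ht : t ≠ 0) : (E n × E n) ≃ᵐ (E n × E n) :=
  MeasurableEquiv.prodCongr (Homeomorph.smulOfNeZero s hs).toMeasurableEquiv
    (Homeomorph.smulOfNeZero t ht).toMeasurableEquiv

theorem L_apply (s t : ℝ) (hs : s ≠ 0) (ht : t ≠ 0) (p : E n × E n) :
    L n s t hs ht p = (s • p.1, t • p.2) := rfl

theorem map_L (s t : ℝ) (hs : s ≠ 0) (ht : t ≠ 0) (hst : s * t = 1) :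
    Measure.map (L n s t hs ht) (volume : Measure (E n × E n)) = volume := by
  have h1 : (⇑(L n s t hs ht) : E n × E n → E n × E n) =
      Prod.map (fun x : E n => s • x) (fun x : E n => t • x) := by
    ext p <;> rfl
  rw [h1, Measure.volume_eq_prod]
  rw [← Measure.map_prod_map (volume : Measure (E n)) (volume : Measure (E n))
    (measurable_const_smul s) (measurable_const_smul t)]
  rw [Measure.map_addHaar_smul (volume : Measure (E n)) hs,
    Measure.map_addHaar_smul (volume : Measure (E n)) ht]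
  rw [Measure.prod_smul_left, Measure.prod_smul_right, smul_smul, ← ENNReal.ofReal_mul (abs_nonneg _), ← abs_mul,
    ← mul_inv, ← mul_pow, hst]
  simp

theorem int_L (s t : ℝ) (hs : s ≠ 0) (ht : t ≠ 0) (hst : s * t = 1) (f : E n × E n → ℂ) :
    ∫ p : E n × E n, f (s • p.1, t • p.2) = ∫ p, f p := by
  have h := integral_map_equiv (μ := (volume : Measure (E n × E n))) (L n s t hs ht) f
  rw [map_L s t hs ht hst] at h
  rw [h]
  rfl

theorem ae_ne (hn : 1 ≤ n) : ∀ᵐ p : E n × E n, p.1 ≠ 0 ∧ p.2 ≠ 0 := by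
  have : Nonempty (Fin n) := ⟨⟨0, hn⟩⟩
  have h0 : ∀ᵐ x : E n, x ≠ 0 := by
    have := (Set.countable_singleton (0 : E n)).ae_notMem volume
    simpa using this
  rw [Measure.volume_eq_prod]
  have h1 := (Measure.quasiMeasurePreserving_fst (μ := (volume : Measure (E n)))
    (ν := (volume : Measure (E n)))).ae h0
  have h2 := (Measure.quasiMeasurePreserving_snd (μ := (volume : Measure (E n)))
    (ν := (volume : Measure (E n)))).ae h0
  filter_upwards [h1, h2] with p h1 h2
  exact ⟨h1, h2⟩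

end JR_

open JR_ in
theorem p_JR (hGI : T_GI) (hC : T_COVC) (hSD : T_SD) : T_JR := by
  intro n Q G ε hn hN hε w
  have hs := Real.exp_pos (w / 2)
  have ht := Real.exp_pos (-(w / 2))
  have hst : Real.exp (w / 2) * Real.exp (-(w / 2)) = 1 := by
    rw [← Real.exp_add]; simp
  rw [← (hC n Q G hn hN (gau ε) (hGI n ε hε).1).2]
  rw [← int_L (Real.exp (w / 2)) (Real.exp (-(w / 2))) hs.ne' ht.ne' hst]
  unfold Jf
  apply integral_congr_ae
  filter_upwards [ae_ne hn] with p hp
  rw [pt Q G hN ε w p, (hSD n Q G hN).2 p.1 p.2 _ _ hp.1 hp.2 hs ht]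

end Pool.Agent.Rog
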