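import Pool.Agent.Rog.Targets

/-!
# ROG-LAG: extrapolation of the cosine
-/

set_option autoImplicit false

open Set Filter Topology

namespace Pool.Agent.Rog

namespace LAG_

/-- The Taylor polynomial of the cosine of degree less than `n`. -/
lemma cos_taylor (n : ℕ) (t : ℝ) (h : |t| / (n.succ : ℝ) ≤ 1 / 2) :
    |Real.cos t - ∑ m ∈ Finset.range n, (Complex.I ^ m).re / (m.factorial : ℝ) * t ^ m| ≤
      |t| ^ n / (n.factorial : ℝ) * 2 := by
  have h1 : ‖((t : ℂ) * Complex.I)‖ = |t| := by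
    rw [norm_mul, Complex.norm_I, mul_one, Complex.norm_real, Real.norm_eq_abs]
  have h2 := Complex.exp_bound' (x := (t : ℂ) * Complex.I) (n := n) (by rw [h1]; exact h)
  rw [h1] at h2
  refine le_trans ?_ h2
  refine le_trans (le_of_eq ?_) (Complex.abs_re_le_norm _)
  rw [Complex.sub_re, Complex.exp_ofReal_mul_I_re, Complex.re_sum]
  congr 2
  refine Finset.sum_congr rfl fun m _ => ?_
  have h3 : ((t : ℂ) * Complex.I) ^ m / (m.factorial : ℂ) =
      ((t ^ m / (m.factorial : ℝ) : ℝ) : ℂ) * Complex.I ^ m := by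
    rw [mul_pow]
    push_cast
    ring
  rw [h3, Complex.re_ofReal_mul]
  ring

/-- The polynomial whose value at `s` is the Taylor polynomial at `s y`. -/
noncomputable def tpol (n : ℕ) (y : ℝ) : Polynomial ℝ :=
  ∑ i : Fin n, Polynomial.C ((Complex.I ^ (i : ℕ)).re / ((i : ℕ).factorial : ℝ) * y ^ (i : ℕ)) *
    Polynomial.X ^ (i : ℕ)

lemma tpol_eval (n : ℕ) (y s : ℝ) : (tpol n y).eval s =
    ∑ m ∈ Finset.range n, (Complex.I ^ m).re / (m.factorial : ℝ) * (s * y) ^ m := by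
  rw [tpol, Polynomial.eval_finsetSum,
    ← Fin.sum_univ_eq_sum_range (fun m => (Complex.I ^ m).re / (m.factorial : ℝ) * (s * y) ^ m)]
  refine Finset.sum_congr rfl fun m _ => ?_
  rw [Polynomial.eval_mul, Polynomial.eval_C, Polynomial.eval_pow, Polynomial.eval_X, mul_pow]
  ring

lemma tpol_zero (N : ℕ) (y : ℝ) : (tpol (N + 1) y).eval 0 = 1 := by
  rw [tpol_eval, Finset.sum_range_succ']
  simp

/-- The product of the distances to the other nodes. -/
lemma prod_dist (N : ℕ) (j : Fin (N + 1)) :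
    ∏ k ∈ (Finset.univ : Finset (Fin (N + 1))).erase j, |((j : ℕ) : ℝ) - ((k : ℕ) : ℝ)| =
      ((j : ℕ).factorial : ℝ) * ((N - (j : ℕ)).factorial : ℝ) := by
  obtain ⟨j, hj⟩ := j
  have h1 : ∏ k ∈ (Finset.univ : Finset (Fin (N + 1))).erase ⟨j, hj⟩,
      |((j : ℕ) : ℝ) - ((k : ℕ) : ℝ)| =
      ∏ k : Fin (N + 1), (fun k : ℕ => if k = j then (1 : ℝ) else |(j : ℝ) - (k : ℝ)|) (k : ℕ) := by
    rw [← Finset.mul_prod_erase Finset.univ _ (Finset.mem_univ (⟨j, hj⟩ : Fin (N + 1)))]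
    simp only [if_true, one_mul]
    refine Finset.prod_congr rfl fun k hk => ?_
    have hk' : (k : ℕ) ≠ j := fun h => (Finset.mem_erase.1 hk).1 (Fin.ext h)
    rw [if_neg hk']
  rw [h1, Fin.prod_univ_eq_prod_range
    (fun k : ℕ => if k = j then (1 : ℝ) else |(j : ℝ) - (k : ℝ)|)]
  change _ = (j.factorial : ℝ) * ((N - j).factorial : ℝ)
  have h2 : N + 1 = (j + 1) + (N - j) := by omega
  rw [h2, Finset.prod_range_add, Finset.prod_range_succ, if_pos rfl, mul_one]
  congr 1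
  · rw [← Finset.prod_range_add_one_eq_factorial, ← Finset.prod_range_reflect]
    push_cast
    refine Finset.prod_congr rfl fun k hk => ?_
    have hk' := Finset.mem_range.1 hk
    rw [if_neg (by omega)]
    have h3 : ((j - 1 - k : ℕ) : ℝ) = (j : ℝ) - 1 - k := by
      rw [Nat.cast_sub (by omega), Nat.cast_sub (by omega), Nat.cast_one]
    rw [h3]
    have h4 : (j : ℝ) - ((j : ℝ) - 1 - k) = k + 1 := by ring
    rw [h4, abs_of_nonneg (by positivity)]
  · have h5 : j + 1 + (N - j) - 1 - j = N - j := by omega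
    rw [← Finset.prod_range_add_one_eq_factorial]
    push_cast
    refine Finset.prod_congr (by congr 1) fun k hk => ?_
    rw [if_neg (by omega)]
    have h4 : (j : ℝ) - ((j : ℝ) + 1 + k) = -(k + 1) := by ring
    rw [h4, abs_neg, abs_of_nonneg (by positivity)]

/-- The nodes. -/
noncomputable def nd (N : ℕ) (j : Fin (N + 1)) : ℝ := 1 / 2 + (j : ℕ) / (2 * ((N : ℝ) + 1))

lemma nd_sub (N : ℕ) (j k : Fin (N + 1)) :
    nd N j - nd N k = (((j : ℕ) : ℝ) - ((k : ℕ) : ℝ)) / (2 * ((N : ℝ) + 1)) := by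
  unfold nd
  ring

lemma nd_inj (N : ℕ) : Function.Injective (nd N) := by
  intro j k h
  have h1 := nd_sub N j k
  rw [h, sub_self] at h1
  have h2 : (2 * ((N : ℝ) + 1)) ≠ 0 := by positivity
  have h3 : ((j : ℕ) : ℝ) - ((k : ℕ) : ℝ) = 0 := by
    rcases div_eq_zero_iff.1 h1.symm with h4 | h4
    · exact h4
    · exact absurd h4 h2
  have h5 : ((j : ℕ) : ℝ) = ((k : ℕ) : ℝ) := by linarith
  exact Fin.ext (by exact_mod_cast h5)

lemma nd_mem (N : ℕ) (j : Fin (N + 1)) : 1 / 2 ≤ nd N j ∧ nd N j ≤ 1 := by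
  unfold nd
  have h1 : (0 : ℝ) < 2 * ((N : ℝ) + 1) := by positivity
  have h2 : ((j : ℕ) : ℝ) ≤ (N : ℝ) + 1 := by
    have := j.2.le
    exact_mod_cast this
  constructor
  · have : (0 : ℝ) ≤ ((j : ℕ) : ℝ) / (2 * ((N : ℝ) + 1)) := by positivity
    linarith
  · have : ((j : ℕ) : ℝ) / (2 * ((N : ℝ) + 1)) ≤ 1 / 2 := by
      rw [div_le_iff₀ h1]
      linarith
    linarith

/-- The coefficients. -/
noncomputable def cf (N : ℕ) (j : Fin (N + 1)) : ℝ :=
  (Lagrange.basis Finset.univ (nd N) j).eval 0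

lemma cf_sum (N : ℕ) (y : ℝ) : ∑ j, cf N j * (tpol (N + 1) y).eval (nd N j) = 1 := by
  have h1 : (tpol (N + 1) y).degree < (Finset.univ : Finset (Fin (N + 1))).card := by
    rw [Finset.card_univ, Fintype.card_fin]
    exact Polynomial.degree_sum_fin_lt _
  have h2 := Lagrange.eq_interpolate (s := Finset.univ) (v := nd N) (nd_inj N).injOn h1
  have h3 := congrArg (Polynomial.eval 0) h2
  rw [tpol_zero, Lagrange.interpolate_apply, Polynomial.eval_finsetSum] at h3
  rw [h3]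
  refine Finset.sum_congr rfl fun j _ => ?_
  rw [Polynomial.eval_mul, Polynomial.eval_C, cf, mul_comm]

lemma cf_le (N : ℕ) (j : Fin (N + 1)) :
    |cf N j| ≤ (2 * ((N : ℝ) + 1)) ^ N /
      (((j : ℕ).factorial : ℝ) * ((N - (j : ℕ)).factorial : ℝ)) := by
  have hn : (0 : ℝ) < 2 * ((N : ℝ) + 1) := by positivity
  have h1 : cf N j = ∏ k ∈ Finset.univ.erase j, ((nd N j - nd N k)⁻¹ * (0 - nd N k)) := by
    rw [cf, Lagrange.basis, Polynomial.eval_prod]
    refine Finset.prod_congr rfl fun k _ => ?_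
    rw [Lagrange.basisDivisor, Polynomial.eval_mul, Polynomial.eval_C, Polynomial.eval_sub,
      Polynomial.eval_X, Polynomial.eval_C]
  have hcard : (Finset.univ.erase j).card = N := by
    rw [Finset.card_erase_of_mem (Finset.mem_univ j), Finset.card_univ, Fintype.card_fin,
      Nat.add_sub_cancel]
  have h2 : (2 * ((N : ℝ) + 1)) ^ N / (((j : ℕ).factorial : ℝ) * ((N - (j : ℕ)).factorial : ℝ)) =
      ∏ k ∈ Finset.univ.erase j, ((2 * ((N : ℝ) + 1)) / |((j : ℕ) : ℝ) - ((k : ℕ) : ℝ)|) := by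
    rw [Finset.prod_div_distrib, Finset.prod_const, hcard, prod_dist]
  rw [h1, h2, Finset.abs_prod]
  refine Finset.prod_le_prod (fun k _ => abs_nonneg _) fun k hk => ?_
  have hkj : k ≠ j := (Finset.mem_erase.1 hk).1
  have hd : 0 < |((j : ℕ) : ℝ) - ((k : ℕ) : ℝ)| := by
    rw [abs_pos, sub_ne_zero]
    intro h
    exact hkj (Fin.ext (by exact_mod_cast h.symm))
  rw [abs_mul, abs_inv, nd_sub, abs_div, abs_of_pos hn, zero_sub, abs_neg, inv_div]
  have h3 : |nd N k| ≤ 1 := by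
    rw [abs_of_nonneg (by linarith [(nd_mem N k).1])]
    exact (nd_mem N k).2
  exact mul_le_of_le_one_right (by positivity) h3

lemma cf_total (N : ℕ) : ∑ j, |cf N j| ≤ (4 * Real.exp 1) ^ (N + 1) := by
  have hN : (0 : ℝ) < (N : ℝ) + 1 := by positivity
  have h1 : ∑ j, |cf N j| ≤ (2 * ((N : ℝ) + 1)) ^ N * 2 ^ N / (N.factorial : ℝ) := by
    calc ∑ j, |cf N j| ≤ ∑ j : Fin (N + 1), (fun j : ℕ => (2 * ((N : ℝ) + 1)) ^ N /
          (N.factorial : ℝ) * (N.choose j : ℝ)) (j : ℕ) := by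
          refine Finset.sum_le_sum fun j _ => (cf_le N j).trans_eq ?_
          have hj : (j : ℕ) ≤ N := by have := j.2; omega
          change _ = (2 * ((N : ℝ) + 1)) ^ N / (N.factorial : ℝ) * (N.choose (j : ℕ) : ℝ)
          rw [Nat.cast_choose ℝ hj]
          have h2 : (N.factorial : ℝ) ≠ 0 := by positivity
          have h3 : ((j : ℕ).factorial : ℝ) ≠ 0 := by positivity
          have h4 : ((N - (j : ℕ)).factorial : ℝ) ≠ 0 := by positivity
          field_simp
      _ = (2 * ((N : ℝ) + 1)) ^ N * 2 ^ N / (N.factorial : ℝ) := by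
          rw [Fin.sum_univ_eq_sum_range (fun j : ℕ => (2 * ((N : ℝ) + 1)) ^ N /
            (N.factorial : ℝ) * (N.choose j : ℝ)), ← Finset.mul_sum]
          have h5 : ∑ j ∈ Finset.range (N + 1), (N.choose j : ℝ) = 2 ^ N := by
            have := Nat.sum_range_choose N
            exact_mod_cast this
          rw [h5]
          ring
  refine h1.trans ?_
  have h6 : (2 * ((N : ℝ) + 1)) ^ N * 2 ^ N / (N.factorial : ℝ) =
      4 ^ N * (((N : ℝ) + 1) ^ (N + 1) / ((N + 1).factorial : ℝ)) := by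
    have h2 : (N.factorial : ℝ) ≠ 0 := by positivity
    rw [Nat.factorial_succ, mul_pow, pow_succ ((N : ℝ) + 1)]
    push_cast
    have h7 : (4 : ℝ) ^ N = 2 ^ N * 2 ^ N := by rw [← mul_pow]; norm_num
    rw [h7]
    field_simp
  rw [h6]
  have h8 : ((N : ℝ) + 1) ^ (N + 1) / ((N + 1).factorial : ℝ) ≤ Real.exp 1 ^ (N + 1) := by
    have h9 := Real.pow_div_factorial_le_exp ((N : ℝ) + 1) hN.le (N + 1)
    refine h9.trans_eq ?_
    rw [← Real.exp_nat_mul]
    push_cast
    ring_nf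
  rw [mul_pow]
  refine mul_le_mul ?_ h8 (by positivity) (by positivity)
  exact pow_le_pow_right₀ (by norm_num) (by omega)

end LAG_

open LAG_

theorem p_LAG : T_LAG := by
  intro n hn
  obtain ⟨N, rfl⟩ : ∃ N, n = N + 1 := ⟨n - 1, by omega⟩
  refine ⟨nd N, cf N, nd_mem N, cf_total N, fun y hy => ?_⟩
  have hN : (0 : ℝ) < (N : ℝ) + 1 := by positivity
  push_cast at hy
  have hterm : ∀ j : Fin (N + 1), |(tpol (N + 1) y).eval (nd N j) - Real.cos (nd N j * y)| ≤
      (((N : ℝ) + 1) / 120) ^ (N + 1) / ((N + 1).factorial : ℝ) * 2 := by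
    intro j
    have h1 : |nd N j * y| ≤ ((N : ℝ) + 1) / 120 := by
      rw [abs_mul, abs_of_nonneg (by linarith [(nd_mem N j).1])]
      calc nd N j * |y| ≤ 1 * |y| := mul_le_mul_of_nonneg_right (nd_mem N j).2 (abs_nonneg y)
        _ ≤ _ := by rw [one_mul]; exact hy
    have h2 : |nd N j * y| / ((N + 1).succ : ℝ) ≤ 1 / 2 := by
      rw [div_le_iff₀ (by positivity)]
      push_cast
      linarith
    rw [tpol_eval, abs_sub_comm]
    refine (cos_taylor (N + 1) (nd N j * y) h2).trans ?_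
    gcongr
  have hsum : 1 - ∑ j, cf N j * Real.cos (nd N j * y) =
      ∑ j, cf N j * ((tpol (N + 1) y).eval (nd N j) - Real.cos (nd N j * y)) := by
    rw [← cf_sum N y, ← Finset.sum_sub_distrib]
    refine Finset.sum_congr rfl fun j _ => ?_
    ring
  rw [hsum]
  have he : Real.exp 1 < 2.7182818286 := Real.exp_one_lt_d9
  have he0 : 0 < Real.exp 1 := Real.exp_pos 1
  have hfac : ((N : ℝ) + 1) ^ (N + 1) / ((N + 1).factorial : ℝ) ≤ Real.exp 1 ^ (N + 1) := by
    have h9 := Real.pow_div_factorial_le_exp ((N : ℝ) + 1) hN.le (N + 1)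
    refine h9.trans_eq ?_
    rw [← Real.exp_nat_mul]
    push_cast
    ring_nf
  calc |∑ j, cf N j * ((tpol (N + 1) y).eval (nd N j) - Real.cos (nd N j * y))|
      ≤ ∑ j, |cf N j| * ((((N : ℝ) + 1) / 120) ^ (N + 1) / ((N + 1).factorial : ℝ) * 2) := by
        refine (Finset.abs_sum_le_sum_abs _ _).trans (Finset.sum_le_sum fun j _ => ?_)
        rw [abs_mul]
        exact mul_le_mul_of_nonneg_left (hterm j) (abs_nonneg _)
    _ = (∑ j, |cf N j|) * ((((N : ℝ) + 1) / 120) ^ (N + 1) / ((N + 1).factorial : ℝ) * 2) := by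
        rw [Finset.sum_mul]
    _ ≤ (4 * Real.exp 1) ^ (N + 1) *
          ((((N : ℝ) + 1) / 120) ^ (N + 1) / ((N + 1).factorial : ℝ) * 2) := by
        refine mul_le_mul_of_nonneg_right (cf_total N) (by positivity)
    _ = (4 * Real.exp 1 / 120) ^ (N + 1) *
          (((N : ℝ) + 1) ^ (N + 1) / ((N + 1).factorial : ℝ)) * 2 := by
        rw [div_pow, div_pow]
        ring
    _ ≤ (4 * Real.exp 1 / 120) ^ (N + 1) * Real.exp 1 ^ (N + 1) * 2 := by
        gcongr
    _ = (4 * Real.exp 1 ^ 2 / 120) ^ (N + 1) * 2 := by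
        rw [← mul_pow]
        congr 2
        ring
    _ ≤ (4 * Real.exp 1 ^ 2 / 120) * 2 := by
        have h1 : 4 * Real.exp 1 ^ 2 / 120 ≤ 1 := by nlinarith
        have h2 : (4 * Real.exp 1 ^ 2 / 120) ^ (N + 1) ≤ 4 * Real.exp 1 ^ 2 / 120 := by
          rw [pow_succ]
          exact mul_le_of_le_one_left (by positivity) (pow_le_one₀ (by positivity) h1)
        linarith
    _ ≤ 1 / 2 := by nlinarith

end Pool.Agent.Rog
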