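import Pool.Agent.Rog.Targets

/-!
# Algebra of the smooth norm
-/

set_option autoImplicit false

open MeasureTheory Set Filter Topology
open scoped Pointwise Real

namespace Pool.Agent.Rog

namespace NA_

variable {n T m : ℕ} (y : Fin T → E n)

theorem P_nonneg (m : ℕ) (x : E n) : 0 ≤ Pf y m x :=
  Finset.sum_nonneg fun _ _ => by
    rw [pow_mul]
    positivity

theorem t_zero (hm : 1 ≤ m) (x : E n) (h : Pf y m x = 0) (k : Fin T) : inner ℝ x (y k) = 0 := by
  have h1 := (Finset.sum_eq_zero_iff_of_nonneg (fun k _ => by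
    rw [pow_mul]
    positivity)).1 h k (Finset.mem_univ k)
  exact pow_eq_zero_iff (by omega) |>.1 h1

theorem inner_G (x z : E n) : inner ℝ z (Gf y m x) =
    Pf y m x ^ ((1 : ℝ) / m - 1) * ∑ k, inner ℝ z (y k) * inner ℝ x (y k) ^ (2 * m - 1) := by
  unfold Gf
  rw [inner_smul_right, inner_sum]
  congr 1
  refine Finset.sum_congr rfl fun k _ => ?_
  rw [inner_smul_right]
  ring

theorem P_smul (s : ℝ) (x : E n) : Pf y m (s • x) = s ^ (2 * m) * Pf y m x := by
  unfold Pf
  rw [Finset.mul_sum]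
  refine Finset.sum_congr rfl fun k _ => ?_
  rw [real_inner_smul_left, mul_pow]

theorem part1 (hm : 1 ≤ m) (x : E n) : inner ℝ x (Gf y m x) = Qf y m x := by
  rw [inner_G]
  have h1 : ∑ k, inner ℝ x (y k) * inner ℝ x (y k) ^ (2 * m - 1) = Pf y m x := by
    unfold Pf
    refine Finset.sum_congr rfl fun k _ => ?_
    rw [← pow_succ']
    congr 1
    omega
  rw [h1]
  unfold Qf
  have hm' : (m : ℝ) ≠ 0 := by
    have : m ≠ 0 := by omega
    exact_mod_cast this
  rcases (P_nonneg y m x).eq_or_lt with h | h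
  · rw [← h, mul_zero, Real.zero_rpow (one_div_ne_zero hm')]
  · rw [← Real.rpow_add_one h.ne', sub_add_cancel]

theorem part3 (hm : 1 ≤ m) (s : ℝ) (x : E n) (hs : 0 ≤ s) :
    Qf y m (s • x) = s ^ 2 * Qf y m x := by
  unfold Qf
  rw [P_smul, Real.mul_rpow (by positivity) (P_nonneg y m x), pow_mul, one_div,
    Real.pow_rpow_inv_natCast (by positivity) (by omega)]

theorem part5 (hm : 1 ≤ m) (s : ℝ) (x : E n) (hs : 0 ≤ s) : Gf y m (s • x) = s • Gf y m x := by
  rcases hs.eq_or_lt with h | h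
  · rw [← h, zero_smul, zero_smul]
    unfold Gf
    have h1 : ∑ k, inner ℝ (0 : E n) (y k) ^ (2 * m - 1) • y k = 0 := by
      refine Finset.sum_eq_zero fun k _ => ?_
      rw [inner_zero_left, zero_pow (by omega), zero_smul]
    rw [h1, smul_zero]
  · unfold Gf
    rw [P_smul, Real.mul_rpow (by positivity) (P_nonneg y m x)]
    have h1 : ∑ k, inner ℝ (s • x) (y k) ^ (2 * m - 1) • y k =
        s ^ (2 * m - 1) • ∑ k, inner ℝ x (y k) ^ (2 * m - 1) • y k := by
      rw [Finset.smul_sum]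
      refine Finset.sum_congr rfl fun k _ => ?_
      rw [real_inner_smul_left, mul_pow, smul_smul]
    rw [h1, smul_smul, smul_smul]
    congr 1
    have hm' : (m : ℝ) ≠ 0 := by
      have : m ≠ 0 := by omega
      exact_mod_cast this
    have h2 : (s ^ (2 * m)) ^ ((1 : ℝ) / m - 1) * s ^ (2 * m - 1) = s := by
      rw [← Real.rpow_natCast s (2 * m), ← Real.rpow_mul hs, ← Real.rpow_natCast s (2 * m - 1),
        ← Real.rpow_add h]
      have h3 : ((2 * m : ℕ) : ℝ) * ((1 : ℝ) / m - 1) + ((2 * m - 1 : ℕ) : ℝ) = 1 := by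
        rw [Nat.cast_sub (by omega)]
        push_cast
        field_simp
        ring
      rw [h3, Real.rpow_one]
    calc (s ^ (2 * m)) ^ ((1 : ℝ) / m - 1) * Pf y m x ^ ((1 : ℝ) / m - 1) * s ^ (2 * m - 1)
        = ((s ^ (2 * m)) ^ ((1 : ℝ) / m - 1) * s ^ (2 * m - 1)) * Pf y m x ^ ((1 : ℝ) / m - 1) := by
          ring
      _ = s * Pf y m x ^ ((1 : ℝ) / m - 1) := by rw [h2]

theorem abs_P (x : E n) (r : ℝ) (hr : r = 2 * m) :
    ∑ k, |inner ℝ x (y k)| ^ r = Pf y m x := by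
  subst hr
  unfold Pf
  refine Finset.sum_congr rfl fun k _ => ?_
  have h1 : (2 * (m : ℝ)) = ((2 * m : ℕ) : ℝ) := by push_cast; ring
  rw [h1, Real.rpow_natCast, pow_mul, sq_abs, ← pow_mul]

theorem part4 (hm : 1 ≤ m) (z x : E n) :
    inner ℝ z (Gf y m x) ≤ √(Qf y m z) * √(Qf y m x) := by
  rw [inner_G]
  have hm1 : (1 : ℝ) ≤ m := by exact_mod_cast hm
  have hm' : (m : ℝ) ≠ 0 := by positivity
  have hsq : ∀ w : E n, √(Qf y m w) = Pf y m w ^ ((1 : ℝ) / (2 * m)) := by
    intro w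
    unfold Qf
    rw [Real.sqrt_eq_rpow, ← Real.rpow_mul (P_nonneg y m w)]
    congr 1
    field_simp
  rw [hsq, hsq]
  rcases (P_nonneg y m x).eq_or_lt with h | h
  · have h1 : ∑ k, inner ℝ z (y k) * inner ℝ x (y k) ^ (2 * m - 1) = 0 := by
      refine Finset.sum_eq_zero fun k _ => ?_
      rw [t_zero y hm x h.symm k, zero_pow (by omega), mul_zero]
    rw [h1, mul_zero]
    have := P_nonneg y m z
    positivity
  · have hpq : (2 * (m : ℝ)).HolderConjugate (2 * m / (2 * m - 1)) := by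
      rw [Real.holderConjugate_iff]
      refine ⟨by linarith, ?_⟩
      have : (2 * (m : ℝ) - 1) ≠ 0 := by
        have : 0 < 2 * (m : ℝ) - 1 := by linarith
        exact this.ne'
      field_simp
      ring
    have h1 := Real.inner_le_Lp_mul_Lq Finset.univ (fun k => inner ℝ z (y k))
      (fun k => inner ℝ x (y k) ^ (2 * m - 1)) hpq
    have hp : 0 < 2 * (m : ℝ) - 1 := by linarith
    have h2 : ∑ k, |inner ℝ x (y k) ^ (2 * m - 1)| ^ (2 * (m : ℝ) / (2 * m - 1)) = Pf y m x := by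
      rw [← abs_P y x (2 * m) rfl]
      refine Finset.sum_congr rfl fun k _ => ?_
      rw [abs_pow, ← Real.rpow_natCast, ← Real.rpow_mul (abs_nonneg _)]
      congr 1
      rw [Nat.cast_sub (by omega)]
      push_cast
      field_simp
    rw [abs_P y z (2 * m) rfl, h2] at h1
    have h3 : 0 ≤ Pf y m x ^ ((1 : ℝ) / m - 1) := by positivity
    refine (mul_le_mul_of_nonneg_left h1 h3).trans (le_of_eq ?_)
    have h4 : Pf y m x ^ ((1 : ℝ) / m - 1) * Pf y m x ^ ((1 : ℝ) / (2 * m / (2 * m - 1))) =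
        Pf y m x ^ ((1 : ℝ) / (2 * m)) := by
      rw [← Real.rpow_add h]
      congr 1
      field_simp
      ring
    rw [← h4]
    ring

end NA_

theorem p_NA : T_NA := by
  intro n T m y hm
  refine ⟨NA_.part1 y hm, ?_, NA_.part3 y hm, NA_.part4 y hm, NA_.part5 y hm⟩
  intro x
  unfold Qf Pf
  congr 1
  refine Finset.sum_congr rfl fun k _ => ?_
  rw [inner_neg_left, pow_mul, neg_sq, ← pow_mul]

end Pool.Agent.Rog
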