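import Pool.Agent.Rog.Targets

/-!
# Monotonicity of the gradient of the smooth norm
-/

set_option autoImplicit false

open MeasureTheory Set Filter Topology
open scoped Pointwise Real

namespace Pool.Agent.Rog

namespace NB_

/-- the strict Young inequality for an even power -/
lemma young (m : ℕ) (hm : 1 ≤ m) (u t : ℝ) (h : u ≠ t) :
    2 * (m : ℝ) * (u * t ^ (2 * m - 1)) < u ^ (2 * m) + (2 * (m : ℝ) - 1) * t ^ (2 * m) := by
  have hc : StrictConvexOn ℝ univ (fun x : ℝ => x ^ (2 * m)) :=
    (even_two_mul m).strictConvexOn_pow (by omega)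
  have hd : HasDerivAt (fun x : ℝ => x ^ (2 * m)) (((2 * m : ℕ) : ℝ) * t ^ (2 * m - 1)) t :=
    hasDerivAt_pow (2 * m) t
  have e : t ^ (2 * m) = t * t ^ (2 * m - 1) := by
    rw [← pow_succ']
    congr 1
    omega
  push_cast at hd
  rcases lt_or_gt_of_ne h with h1 | h1
  · have h2 := hc.slope_lt_of_hasDerivAt (mem_univ u) (mem_univ t) h1 hd
    rw [slope_def_field, div_lt_iff₀ (by linarith)] at h2
    rw [e] at h2 ⊢
    nlinarith
  · have h2 := hc.lt_slope_of_hasDerivAt (mem_univ t) (mem_univ u) h1 hd
    rw [slope_def_field, lt_div_iff₀ (by linarith)] at h2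
    rw [e] at h2 ⊢
    nlinarith

end NB_

open NB_ in
theorem p_NB (hA : T_NA) : T_NB := by
  intro n T m y hm hS x z hxz
  obtain ⟨h1, h2, h3, h4, h5⟩ := hA n T m y hm
  have hm0 : (0 : ℝ) < m := by exact_mod_cast hm
  have hPnn : ∀ w, 0 ≤ Pf y m w := by
    intro w
    unfold Pf
    exact Finset.sum_nonneg fun k _ => (even_two_mul m).pow_nonneg _
  have hQnn : ∀ w, 0 ≤ Qf y m w := by
    intro w
    unfold Qf
    exact Real.rpow_nonneg (hPnn w) _
  have hexp : inner ℝ (Gf y m x - Gf y m z) (x - z) =
      Qf y m x + Qf y m z - inner ℝ z (Gf y m x) - inner ℝ x (Gf y m z) := by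
    rw [inner_sub_left, inner_sub_right, inner_sub_right, ← h1 x, ← h1 z,
      real_inner_comm x (Gf y m x), real_inner_comm z (Gf y m x), real_inner_comm x (Gf y m z),
      real_inner_comm z (Gf y m z)]
    ring
  rw [hexp]
  have h6 := h4 z x
  have h7 := h4 x z
  have sx := Real.sq_sqrt (hQnn x)
  have sz := Real.sq_sqrt (hQnn z)
  rcases eq_or_ne (Qf y m x) (Qf y m z) with hQ | hQ
  · -- equal norms
    have hP : Pf y m x = Pf y m z := by
      have h8 := hQ
      unfold Qf at h8
      have h9 := congrArg (fun r : ℝ => r ^ (m : ℝ)) h8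
      rw [← Real.rpow_mul (hPnn x), ← Real.rpow_mul (hPnn z), one_div,
        inv_mul_cancel₀ hm0.ne', Real.rpow_one, Real.rpow_one] at h9
      exact h9
    have hzero : ∀ w, Pf y m w = 0 → w = 0 := by
      intro w hw
      apply hS
      intro k
      unfold Pf at hw
      rw [Finset.sum_eq_zero_iff_of_nonneg fun k _ => (even_two_mul m).pow_nonneg _] at hw
      exact pow_eq_zero_iff (by omega) |>.1 (hw k (Finset.mem_univ k))
    have hPpos : 0 < Pf y m x := by
      rcases (hPnn x).lt_or_eq with h | h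
      · exact h
      · exfalso
        apply hxz
        rw [hzero x h.symm, hzero z (by rw [← hP]; exact h.symm)]
    have hk : ∃ k, inner ℝ z (y k) ≠ inner ℝ x (y k) := by
      by_contra hcon
      push Not at hcon
      apply hxz
      rw [← sub_eq_zero]
      apply hS
      intro k
      rw [inner_sub_left, hcon k, sub_self]
    obtain ⟨k₀, hk₀⟩ := hk
    have hsum : ∑ k, 2 * (m : ℝ) * (inner ℝ z (y k) * inner ℝ x (y k) ^ (2 * m - 1)) <
        ∑ k, (inner ℝ z (y k) ^ (2 * m) + (2 * (m : ℝ) - 1) * inner ℝ x (y k) ^ (2 * m)) := by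
      apply Finset.sum_lt_sum
      · intro k _
        rcases eq_or_ne (inner ℝ z (y k)) (inner ℝ x (y k)) with he | he
        · rw [he]
          apply le_of_eq
          have e : (inner ℝ x (y k)) ^ (2 * m) =
              inner ℝ x (y k) * inner ℝ x (y k) ^ (2 * m - 1) := by
            rw [← pow_succ']
            congr 1
            omega
          rw [e]
          ring
        · exact (young m hm _ _ he).le
      · exact ⟨k₀, Finset.mem_univ _, young m hm _ _ hk₀⟩
    rw [← Finset.mul_sum, Finset.sum_add_distrib, ← Finset.mul_sum] at hsum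
    have hPz : ∑ k, (inner ℝ z (y k)) ^ (2 * m) = Pf y m x := by
      rw [hP]
      rfl
    have hPx : ∑ k, (inner ℝ x (y k)) ^ (2 * m) = Pf y m x := rfl
    rw [hPz, hPx] at hsum
    have hlt : ∑ k, inner ℝ z (y k) * inner ℝ x (y k) ^ (2 * m - 1) < Pf y m x := by
      have h10 : 2 * (m : ℝ) * ∑ k, inner ℝ z (y k) * inner ℝ x (y k) ^ (2 * m - 1) <
          2 * (m : ℝ) * Pf y m x := by
        refine hsum.trans_le (le_of_eq ?_)
        ring
      exact lt_of_mul_lt_mul_left h10 (by positivity)
    have hG : inner ℝ z (Gf y m x) < Qf y m x := by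
      unfold Gf
      rw [inner_smul_right, inner_sum]
      have e1 : ∑ k, inner ℝ z ((inner ℝ x (y k)) ^ (2 * m - 1) • y k) =
          ∑ k, inner ℝ z (y k) * inner ℝ x (y k) ^ (2 * m - 1) := by
        apply Finset.sum_congr rfl
        intro k _
        rw [inner_smul_right]
        ring
      rw [e1]
      have e2 : Qf y m x = Pf y m x ^ ((1 : ℝ) / m - 1) * Pf y m x := by
        unfold Qf
        rw [Real.rpow_sub_one hPpos.ne']
        field_simp
      rw [e2]
      exact mul_lt_mul_of_pos_left hlt (Real.rpow_pos_of_pos hPpos _)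
    have h11 : inner ℝ x (Gf y m z) ≤ Qf y m z := by
      refine h7.trans (le_of_eq ?_)
      rw [hQ, ← sq, sz]
    linarith
  · -- different norms
    have hne : √(Qf y m x) ≠ √(Qf y m z) := by
      intro h
      apply hQ
      rw [← sx, ← sz, h]
    have h8 : 0 < (√(Qf y m x) - √(Qf y m z)) ^ 2 := by
      have := sub_ne_zero.2 hne
      positivity
    nlinarith

end Pool.Agent.Rog
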