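import Pool.Agent.Rog.Targets

/-!
# Bounds for the smooth norm
-/

set_option autoImplicit false

open MeasureTheory Set Filter Topology
open scoped Pointwise Real

namespace Pool.Agent.Rog

namespace NC_

variable {n T : ℕ}

theorem Pf_smul (y : Fin T → E n) (m : ℕ) (s : ℝ) (x : E n) :
    Pf y m (s • x) = s ^ (2 * m) * Pf y m x := by
  unfold Pf
  rw [Finset.mul_sum]
  refine Finset.sum_congr rfl fun k _ => ?_
  rw [real_inner_smul_left, mul_pow]

theorem Pf_nonneg (y : Fin T → E n) (m : ℕ) (x : E n) : 0 ≤ Pf y m x :=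
  Finset.sum_nonneg fun k _ => by rw [pow_mul]; exact pow_nonneg (sq_nonneg _) m

theorem Pf_pos (y : Fin T → E n) (m : ℕ) (hy : Spans y) (x : E n) (hx : x ≠ 0) :
    0 < Pf y m x := by
  have h : ∃ k, inner ℝ x (y k) ≠ 0 := by
    by_contra h
    push Not at h
    exact hx (hy x h)
  obtain ⟨k, hk⟩ := h
  refine Finset.sum_pos' (fun k _ => by rw [pow_mul]; exact pow_nonneg (sq_nonneg _) m)
    ⟨k, Finset.mem_univ k, ?_⟩
  rw [pow_mul]
  positivity

theorem inner_pow_le (y : Fin T → E n) (r : ℕ) (x : E n) (k : Fin T) :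
    |inner ℝ x (y k)| ^ r ≤ ‖x‖ ^ r * ‖y k‖ ^ r := by
  rw [← mul_pow]
  exact pow_le_pow_left₀ (abs_nonneg _) (abs_real_inner_le_norm _ _) r

theorem Pf_le (y : Fin T → E n) (m : ℕ) (x : E n) :
    Pf y m x ≤ (∑ k, ‖y k‖ ^ (2 * m)) * ‖x‖ ^ (2 * m) := by
  unfold Pf
  rw [Finset.sum_mul]
  refine Finset.sum_le_sum fun k _ => ?_
  have h := inner_pow_le y (2 * m) x k
  have h2 : |inner ℝ x (y k)| ^ (2 * m) = (inner ℝ x (y k)) ^ (2 * m) := by
    rw [pow_mul, pow_mul, sq_abs]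
  rw [h2] at h
  linarith [mul_comm (‖x‖ ^ (2 * m)) (‖y k‖ ^ (2 * m))]

theorem Pf_ge (y : Fin T → E n) (m : ℕ) (hy : Spans y) :
    ∃ c : ℝ, 0 < c ∧ ∀ x, x ≠ 0 → c * ‖x‖ ^ (2 * m) ≤ Pf y m x := by
  have hcont : Continuous (Pf y m) := by
    unfold Pf
    fun_prop
  rcases (Metric.sphere (0 : E n) 1).eq_empty_or_nonempty with he | hne
  · refine ⟨1, one_pos, fun x hx => ?_⟩
    exfalso
    have : (‖x‖⁻¹) • x ∈ Metric.sphere (0 : E n) 1 := by
      rw [mem_sphere_zero_iff_norm, norm_smul, norm_inv, norm_norm]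
      exact inv_mul_cancel₀ (norm_ne_zero_iff.mpr hx)
    rw [he] at this
    exact this
  · obtain ⟨x0, hx0, hmin⟩ := (isCompact_sphere (0 : E n) 1).exists_isMinOn hne hcont.continuousOn
    have hx00 : x0 ≠ 0 := by
      intro h
      rw [h] at hx0
      simp at hx0
    refine ⟨Pf y m x0, Pf_pos y m hy x0 hx00, fun x hx => ?_⟩
    have hxn : ‖x‖ ≠ 0 := norm_ne_zero_iff.mpr hx
    have hm : (‖x‖⁻¹) • x ∈ Metric.sphere (0 : E n) 1 := by
      rw [mem_sphere_zero_iff_norm, norm_smul, norm_inv, norm_norm]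
      exact inv_mul_cancel₀ hxn
    have h1 : Pf y m x0 ≤ Pf y m ((‖x‖⁻¹) • x) := hmin hm
    have h2 : Pf y m x = ‖x‖ ^ (2 * m) * Pf y m ((‖x‖⁻¹) • x) := by
      rw [← Pf_smul, smul_smul, mul_inv_cancel₀ hxn, one_smul]
    rw [h2, mul_comm]
    exact mul_le_mul_of_nonneg_left h1 (by positivity)

theorem root (m : ℕ) (hm : 1 ≤ m) (c r : ℝ) (hc : 0 ≤ c) (hr : 0 ≤ r) :
    (c * r ^ (2 * m)) ^ ((1 : ℝ) / m) = c ^ ((1 : ℝ) / m) * r ^ 2 := by
  rw [Real.mul_rpow hc (by positivity), pow_mul, one_div,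
    Real.pow_rpow_inv_natCast (by positivity) (by omega)]

end NC_

open NC_ in
theorem p_NC : T_NC := by
  intro n T m y hm hy
  obtain ⟨c0, hc0, hlow⟩ := Pf_ge y m hy
  have hm' : (1 : ℝ) ≤ m := by exact_mod_cast hm
  set S : ℝ := ∑ k, ‖y k‖ ^ (2 * m) with hS
  have hS0 : 0 ≤ S := Finset.sum_nonneg fun k _ => by positivity
  -- the bounds for `Q`
  have hm0 : (m : ℝ) ≠ 0 := by positivity
  have hzero : Pf y m 0 = 0 := by
    unfold Pf
    refine Finset.sum_eq_zero fun k _ => ?_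
    rw [inner_zero_left]
    exact zero_pow (by omega)
  have hQ0 : Qf y m 0 = 0 := by
    unfold Qf
    rw [hzero]
    exact Real.zero_rpow (by positivity)
  have hG0 : Gf y m 0 = 0 := by
    unfold Gf
    rw [Finset.sum_eq_zero, smul_zero]
    intro k _
    rw [inner_zero_left, zero_pow (by omega), zero_smul]
  set c1 : ℝ := c0 ^ ((1 : ℝ) / m) with hc1
  have hc1p : 0 < c1 := Real.rpow_pos_of_pos hc0 _
  set C1 : ℝ := S ^ ((1 : ℝ) / m) with hC1
  have hC1p : 0 ≤ C1 := Real.rpow_nonneg hS0 _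
  have hQl : ∀ x, c1 * ‖x‖ ^ 2 ≤ Qf y m x := by
    intro x
    by_cases hx : x = 0
    · rw [hx, hQ0]; simp
    · rw [hc1, ← root m hm c0 ‖x‖ hc0.le (norm_nonneg _)]
      exact Real.rpow_le_rpow (by positivity) (hlow x hx) (by positivity)
  have hQu : ∀ x, Qf y m x ≤ C1 * ‖x‖ ^ 2 := by
    intro x
    rw [hC1, ← root m hm S ‖x‖ hS0 (norm_nonneg _)]
    exact Real.rpow_le_rpow (Pf_nonneg y m x) (Pf_le y m x) (by positivity)
  -- the bound for `G`
  set C2 : ℝ := c0 ^ ((1 : ℝ) / m - 1) * S with hC2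
  have hC2p : 0 ≤ C2 := mul_nonneg (Real.rpow_nonneg hc0.le _) hS0
  have hG : ∀ x, ‖Gf y m x‖ ≤ C2 * ‖x‖ := by
    intro x
    by_cases hx : x = 0
    · rw [hx, hG0]; simp
    have hxn : 0 < ‖x‖ := norm_pos_iff.mpr hx
    have hPp : 0 < c0 * ‖x‖ ^ (2 * m) := by positivity
    have h1 : Pf y m x ^ ((1 : ℝ) / m - 1) ≤ (c0 * ‖x‖ ^ (2 * m)) ^ ((1 : ℝ) / m - 1) := by
      apply Real.rpow_le_rpow_of_nonpos hPp (hlow x hx)
      rw [sub_nonpos, div_le_one (by positivity)]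
      exact hm'
    have h2 : (c0 * ‖x‖ ^ (2 * m)) ^ ((1 : ℝ) / m - 1) =
        c0 ^ ((1 : ℝ) / m - 1) * (‖x‖ ^ 2 / ‖x‖ ^ (2 * m)) := by
      rw [Real.mul_rpow hc0.le (by positivity)]
      congr 1
      rw [Real.rpow_sub (by positivity), Real.rpow_one]
      congr 1
      have := root m hm 1 ‖x‖ zero_le_one (norm_nonneg _)
      rw [one_mul, Real.one_rpow, one_mul] at this
      exact this
    have h3 : ‖∑ k, (inner ℝ x (y k)) ^ (2 * m - 1) • y k‖ ≤ ‖x‖ ^ (2 * m - 1) * S := by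
      refine (norm_sum_le _ _).trans ?_
      rw [hS, Finset.mul_sum]
      refine Finset.sum_le_sum fun k _ => ?_
      rw [norm_smul, norm_pow, Real.norm_eq_abs]
      have h4 := mul_le_mul_of_nonneg_right (inner_pow_le y (2 * m - 1) x k) (norm_nonneg (y k))
      refine h4.trans (le_of_eq ?_)
      rw [mul_assoc, ← pow_succ]
      congr 2
      omega
    have h5 : ‖x‖ ^ (2 * m) = ‖x‖ ^ (2 * m - 1) * ‖x‖ := by
      rw [← pow_succ]
      congr 1
      omega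
    unfold Gf
    rw [norm_smul, Real.norm_of_nonneg (Real.rpow_nonneg (Pf_nonneg y m x) _)]
    calc Pf y m x ^ ((1 : ℝ) / m - 1) * ‖∑ k, (inner ℝ x (y k)) ^ (2 * m - 1) • y k‖
        ≤ (c0 ^ ((1 : ℝ) / m - 1) * (‖x‖ ^ 2 / ‖x‖ ^ (2 * m))) * (‖x‖ ^ (2 * m - 1) * S) := by
          rw [← h2]
          exact mul_le_mul h1 h3 (norm_nonneg _) (by positivity)
      _ = C2 * ‖x‖ := by
          rw [hC2, h5]
          have : ‖x‖ ^ (2 * m - 1) ≠ 0 := by positivity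
          field_simp
  refine ⟨⟨c1 / (1 + C2 ^ 2), by positivity, fun x => ?_⟩,
    ⟨C1 + C2 + 1, by positivity, fun x => ⟨?_, ?_⟩⟩⟩
  · refine le_trans ?_ (hQl x)
    have h6 : ‖Gf y m x‖ ^ 2 ≤ C2 ^ 2 * ‖x‖ ^ 2 := by
      rw [← mul_pow]
      exact pow_le_pow_left₀ (norm_nonneg _) (hG x) 2
    have h7 : ‖x‖ ^ 2 + ‖Gf y m x‖ ^ 2 ≤ (1 + C2 ^ 2) * ‖x‖ ^ 2 := by linarith
    calc c1 / (1 + C2 ^ 2) * (‖x‖ ^ 2 + ‖Gf y m x‖ ^ 2)
        ≤ c1 / (1 + C2 ^ 2) * ((1 + C2 ^ 2) * ‖x‖ ^ 2) :=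
          mul_le_mul_of_nonneg_left h7 (by positivity)
      _ = c1 * ‖x‖ ^ 2 := by field_simp
  · refine (hQu x).trans ?_
    exact mul_le_mul_of_nonneg_right (by linarith) (by positivity)
  · refine (hG x).trans ?_
    exact mul_le_mul_of_nonneg_right (by linarith) (by positivity)

end Pool.Agent.Rog
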