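import Pool.Agent.Rog.Targets

set_option autoImplicit false

open MeasureTheory Set Filter Topology

namespace Pool.Agent.Rog

namespace ND_

variable {n T : ℕ}

theorem inn_fderiv (v x : E n) : HasFDerivAt (fun x : E n => (inner ℝ x v : ℝ)) (innerSL ℝ v) x := by
  have h2 : (fun x : E n => (inner ℝ x v : ℝ)) = fun x => innerSL ℝ v x := by
    funext z
    rw [innerSL_apply_apply, real_inner_comm]
  rw [h2]
  exact (innerSL ℝ v).hasFDerivAt

theorem term_fderiv (m : ℕ) (v x : E n) : HasFDerivAt (fun x : E n => (inner ℝ x v : ℝ) ^ (2 * m))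
    (((2 * m : ℕ) * (inner ℝ x v : ℝ) ^ (2 * m - 1)) • innerSL ℝ v) x := by
  have h1 : HasFDerivAt (fun x : E n => (inner ℝ x v : ℝ)) (innerSL ℝ v) x := by
    have h2 : (fun x : E n => (inner ℝ x v : ℝ)) = fun x => innerSL ℝ v x := by
      funext z
      rw [innerSL_apply_apply, real_inner_comm]
    rw [h2]
    exact (innerSL ℝ v).hasFDerivAt
  have h3 := h1.pow (2 * m)
  refine h3.congr_fderiv ?_
  ext z
  simp

theorem P_fderiv (y : Fin T → E n) (m : ℕ) (x : E n) : HasFDerivAt (Pf y m)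
    (∑ k, ((2 * m : ℕ) * (inner ℝ x (y k) : ℝ) ^ (2 * m - 1)) • innerSL ℝ (y k)) x := by
  have h := HasFDerivAt.fun_sum (u := Finset.univ) (A := fun (k : Fin T) (x : E n) =>
    (inner ℝ x (y k) : ℝ) ^ (2 * m)) (fun k _ => term_fderiv m (y k) x)
  exact h

theorem P_pos (y : Fin T → E n) (m : ℕ) (hs : Spans y) (x : E n) (hx : x ≠ 0) :
    0 < Pf y m x := by
  have h1 : ∃ k, (inner ℝ x (y k) : ℝ) ≠ 0 := by
    by_contra h
    push Not at h
    exact hx (hs x h)
  obtain ⟨k, hk⟩ := h1
  refine lt_of_lt_of_le ?_ (Finset.single_le_sum (f := fun k => (inner ℝ x (y k) : ℝ) ^ (2 * m))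
    (fun i _ => ?_) (Finset.mem_univ k))
  · show 0 < (inner ℝ x (y k) : ℝ) ^ (2 * m)
    rw [pow_mul]
    positivity
  · rw [pow_mul]
    positivity

theorem P_zero (y : Fin T → E n) (m : ℕ) (hm : 1 ≤ m) : Pf y m 0 = 0 := by
  unfold Pf
  apply Finset.sum_eq_zero
  intro k _
  rw [inner_zero_left, zero_pow (by omega)]

theorem G_zero (y : Fin T → E n) (m : ℕ) (hm : 1 ≤ m) : Gf y m 0 = 0 := by
  unfold Gf
  have h : ∑ k, (inner ℝ (0 : E n) (y k) : ℝ) ^ (2 * m - 1) • y k = 0 := by
    apply Finset.sum_eq_zero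
    intro k _
    rw [inner_zero_left, zero_pow (by omega), zero_smul]
  rw [h, smul_zero]

theorem Q_zero (y : Fin T → E n) (m : ℕ) (hm : 1 ≤ m) : Qf y m 0 = 0 := by
  unfold Qf
  rw [P_zero y m hm]
  apply Real.zero_rpow
  have : (0 : ℝ) < m := by exact_mod_cast hm
  positivity

theorem Q_fderiv (y : Fin T → E n) (m : ℕ) (hm : 1 ≤ m) (hs : Spans y) (x : E n) (hx : x ≠ 0) :
    HasFDerivAt (Qf y m) ((2 : ℝ) • (innerSL ℝ (Gf y m x))) x := by
  have h1 := (P_fderiv y m x).rpow_const (p := (1 : ℝ) / m) (Or.inl (P_pos y m hs x hx).ne')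
  refine h1.congr_fderiv ?_
  have hm' : (m : ℝ) ≠ 0 := by
    have : (0 : ℝ) < m := by exact_mod_cast hm
    exact this.ne'
  ext z
  simp only [Gf, smul_eq_mul, smul_apply,
    sum_apply, innerSL_apply_apply, inner_smul_left, sum_inner,
    RCLike.conj_to_real, Finset.mul_sum]
  apply Finset.sum_congr rfl
  intro k _
  push_cast
  field_simp

theorem G_diff (y : Fin T → E n) (m : ℕ) (hs : Spans y) (x : E n) (hx : x ≠ 0) :
    DifferentiableAt ℝ (Gf y m) x := by
  have h1 : DifferentiableAt ℝ (fun x => (Pf y m x) ^ ((1 : ℝ) / m - 1)) x :=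
    ((P_fderiv y m x).rpow_const (Or.inl (P_pos y m hs x hx).ne')).differentiableAt
  have h2 : DifferentiableAt ℝ (fun x : E n => ∑ k, (inner ℝ x (y k) : ℝ) ^ (2 * m - 1) • y k)
      x := by
    apply DifferentiableAt.fun_sum
    intro k _
    exact (((inn_fderiv (y k) x).differentiableAt).pow _).smul_const _
  exact h1.smul h2

end ND_

theorem p_ND (hC : T_NC) : T_ND := by
  intro n T m y hm hs
  obtain ⟨-, C, hC0, hC1⟩ := hC n T m y hm hs
  refine ⟨?_, ?_, fun x hx => ND_.G_diff y m hs x hx⟩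
  · rw [continuous_iff_continuousAt]
    intro x
    by_cases hx : x = 0
    · subst hx
      rw [ContinuousAt, ND_.G_zero y m hm]
      apply squeeze_zero_norm (fun x => (hC1 x).2)
      have h1 : Tendsto (fun x : E n => C * ‖x‖) (𝓝 0) (𝓝 (C * ‖(0 : E n)‖)) :=
        (continuous_const.mul continuous_norm).tendsto 0
      rw [norm_zero, mul_zero] at h1
      exact h1
    · exact (ND_.G_diff y m hs x hx).continuousAt
  · intro x
    by_cases hx : x = 0
    · subst hx
      rw [ND_.G_zero y m hm, map_zero, smul_zero]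
      apply Asymptotics.IsBigO.hasFDerivAt (n := 2) _ (by norm_num)
      apply Asymptotics.IsBigO.of_bound C
      apply Eventually.of_forall
      intro x
      have h1 : 0 ≤ Qf y m x := by
        unfold Qf
        apply Real.rpow_nonneg
        unfold Pf
        apply Finset.sum_nonneg
        intro k _
        rw [pow_mul]
        positivity
      rw [sub_zero, Real.norm_of_nonneg h1, Real.norm_of_nonneg (by positivity)]
      exact (hC1 x).1
    · exact ND_.Q_fderiv y m hm hs x hx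

end Pool.Agent.Rog
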