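import Pool.Agent.Rog.TargetsG

/-!
# Number of sharp points of a net, general bodies (MP_eba1ef_gt)
-/

set_option autoImplicit false

open MeasureTheory Set Filter Topology
open scoped Pointwise Real

namespace Pool.Agent.Rog

theorem p_NETG (hC : T_CNTG) (hP : T_PACK) (hM : T_MAXB) (hS : T_SYB) : T_NETG := by
  classical
  intro n K Y t hn hK hY hsep ht h
  have hn' : (1 : ℝ) ≤ n := by exact_mod_cast hn
  have hn0 : (0 : ℝ) < n := by linarith
  have ht0 : 0 < t := lt_of_lt_of_le (by positivity) ht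
  have hr0 : (0 : ℝ) < 1 / (2 * n) := by positivity
  have hnt : 1 ≤ n * t := by
    have := mul_le_mul_of_nonneg_left ht hn0.le
    rwa [mul_one_div_cancel hn0.ne'] at this
  have hc3 : (0 : ℝ) ≤ c3 := by
    unfold c3 cc; norm_num
  have hsb : SymBody (sy K) := (hS n K hK).1
  obtain ⟨X, hXY, hXsep, hXcov⟩ := hM n (sy K) (Y : Set (E n)) t hsb
    (Y.finite_toSet.isBounded) ht0
  have hX : (X.card : ℝ) ≤ 4 * c3 ^ n :=
    hC n K t X hn hK ht h (fun x hx => hY x (Finset.mem_coe.mp (hXY x hx))) hXsep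
  have hsub : Y ⊆ X.biUnion (fun x => Y.filter (fun z => z - x ∈ t • sy K)) := by
    intro z hz
    obtain ⟨x, hx, hzx⟩ := hXcov z (Finset.mem_coe.mpr hz)
    exact Finset.mem_biUnion.mpr ⟨x, hx, Finset.mem_filter.mpr ⟨hz, hzx⟩⟩
  have hcard : (Y.card : ℝ) ≤ ∑ x ∈ X, ((Y.filter (fun z => z - x ∈ t • sy K)).card : ℝ) := by
    have := (Finset.card_le_card hsub).trans Finset.card_biUnion_le
    exact_mod_cast this
  have heach : ∀ x ∈ X, ((Y.filter (fun z => z - x ∈ t • sy K)).card : ℝ) ≤ (5 * (n * t)) ^ n := by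
    intro x _
    have h1 := hP n (sy K) (Y.filter (fun z => z - x ∈ t • sy K)) x t (1 / (2 * n)) hsb hr0 ht0.le
      (by intro z hz; exact (Finset.mem_filter.mp hz).2)
      (by
        intro z hz w hw hne
        exact hsep z (Finset.mem_filter.mp hz).1 w (Finset.mem_filter.mp hw).1 hne)
    refine h1.trans ?_
    have e1 : (2 * t + 1 / (2 * (n : ℝ))) / (1 / (2 * n)) = 4 * (n * t) + 1 := by
      field_simp; ring
    rw [e1]
    exact pow_le_pow_left₀ (by positivity) (by linarith) n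
  calc (Y.card : ℝ) ≤ ∑ x ∈ X, ((Y.filter (fun z => z - x ∈ t • sy K)).card : ℝ) := hcard
    _ ≤ ∑ _x ∈ X, (5 * (n * t)) ^ n := Finset.sum_le_sum heach
    _ = X.card * (5 * (n * t)) ^ n := by rw [Finset.sum_const, nsmul_eq_mul]
    _ ≤ (4 * c3 ^ n) * (5 * (n * t)) ^ n := by
        apply mul_le_mul_of_nonneg_right hX; positivity
    _ = 4 * (5 * c3 * n * t) ^ n := by
        rw [mul_assoc, ← mul_pow]; congr 2; ring

end Pool.Agent.Rog
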