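import Pool.Agent.Rog.TargetsG

/-!
# Packing in the body
-/

set_option autoImplicit false

open MeasureTheory Set
open scoped Pointwise

namespace Pool.Agent.Rog

namespace PACKK_

lemma vol_smul {n : ℕ} (K : Set (E n)) (r : ℝ) (hr : 0 ≤ r) :
    volume (r • K) = ENNReal.ofReal (r ^ n) * volume K := by
  rw [Measure.addHaar_smul, finrank_euclideanSpace_fin, abs_of_nonneg (pow_nonneg hr n)]

end PACKK_

open PACKK_

theorem p_PACKK (hS : T_SYB) : T_PACKK := by
  classical
  intro n K X r hG hr hXK hsep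
  obtain ⟨hK, hMpos, -, -, -, -, -⟩ := hS n K hG
  have hfin : volume (sy K) ≠ ⊤ := hK.cpt.measure_lt_top.ne
  have hfinK : volume K ≠ ⊤ := hG.cpt.measure_lt_top.ne
  have hr2 : (0 : ℝ) < r / 2 := by positivity
  have hmeas : ∀ x ∈ X, MeasurableSet (x +ᵥ ((r / 2) • sy K)) := by
    intro x _
    exact (((hK.cpt.smul (r / 2)).vadd x)).measurableSet
  have hdisj : Set.PairwiseDisjoint (X : Set (E n)) (fun x => x +ᵥ ((r / 2) • sy K)) := by
    intro x hx z hz hxz
    rw [Function.onFun, Set.disjoint_left]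
    intro p hp hp'
    obtain ⟨_, ⟨a, ha, rfl⟩, h1⟩ := hp
    obtain ⟨_, ⟨b, hb, rfl⟩, h2⟩ := hp'
    apply hsep x hx z hz hxz
    refine ⟨(1 / 2 : ℝ) • b + (1 / 2 : ℝ) • (-a), hK.cvx hb (hK.symm a ha) (by norm_num)
      (by norm_num) (by norm_num), ?_⟩
    simp only [vadd_eq_add] at h1 h2
    have h3 : x - z = (r / 2) • b - (r / 2) • a := by
      have : x + (r / 2) • a = z + (r / 2) • b := by rw [h1, h2]
      rw [sub_eq_sub_iff_add_eq_add]
      rw [this, add_comm]
    show r • ((1 / 2 : ℝ) • b + (1 / 2 : ℝ) • (-a)) = x - z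
    rw [h3]
    module
  have hsub : (⋃ x ∈ X, x +ᵥ ((r / 2) • sy K)) ⊆ (1 + r / 2) • K := by
    intro p hp
    simp only [Set.mem_iUnion] at hp
    obtain ⟨x, hx, ⟨q, hq, hqp⟩⟩ := hp
    have hadd := hG.cvx.add_smul zero_le_one hr2.le
    rw [hadd, one_smul]
    simp only [vadd_eq_add] at hqp
    rw [← hqp]
    obtain ⟨a, ha, rfl⟩ := hq
    exact Set.add_mem_add (hXK x hx) ⟨a, ha.1, rfl⟩
  have h1 : volume (⋃ x ∈ X, x +ᵥ ((r / 2) • sy K)) = ∑ x ∈ X, volume (x +ᵥ ((r / 2) • sy K)) :=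
    measure_biUnion_finset hdisj hmeas
  have h2 : ∑ x ∈ X, volume (x +ᵥ ((r / 2) • sy K)) =
      X.card * (ENNReal.ofReal ((r / 2) ^ n) * volume (sy K)) := by
    rw [Finset.sum_congr rfl (fun x _ => by
      rw [measure_vadd volume x, vol_smul (sy K) (r / 2) hr2.le])]
    rw [Finset.sum_const, nsmul_eq_mul]
  have h3 := measure_mono (μ := volume) hsub
  rw [h1, h2, vol_smul K _ (by positivity)] at h3
  have h5 : (X.card : ℝ) * ((r / 2) ^ n * volume.real (sy K)) ≤
      (1 + r / 2) ^ n * volume.real K := by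
    have h4 := ENNReal.toReal_mono (ENNReal.mul_ne_top ENNReal.ofReal_ne_top hfinK) h3
    rw [ENNReal.toReal_mul, ENNReal.toReal_mul, ENNReal.toReal_mul,
      ENNReal.toReal_ofReal (by positivity),
      ENNReal.toReal_ofReal (by positivity), ENNReal.toReal_natCast] at h4
    exact h4
  have h6 : ((2 + r) / r) ^ n * (r / 2) ^ n = (1 + r / 2) ^ n := by
    rw [← mul_pow]
    congr 1
    field_simp
  rw [← h6] at h5
  have h7 : 0 < (r / 2) ^ n := by positivity
  refine le_of_mul_le_mul_right ?_ h7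
  calc (X.card : ℝ) * volume.real (sy K) * (r / 2) ^ n
      = (X.card : ℝ) * ((r / 2) ^ n * volume.real (sy K)) := by ring
    _ ≤ ((2 + r) / r) ^ n * (r / 2) ^ n * volume.real K := h5
    _ = ((2 + r) / r) ^ n * volume.real K * (r / 2) ^ n := by ring

end Pool.Agent.Rog
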