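import Pool.Agent.Rog.Targets

/-!
# Peeling the star hull
-/

set_option autoImplicit false

open MeasureTheory Set Filter Topology
open scoped Pointwise Real

namespace Pool.Agent.Rog

namespace PEEL_

theorem dcap_compact {n : ℕ} {K : Set (E n)} (hP : IsCompact (pol K)) (x : E n) (s : ℝ) :
    IsCompact (dcap K x s) := by
  have h : dcap K x s = pol K ∩ {y | 1 - inner ℝ y x ≤ s} := rfl
  rw [h]
  apply hP.inter_right
  apply isClosed_le
  · fun_prop
  · fun_prop

theorem shull_compact {n : ℕ} {K : Set (E n)} (hP : IsCompact (pol K)) (x : E n) (s : ℝ) :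
    IsCompact (shull K x s) := by
  have h : shull K x s = (fun p : ℝ × E n => p.1 • p.2) '' (Icc (0 : ℝ) 1 ×ˢ dcap K x s) := by
    ext z
    constructor
    · rintro ⟨r, h0, h1, y, hy, rfl⟩
      exact ⟨(r, y), ⟨⟨h0, h1⟩, hy⟩, rfl⟩
    · rintro ⟨⟨r, y⟩, ⟨⟨h0, h1⟩, hy⟩, rfl⟩
      exact ⟨r, h0, h1, y, hy, rfl⟩
  rw [h]
  exact (isCompact_Icc.prod (dcap_compact hP x s)).image (by fun_prop)

theorem half {n : ℕ} (hn : 1 ≤ n) : (1 - 1 / (n : ℝ)) ^ n ≤ 1 / 2 := by
  have h1 : (1 : ℝ) ≤ n := by exact_mod_cast hn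
  have h := Real.one_sub_div_pow_le_exp_neg (n := n) (t := 1) h1
  have h2 := Real.exp_neg_one_lt_d9
  refine h.trans ?_
  norm_num at h2 ⊢
  linarith

theorem cover {n : ℕ} (hn : 1 ≤ n) {K : Set (E n)} {x : E n} (hx : x ∈ K) (s : ℝ) :
    shull K x s ⊆ (1 - 1 / (n : ℝ)) • shull K x s ∪ dcap K x (s + 1 / n) := by
  have hn1 : (1 : ℝ) ≤ n := by exact_mod_cast hn
  have hinv : 0 < 1 / (n : ℝ) := by positivity
  have hinv1 : 1 / (n : ℝ) ≤ 1 := by
    rw [div_le_one (by positivity)]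
    exact hn1
  have hq0 : 0 ≤ 1 - 1 / (n : ℝ) := by linarith
  rintro z ⟨r, hr0, hr1, y, hy, rfl⟩
  by_cases hr : r ≤ 1 - 1 / (n : ℝ)
  · left
    rcases hq0.eq_or_lt with hq | hq
    · have hr00 : r = 0 := le_antisymm (by rw [← hq] at hr; exact hr) hr0
      refine ⟨y, ⟨1, zero_le_one, le_rfl, y, hy, (one_smul ℝ y).symm⟩, ?_⟩
      simp only
      rw [← hq, hr00]
    · refine ⟨(r / (1 - 1 / (n : ℝ))) • y, ⟨r / (1 - 1 / (n : ℝ)), by positivity, ?_, y, hy, rfl⟩, ?_⟩
      · rw [div_le_one hq]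
        exact hr
      · simp only
        rw [smul_smul, mul_div_cancel₀ _ hq.ne']
  · right
    push Not at hr
    have hi := hy.1 x hx
    have hs := hy.2
    refine ⟨?_, ?_⟩
    · intro w hw
      have h1 := hy.1 w hw
      rw [inner_smul_left]
      simp only [conj_trivial]
      by_cases h2 : 0 ≤ inner ℝ y w
      · nlinarith
      · push Not at h2
        nlinarith
    · rw [inner_smul_left]
      simp only [conj_trivial]
      by_cases h2 : 0 ≤ inner ℝ y x
      · have h3 : (1 - 1 / (n : ℝ)) * inner ℝ y x ≤ r * inner ℝ y x :=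
          mul_le_mul_of_nonneg_right hr.le h2
        have h4 : 1 / (n : ℝ) * inner ℝ y x ≤ 1 / (n : ℝ) * 1 :=
          mul_le_mul_of_nonneg_left hi hinv.le
        nlinarith
      · push Not at h2
        have h3 : inner ℝ y x ≤ r * inner ℝ y x := by nlinarith
        linarith

end PEEL_

/-- PEEL -/
theorem p_PEEL (hB : T_POLB) : T_PEEL := by
  intro n K x s hn hK hx hs
  have hP : IsCompact (pol K) := (hB.2 n K hK).2.cpt
  have hc := PEEL_.cover hn hx s
  have hDc := PEEL_.shull_compact hP x s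
  have hCc := PEEL_.dcap_compact hP x (s + 1 / n)
  have hfin : volume ((1 - 1 / (n : ℝ)) • shull K x s ∪ dcap K x (s + 1 / n)) ≠ ⊤ :=
    ((hDc.smul _).union hCc).measure_lt_top.ne
  have h1 : volume.real (shull K x s) ≤
      volume.real ((1 - 1 / (n : ℝ)) • shull K x s ∪ dcap K x (s + 1 / n)) :=
    measureReal_mono hc hfin
  have h2 := measureReal_union_le (μ := (volume : Measure (E n)))
    ((1 - 1 / (n : ℝ)) • shull K x s) (dcap K x (s + 1 / n))
  have h3 : volume.real ((1 - 1 / (n : ℝ)) • shull K x s) =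
      (1 - 1 / (n : ℝ)) ^ n * volume.real (shull K x s) := by
    have hn1 : (1 : ℝ) ≤ n := by exact_mod_cast hn
    have hinv1 : 1 / (n : ℝ) ≤ 1 := by
      rw [div_le_one (by positivity)]
      exact hn1
    rw [Measure.real, Measure.addHaar_smul, ENNReal.toReal_mul, ENNReal.toReal_ofReal (abs_nonneg _),
      finrank_euclideanSpace_fin, abs_of_nonneg (pow_nonneg (by linarith) _)]
    rfl
  rw [h3] at h2
  have h4 : (1 - 1 / (n : ℝ)) ^ n * volume.real (shull K x s) ≤
      1 / 2 * volume.real (shull K x s) :=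
    mul_le_mul_of_nonneg_right (PEEL_.half hn) measureReal_nonneg
  linarith

end Pool.Agent.Rog
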