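import Pool.Agent.Rog.TargetsG
import Pool.Agent.Rog.PEEL

/-!
# Peeling the star hull: general bodies
-/

set_option autoImplicit false

open MeasureTheory Set Filter Topology
open scoped Pointwise Real

namespace Pool.Agent.Rog

/-- PEELG -/
theorem p_PEELG (hB : T_SYB) : T_PEELG := by
  intro n K x s hn hK hx hs
  have hP : IsCompact (pol K) := (hB n K hK).2.2.2.2.1
  have hc := PEEL_.cover hn hx s
  have hDc := PEEL_.shull_compact hP x s
  have hCc := PEEL_.dcap_compact hP x (s + 1 / n)
  have hfin : volume ((1 - 1 / (n : ℝ)) • shull K x s ∪ dcap K x (s + 1 / n)) ≠ ⊤ :=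
    ((hDc.smul _).union hCc).measure_lt_top.ne
  have h1 : volume.real (shull K x s) ≤
      volume.real ((1 - 1 / (n : ℝ)) • shull K x s ∪ dcap K x (s + 1 / n)) :=
    measureReal_mono hc hfin
  have h2 := measureReal_union_le (μ := (volume : Measure (E n)))
    ((1 - 1 / (n : ℝ)) • shull K x s) (dcap K x (s + 1 / n))
  have h3 : volume.real ((1 - 1 / (n : ℝ)) • shull K x s) =
      (1 - 1 / (n : ℝ)) ^ n * volume.real (shull K x s) := by
    have hn1 : (1 : ℝ) ≤ n := by exact_mod_cast hn
    have hinv1 : 1 / (n : ℝ) ≤ 1 := by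
      rw [div_le_one (by positivity)]
      exact hn1
    rw [Measure.real, Measure.addHaar_smul, ENNReal.toReal_mul, ENNReal.toReal_ofReal (abs_nonneg _),
      finrank_euclideanSpace_fin, abs_of_nonneg (pow_nonneg (by linarith) _)]
    rfl
  rw [h3] at h2
  have h4 : (1 - 1 / (n : ℝ)) ^ n * volume.real (shull K x s) ≤
      1 / 2 * volume.real (shull K x s) :=
    mul_le_mul_of_nonneg_right (PEEL_.half hn) measureReal_nonneg
  linarith

end Pool.Agent.Rog
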