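import Pool.Agent.Rog.Targets
import Pool.Agent.H25.Plancherel

/-!
# Plancherel for the cosine transform of the indicator function of a compact set
-/

set_option autoImplicit false

open MeasureTheory Set Filter Topology
open scoped Pointwise Real

namespace Pool.Agent.Rog

namespace PLAN_

open FourierTransform
open scoped ENNReal NNReal

variable {n : ℕ}

/-- The indicator function. -/
noncomputable def ind (K : Set (E n)) : E n → ℂ := K.indicator (fun _ => (1 : ℂ))

lemma ind_int {K : Set (E n)} (hK : IsCompact K) : Integrable (ind K) := by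
  refine (integrable_indicator_iff hK.measurableSet).2 ?_
  exact integrableOn_const (C := (1 : ℂ)) hK.measure_lt_top.ne

lemma ind_memLp {K : Set (E n)} (hK : IsCompact K) : MemLp (ind K) 2 :=
  memLp_indicator_const 2 hK.measurableSet (1 : ℂ) (Or.inr hK.measure_lt_top.ne)

lemma four_cont {K : Set (E n)} (hK : IsCompact K) : Continuous (𝓕 (ind K) : E n → ℂ) :=
  VectorFourier.fourierIntegral_continuous (V := E n) (W := E n)
    Real.continuous_fourierChar (L := innerₗ (E n)) continuous_inner (ind_int hK)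

lemma four_memLp {K : Set (E n)} (hK : IsCompact K) : MemLp (𝓕 (ind K) : E n → ℂ) 2 := by
  refine ⟨(four_cont hK).aestronglyMeasurable, ?_⟩
  rw [Pool.Agent.H25.Plancherel.eLpNorm_fourier_eq (ind_int hK) (ind_memLp hK)]
  exact (ind_memLp hK).2

lemma lint_eq (f : E n → ℂ) : ∫⁻ v, ‖f v‖ₑ ^ 2 = eLpNorm f 2 ^ 2 := by
  have h := eLpNorm_nnreal_pow_eq_lintegral (f := f) (μ := (volume : Measure (E n)))
    (p := (2 : ℝ≥0)) (by norm_num)
  have h2 : ((2 : ℝ≥0) : ℝ≥0∞) = 2 := by norm_num
  have h3 : (((2 : ℝ≥0) : ℝ≥0) : ℝ) = 2 := by norm_num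
  rw [h2, h3] at h
  simp only [ENNReal.rpow_two] at h
  exact h.symm

lemma int_sq {f : E n → ℂ} (hf : MemLp f 2) :
    Integrable (fun x => ‖f x‖ ^ 2) := hf.integrable_norm_pow (by norm_num)

lemma int_eq {f : E n → ℂ} (hf : MemLp f 2) :
    ∫ x, ‖f x‖ ^ 2 = (eLpNorm f 2 ^ 2).toReal := by
  rw [← lint_eq, integral_eq_lintegral_of_nonneg_ae (ae_of_all _ fun x => by positivity)
      ((int_sq hf).aestronglyMeasurable)]
  congr 1
  refine lintegral_congr fun x => ?_
  rw [ENNReal.ofReal_pow (norm_nonneg _), ofReal_norm]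

lemma plan {K : Set (E n)} (hK : IsCompact K) :
    ∫ x, ‖(𝓕 (ind K) : E n → ℂ) x‖ ^ 2 = volume.real K := by
  rw [int_eq (four_memLp hK),
    Pool.Agent.H25.Plancherel.eLpNorm_fourier_eq (ind_int hK) (ind_memLp hK),
    ← int_eq (ind_memLp hK)]
  have : (fun x => ‖ind K x‖ ^ 2) = K.indicator (fun _ => (1 : ℝ)) := by
    funext x
    by_cases hx : x ∈ K
    · simp [ind, hx]
    · simp [ind, hx]
  rw [this, integral_indicator hK.measurableSet]
  simp

lemma re_eq {K : Set (E n)} (hK : IsCompact K) (w : E n) :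
    ((𝓕 (ind K) : E n → ℂ) w).re = ∫ x in K, Real.cos (2 * π * inner ℝ w x) := by
  rw [Real.fourier_eq' (ind K) w]
  have hi : Integrable (fun v : E n => Complex.exp (↑(-2 * π * inner ℝ v w) * Complex.I) • ind K v) := by
    have h0 := (Real.fourierIntegral_convergent_iff (V := E n) (f := ind K) w).2 (ind_int hK)
    refine h0.congr (ae_of_all _ fun v => ?_)
    simp only [Circle.smul_def, Real.fourierChar_apply]
    congr 2
    push_cast
    ring
  have h1 := (Complex.reCLM.integral_comp_comm hi)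
  simp only [Complex.reCLM_apply] at h1
  rw [← h1, ← integral_indicator hK.measurableSet]
  refine integral_congr_ae (ae_of_all _ fun x => ?_)
  by_cases hx : x ∈ K
  · simp only [ind, hx, indicator_of_mem, smul_eq_mul, mul_one]
    rw [Complex.exp_ofReal_mul_I_re, real_inner_comm w x, ← Real.cos_neg]
    congr 1
    ring
  · simp [ind, hx]

end PLAN_

open PLAN_ FourierTransform in
theorem p_PLAN : T_PLAN := by
  intro n K s hK hs
  have hc : 0 < s / (2 * π) := by positivity
  have e1 : ∀ v : E n, ∫ x in K, Real.cos (s * inner ℝ v x) =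
      ((𝓕 (ind K) : E n → ℂ) ((s / (2 * π)) • v)).re := by
    intro v
    rw [re_eq hK]
    congr 1
    funext x
    rw [real_inner_smul_left]
    congr 1
    field_simp
  have hle : ∀ v : E n, (∫ x in K, Real.cos (s * inner ℝ v x)) ^ 2 ≤
      ‖(𝓕 (ind K) : E n → ℂ) ((s / (2 * π)) • v)‖ ^ 2 := by
    intro v
    rw [e1 v, ← sq_abs]
    exact pow_le_pow_left₀ (abs_nonneg _) (Complex.abs_re_le_norm _) 2
  have hI : Integrable (fun v : E n => ‖(𝓕 (ind K) : E n → ℂ) ((s / (2 * π)) • v)‖ ^ 2) :=
    (int_sq (four_memLp hK)).comp_smul hc.ne'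
  have hcont : Continuous (fun v : E n => (∫ x in K, Real.cos (s * inner ℝ v x)) ^ 2) := by
    have : (fun v : E n => (∫ x in K, Real.cos (s * inner ℝ v x)) ^ 2) =
        fun v : E n => (((𝓕 (ind K) : E n → ℂ) ((s / (2 * π)) • v)).re) ^ 2 := by
      funext v
      rw [e1 v]
    rw [this]
    have h2 := four_cont hK
    fun_prop
  have hI2 : Integrable (fun v : E n => (∫ x in K, Real.cos (s * inner ℝ v x)) ^ 2) := by
    refine hI.mono' hcont.aestronglyMeasurable (ae_of_all _ fun v => ?_)
    rw [Real.norm_eq_abs, abs_of_nonneg (sq_nonneg _)]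
    exact hle v
  refine ⟨hI2, (integral_mono hI2 hI hle).trans (le_of_eq ?_)⟩
  rw [Measure.integral_comp_smul volume (fun w : E n => ‖(𝓕 (ind K) : E n → ℂ) w‖ ^ 2), plan hK]
  simp only [finrank_euclideanSpace, Fintype.card_fin, smul_eq_mul]
  congr 1
  rw [abs_of_nonneg (by positivity), ← inv_pow, inv_div]

end Pool.Agent.Rog
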