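import Pool.Agent.Rog.Targets

/-!
# The polar of `A ∩ (-A)`
-/

set_option autoImplicit false

open MeasureTheory Set
open scoped Pointwise

namespace Pool.Agent.Rog

namespace POLD_

variable {n : ℕ}

/-- Separation by a vector. -/
theorem sep {C : Set (E n)} (hc : Convex ℝ C) (hcl : IsClosed C) {m : E n} (hm : m ∉ C) :
    ∃ (v : E n) (u : ℝ), (∀ c ∈ C, inner ℝ v c < u) ∧ u < inner ℝ v m := by
  obtain ⟨f, u, h1, h2⟩ := geometric_hahn_banach_closed_point hc hcl hm
  refine ⟨(InnerProductSpace.toDual ℝ (E n)).symm f, u, fun c hc' => ?_, ?_⟩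
  · rw [InnerProductSpace.toDual_symm_apply]
    exact h1 c hc'
  · rw [InnerProductSpace.toDual_symm_apply]
    exact h2

theorem zero_mem_pol (A : Set (E n)) : (0 : E n) ∈ pol A := by
  intro x _
  rw [inner_zero_left]
  exact zero_le_one

/-- A point on which the polar is bounded by `1` belongs to the set. -/
theorem bipolar {A : Set (E n)} (hA : IsCompact A) (hc : Convex ℝ A) (h0 : (0 : E n) ∈ A)
    {z : E n} (hz : ∀ y ∈ pol A, inner ℝ y z ≤ 1) : z ∈ A := by
  by_contra hn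
  obtain ⟨v, u, h1, h2⟩ := sep hc hA.isClosed hn
  have hu : 0 < u := by
    have := h1 0 h0
    rwa [inner_zero_right] at this
  have hv : u⁻¹ • v ∈ pol A := by
    intro x hx
    rw [real_inner_smul_left]
    have h3 := (h1 x hx).le
    calc u⁻¹ * inner ℝ v x ≤ u⁻¹ * u := mul_le_mul_of_nonneg_left h3 (inv_nonneg.2 hu.le)
      _ = 1 := inv_mul_cancel₀ hu.ne'
  have h3 := hz _ hv
  rw [real_inner_smul_left] at h3
  have h4 : u⁻¹ * u < u⁻¹ * inner ℝ v z := mul_lt_mul_of_pos_left h2 (inv_pos.2 hu)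
  rw [inv_mul_cancel₀ hu.ne'] at h4
  exact absurd h3 (not_le.2 h4)

end POLD_

open POLD_ in
/-- POLD. -/
theorem p_POLD (hB : T_POLB) : T_POLD := by
  intro n A hA hc h0 m hm
  obtain ⟨hpc, hpv, -⟩ := hB.1 n A hA hc h0
  have h0A : (0 : E n) ∈ A := interior_subset h0
  by_contra hn
  have hC : IsCompact (pol A - pol A) := by
    rw [sub_eq_add_neg]
    exact hpc.add hpc.neg
  have hCv : Convex ℝ (pol A - pol A) := hpv.sub hpv
  obtain ⟨v, u, h1, h2⟩ := sep hCv hC.isClosed hn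
  have z0 := zero_mem_pol A
  have hu : 0 < u := by
    have := h1 (0 - 0) (sub_mem_sub z0 z0)
    rwa [sub_zero, inner_zero_right] at this
  have ha : ∀ y ∈ pol A, inner ℝ y v ≤ u := by
    intro y hy
    have := h1 (y - 0) (sub_mem_sub hy z0)
    rw [sub_zero, real_inner_comm] at this
    exact this.le
  have hb : ∀ y ∈ pol A, -inner ℝ y v ≤ u := by
    intro y hy
    have := h1 (0 - y) (sub_mem_sub z0 hy)
    rw [zero_sub, inner_neg_right, real_inner_comm] at this
    exact this.le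
  have p1 : u⁻¹ • v ∈ A := by
    refine bipolar hA hc h0A fun y hy => ?_
    rw [real_inner_smul_right]
    calc u⁻¹ * inner ℝ y v ≤ u⁻¹ * u := mul_le_mul_of_nonneg_left (ha y hy) (inv_nonneg.2 hu.le)
      _ = 1 := inv_mul_cancel₀ hu.ne'
  have p2 : -(u⁻¹ • v) ∈ A := by
    refine bipolar hA hc h0A fun y hy => ?_
    rw [inner_neg_right, real_inner_smul_right, ← mul_neg]
    calc u⁻¹ * -inner ℝ y v ≤ u⁻¹ * u := mul_le_mul_of_nonneg_left (hb y hy) (inv_nonneg.2 hu.le)
      _ = 1 := inv_mul_cancel₀ hu.ne'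
  have h3 := hm (u⁻¹ • v) ⟨p1, p2⟩
  rw [real_inner_smul_right, real_inner_comm] at h3
  have h4 : u⁻¹ * u < u⁻¹ * inner ℝ v m := mul_lt_mul_of_pos_left h2 (inv_pos.2 hu)
  rw [inv_mul_cancel₀ hu.ne'] at h4
  exact absurd h3 (not_le.2 h4)

end Pool.Agent.Rog
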