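import Pool.Agent.Rog.Targets

/-!
# The real part of the exponent
-/

set_option autoImplicit false

open MeasureTheory Set Filter Topology
open scoped Pointwise Real

namespace Pool.Agent.Rog

namespace RE_

lemma re_formula {n : ℕ} (Q : E n → ℝ) (G : E n → E n) (ε s : ℝ) (p : E n × E n) :
    (ex Q G ε (Complex.I * s) p).re =
      -Real.sin s * (Q p.1 + Q p.2) -
        ε / 2 * Real.cos s * ((‖p.1‖ ^ 2 + ‖G p.1‖ ^ 2) + (‖p.2‖ ^ 2 + ‖G p.2‖ ^ 2)) -
        ε * (inner ℝ p.1 p.2 - inner ℝ (G p.1) (G p.2)) := by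
  have h1 : Complex.exp (Complex.I * s) = ⟨Real.cos s, Real.sin s⟩ := by
    rw [mul_comm, Complex.exp_mul_I]
    apply Complex.ext
    · simp [Complex.cos_ofReal_re]
    · simp [Complex.sin_ofReal_re]
  have h2 : Complex.exp (-(Complex.I * s)) = ⟨Real.cos s, -Real.sin s⟩ := by
    have : -(Complex.I * s) = ((-s : ℝ) : ℂ) * Complex.I := by push_cast; ring
    rw [this, Complex.exp_mul_I]
    apply Complex.ext
    · simp only [Complex.add_re, Complex.mul_re, Complex.I_re, Complex.I_im]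
      rw [Complex.cos_ofReal_re, Complex.sin_ofReal_im]
      simp
    · simp only [Complex.add_im, Complex.mul_im, Complex.I_re, Complex.I_im]
      rw [Complex.cos_ofReal_im, Complex.sin_ofReal_re]
      simp
  unfold ex al be ga
  rw [h1, h2]
  simp only [Complex.add_re, Complex.sub_re, Complex.mul_re, Complex.I_re, Complex.I_im,
    Complex.ofReal_re, Complex.ofReal_im, Complex.sub_im, Complex.mul_im, Complex.neg_re,
    Complex.neg_im]
  ring

lemma inner_bound {n : ℕ} (G : E n → E n) (p : E n × E n) :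
    -(inner ℝ p.1 p.2 - inner ℝ (G p.1) (G p.2)) ≤
      ((‖p.1‖ ^ 2 + ‖G p.1‖ ^ 2) + (‖p.2‖ ^ 2 + ‖G p.2‖ ^ 2)) / 2 := by
  have h1 : (0 : ℝ) ≤ ‖p.1 + p.2‖ ^ 2 := by positivity
  have h2 : (0 : ℝ) ≤ ‖G p.1 - G p.2‖ ^ 2 := by positivity
  rw [norm_add_sq_real] at h1
  rw [norm_sub_sq_real] at h2
  linarith

/-- The positive definite form at `s = 0`. -/
noncomputable def ff {n : ℕ} (G : E n → E n) (p : E n × E n) : ℝ :=
  ‖p.1 + p.2‖ ^ 2 + ‖G p.1 - G p.2‖ ^ 2

lemma ff_lower {n : ℕ} (Q : E n → ℝ) (G : E n → E n) (hN : Nice Q G) :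
    ∃ c : ℝ, 0 < c ∧ ∀ p : E n × E n, c * (‖p.1‖ ^ 2 + ‖p.2‖ ^ 2) ≤ ff G p := by
  set S : Set (E n × E n) := {p | ‖p.1‖ ^ 2 + ‖p.2‖ ^ 2 = 1} with hS
  have hSc : IsCompact S := by
    apply Metric.isCompact_of_isClosed_isBounded
    · exact isClosed_eq (by fun_prop) continuous_const
    · refine (Metric.isBounded_closedBall (x := (0 : E n × E n)) (r := 1)).subset ?_
      intro p hp
      rw [mem_closedBall_zero_iff, Prod.norm_def]
      simp only [hS, mem_setOf_eq] at hp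
      apply max_le
      · nlinarith [sq_nonneg ‖p.2‖, norm_nonneg p.1]
      · nlinarith [sq_nonneg ‖p.1‖, norm_nonneg p.2]
  have hG := hN.contG
  have hfc : Continuous (ff G) := by
    unfold ff
    fun_prop
  have hpos : ∀ p ∈ S, 0 < ff G p := by
    intro p hp
    unfold ff
    by_contra hcon
    have h1 : (0 : ℝ) ≤ ‖p.1 + p.2‖ ^ 2 := by positivity
    have h2 : (0 : ℝ) ≤ ‖G p.1 - G p.2‖ ^ 2 := by positivity
    have h3 : ‖p.1 + p.2‖ ^ 2 = 0 := by linarith
    have h4 : ‖G p.1 - G p.2‖ ^ 2 = 0 := by linarith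
    have h5 : p.1 + p.2 = 0 := by simpa using h3
    have h6 : G p.1 - G p.2 = 0 := by simpa using h4
    have h7 : p.1 = p.2 := by
      by_contra hne
      have := hN.mono p.1 p.2 hne
      rw [h6, inner_zero_left] at this
      exact lt_irrefl _ this
    have h8 : p.2 = 0 := by
      rw [h7, ← two_smul ℝ] at h5
      simpa using h5
    simp only [hS, mem_setOf_eq] at hp
    rw [h7, h8] at hp
    simp at hp
  have hhom : ∀ (t : ℝ) (p : E n × E n), 0 ≤ t → ff G (t • p) = t ^ 2 * ff G p := by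
    intro t p ht
    unfold ff
    simp only [Prod.smul_fst, Prod.smul_snd]
    rw [hN.homG t _ ht, hN.homG t _ ht, ← smul_add, ← smul_sub, norm_smul, norm_smul,
      Real.norm_of_nonneg ht]
    ring
  have hmain : ∃ c : ℝ, 0 < c ∧ ∀ p ∈ S, c ≤ ff G p := by
    rcases S.eq_empty_or_nonempty with he | hne
    · refine ⟨1, one_pos, ?_⟩
      intro p hp
      rw [he] at hp
      exact absurd hp (Set.notMem_empty p)
    · obtain ⟨p0, hp0, hmin⟩ := hSc.exists_isMinOn hne hfc.continuousOn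
      exact ⟨ff G p0, hpos p0 hp0, fun p hp => hmin hp⟩
  obtain ⟨c, hc, hcS⟩ := hmain
  refine ⟨c, hc, ?_⟩
  intro p
  by_cases hp : ‖p.1‖ ^ 2 + ‖p.2‖ ^ 2 = 0
  · rw [hp, mul_zero]
    unfold ff
    positivity
  · have hp' : 0 < ‖p.1‖ ^ 2 + ‖p.2‖ ^ 2 := lt_of_le_of_ne (by positivity) (Ne.symm hp)
    set r : ℝ := √(‖p.1‖ ^ 2 + ‖p.2‖ ^ 2) with hr
    have hr0 : 0 < r := Real.sqrt_pos.mpr hp'
    have hr2 : r ^ 2 = ‖p.1‖ ^ 2 + ‖p.2‖ ^ 2 := Real.sq_sqrt hp'.le
    have hmem : r⁻¹ • p ∈ S := by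
      simp only [hS, mem_setOf_eq, Prod.smul_fst, Prod.smul_snd, norm_smul, norm_inv,
        Real.norm_of_nonneg hr0.le]
      rw [mul_pow, mul_pow, ← mul_add, ← hr2, inv_pow]
      exact inv_mul_cancel₀ (by positivity)
    have h1 := hcS _ hmem
    have h2 := hhom r (r⁻¹ • p) hr0.le
    rw [smul_smul, mul_inv_cancel₀ hr0.ne', one_smul] at h2
    rw [h2, ← hr2, mul_comm c]
    exact mul_le_mul_of_nonneg_left h1 (by positivity)

end RE_

theorem p_RE : T_RE := by
  intro n Q G hN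
  obtain ⟨c, hc, hlow⟩ := hN.lower
  refine ⟨c, hc, ?_⟩
  intro ε hε hεc s hs0 hs1
  rcases hs0.eq_or_lt with hs | hs
  · -- `s = 0`
    subst hs
    obtain ⟨c', hc', hff⟩ := RE_.ff_lower Q G hN
    refine ⟨ε / 2 * c', by positivity, ?_⟩
    intro p
    rw [RE_.re_formula, Real.sin_zero, Real.cos_zero]
    have h := hff p
    unfold RE_.ff at h
    rw [norm_add_sq_real, norm_sub_sq_real] at h
    nlinarith [mul_le_mul_of_nonneg_left h (by positivity : (0 : ℝ) ≤ ε / 2)]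
  · have hsin : 0 < Real.sin s := by
      apply Real.sin_pos_of_pos_of_lt_pi hs
      linarith [Real.pi_pos]
    have hcos : 0 ≤ Real.cos s := by
      apply Real.cos_nonneg_of_mem_Icc
      constructor <;> linarith [Real.pi_pos]
    have hsc : 1 - Real.cos s ≤ Real.sin s := by
      have h1 := Real.sin_sq_add_cos_sq s
      have h2 := Real.sin_le_one s
      have h3 := Real.cos_le_one s
      nlinarith
    refine ⟨c / 2 * Real.sin s, by positivity, ?_⟩
    intro p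
    rw [RE_.re_formula]
    have hib := RE_.inner_bound G p
    have hl1 := hlow p.1
    have hl2 := hlow p.2
    set A : ℝ := ‖p.1‖ ^ 2 + ‖G p.1‖ ^ 2 with hA
    set B : ℝ := ‖p.2‖ ^ 2 + ‖G p.2‖ ^ 2 with hB
    have hAB : ‖p.1‖ ^ 2 + ‖p.2‖ ^ 2 ≤ A + B := by
      rw [hA, hB]
      nlinarith [sq_nonneg ‖G p.1‖, sq_nonneg ‖G p.2‖]
    have hAB0 : 0 ≤ ‖p.1‖ ^ 2 + ‖p.2‖ ^ 2 := by positivity
    have e1 : -Real.sin s * (Q p.1 + Q p.2) ≤ -Real.sin s * (c * (A + B)) := by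
      nlinarith
    have e2 : -(ε / 2 * Real.cos s * (A + B)) -
        ε * (inner ℝ p.1 p.2 - inner ℝ (G p.1) (G p.2)) ≤ ε / 2 * Real.sin s * (A + B) := by
      have e3 : ε * -(inner ℝ p.1 p.2 - inner ℝ (G p.1) (G p.2)) ≤ ε * ((A + B) / 2) :=
        mul_le_mul_of_nonneg_left hib hε.le
      have e4 : ε / 2 * (A + B) * (1 - Real.cos s) ≤ ε / 2 * (A + B) * Real.sin s := by
        apply mul_le_mul_of_nonneg_left hsc
        have : 0 ≤ A + B := le_trans hAB0 hAB
        positivity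
      linarith
    have e5 : Real.sin s * (c / 2) * (‖p.1‖ ^ 2 + ‖p.2‖ ^ 2) ≤ Real.sin s * (c / 2) * (A + B) :=
      mul_le_mul_of_nonneg_left hAB (by positivity)
    have e6 : ε / 2 * Real.sin s * (A + B) ≤ c / 2 * Real.sin s * (A + B) := by
      have : 0 ≤ Real.sin s * (A + B) := mul_nonneg hsin.le (le_trans hAB0 hAB)
      nlinarith
    nlinarith

end Pool.Agent.Rog
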