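import Pool.Agent.Rog.Targets

/-!
# Target SD: differentiability of the change of variables and homogeneity of the Jacobian
-/

set_option autoImplicit false

open MeasureTheory Set Filter Topology
open scoped Pointwise Real

namespace Pool.Agent.Rog

namespace SD_

variable {n : ℕ}

/-- The derivative of `Sm G`. -/
theorem hasD {G : E n → E n} {x a : E n} (hx : DifferentiableAt ℝ G x)
    (ha : DifferentiableAt ℝ G a) :
    HasFDerivAt (Sm G)
      ((ContinuousLinearMap.fst ℝ (E n) (E n) + ContinuousLinearMap.snd ℝ (E n) (E n)).prod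
        ((fderiv ℝ G x).comp (ContinuousLinearMap.fst ℝ (E n) (E n)) -
          (fderiv ℝ G a).comp (ContinuousLinearMap.snd ℝ (E n) (E n)))) (x, a) := by
  have h1 : HasFDerivAt (fun p : E n × E n => p.1)
      (ContinuousLinearMap.fst ℝ (E n) (E n)) (x, a) := hasFDerivAt_fst
  have h2 : HasFDerivAt (fun p : E n × E n => p.2)
      (ContinuousLinearMap.snd ℝ (E n) (E n)) (x, a) := hasFDerivAt_snd
  have h3 : HasFDerivAt (fun p : E n × E n => G p.1)
      ((fderiv ℝ G x).comp (ContinuousLinearMap.fst ℝ (E n) (E n))) (x, a) :=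
    HasFDerivAt.comp (g := G) (x, a) (by exact hx.hasFDerivAt) h1
  have h4 : HasFDerivAt (fun p : E n × E n => G p.2)
      ((fderiv ℝ G a).comp (ContinuousLinearMap.snd ℝ (E n) (E n))) (x, a) :=
    HasFDerivAt.comp (g := G) (x, a) (by exact ha.hasFDerivAt) h2
  exact (h1.add h2).prodMk (h3.sub h4)

/-- The derivative of a homogeneous map of degree one is homogeneous of degree zero. -/
theorem fderiv_smul {G : E n → E n} (hG : ∀ (s : ℝ) (x : E n), 0 ≤ s → G (s • x) = s • G x)
    {s : ℝ} (hs : 0 < s) {x : E n} (hx : DifferentiableAt ℝ G x)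
    (hsx : DifferentiableAt ℝ G (s • x)) : fderiv ℝ G (s • x) = fderiv ℝ G x := by
  have h1 : HasFDerivAt (fun y : E n => G (s • y))
      ((fderiv ℝ G (s • x)).comp (s • ContinuousLinearMap.id ℝ (E n))) x := by
    have h : HasFDerivAt (fun y : E n => s • y) (s • ContinuousLinearMap.id ℝ (E n)) x :=
      (hasFDerivAt_id x).const_smul s
    exact HasFDerivAt.comp (g := G) x hsx.hasFDerivAt h
  have h2 : HasFDerivAt (fun y : E n => G (s • y)) (s • fderiv ℝ G x) x := by
    have h : HasFDerivAt (fun y : E n => s • G y) (s • fderiv ℝ G x) x :=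
      hx.hasFDerivAt.const_smul s
    have he : (fun y : E n => G (s • y)) = fun y => s • G y := by
      funext y
      exact hG s y hs.le
    rw [he]
    exact h
  have h3 := h1.unique h2
  ext1 v
  have h4 := congrArg (fun L : E n →L[ℝ] E n => L v) h3
  simp only [ContinuousLinearMap.comp_apply, ContinuousLinearMap.smul_apply,
    ContinuousLinearMap.id_apply, map_smul] at h4
  exact smul_right_injective _ hs.ne' h4

end SD_

/-- Target SD. -/
theorem p_SD : T_SD := by
  intro n Q G h
  refine ⟨?_, ?_⟩
  · intro x a hx ha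
    exact (SD_.hasD (h.diffG x hx) (h.diffG a ha)).differentiableAt
  · intro x a s t hx ha hs ht
    have hsx : s • x ≠ 0 := smul_ne_zero hs.ne' hx
    have hta : t • a ≠ 0 := smul_ne_zero ht.ne' ha
    have h1 := (SD_.hasD (h.diffG x hx) (h.diffG a ha)).fderiv
    have h2 := (SD_.hasD (h.diffG _ hsx) (h.diffG _ hta)).fderiv
    rw [SD_.fderiv_smul h.homG hs (h.diffG x hx) (h.diffG _ hsx),
      SD_.fderiv_smul h.homG ht (h.diffG a ha) (h.diffG _ hta)] at h2
    unfold DD
    rw [h1, h2]

end Pool.Agent.Rog
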