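import Pool.Agent.Rog.TargetsG

/-!
# ROG-SHELLG: the polar of a translate of a general body
-/

set_option autoImplicit false

open MeasureTheory Set Filter Topology
open scoped Pointwise Real

namespace Pool.Agent.Rog

namespace SHELLG_

theorem dcap_compact {n : ℕ} {K : Set (E n)} (hP : IsCompact (pol K)) (x : E n) (s : ℝ) :
    IsCompact (dcap K x s) := by
  have h : dcap K x s = pol K ∩ {y | 1 - inner ℝ y x ≤ s} := rfl
  rw [h]
  apply hP.inter_right
  apply isClosed_le
  · fun_prop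
  · fun_prop

theorem shull_compact {n : ℕ} {K : Set (E n)} (hP : IsCompact (pol K)) (x : E n) (s : ℝ) :
    IsCompact (shull K x s) := by
  have h : shull K x s = (fun p : ℝ × E n => p.1 • p.2) '' (Icc (0 : ℝ) 1 ×ˢ dcap K x s) := by
    ext z
    constructor
    · rintro ⟨r, h0, h1, y, hy, rfl⟩
      exact ⟨(r, y), ⟨⟨h0, h1⟩, hy⟩, rfl⟩
    · rintro ⟨⟨r, y⟩, ⟨⟨h0, h1⟩, hy⟩, rfl⟩
      exact ⟨r, h0, h1, y, hy, rfl⟩
  rw [h]
  exact (isCompact_Icc.prod (dcap_compact hP x s)).image (by fun_prop)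

theorem real_smul {n : ℕ} (c : ℝ) (hc : 0 ≤ c) (S : Set (E n)) :
    volume.real (c • S) = c ^ n * volume.real S := by
  rw [Measure.real, Measure.addHaar_smul, ENNReal.toReal_mul, ENNReal.toReal_ofReal (abs_nonneg _),
    finrank_euclideanSpace_fin, abs_of_nonneg (pow_nonneg hc _)]
  rfl

theorem star {n : ℕ} {K : Set (E n)} {v : E n} (hv : v ∈ pol K) {r : ℝ} (h0 : 0 ≤ r)
    (h1 : r ≤ 1) : r • v ∈ pol K := by
  intro w hw
  have h2 : inner ℝ v w ≤ 1 := hv w hw
  rw [real_inner_smul_left]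
  rcases le_total 0 (inner ℝ v w : ℝ) with h | h
  · nlinarith
  · nlinarith

theorem eq_zero_of_inner {n : ℕ} {K : Set (E n)} (hK : (0 : E n) ∈ interior K) (m : E n)
    (h : ∀ w ∈ K, inner ℝ m w ≤ 0) : m = 0 := by
  have h1 : Tendsto (fun δ : ℝ => δ • m) (𝓝[>] 0) (𝓝 ((0 : ℝ) • m)) := by
    refine Tendsto.mono_left ?_ nhdsWithin_le_nhds
    exact (continuous_id.smul continuous_const).tendsto 0
  rw [zero_smul] at h1
  have h2 : ∀ᶠ δ : ℝ in 𝓝[>] 0, δ • m ∈ K := h1.eventually (mem_interior_iff_mem_nhds.1 hK)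
  obtain ⟨δ, hδK, hδ⟩ := (h2.and self_mem_nhdsWithin).exists
  have h3 := h _ hδK
  rw [real_inner_smul_right, real_inner_self_eq_norm_sq] at h3
  have hδ' : 0 < δ := hδ
  have h4 : ‖m‖ ^ 2 ≤ 0 := by
    by_contra hcon
    push Not at hcon
    have := mul_pos hδ' hcon
    linarith
  have h5 : ‖m‖ = 0 := by
    have := pow_eq_zero_iff (n := 2) (a := ‖m‖) two_ne_zero
    exact this.1 (le_antisymm h4 (by positivity))
  exact norm_eq_zero.1 h5

theorem cover {n : ℕ} {K : Set (E n)} (hK : (0 : E n) ∈ interior K) {x : E n} (hx : x ∈ K)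
    {t s : ℝ} (ht : 0 < t) (ht1 : t ≤ 1 / 2) (hs : 0 < s) :
    pol ((fun y => y - (1 - t) • x) '' K) ⊆ (2 / s) • pol K ∪ (1 / t) • shull K x s := by
  intro m hm
  have hm1 : ∀ w ∈ K, inner ℝ m w ≤ 1 + inner ℝ m ((1 - t) • x) := by
    intro w hw
    have h1 : inner ℝ m (w - (1 - t) • x) ≤ 1 := hm _ ⟨w, hw, rfl⟩
    rw [inner_sub_right] at h1
    linarith
  set T : ℝ := 1 + inner ℝ m ((1 - t) • x) with hT
  have h0K : (0 : E n) ∈ K := interior_subset hK
  have hT0 : 0 ≤ T := by
    have := hm1 0 h0K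
    rwa [inner_zero_right] at this
  have hTpos : 0 < T := by
    rcases hT0.eq_or_lt with h | h
    · exfalso
      have h2 : m = 0 := eq_zero_of_inner hK m fun w hw => by
        have := hm1 w hw
        rwa [← h] at this
      rw [h2, inner_zero_left, add_zero] at hT
      linarith
    · exact h
  set v : E n := (1 / T) • m with hv
  have hmv : m = T • v := by
    rw [hv, smul_smul, mul_one_div_cancel hTpos.ne', one_smul]
  have hvK : v ∈ pol K := by
    intro w hw
    rw [hv, real_inner_smul_left, one_div, inv_mul_le_iff₀ hTpos, mul_one]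
    exact hm1 w hw
  have hvx : inner ℝ v x ≤ 1 := hvK x hx
  have hone : T * (t + (1 - t) * (1 - inner ℝ v x)) = 1 := by
    have h1 : inner ℝ m ((1 - t) • x) = T * ((1 - t) * inner ℝ v x) := by
      rw [real_inner_smul_right]
      conv_lhs => rw [hmv]
      rw [real_inner_smul_left]
      ring
    have h2 : T = 1 + T * ((1 - t) * inner ℝ v x) := by rw [← h1]
    linear_combination h2
  rcases le_or_gt (1 - inner ℝ v x) s with hc | hc
  · right
    have h1 : t * T ≤ 1 := by
      have : 0 ≤ T * ((1 - t) * (1 - inner ℝ v x)) :=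
        mul_nonneg hT0 (mul_nonneg (by linarith) (by linarith))
      nlinarith
    refine ⟨(t * T) • v, ⟨t * T, by positivity, h1, v, ⟨hvK, hc⟩, rfl⟩, ?_⟩
    change (1 / t) • ((t * T) • v) = m
    rw [smul_smul, hmv]
    congr 1
    field_simp
  · left
    have h1 : T * s / 2 ≤ 1 := by
      have h2 : (1 / 2) * s ≤ (1 - t) * (1 - inner ℝ v x) :=
        mul_le_mul (by linarith) hc.le hs.le (by linarith)
      have h3 : T * ((1 / 2) * s) ≤ T * (t + (1 - t) * (1 - inner ℝ v x)) :=
        mul_le_mul_of_nonneg_left (by linarith) hT0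
      linarith
    refine ⟨(T * s / 2) • v, star hvK (by positivity) h1, ?_⟩
    change (2 / s) • ((T * s / 2) • v) = m
    rw [smul_smul, hmv]
    congr 1
    field_simp

end SHELLG_

open SHELLG_

/-- SHELLG -/
theorem p_SHELLG (h : T_SYB) : T_SHELLG := by
  intro n K x t s hK hx ht ht1 hs
  obtain ⟨-, -, -, -, hP, -, -⟩ := h n K hK
  have hc := cover hK.zero hx ht ht1 hs
  have hfin : volume ((2 / s) • pol K ∪ (1 / t) • shull K x s) ≠ ⊤ :=
    ((hP.smul _).union ((shull_compact hP x s).smul _)).measure_lt_top.ne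
  have h1 := measureReal_mono hc hfin
  have h2 := measureReal_union_le (μ := (volume : Measure (E n))) ((2 / s) • pol K)
    ((1 / t) • shull K x s)
  rw [real_smul (2 / s) (by positivity), real_smul (1 / t) (by positivity)] at h2
  exact h1.trans h2

end Pool.Agent.Rog
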