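import Pool.Agent.Rog.Targets

set_option autoImplicit false

open MeasureTheory Set Filter Topology
open scoped Pointwise Real

namespace Pool.Agent.Rog

namespace SL_

variable {n : ℕ}

theorem cs (s c : Fin n → ℝ) (G : Fin n → ℝ) (A V : ℝ) (hc : ∑ j, |c j| ≤ A) (hV : 0 ≤ V)
    (h : V / 2 ≤ ∑ j, c j * G j) : V ^ 2 / 4 ≤ A ^ 2 * ∑ j, G j ^ 2 := by
  have h1 : (∑ j, c j * G j) ^ 2 ≤ (∑ j, c j ^ 2) * ∑ j, G j ^ 2 :=
    Finset.sum_mul_sq_le_sq_mul_sq _ _ _
  have h2 : ∑ j, c j ^ 2 ≤ (∑ j, |c j|) ^ 2 := by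
    rw [pow_two (∑ j, |c j|), Finset.sum_mul]
    refine Finset.sum_le_sum (fun j hj => ?_)
    rw [← sq_abs, pow_two]
    exact mul_le_mul_of_nonneg_left
      (Finset.single_le_sum (f := fun j => |c j|) (fun i _ => abs_nonneg _) hj) (abs_nonneg _)
  have h0 : 0 ≤ ∑ j, |c j| := Finset.sum_nonneg (fun i _ => abs_nonneg _)
  have h4 : (∑ j, |c j|) ^ 2 ≤ A ^ 2 := pow_le_pow_left₀ h0 hc 2
  have h5 : (0 : ℝ) ≤ ∑ j, G j ^ 2 := Finset.sum_nonneg (fun i _ => sq_nonneg _)
  have h6 : (V / 2) ^ 2 ≤ (∑ j, c j * G j) ^ 2 := pow_le_pow_left₀ (by positivity) h 2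
  calc V ^ 2 / 4 = (V / 2) ^ 2 := by ring
    _ ≤ (∑ j, c j ^ 2) * ∑ j, G j ^ 2 := h6.trans h1
    _ ≤ A ^ 2 * ∑ j, G j ^ 2 := mul_le_mul_of_nonneg_right (h2.trans h4) h5

theorem num : 30720 * (Real.exp 1 ^ 2 * π) ≤ 713200 := by
  have h1 : Real.exp 1 < 2.7182818286 := Real.exp_one_lt_d9
  have h2 : π < 3.1416 := Real.pi_lt_d4
  have h0 : 0 < Real.exp 1 := Real.exp_pos 1
  have h3 : Real.exp 1 ^ 2 ≤ 2.7182818286 ^ 2 := pow_le_pow_left₀ h0.le h1.le 2
  have h4 : Real.exp 1 ^ 2 * π ≤ 2.7182818286 ^ 2 * 3.1416 :=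
    mul_le_mul h3 h2.le Real.pi_pos.le (by norm_num)
  nlinarith

theorem bound (n : ℕ) (hn : 1 ≤ n) (V L : ℝ) (hV : 0 < V)
    (h : V ^ 2 / 4 * ((n / 120 : ℝ) ^ n * L) ≤
      ((4 * Real.exp 1) ^ n) ^ 2 * (n * ((4 * π) ^ n * V))) : V * L ≤ (713200 / n) ^ n := by
  have hn' : (0 : ℝ) < n := by exact_mod_cast hn
  have h4n : (4 : ℝ) * n ≤ 4 ^ n := by
    have : 4 * n ≤ 4 ^ n := by
      clear h hn'
      induction n with
      | zero => omega
      | succ m ih =>
        rcases Nat.eq_zero_or_pos m with rfl | hm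
        · norm_num
        · have := ih hm
          rw [pow_succ]
          omega
    exact_mod_cast this
  have hp : (0 : ℝ) < (n / 120 : ℝ) ^ n := by positivity
  have h1 : V * L * (n / 120 : ℝ) ^ n ≤ 4 * n * (16 * Real.exp 1 ^ 2 * (4 * π)) ^ n := by
    have e1 : ((4 * Real.exp 1) ^ n) ^ 2 * (n * ((4 * π) ^ n * V)) =
        V * (n * (16 * Real.exp 1 ^ 2 * (4 * π)) ^ n) := by
      rw [mul_pow (16 * Real.exp 1 ^ 2) (4 * π) n, ← pow_mul, mul_comm n 2, pow_mul]
      have : (4 * Real.exp 1) ^ 2 = 16 * Real.exp 1 ^ 2 := by ring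
      rw [this]
      ring
    rw [e1] at h
    have h2 : V * (V / 4 * ((n / 120 : ℝ) ^ n * L)) ≤
        V * (n * (16 * Real.exp 1 ^ 2 * (4 * π)) ^ n) := by
      refine le_trans (le_of_eq ?_) h
      ring
    have h3 := le_of_mul_le_mul_left h2 hV
    nlinarith
  have h2 : 4 * n * (16 * Real.exp 1 ^ 2 * (4 * π)) ^ n ≤
      (713200 / n) ^ n * (n / 120 : ℝ) ^ n := by
    have e2 : ((713200 / n) ^ n * (n / 120 : ℝ) ^ n : ℝ) = (713200 / 120) ^ n := by
      rw [← mul_pow]
      congr 1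
      field_simp
    rw [e2]
    have h5 : (0 : ℝ) ≤ (16 * Real.exp 1 ^ 2 * (4 * π)) ^ n := by positivity
    calc 4 * n * (16 * Real.exp 1 ^ 2 * (4 * π)) ^ n ≤
        4 ^ n * (16 * Real.exp 1 ^ 2 * (4 * π)) ^ n := mul_le_mul_of_nonneg_right h4n h5
      _ = (4 * (16 * Real.exp 1 ^ 2 * (4 * π))) ^ n := (mul_pow 4 _ n).symm
      _ ≤ (713200 / 120) ^ n := by
        refine pow_le_pow_left₀ (by positivity) ?_ n
        have := num
        nlinarith
  exact le_of_mul_le_mul_right (h1.trans h2) hp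

end SL_

theorem p_SL (hB : T_POLB) (hL : T_LAG) (hP : T_PLAN) : T_SL := by
  intro n K hn hK
  obtain ⟨s, c, hs, hc, hy⟩ := hL n hn
  have hpol := (hB.2 n K hK).2
  set V := volume.real K with hVdef
  have hVpos : 0 < V := by
    have h2 : 0 < volume (interior K) := isOpen_interior.measure_pos volume hK.int
    have h1 : 0 < volume K := h2.trans_le (measure_mono interior_subset)
    exact ENNReal.toReal_pos h1.ne' hK.cpt.measure_lt_top.ne
  set r : ℝ := n / 120 with hr
  have hrpos : 0 < r := by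
    have : (0 : ℝ) < n := by exact_mod_cast hn
    positivity
  let G : Fin n → E n → ℝ := fun j v => ∫ x in K, Real.cos (s j * inner ℝ v x)
  have hint : ∀ j v, IntegrableOn (fun x => Real.cos (s j * inner ℝ v x)) K := by
    intro j v
    exact ContinuousOn.integrableOn_compact hK.cpt (by fun_prop)
  have hcst : ∀ a : ℝ, IntegrableOn (fun _ : E n => a) K := fun a =>
    continuousOn_const.integrableOn_compact hK.cpt
  -- the pointwise inequality
  have hpt : ∀ v ∈ r • pol K, V ^ 2 / 4 ≤ ((4 * Real.exp 1) ^ n) ^ 2 * ∑ j, G j v ^ 2 := by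
    rintro v ⟨w, hw, rfl⟩
    have hbd : ∀ x ∈ K, |inner ℝ (r • w) x| ≤ n / 120 := by
      intro x hx
      have h1 := hw x hx
      have h2 := hw (-x) (hK.symm x hx)
      rw [inner_neg_right] at h2
      rw [real_inner_smul_left, abs_mul, abs_of_pos hrpos]
      have h3 : |inner ℝ w x| ≤ 1 := abs_le.2 ⟨by linarith, h1⟩
      calc r * |inner ℝ w x| ≤ r * 1 := mul_le_mul_of_nonneg_left h3 hrpos.le
        _ = n / 120 := by rw [mul_one]
    refine SL_.cs s c (fun j => G j (r • w)) _ V hc hVpos.le ?_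
    have h1 : ∫ x in K, (1 - ∑ j, c j * Real.cos (s j * inner ℝ (r • w) x)) =
        V - ∑ j, c j * G j (r • w) := by
      rw [integral_sub (hcst 1) (integrable_finsetSum _
        (fun j _ => (hint j (r • w)).const_mul (c j)))]
      rw [integral_finsetSum _ (fun j _ => (hint j (r • w)).const_mul (c j))]
      congr 1
      · simp [hVdef, Measure.real]
      · exact Finset.sum_congr rfl (fun j _ => integral_const_mul _ _)
    have h2 : ∫ x in K, (1 - ∑ j, c j * Real.cos (s j * inner ℝ (r • w) x)) ≤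
        ∫ x in K, (1 / 2 : ℝ) := by
      refine setIntegral_mono_on ?_ (hcst _) hK.cpt.measurableSet ?_
      · exact (hcst 1).sub (integrable_finsetSum _
          (fun j _ => (hint j (r • w)).const_mul (c j)))
      · intro x hx
        exact (abs_le.1 (hy _ (hbd x hx))).2
    have h3 : ∫ x in K, (1 / 2 : ℝ) = V / 2 := by
      simp [hVdef, Measure.real]
      ring
    rw [h1, h3] at h2
    linarith
  -- integration
  have hGint : ∀ j, Integrable (fun v => G j v ^ 2) := fun j =>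
    (hP n K (s j) hK.cpt (by linarith [(hs j).1])).1
  have hG : ∀ j, ∫ v, G j v ^ 2 ≤ (4 * π) ^ n * V := by
    intro j
    refine (hP n K (s j) hK.cpt (by linarith [(hs j).1])).2.trans ?_
    refine mul_le_mul_of_nonneg_right ?_ hVpos.le
    have h1 : (0 : ℝ) < s j := by linarith [(hs j).1]
    refine pow_le_pow_left₀ (by positivity) ?_ n
    rw [div_le_iff₀ h1]
    nlinarith [Real.pi_pos, (hs j).1]
  have hmeas : MeasurableSet (r • pol K) := (hpol.cpt.smul r).measurableSet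
  have hfin : volume (r • pol K) ≠ ⊤ := (hpol.cpt.smul r).measure_lt_top.ne
  have hvol : volume.real (r • pol K) = r ^ n * volume.real (pol K) := by
    rw [Measure.real, Measure.addHaar_smul, ENNReal.toReal_mul, ENNReal.toReal_ofReal (abs_nonneg _)]
    rw [finrank_euclideanSpace_fin, abs_of_pos (pow_pos hrpos n)]
    rfl
  apply SL_.bound n hn V _ hVpos
  rw [← hr, ← hvol]
  have hsumint : Integrable (fun v => ((4 * Real.exp 1) ^ n) ^ 2 * ∑ j, G j v ^ 2) :=
    (integrable_finsetSum _ (fun j _ => hGint j)).const_mul _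
  calc V ^ 2 / 4 * volume.real (r • pol K) = ∫ v in r • pol K, V ^ 2 / 4 := by
        simp [Measure.real, mul_comm]
    _ ≤ ∫ v in r • pol K, ((4 * Real.exp 1) ^ n) ^ 2 * ∑ j, G j v ^ 2 := by
        refine setIntegral_mono_on
          (continuousOn_const.integrableOn_compact (hpol.cpt.smul r)) hsumint.integrableOn hmeas hpt
    _ ≤ ∫ v, ((4 * Real.exp 1) ^ n) ^ 2 * ∑ j, G j v ^ 2 := by
        refine setIntegral_le_integral hsumint (Filter.Eventually.of_forall fun v => ?_)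
        exact mul_nonneg (by positivity) (Finset.sum_nonneg (fun j _ => sq_nonneg _))
    _ = ((4 * Real.exp 1) ^ n) ^ 2 * ∑ j, ∫ v, G j v ^ 2 := by
        rw [integral_const_mul, integral_finsetSum _ (fun j _ => hGint j)]
    _ ≤ ((4 * Real.exp 1) ^ n) ^ 2 * (n * ((4 * π) ^ n * V)) := by
        refine mul_le_mul_of_nonneg_left ?_ (by positivity)
        refine (Finset.sum_le_sum (fun j _ => hG j)).trans ?_
        rw [Finset.sum_const, Finset.card_univ, Fintype.card_fin, nsmul_eq_mul]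

end Pool.Agent.Rog
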