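import Pool.Agent.Rog.Targets

/-!
# The sum over a net
-/

set_option autoImplicit false

open MeasureTheory Set Filter Topology
open scoped Pointwise Real

namespace Pool.Agent.Rog

namespace SUM_

lemma exp_one_ge : (2.7 : ℝ) ≤ Real.exp 1 := by
  have := Real.exp_one_gt_d9
  linarith

lemma c3_le : 5 * c3 ≤ Real.exp 41 := by
  have h1 : Real.exp 41 = Real.exp 1 ^ 41 := by
    rw [← Real.exp_nat_mul]
    norm_num
  have h2 : (2.7 : ℝ) ^ 41 ≤ Real.exp 1 ^ 41 := pow_le_pow_left₀ (by norm_num) exp_one_ge 41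
  rw [h1]
  refine le_trans ?_ h2
  unfold c3 cc
  norm_num

lemma c3_nonneg : 0 ≤ c3 := by
  unfold c3 cc
  norm_num

lemma exp_neg_three : Real.exp (-3) < 1 / 8 := by
  have h1 : Real.exp 3 = Real.exp 1 ^ 3 := by
    rw [← Real.exp_nat_mul]
    norm_num
  have h2 : (2.7 : ℝ) ^ 3 ≤ Real.exp 1 ^ 3 := pow_le_pow_left₀ (by norm_num) exp_one_ge 3
  rw [Real.exp_neg, inv_lt_comm₀ (Real.exp_pos 3) (by norm_num), h1]
  norm_num at h2 ⊢
  linarith

/-- the weight of a level -/
lemma level (n j : ℕ) (hn : 1 ≤ n) :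
    4 * (5 * c3 * 2 ^ j) ^ n * Real.exp (-(44 * n * (1 + j))) ≤
      4 * Real.exp (-3) * (1 / 2) ^ j := by
  have e1 : Real.exp (-(44 * n * (1 + j))) = (Real.exp (-44) * Real.exp (-44) ^ j) ^ n := by
    rw [← Real.exp_nat_mul (-44) j, ← Real.exp_add, ← Real.exp_nat_mul]
    congr 1
    ring
  have e2 : 4 * (5 * c3 * 2 ^ j) ^ n * Real.exp (-(44 * n * (1 + j))) =
      4 * ((5 * c3 * Real.exp (-44)) * (2 * Real.exp (-44)) ^ j) ^ n := by
    rw [e1, mul_assoc, ← mul_pow]
    congr 2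
    rw [mul_pow 2]
    ring
  rw [e2]
  have h1 : 5 * c3 * Real.exp (-44) ≤ Real.exp (-3) := by
    calc 5 * c3 * Real.exp (-44) ≤ Real.exp 41 * Real.exp (-44) := by
          gcongr
          exact c3_le
      _ = Real.exp (-3) := by
          rw [← Real.exp_add]
          norm_num
  have h2 : 2 * Real.exp (-44) ≤ 1 / 2 := by
    have h3 := Real.add_one_le_exp 44
    rw [Real.exp_neg]
    have h4 : (Real.exp 44)⁻¹ ≤ (45 : ℝ)⁻¹ := inv_anti₀ (by norm_num) (by linarith)
    norm_num at h4 ⊢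
    linarith
  have h3 : (5 * c3 * Real.exp (-44)) * (2 * Real.exp (-44)) ^ j ≤
      Real.exp (-3) * (1 / 2) ^ j := by
    have := c3_nonneg
    gcongr
  have h0 : 0 ≤ (5 * c3 * Real.exp (-44)) * (2 * Real.exp (-44)) ^ j := by
    have := c3_nonneg
    positivity
  have h4 : Real.exp (-3) * (1 / 2 : ℝ) ^ j ≤ 1 := by
    have h5 : (1 / 2 : ℝ) ^ j ≤ 1 := pow_le_one₀ (by norm_num) (by norm_num)
    have h6 := exp_neg_three
    have h7 := Real.exp_pos (-3)
    nlinarith
  calc 4 * ((5 * c3 * Real.exp (-44)) * (2 * Real.exp (-44)) ^ j) ^ n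
      ≤ 4 * (Real.exp (-3) * (1 / 2) ^ j) ^ n := by gcongr
    _ ≤ 4 * (Real.exp (-3) * (1 / 2) ^ j) := by
        gcongr
        exact pow_le_of_le_one (by positivity) h4 (by omega)
    _ = 4 * Real.exp (-3) * (1 / 2) ^ j := by ring

/-- one term -/
lemma term (n : ℕ) (u : ℝ) (w : ℝ) (h0 : 0 ≤ u) (h1 : u ≤ 1) (hw : w ≤ (2 * u) ^ n) :
    (1 - u ^ n / 4) ^ (176 * n * 2 ^ n) ≤ Real.exp (-(44 * n * w)) := by
  have hu : u ^ n ≤ 1 := pow_le_one₀ h0 h1
  calc (1 - u ^ n / 4) ^ (176 * n * 2 ^ n) ≤ Real.exp (-(u ^ n / 4)) ^ (176 * n * 2 ^ n) :=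
        pow_le_pow_left₀ (by linarith) (Real.one_sub_le_exp_neg _) _
    _ = Real.exp (-(44 * n * (2 * u) ^ n)) := by
        rw [← Real.exp_nat_mul]
        congr 1
        push_cast
        rw [mul_pow]
        ring
    _ ≤ Real.exp (-(44 * n * w)) := by
        rw [Real.exp_le_exp]
        have : 0 ≤ (44 : ℝ) * n := by positivity
        nlinarith

lemma ex_level (n : ℕ) (hn : 1 ≤ n) (h : ℝ) (h1 : h ≤ 1) : ∃ j : ℕ, h ≤ 2 ^ j / n := by
  refine ⟨n, h1.trans ?_⟩
  rw [le_div_iff₀ (by exact_mod_cast hn)]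
  have : n ≤ 2 ^ n := (Nat.lt_two_pow_self).le
  rw [one_mul]
  exact_mod_cast this

end SUM_

open SUM_ in
theorem p_SUM : T_SUM := by
  intro n X u hn hu hY
  classical
  have hn0 : (0 : ℝ) < n := by exact_mod_cast hn
  -- the level of a point
  have hex : ∀ x : E n, ∃ j : ℕ, x ∈ X → ((2 * u x - 1 ≤ 2 ^ j / n) ∧
      (1 : ℝ) + j ≤ (2 * u x) ^ n ∧ j ∈ Finset.range (n + 1)) := by
    intro x
    by_cases hx : x ∈ X
    · obtain ⟨hx1, hx2⟩ := hu x hx
      have hE := ex_level n hn (2 * u x - 1) (by linarith)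
      refine ⟨Nat.find hE, fun _ => ⟨Nat.find_spec hE, ?_, ?_⟩⟩
      · have hB : 1 + (n : ℝ) * (2 * u x - 1) ≤ (1 + (2 * u x - 1)) ^ n :=
          one_add_mul_le_pow (by linarith) n
        have e1 : 1 + (2 * u x - 1) = 2 * u x := by ring
        rw [e1] at hB
        refine le_trans ?_ hB
        rcases Nat.eq_zero_or_pos (Nat.find hE) with h0 | h0
        · rw [h0, Nat.cast_zero, add_zero]
          have : 0 ≤ (n : ℝ) * (2 * u x - 1) := mul_nonneg hn0.le (by linarith)
          linarith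
        · have h3 := Nat.find_min hE (m := Nat.find hE - 1) (by omega)
          push Not at h3
          rw [div_lt_iff₀ hn0] at h3
          have h4 : Nat.find hE ≤ 2 ^ (Nat.find hE - 1) := by
            have : Nat.find hE - 1 < 2 ^ (Nat.find hE - 1) := Nat.lt_two_pow_self
            omega
          have h5 : ((Nat.find hE : ℕ) : ℝ) ≤ 2 ^ (Nat.find hE - 1) := by exact_mod_cast h4
          linarith
      · rw [Finset.mem_range, Nat.lt_succ_iff]
        apply Nat.find_min'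
        have : n ≤ 2 ^ n := (Nat.lt_two_pow_self).le
        rw [le_div_iff₀ hn0]
        have h6 : (n : ℝ) ≤ 2 ^ n := by exact_mod_cast this
        nlinarith
    · exact ⟨0, fun h => absurd h hx⟩
  choose J hJ using hex
  have hmap : ∀ x ∈ X, J x ∈ Finset.range (n + 1) := fun x hx => (hJ x hx).2.2
  rw [← Finset.sum_fiberwise_of_maps_to hmap]
  have hlev : ∀ j ∈ Finset.range (n + 1),
      ∑ x ∈ X.filter (fun x => J x = j), (1 - u x ^ n / 4) ^ (176 * n * 2 ^ n) ≤
        4 * Real.exp (-3) * (1 / 2) ^ j := by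
    intro j _
    have hcard := hY (2 ^ j / n) (X.filter (fun x => J x = j)) (Finset.filter_subset _ _)
      (by
        gcongr
        exact one_le_pow₀ (by norm_num))
      (by
        intro x hx
        rw [Finset.mem_filter] at hx
        have := (hJ x hx.1).1
        rw [hx.2] at this
        linarith)
    have e1 : 5 * c3 * (n : ℝ) * (2 ^ j / n) = 5 * c3 * 2 ^ j := by
      field_simp
    rw [e1] at hcard
    calc ∑ x ∈ X.filter (fun x => J x = j), (1 - u x ^ n / 4) ^ (176 * n * 2 ^ n)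
        ≤ ∑ x ∈ X.filter (fun x => J x = j), Real.exp (-(44 * n * (1 + j))) := by
          refine Finset.sum_le_sum fun x hx => ?_
          rw [Finset.mem_filter] at hx
          obtain ⟨hx1, hx2⟩ := hu x hx.1
          have := (hJ x hx.1).2.1
          rw [hx.2] at this
          exact term n (u x) _ (by linarith) hx2 this
      _ = ((X.filter (fun x => J x = j)).card : ℝ) * Real.exp (-(44 * n * (1 + j))) := by
          rw [Finset.sum_const, nsmul_eq_mul]
      _ ≤ 4 * (5 * c3 * 2 ^ j) ^ n * Real.exp (-(44 * n * (1 + j))) := by gcongr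
      _ ≤ 4 * Real.exp (-3) * (1 / 2) ^ j := level n j hn
  calc ∑ j ∈ Finset.range (n + 1),
        ∑ x ∈ X.filter (fun x => J x = j), (1 - u x ^ n / 4) ^ (176 * n * 2 ^ n)
      ≤ ∑ j ∈ Finset.range (n + 1), 4 * Real.exp (-3) * (1 / 2) ^ j := Finset.sum_le_sum hlev
    _ = 4 * Real.exp (-3) * ∑ j ∈ Finset.range (n + 1), (1 / 2 : ℝ) ^ j := by
        rw [Finset.mul_sum]
    _ ≤ 4 * Real.exp (-3) * 2 := by
        gcongr
        exact sum_geometric_two_le (n + 1)
    _ < 1 := by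
        have := exp_neg_three
        linarith

end Pool.Agent.Rog
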