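import Pool.Agent.Rog.TargetsG
import Pool.Agent.Rog.SUM

/-!
# The sum over a net, general bodies
-/

set_option autoImplicit false

open MeasureTheory Set Filter Topology
open scoped Pointwise Real

namespace Pool.Agent.Rog

namespace SUMG_

lemma c3_ge : 2 ≤ c3 := by
  unfold c3 cc
  norm_num

lemma exp_half_le {t : ℝ} (h0 : 0 ≤ t) (h1 : t ≤ 1) : Real.exp (t / 2) ≤ 1 + t := by
  have h := Real.exp_bound_div_one_sub_of_interval (x := t / 2) (by linarith) (by linarith)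
  refine h.trans ?_
  rw [div_le_iff₀ (by linarith)]
  nlinarith

/-- one term -/
lemma term (n : ℕ) (u : ℝ) (w : ℝ) (h0 : 0 ≤ u) (h1 : u ≤ 1) (hw : w ≤ (2 * u) ^ n) :
    (1 - u ^ n / 4) ^ (4 * n * 2 ^ n) ≤ Real.exp (-(n * w)) := by
  have hu : u ^ n ≤ 1 := pow_le_one₀ h0 h1
  calc (1 - u ^ n / 4) ^ (4 * n * 2 ^ n) ≤ Real.exp (-(u ^ n / 4)) ^ (4 * n * 2 ^ n) :=
        pow_le_pow_left₀ (by linarith) (Real.one_sub_le_exp_neg _) _
    _ = Real.exp (-(n * (2 * u) ^ n)) := by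
        rw [← Real.exp_nat_mul]
        congr 1
        push_cast
        rw [mul_pow]
        ring
    _ ≤ Real.exp (-(n * w)) := by
        rw [Real.exp_le_exp]
        have : 0 ≤ (n : ℝ) := by positivity
        nlinarith

lemma term_le_one (n : ℕ) (u : ℝ) (h0 : 0 ≤ u) (h1 : u ≤ 1) :
    (1 - u ^ n / 4) ^ (4 * n * 2 ^ n) ≤ 1 := by
  have hu : u ^ n ≤ 1 := pow_le_one₀ h0 h1
  have hu0 : 0 ≤ u ^ n := pow_nonneg h0 n
  exact pow_le_one₀ (by linarith) (by linarith)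

/-- the weight of a level -/
lemma lev_small (j : ℕ) : (2 : ℝ) ^ j * Real.exp (-Real.exp (2 ^ (j + 1))) ≤ (1 / 2) ^ j := by
  have h1 : (4 : ℝ) ^ j ≤ Real.exp (Real.exp (2 ^ (j + 1))) := by
    have e1 : (2 : ℝ) ≤ Real.exp 1 := by
      have := Real.add_one_le_exp (1 : ℝ)
      linarith
    have e2 : (4 : ℝ) ≤ Real.exp 2 := by
      have : Real.exp 2 = Real.exp 1 ^ 2 := by
        rw [← Real.exp_nat_mul]; norm_num
      rw [this]
      nlinarith
    have e3 : (4 : ℝ) ^ j ≤ Real.exp (2 * j) := by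
      have : Real.exp (2 * j) = Real.exp 2 ^ j := by
        rw [← Real.exp_nat_mul]; congr 1; ring
      rw [this]
      exact pow_le_pow_left₀ (by norm_num) e2 j
    have e4 : (2 : ℝ) * j ≤ 2 ^ (j + 1) := by
      have h : j ≤ 2 ^ j := (Nat.lt_two_pow_self).le
      have h' : (j : ℝ) ≤ 2 ^ j := by exact_mod_cast h
      rw [pow_succ]
      linarith
    have e5 : (4 : ℝ) ^ j ≤ Real.exp (2 ^ (j + 1)) := e3.trans (Real.exp_le_exp.2 e4)
    have e6 := Real.add_one_le_exp (Real.exp (2 ^ (j + 1)))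
    linarith
  rw [Real.exp_neg]
  have h2 : (Real.exp (Real.exp (2 ^ (j + 1))))⁻¹ ≤ ((4 : ℝ) ^ j)⁻¹ :=
    inv_anti₀ (by positivity) h1
  calc (2 : ℝ) ^ j * (Real.exp (Real.exp (2 ^ (j + 1))))⁻¹ ≤ 2 ^ j * ((4 : ℝ) ^ j)⁻¹ := by gcongr
    _ = (1 / 2) ^ j := by
      rw [← inv_pow, ← mul_pow]
      norm_num

lemma level (n j : ℕ) (hn : 1 ≤ n) (D : ℝ) (hD : 0 ≤ D) :
    4 * (D * 2 ^ j) ^ n * Real.exp (-(n * Real.exp (2 ^ (j + 1)))) ≤ 4 * D ^ n * (1 / 2) ^ j := by
  have e1 : Real.exp (-(n * Real.exp (2 ^ (j + 1)))) = Real.exp (-Real.exp (2 ^ (j + 1))) ^ n := by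
    rw [← Real.exp_nat_mul]
    congr 1
    ring
  have h1 := lev_small j
  have h0 : 0 ≤ (2 : ℝ) ^ j * Real.exp (-Real.exp (2 ^ (j + 1))) := by positivity
  have h2 : (1 / 2 : ℝ) ^ j ≤ 1 := pow_le_one₀ (by norm_num) (by norm_num)
  calc 4 * (D * 2 ^ j) ^ n * Real.exp (-(n * Real.exp (2 ^ (j + 1))))
      = 4 * D ^ n * (2 ^ j * Real.exp (-Real.exp (2 ^ (j + 1)))) ^ n := by
        rw [e1, mul_pow, mul_pow]
        ring
    _ ≤ 4 * D ^ n * ((1 / 2) ^ j) ^ n := by gcongr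
    _ ≤ 4 * D ^ n * (1 / 2) ^ j := by
        gcongr
        exact pow_le_of_le_one (by positivity) h2 (by omega)

end SUMG_

open SUMG_ in
theorem p_SUMG : T_SUMG := by
  intro n X u ρ hn hρ hρ1 hu hX hY
  classical
  have hn0 : (0 : ℝ) < n := by exact_mod_cast hn
  have hn1 : (1 : ℝ) ≤ n := by exact_mod_cast hn
  have hρ0 : 0 < ρ := by linarith
  obtain ⟨A, hA⟩ : ∃ A, A = (n : ℝ) * Real.log (1 / ρ) := ⟨_, rfl⟩
  rw [← hA]
  have hA0 : 0 ≤ A := by
    rw [hA]
    refine mul_nonneg hn0.le (Real.log_nonneg ?_)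
    rw [le_div_iff₀ hρ0]
    linarith
  have hρn : ρ ^ n = Real.exp (-A) := by
    rw [hA, Real.log_div one_ne_zero hρ0.ne', Real.log_one, zero_sub, mul_neg, neg_neg,
      Real.exp_nat_mul, Real.exp_log hρ0]
  have hc := c3_ge
  have hu0 : ∀ x ∈ X, 0 ≤ u x := fun x hx => by linarith [(hu x hx).1]
  have hX10 : (X.card : ℝ) ≤ (10 * n) ^ n := by
    refine hX.trans (pow_le_pow_left₀ (by positivity) ?_ n)
    rw [div_le_iff₀ hρ0]
    nlinarith
  have hsum1 : ∀ Y : Finset (E n), Y ⊆ X →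
      ∑ x ∈ Y, (1 - u x ^ n / 4) ^ (4 * n * 2 ^ n) ≤ Y.card := by
    intro Y hYX
    calc ∑ x ∈ Y, (1 - u x ^ n / 4) ^ (4 * n * 2 ^ n) ≤ ∑ x ∈ Y, (1 : ℝ) :=
          Finset.sum_le_sum fun x hx => term_le_one n _ (hu0 x (hYX hx)) (hu x (hYX hx)).2
      _ = Y.card := by rw [Finset.sum_const, nsmul_eq_mul, mul_one]
  rcases le_or_gt (n : ℝ) (16 * (A + 2)) with hcase | hcase
  · refine (hsum1 X (Finset.Subset.refl _)).trans (hX10.trans ?_)
    refine pow_le_pow_left₀ (by positivity) ?_ n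
    nlinarith
  -- the main case
  obtain ⟨B, hB⟩ : ∃ B, B = 4 * (A + 2) := ⟨_, rfl⟩
  have hB8 : 8 ≤ B := by rw [hB]; linarith
  have hBn : B / n ≤ 1 / 4 := by
    rw [div_le_iff₀ hn0, hB]
    linarith
  obtain ⟨h, hh⟩ : ∃ h : E n → ℝ, h = fun x => 2 * u x / ρ - 1 := ⟨_, rfl⟩
  have hhu : ∀ x, 2 * u x = ρ * (1 + h x) := by
    intro x
    rw [hh]
    field_simp
    ring
  have hh0 : ∀ x ∈ X, 0 ≤ h x := by
    intro x hx
    have h1 := (hu x hx).1
    have h2 := hhu x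
    by_contra hneg
    push Not at hneg
    nlinarith
  have hpow : ∀ x, (2 * u x) ^ n = Real.exp (-A) * (1 + h x) ^ n := by
    intro x
    rw [hhu, mul_pow, hρn]
  -- lower bound for the exponent
  have hlow : ∀ x ∈ X, ∀ t : ℝ, 0 ≤ t → t ≤ 1 → t ≤ h x →
      Real.exp (n * (t / 2) - A) ≤ (2 * u x) ^ n := by
    intro x hx t ht0 ht1 hth
    rw [hpow]
    have h1 : Real.exp (n * (t / 2)) ≤ (1 + h x) ^ n := by
      rw [Real.exp_nat_mul]
      exact pow_le_pow_left₀ (Real.exp_pos _).le ((exp_half_le ht0 ht1).trans (by linarith)) n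
    calc Real.exp (n * (t / 2) - A) = Real.exp (-A) * Real.exp (n * (t / 2)) := by
          rw [← Real.exp_add]; congr 1; ring
      _ ≤ Real.exp (-A) * (1 + h x) ^ n := by gcongr
  -- the level of a point
  have hex : ∀ x : E n, ∃ j : ℕ, x ∈ X → h x ≤ 1 / 4 → (h x ≤ 2 ^ j * B / n ∧
      2 ^ j * B / n ≤ 1 / 2 ∧ (1 ≤ j → 2 ^ (j - 1) * B / n ≤ h x) ∧
      j ∈ Finset.range (n + 1)) := by
    intro x
    by_cases hx : x ∈ X ∧ h x ≤ 1 / 4
    · obtain ⟨hx1, hx2⟩ := hx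
      have hE : ∃ j : ℕ, h x ≤ 2 ^ j * B / n := by
        refine ⟨n, hx2.trans ?_⟩
        rw [le_div_iff₀ hn0]
        have h1 : n ≤ 2 ^ n := (Nat.lt_two_pow_self).le
        have h2 : (n : ℝ) ≤ 2 ^ n := by exact_mod_cast h1
        nlinarith
      refine ⟨Nat.find hE, fun _ _ => ⟨Nat.find_spec hE, ?_, ?_, ?_⟩⟩
      · rcases Nat.eq_zero_or_pos (Nat.find hE) with h0 | h0
        · rw [h0, pow_zero, one_mul]
          linarith
        · have h3 := Nat.find_min hE (m := Nat.find hE - 1) (by omega)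
          push Not at h3
          obtain ⟨i, hi⟩ : ∃ i, Nat.find hE = i + 1 := ⟨Nat.find hE - 1, by omega⟩
          rw [hi] at h3 ⊢
          rw [Nat.add_sub_cancel] at h3
          have : (2 : ℝ) ^ (i + 1) * B / n = 2 * (2 ^ i * B / n) := by
            rw [pow_succ]; ring
          rw [this]
          linarith
      · intro h0
        have h3 := Nat.find_min hE (m := Nat.find hE - 1) (by omega)
        push Not at h3
        exact h3.le
      · rw [Finset.mem_range, Nat.lt_succ_iff]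
        apply Nat.find_min'
        rw [le_div_iff₀ hn0]
        have h1 : n ≤ 2 ^ n := (Nat.lt_two_pow_self).le
        have h2 : (n : ℝ) ≤ 2 ^ n := by exact_mod_cast h1
        nlinarith
    · exact ⟨0, fun h1 h2 => absurd ⟨h1, h2⟩ hx⟩
  choose J hJ using hex
  obtain ⟨X1, hX1⟩ : ∃ X1, X1 = X.filter (fun x => h x ≤ 1 / 4) := ⟨_, rfl⟩
  obtain ⟨X2, hX2⟩ : ∃ X2, X2 = X.filter (fun x => ¬ h x ≤ 1 / 4) := ⟨_, rfl⟩
  have hm1 : ∀ x ∈ X1, x ∈ X ∧ h x ≤ 1 / 4 := fun x hx => by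
    rw [hX1, Finset.mem_filter] at hx; exact hx
  have hm2 : ∀ x ∈ X2, x ∈ X ∧ ¬ h x ≤ 1 / 4 := fun x hx => by
    rw [hX2, Finset.mem_filter] at hx; exact hx
  have hsplit : ∑ x ∈ X, (1 - u x ^ n / 4) ^ (4 * n * 2 ^ n) =
      ∑ x ∈ X1, (1 - u x ^ n / 4) ^ (4 * n * 2 ^ n) +
      ∑ x ∈ X2, (1 - u x ^ n / 4) ^ (4 * n * 2 ^ n) := by
    rw [hX1, hX2, Finset.sum_filter_add_sum_filter_not]
  -- the large values of `h`
  have hpart2 : ∑ x ∈ X2, (1 - u x ^ n / 4) ^ (4 * n * 2 ^ n) ≤ 160 ^ n := by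
    have h1 : ∀ x ∈ X2, (1 - u x ^ n / 4) ^ (4 * n * 2 ^ n) ≤
        Real.exp (-(n * Real.exp (n / 16))) := by
      intro x hx
      obtain ⟨hxX, hxh⟩ := hm2 x hx
      push Not at hxh
      refine term n (u x) _ (hu0 x hxX) (hu x hxX).2 ?_
      refine le_trans ?_ (hlow x hxX (1 / 4) (by norm_num) (by norm_num) hxh.le)
      rw [Real.exp_le_exp]
      linarith
    have h2 : (X2.card : ℝ) ≤ (10 * n) ^ n := by
      refine le_trans ?_ hX10
      have : X2.card ≤ X.card := by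
        rw [hX2]; exact Finset.card_filter_le _ _
      exact_mod_cast this
    have h3 : Real.exp (-Real.exp (n / 16)) ≤ 16 / n := by
      have e1 := Real.add_one_le_exp ((n : ℝ) / 16)
      have e2 := Real.add_one_le_exp (Real.exp ((n : ℝ) / 16))
      have e3 : (n : ℝ) / 16 ≤ Real.exp (Real.exp ((n : ℝ) / 16)) := by linarith
      rw [Real.exp_neg]
      calc (Real.exp (Real.exp ((n : ℝ) / 16)))⁻¹ ≤ ((n : ℝ) / 16)⁻¹ :=
            inv_anti₀ (by positivity) e3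
        _ = 16 / n := by rw [inv_div]
    calc ∑ x ∈ X2, (1 - u x ^ n / 4) ^ (4 * n * 2 ^ n)
        ≤ ∑ x ∈ X2, Real.exp (-(n * Real.exp (n / 16))) := Finset.sum_le_sum h1
      _ = X2.card * Real.exp (-(n * Real.exp (n / 16))) := by
          rw [Finset.sum_const, nsmul_eq_mul]
      _ ≤ (10 * n) ^ n * Real.exp (-(n * Real.exp (n / 16))) := by gcongr
      _ = (10 * n * Real.exp (-Real.exp (n / 16))) ^ n := by
          have e4 : Real.exp (-(n * Real.exp (n / 16))) = Real.exp (-Real.exp (n / 16)) ^ n := by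
            rw [← Real.exp_nat_mul]
            congr 1
            ring
          rw [e4, ← mul_pow]
      _ ≤ (10 * n * (16 / n)) ^ n := by gcongr
      _ = 160 ^ n := by
          congr 1
          field_simp
          norm_num
  -- the levels
  obtain ⟨D, hD⟩ : ∃ D, D = 5 * c3 * B := ⟨_, rfl⟩
  have hD0 : 0 ≤ D := by rw [hD]; nlinarith
  have hmap : ∀ x ∈ X1, J x ∈ Finset.range (n + 1) := fun x hx =>
    (hJ x (hm1 x hx).1 (hm1 x hx).2).2.2.2
  have hlev : ∀ j ∈ Finset.range (n + 1),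
      ∑ x ∈ X1.filter (fun x => J x = j), (1 - u x ^ n / 4) ^ (4 * n * 2 ^ n) ≤
        4 * D ^ n * (1 / 2) ^ j := by
    intro j _
    have hsub : X1.filter (fun x => J x = j) ⊆ X := fun x hx => by
      rw [Finset.mem_filter] at hx
      exact (hm1 x hx.1).1
    rcases Finset.eq_empty_or_nonempty (X1.filter (fun x => J x = j)) with he | ⟨y, hy⟩
    · rw [he, Finset.sum_empty]
      positivity
    have hy' := hy
    rw [Finset.mem_filter] at hy'
    have hJy := hJ y (hm1 y hy'.1).1 (hm1 y hy'.1).2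
    rw [hy'.2] at hJy
    have hcard := hY (2 ^ j * B / n) (X1.filter (fun x => J x = j)) hsub
      (by
        gcongr
        have : (1 : ℝ) ≤ 2 ^ j := one_le_pow₀ (by norm_num)
        nlinarith)
      hJy.2.1
      (by
        intro x hx
        rw [Finset.mem_filter] at hx
        have h1 := (hJ x (hm1 x hx.1).1 (hm1 x hx.1).2).1
        rw [hx.2] at h1
        have h2 := hhu x
        nlinarith)
    have e1 : 5 * c3 * (n : ℝ) * (2 ^ j * B / n) = D * 2 ^ j := by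
      rw [hD]
      field_simp
    rw [e1] at hcard
    rcases Nat.eq_zero_or_pos j with h0 | h0
    · subst h0
      refine (hsum1 _ hsub).trans (hcard.trans (le_of_eq ?_))
      rw [pow_zero, pow_zero, mul_one, mul_one]
    calc ∑ x ∈ X1.filter (fun x => J x = j), (1 - u x ^ n / 4) ^ (4 * n * 2 ^ n)
        ≤ ∑ x ∈ X1.filter (fun x => J x = j), Real.exp (-(n * Real.exp (2 ^ (j + 1)))) := by
          refine Finset.sum_le_sum fun x hx => ?_
          rw [Finset.mem_filter] at hx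
          obtain ⟨hxX, hxh⟩ := hm1 x hx.1
          have h3 := hJ x hxX hxh
          rw [hx.2] at h3
          refine term n (u x) _ (hu0 x hxX) (hu x hxX).2 ?_
          have ht : 2 ^ (j - 1) * B / n ≤ 1 := (h3.2.2.1 h0).trans (by linarith)
          have ht0 : 0 ≤ 2 ^ (j - 1) * B / (n : ℝ) := by positivity
          refine le_trans ?_ (hlow x hxX (2 ^ (j - 1) * B / n) ht0 ht (h3.2.2.1 h0))
          rw [Real.exp_le_exp]
          obtain ⟨i, rfl⟩ : ∃ i, j = i + 1 := ⟨j - 1, by omega⟩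
          rw [Nat.add_sub_cancel]
          have e2 : (n : ℝ) * (2 ^ i * B / n / 2) = 2 ^ i * (2 * (A + 2)) := by
            rw [hB]
            field_simp
            ring
          rw [e2]
          have h4 : (1 : ℝ) ≤ 2 ^ i := one_le_pow₀ (by norm_num)
          have e3 : (2 : ℝ) ^ (i + 1 + 1) = 4 * 2 ^ i := by
            rw [pow_succ, pow_succ]; ring
          rw [e3]
          nlinarith
      _ = ((X1.filter (fun x => J x = j)).card : ℝ) *
            Real.exp (-(n * Real.exp (2 ^ (j + 1)))) := by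
          rw [Finset.sum_const, nsmul_eq_mul]
      _ ≤ 4 * (D * 2 ^ j) ^ n * Real.exp (-(n * Real.exp (2 ^ (j + 1)))) := by gcongr
      _ ≤ 4 * D ^ n * (1 / 2) ^ j := level n j hn D hD0
  have hpart1 : ∑ x ∈ X1, (1 - u x ^ n / 4) ^ (4 * n * 2 ^ n) ≤ 8 * D ^ n := by
    rw [← Finset.sum_fiberwise_of_maps_to hmap]
    calc ∑ j ∈ Finset.range (n + 1),
          ∑ x ∈ X1.filter (fun x => J x = j), (1 - u x ^ n / 4) ^ (4 * n * 2 ^ n)
        ≤ ∑ j ∈ Finset.range (n + 1), 4 * D ^ n * (1 / 2) ^ j := Finset.sum_le_sum hlev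
      _ = 4 * D ^ n * ∑ j ∈ Finset.range (n + 1), (1 / 2 : ℝ) ^ j := by
          rw [Finset.mul_sum]
      _ ≤ 4 * D ^ n * 2 := by
          gcongr
          exact sum_geometric_two_le (n + 1)
      _ = 8 * D ^ n := by ring
  rw [hsplit]
  have hDe : D = 20 * c3 * (A + 2) := by rw [hD, hB]; ring
  have hcA : 0 ≤ c3 * (A + 2) := by positivity
  have h8 : 8 * D ^ n ≤ (160 * (c3 * (A + 2))) ^ n := by
    have e1 : (8 : ℝ) ≤ 8 ^ n := le_self_pow₀ (by norm_num) (by omega)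
    calc 8 * D ^ n ≤ 8 ^ n * D ^ n := by gcongr
      _ = (160 * (c3 * (A + 2))) ^ n := by
          rw [← mul_pow, hDe]
          congr 1
          ring
  have h160 : (160 : ℝ) ^ n ≤ (40 * (c3 * (A + 2))) ^ n := by
    refine pow_le_pow_left₀ (by norm_num) ?_ n
    nlinarith
  calc ∑ x ∈ X1, (1 - u x ^ n / 4) ^ (4 * n * 2 ^ n) +
        ∑ x ∈ X2, (1 - u x ^ n / 4) ^ (4 * n * 2 ^ n)
      ≤ (160 * (c3 * (A + 2))) ^ n + (40 * (c3 * (A + 2))) ^ n :=
        add_le_add (hpart1.trans h8) (hpart2.trans h160)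
    _ ≤ (160 * (c3 * (A + 2)) + 40 * (c3 * (A + 2))) ^ n :=
        pow_add_pow_le (by positivity) (by positivity) (by omega)
    _ = (200 * c3 * (2 + A)) ^ n := by
        congr 1
        ring

end Pool.Agent.Rog
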