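import Pool.Agent.Rog.TargetsG

/-!
# SUPPG: the supporting affine function at half a sharp point, general bodies
-/

set_option autoImplicit false

open MeasureTheory Set Filter Topology
open scoped Pointwise Real

namespace Pool.Agent.Rog

namespace SUPPG_

/-- A supporting affine function of a concave function at half a point. -/
theorem supp_aux {n : ℕ} {K : Set (E n)} {f : E n → ℝ} (hK : Convex ℝ K)
    (h0 : (0 : E n) ∈ interior K) (hf0 : 0 < f 0)
    (hconc : ∀ x ∈ K, ∀ y ∈ K, ∀ a b : ℝ, 0 ≤ a → 0 ≤ b → a + b = 1 →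
      a * f x + b * f y ≤ f (a • x + b • y))
    (hhalf : ∀ x ∈ K, f 0 / 2 ≤ f ((1 / 2 : ℝ) • x)) {x : E n} (hx : x ∈ K) :
    ∃ g : E n, ∀ w ∈ K, f w ≤ f ((1 / 2 : ℝ) • x) + inner ℝ g ((1 / 2 : ℝ) • x) -
      inner ℝ g w := by
  have h0K : (0 : E n) ∈ K := interior_subset h0
  set z : E n := (1 / 2 : ℝ) • x with hz
  set H : Set (E n × ℝ) := {p | p.1 ∈ K ∧ p.2 < f p.1} with hH
  have hHc : Convex ℝ H := by
    intro p hp q hq a b ha hb hab
    refine ⟨hK hp.1 hq.1 ha hb hab, ?_⟩
    change a * p.2 + b * q.2 < f (a • p.1 + b • q.1)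
    refine lt_of_lt_of_le ?_ (hconc p.1 hp.1 q.1 hq.1 a b ha hb hab)
    have hp2 := hp.2
    have hq2 := hq.2
    rcases eq_or_lt_of_le ha with h | h
    · have hb1 : b = 1 := by linarith
      rw [← h, hb1]
      linarith
    · nlinarith
  set U : Set (E n × ℝ) := {p | (2 : ℝ) • p.1 ∈ interior K ∧ p.2 < f 0 / 2} with hU
  have hUo : IsOpen U := by
    have hc : Continuous fun p : E n × ℝ => (2 : ℝ) • p.1 := by fun_prop
    have h1 : IsOpen {p : E n × ℝ | (2 : ℝ) • p.1 ∈ interior K} :=
      isOpen_interior.preimage hc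
    have h2 : IsOpen {p : E n × ℝ | p.2 < f 0 / 2} := isOpen_lt continuous_snd continuous_const
    exact h1.inter h2
  have hUH : U ⊆ H := by
    rintro p ⟨h1, h2⟩
    have h3 : (1 / 2 : ℝ) • ((2 : ℝ) • p.1) = p.1 := by
      rw [smul_smul]
      norm_num
    have h4 : (2 : ℝ) • p.1 ∈ K := interior_subset h1
    refine ⟨?_, ?_⟩
    · have h5 := hK h4 h0K (a := 1 / 2) (b := 1 / 2) (by norm_num) (by norm_num) (by norm_num)
      rw [h3, smul_zero, add_zero] at h5
      exact h5
    · have h5 := hhalf _ h4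
      rw [h3] at h5
      exact lt_of_lt_of_le h2 h5
  have h00 : ((0 : E n), (0 : ℝ)) ∈ interior H := by
    refine interior_maximal hUH hUo ⟨?_, ?_⟩
    · simpa using h0
    · exact half_pos hf0
  have hzH : (z, f z) ∉ interior H := fun h => lt_irrefl _ (interior_subset h).2
  obtain ⟨F, hF⟩ := geometric_hahn_banach_open_point hHc.interior isOpen_interior hzH
  have hFle : ∀ p ∈ H, F p ≤ F (z, f z) := by
    intro p hp
    have h1 : p ∈ closure (interior H) := by
      rw [hHc.closure_interior_eq_closure_of_nonempty_interior ⟨_, h00⟩]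
      exact subset_closure hp
    have h2 : IsClosed {p : E n × ℝ | F p ≤ F (z, f z)} :=
      isClosed_le F.continuous continuous_const
    exact closure_minimal (fun q hq => (hF q hq).le) h2 h1
  set V : E n →L[ℝ] ℝ := F.comp (ContinuousLinearMap.inl ℝ (E n) ℝ) with hV
  set b : ℝ := F ((0 : E n), (1 : ℝ)) with hb
  have hFd : ∀ (w : E n) (s : ℝ), F (w, s) = V w + s * b := by
    intro w s
    have h1 : (w, s) = (w, (0 : ℝ)) + s • ((0 : E n), (1 : ℝ)) := by
      ext <;> simp
    rw [h1, map_add, map_smul, smul_eq_mul]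
    rfl
  have hle : ∀ w ∈ K, ∀ s : ℝ, s < f w → V w + s * b ≤ V z + f z * b := by
    intro w hw s hs
    have h1 := hFle (w, s) ⟨hw, hs⟩
    rwa [hFd, hFd] at h1
  have hb0 : 0 ≤ b := by
    by_contra hneg
    have hneg' : b < 0 := not_le.1 hneg
    set c : ℝ := V z + f z * b with hc
    have h1 := hle 0 h0K (min 0 ((c + 1) / b)) (by
      exact lt_of_le_of_lt (min_le_left _ _) hf0)
    rw [map_zero, zero_add] at h1
    have h2 : min 0 ((c + 1) / b) ≤ (c + 1) / b := min_le_right _ _
    have h3 : (c + 1) / b * b ≤ min 0 ((c + 1) / b) * b := mul_le_mul_of_nonpos_right h2 hneg'.le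
    rw [div_mul_cancel₀ _ hneg'.ne] at h3
    linarith
  have hbpos : 0 < b := by
    rcases eq_or_lt_of_le hb0 with h | h
    · exfalso
      have h1 := hF _ h00
      rw [hFd, hFd, map_zero, ← h] at h1
      simp only [mul_zero, add_zero] at h1
      have h2 := hle x hx (f x - 1) (by linarith)
      rw [← h] at h2
      simp only [mul_zero, add_zero] at h2
      have h3 : V z = 1 / 2 * V x := by
        rw [hz, map_smul, smul_eq_mul]
      linarith
    · exact h
  have hmain : ∀ w ∈ K, V w + f w * b ≤ V z + f z * b := by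
    intro w hw
    by_contra hcon
    have hcon' := not_le.1 hcon
    have h1 := hle w hw (f w - (V w + f w * b - (V z + f z * b)) / (2 * b)) (by
      have : 0 < (V w + f w * b - (V z + f z * b)) / (2 * b) :=
        div_pos (by linarith) (by linarith)
      linarith)
    have h2 : (V w + f w * b - (V z + f z * b)) / (2 * b) * b =
        (V w + f w * b - (V z + f z * b)) / 2 := by
      field_simp
    rw [sub_mul, h2] at h1
    linarith
  refine ⟨(InnerProductSpace.toDual ℝ (E n)).symm ((1 / b) • V), fun w hw => ?_⟩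
  rw [InnerProductSpace.toDual_symm_apply, InnerProductSpace.toDual_symm_apply]
  change f w ≤ f z + (1 / b) * V z - (1 / b) * V w
  have h1 := hmain w hw
  have h2 : f z + (1 / b) * V z - (1 / b) * V w = ((V z + f z * b) - V w) / b := by
    field_simp
    ring
  rw [h2, le_div_iff₀ hbpos]
  linarith

end SUPPG_

open SUPPG_ in
theorem p_SUPPG (h_WCG : T_WCG) : T_SUPPG := by
  intro n K x t hn hK hx ht hW
  obtain ⟨-, hW0, -, hWn, -, hWc, hWh, -⟩ := h_WCG n K hn hK
  have h0 := hK.zero
  obtain ⟨g, hg⟩ := supp_aux (f := W K) hK.cvx h0 hW0 hWc hWh hx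
  have h2 : inner ℝ g ((1 / 2 : ℝ) • x) = 1 / 2 * inner ℝ g x := by
    rw [inner_smul_right]
  refine ⟨W K ((1 / 2 : ℝ) • x) + inner ℝ g ((1 / 2 : ℝ) • x), g, hg, ?_, ?_, ?_⟩
  · have h1 := hg 0 (interior_subset h0)
    rw [inner_zero_right, sub_zero] at h1
    rw [h2] at h1 ⊢
    linarith
  · have h1 := hg 0 (interior_subset h0)
    rwa [inner_zero_right, sub_zero] at h1
  · have h1 := hg x hx
    have h3 := hWn x
    rw [h2] at h1 ⊢
    linarith

end Pool.Agent.Rog
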