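import Pool.Agent.Rog.TargetsG

/-!
# Basic properties of the symmetric part
-/

set_option autoImplicit false

open MeasureTheory Set
open scoped Pointwise

namespace Pool.Agent.Rog

theorem p_SYB (hB : T_POLB) : T_SYB := by
  intro n K hK
  have hneg : IsCompact (-K) := hK.cpt.neg
  have h0n : (0 : E n) ∈ interior (-K) := by
    have h1 : interior (-K) = -interior K := by
      have := (Homeomorph.neg (E n)).preimage_interior K
      simpa using this.symm
    rw [h1]
    simpa using hK.zero
  have h0 : (0 : E n) ∈ interior (sy K) := by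
    unfold sy
    rw [interior_inter]
    exact ⟨hK.zero, h0n⟩
  have hcpt : IsCompact (sy K) := hK.cpt.inter_right hneg.isClosed
  have hsub : sy K ⊆ K := inter_subset_left
  have hsym : SymBody (sy K) := by
    refine ⟨hcpt, hK.cvx.inter hK.cvx.neg, ⟨0, h0⟩, ?_⟩
    rintro x ⟨h1, h2⟩
    exact ⟨h2, by simpa using h1⟩
  obtain ⟨hp1, hp2, hp3⟩ := hB.1 n K hK.cpt hK.cvx hK.zero
  refine ⟨hsym, ?_, ?_, ?_, hp1, hp2, hp3⟩
  · have h1 : 0 < volume (sy K) :=
      lt_of_lt_of_le (isOpen_interior.measure_pos volume ⟨0, h0⟩) (measure_mono interior_subset)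
    exact ENNReal.toReal_pos h1.ne' hcpt.measure_lt_top.ne
  · exact measureReal_mono hsub hK.cpt.measure_lt_top.ne
  · intro y hy x hx
    exact hy x (hsub hx)

end Pool.Agent.Rog
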