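import Pool.Agent.Rog.Targets

/-!
# The Gaussian integrals and the volumes
-/

set_option autoImplicit false

open MeasureTheory Set Filter Topology
open scoped Pointwise Real

namespace Pool.Agent.Rog

namespace VF_

variable {n : ℕ} {Q : E n → ℝ} {G : E n → E n}

theorem Q_zero (h : Nice Q G) : Q 0 = 0 := by
  have := h.homQ 0 0 le_rfl
  simpa using this

theorem Q_nonneg (h : Nice Q G) (x : E n) : 0 ≤ Q x := by
  obtain ⟨c, hc, hl⟩ := h.lower
  exact le_trans (by positivity) (hl x)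

theorem Q_smul (h : Nice Q G) (r : ℝ) (x : E n) : Q (r • x) = r ^ 2 * Q x := by
  rcases le_total 0 r with hr | hr
  · exact h.homQ r x hr
  · have h1 := h.homQ (-r) x (by linarith)
    rw [neg_smul, h.even] at h1
    rw [h1]
    ring

theorem sub (h : Nice Q G) (x a : E n) : √(Q (x + a)) ≤ √(Q x) + √(Q a) := by
  rcases (Real.sqrt_nonneg (Q (x + a))).eq_or_lt with h0 | h0
  · rw [← h0]
    positivity
  have h1 : √(Q (x + a)) * √(Q (x + a)) ≤ (√(Q x) + √(Q a)) * √(Q (x + a)) := by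
    have h2 : Q (x + a) = inner ℝ x (G (x + a)) + inner ℝ a (G (x + a)) := by
      rw [← inner_add_left, h.inner_self]
    have h3 := h.holder x (x + a)
    have h4 := h.holder a (x + a)
    rw [Real.mul_self_sqrt (Q_nonneg h _), add_mul]
    linarith
  exact le_of_mul_le_mul_right h1 h0

theorem bdd (h : Nice Q G) : ∃ R : ℝ, 0 < R ∧ ∀ x, Q x ≤ 1 → ‖x‖ ≤ R := by
  obtain ⟨c, hc, hl⟩ := h.lower
  refine ⟨√(1 / c), Real.sqrt_pos.2 (by positivity), fun x hx => ?_⟩
  apply Real.le_sqrt_of_sq_le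
  rw [le_div_iff₀ hc]
  have := hl x
  nlinarith [mul_nonneg hc.le (sq_nonneg ‖G x‖)]

theorem dbd (h : Nice Q G) (y : E n) : BddAbove {r | ∃ z, Q z ≤ 1 ∧ r = inner ℝ z y} := by
  obtain ⟨R, hR, hb⟩ := bdd h
  refine ⟨R * ‖y‖, ?_⟩
  rintro r ⟨z, hz, rfl⟩
  exact (real_inner_le_norm z y).trans (mul_le_mul_of_nonneg_right (hb z hz) (norm_nonneg y))

theorem dne (h : Nice Q G) (y : E n) : ({r | ∃ z, Q z ≤ 1 ∧ r = inner ℝ z y} : Set ℝ).Nonempty :=
  ⟨_, 0, by rw [Q_zero h]; exact zero_le_one, rfl⟩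

theorem le_dn (h : Nice Q G) (y z : E n) (hz : Q z ≤ 1) : inner ℝ z y ≤ dn Q y :=
  le_csSup (dbd h y) ⟨z, hz, rfl⟩

theorem dn_le (h : Nice Q G) (y : E n) (a : ℝ) (ha : ∀ z, Q z ≤ 1 → inner ℝ z y ≤ a) :
    dn Q y ≤ a := by
  apply csSup_le (dne h y)
  rintro r ⟨z, hz, rfl⟩
  exact ha z hz

theorem dn_nonneg (h : Nice Q G) (y : E n) : 0 ≤ dn Q y := by
  have := le_dn h y 0 (by rw [Q_zero h]; exact zero_le_one)
  simpa using this

theorem dn_zero (h : Nice Q G) : dn Q 0 = 0 :=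
  le_antisymm (dn_le h 0 0 (by simp)) (dn_nonneg h 0)

theorem dn_neg (h : Nice Q G) (y : E n) : dn Q (-y) = dn Q y := by
  have key : ∀ y : E n, dn Q (-y) ≤ dn Q y := by
    intro y
    apply dn_le h
    intro z hz
    have := le_dn h y (-z) (by rw [h.even]; exact hz)
    simpa using this
  refine le_antisymm (key y) ?_
  have := key (-y)
  rwa [neg_neg] at this

theorem dn_add (h : Nice Q G) (x y : E n) : dn Q (x + y) ≤ dn Q x + dn Q y := by
  apply dn_le h
  intro z hz
  rw [inner_add_right]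
  exact add_le_add (le_dn h x z hz) (le_dn h y z hz)

theorem dn_smul (h : Nice Q G) (r : ℝ) (y : E n) : dn Q (r • y) ≤ |r| * dn Q y := by
  apply dn_le h
  intro z hz
  rw [inner_smul_right]
  rcases le_total 0 r with hr | hr
  · rw [abs_of_nonneg hr]
    exact mul_le_mul_of_nonneg_left (le_dn h y z hz) hr
  · rw [abs_of_nonpos hr]
    have h1 := le_dn h y (-z) (by rw [h.even]; exact hz)
    rw [inner_neg_left] at h1
    nlinarith [mul_le_mul_of_nonneg_left h1 (neg_nonneg.2 hr)]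

theorem pol_bdd (h : Nice Q G) : ∃ R : ℝ, 0 < R ∧ ∀ y, y ∈ pol {x | Q x ≤ 1} → ‖y‖ ≤ R := by
  obtain ⟨C, hC, hu⟩ := h.upper
  refine ⟨√C, Real.sqrt_pos.2 hC, fun y hy => ?_⟩
  rcases eq_or_ne y 0 with rfl | hy0
  · simp
  have hy1 : 0 < ‖y‖ := norm_pos_iff.2 hy0
  have hsC : 0 < √C := Real.sqrt_pos.2 hC
  have h1 := hy ((√C * ‖y‖)⁻¹ • y) (by
    show Q _ ≤ 1
    refine (hu _).1.trans ?_
    rw [norm_smul, norm_inv, norm_mul, norm_norm, Real.norm_of_nonneg hsC.le, mul_inv, mul_assoc,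
      inv_mul_cancel₀ hy1.ne', mul_one, inv_pow, Real.sq_sqrt hC.le, mul_inv_cancel₀ hC.ne'])
  rw [inner_smul_right, real_inner_self_eq_norm_sq] at h1
  have h2 : (√C * ‖y‖)⁻¹ * ‖y‖ ^ 2 = ‖y‖ / √C := by
    field_simp
  rw [h2, div_le_one hsC] at h1
  exact h1

theorem dn_eq_zero (h : Nice Q G) (y : E n) (hy : dn Q y = 0) : y = 0 := by
  by_contra hy0
  obtain ⟨R, hR, hb⟩ := pol_bdd h
  have hy1 : 0 < ‖y‖ := norm_pos_iff.2 hy0
  have h1 := hb (((R + 1) / ‖y‖) • y) (by
    intro x hx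
    rw [real_inner_smul_left, real_inner_comm]
    have h2 : inner ℝ x y ≤ 0 := by
      rw [← hy]
      exact le_dn h y x hx
    have h3 : 0 ≤ (R + 1) / ‖y‖ := by positivity
    nlinarith)
  rw [norm_smul, Real.norm_of_nonneg (by positivity), div_mul_cancel₀ _ hy1.ne'] at h1
  linarith

/-- The common computation. -/
theorem comp {g : E n → ℝ} (h1 : g 0 = 0) (h2 : ∀ x, g (-x) = g x)
    (h3 : ∀ x y, g (x + y) ≤ g x + g y) (h4 : ∀ {x}, g x = 0 → x = 0)
    (h5 : ∀ r x, g (r • x) ≤ |r| * (g x)) (S : Set (E n)) (hS : {x | g x < 1} ⊆ S)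
    (R : ℝ) (hR : ∀ x ∈ S, ‖x‖ ≤ R) :
    (∫ x, Real.exp (-(g x) ^ 2)) ≤ Real.Gamma (n / 2 + 1) * volume.real S := by
  have h := MeasureTheory.measure_lt_one_eq_integral_div_gamma (μ := (volume : Measure (E n)))
    h1 h2 h3 h4 h5 (p := 2) two_pos
  have hfr : (Module.finrank ℝ (E n) : ℝ) = n := by simp
  rw [hfr] at h
  have hG : 0 < Real.Gamma ((n : ℝ) / 2 + 1) := Real.Gamma_pos_of_pos (by positivity)
  have hfin : volume S ≠ ⊤ := by
    have hsub : S ⊆ Metric.closedBall (0 : E n) R := by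
      intro x hx
      rw [mem_closedBall_zero_iff]
      exact hR x hx
    exact ((measure_mono hsub).trans_lt measure_closedBall_lt_top).ne
  have hle : volume.real {x | g x < 1} ≤ volume.real S := measureReal_mono hS hfin
  have he : volume.real {x | g x < 1} =
      (∫ x, Real.exp (-(g x) ^ 2)) / Real.Gamma ((n : ℝ) / 2 + 1) := by
    rw [Measure.real, h, ENNReal.toReal_ofReal]
    · simp only [Real.rpow_two]
    · apply div_nonneg _ hG.le
      exact integral_nonneg fun x => (Real.exp_pos _).le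
  rw [he, div_le_iff₀ hG] at hle
  linarith

end VF_

open VF_ in
theorem p_VF : T_VF := by
  intro n Q G hn h
  constructor
  · obtain ⟨R, hR, hb⟩ := bdd h
    have := comp (g := fun x => √(Q x)) (by simp [Q_zero h]) (fun x => by simp only [h.even])
      (fun x y => sub h x y)
      (fun {x} hx => by
        obtain ⟨c, hc, hl⟩ := h.lower
        have h0 : Q x = 0 := by
          have := Real.sqrt_eq_zero (Q_nonneg h x)
          exact this.1 hx
        have h1 := hl x
        rw [h0] at h1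
        have h2 : ‖x‖ ^ 2 ≤ 0 := by
          nlinarith [mul_nonneg hc.le (sq_nonneg ‖G x‖), mul_nonneg hc.le (sq_nonneg ‖x‖)]
        have h3 : ‖x‖ = 0 := by
          nlinarith [norm_nonneg x]
        exact norm_eq_zero.1 h3)
      (fun r x => by
        show √(Q (r • x)) ≤ |r| * √(Q x)
        rw [Q_smul h, Real.sqrt_mul (sq_nonneg r), Real.sqrt_sq_eq_abs])
      {x | Q x ≤ 1} (by
        intro x hx
        have hx' : √(Q x) < 1 := hx
        show Q x ≤ 1
        have := Real.sqrt_lt_sqrt_iff (x := Q x) (y := 1) (Q_nonneg h x)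
        rw [Real.sqrt_one] at this
        exact (this.1 hx').le) R (fun x hx => hb x hx)
    refine le_trans (le_of_eq ?_) this
    congr 1
    funext x
    rw [Real.sq_sqrt (Q_nonneg h x)]
  · obtain ⟨R, hR, hb⟩ := pol_bdd h
    exact comp (dn_zero h) (dn_neg h) (dn_add h) (fun {x} hx => dn_eq_zero h x hx) (dn_smul h) _
      (by
        intro y hy x hx
        have := le_dn h y x hx
        rw [real_inner_comm]
        exact this.trans (le_of_lt hy)) R hb

end Pool.Agent.Rog
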