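import Pool.Agent.Rog.ALL
import Pool.Agent.Rog.FING
import Pool.Agent.Rog.CNTG
import Pool.Agent.Rog.DCAPG
import Pool.Agent.Rog.BM
import Pool.Agent.Rog.SL
import Pool.Agent.Rog.SHELLG
import Pool.Agent.Rog.PEELG
import Pool.Agent.Rog.NETG
import Pool.Agent.Rog.MAXB
import Pool.Agent.Rog.GRE
import Pool.Agent.Rog.DERG
import Pool.Agent.Rog.CONDPG
import Pool.Agent.Rog.SUPPG
import Pool.Agent.Rog.CAPVG
import Pool.Agent.Rog.PACK
import Pool.Agent.Rog.PACKK
import Pool.Agent.Rog.BMI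
import Pool.Agent.Rog.WCG
import Pool.Agent.Rog.LAG
import Pool.Agent.Rog.PLAN
import Pool.Agent.Rog.POLD
import Pool.Agent.Rog.BZ
import Pool.Agent.Rog.EB
import Pool.Agent.Rog.VF
import Pool.Agent.Rog.APX
import Pool.Agent.Rog.GAM
import Pool.Agent.Rog.JC
import Pool.Agent.Rog.JA
import Pool.Agent.Rog.JR
import Pool.Agent.Rog.RE
import Pool.Agent.Rog.GI
import Pool.Agent.Rog.NB
import Pool.Agent.Rog.ND
import Pool.Agent.Rog.NC
import Pool.Agent.Rog.NA
import Pool.Agent.Rog.DINT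
import Pool.Agent.Rog.COVC
import Pool.Agent.Rog.COVR
import Pool.Agent.Rog.SD
import Pool.Agent.Rog.BIJ
import Pool.Agent.Rog.DIFF
import Pool.Agent.Rog.SUMG
import Pool.Agent.Rog.POLB
import Pool.Agent.Rog.SYB

/-!
# Covering convex bodies by translates of the interior: assembly
-/

set_option autoImplicit false

open MeasureTheory Set
open scoped Pointwise

namespace Pool.Agent.Rog

theorem t_BMI : T_BMI := p_BMI
theorem t_POLB : T_POLB := p_POLB
theorem t_POLD : T_POLD := p_POLD t_POLB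
theorem t_DIFF : T_DIFF := p_DIFF
theorem t_PACK : T_PACK := p_PACK

/-! ### Bourgain-Milman -/

theorem t_SD : T_SD := p_SD
theorem t_BIJ : T_BIJ := p_BIJ
theorem t_COVC : T_COVC := p_COVC t_BIJ t_SD
theorem t_COVR : T_COVR := p_COVR t_BIJ t_SD
theorem t_DINT : T_DINT := p_DINT t_COVR
theorem t_GI : T_GI := p_GI
theorem t_JR : T_JR := p_JR t_GI t_COVC t_SD
theorem t_JA : T_JA := p_JA t_DINT
theorem t_JC : T_JC := p_JC t_JR t_JA p_RE t_GI
theorem t_BZ : T_BZ := p_BZ t_JC t_DINT t_SD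
theorem t_EB : T_EB := p_EB t_BZ t_COVR t_SD
theorem t_NA : T_NA := p_NA
theorem t_NB : T_NB := p_NB t_NA
theorem t_NC : T_NC := p_NC
theorem t_ND : T_ND := p_ND t_NC

/-- The Bourgain-Milman inequality: `|M| |M°| ≥ (3 / (8 n)) ^ n` for symmetric convex bodies. -/
theorem bourgain_milman : T_BM :=
  p_BM t_NA t_NB t_NC t_ND t_EB p_VF (p_APX t_POLB) p_GAM t_POLB

/-- Santalo's inequality with a worse constant: `|K| |K°| ≤ (713200 / n) ^ n`. -/
theorem santalo_weak : T_SL := p_SL t_POLB p_LAG p_PLAN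

/-! ### Convexity -/

theorem t_SYB : T_SYB := p_SYB t_POLB
theorem t_WCG : T_WCG := p_WCG t_BMI
theorem t_SUPPG : T_SUPPG := p_SUPPG t_WCG
theorem t_CAPVG : T_CAPVG := p_CAPVG t_WCG
theorem t_SHELLG : T_SHELLG := p_SHELLG t_SYB
theorem t_PEELG : T_PEELG := p_PEELG t_SYB

theorem t_DCAPG : T_DCAPG :=
  p_DCAPG t_WCG t_SUPPG t_SYB bourgain_milman santalo_weak t_DIFF t_POLB t_POLD t_SHELLG t_PEELG

theorem t_CNTG : T_CNTG := p_CNTG t_WCG t_SUPPG t_CAPVG t_SYB t_DCAPG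

/-! ### Covering -/

theorem t_PACKK : T_PACKK := p_PACKK t_SYB
theorem t_MAXB : T_MAXB := p_MAXB t_PACK
theorem t_NETG : T_NETG := p_NETG t_CNTG t_PACK t_MAXB t_SYB

theorem t_FING : T_FING :=
  p_FING t_WCG t_SYB t_PACKK t_MAXB t_NETG p_CONDPG p_DERG p_GRE p_SUMG

/-- The covering theorem for all convex bodies. -/
theorem t_ALL : T_ALL := p_ALL t_FING

end Pool.Agent.Rog
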