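import Pool.Agent.Rog.TargetsG
import Pool.Agent.FracH.Step

/-!
# The theorem for general bodies
-/

set_option autoImplicit false

open MeasureTheory Set
open scoped Pointwise

namespace Pool.Agent.Rog

namespace ALL_

variable {n : ℕ}

/-- The central part of the body. -/
def S (K : Set (E n)) (c : E n) : Set (E n) := K ∩ ((fun y => (2 : ℝ) • c - y) '' K)

theorem mem_S {K : Set (E n)} {c x : E n} : x ∈ S K c ↔ x ∈ K ∧ (2 : ℝ) • c - x ∈ K := by
  unfold S
  constructor
  · rintro ⟨h1, y, hy, rfl⟩
    exact ⟨h1, by simpa using hy⟩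
  · rintro ⟨h1, h2⟩
    exact ⟨h1, _, h2, by simp⟩

theorem convex_S {K : Set (E n)} (hK : Convex ℝ K) (c : E n) : Convex ℝ (S K c) := by
  intro x hx y hy a b ha hb hab
  rw [mem_S] at hx hy ⊢
  refine ⟨hK hx.1 hy.1 ha hb hab, ?_⟩
  have h := hK hx.2 hy.2 ha hb hab
  have e : a • ((2 : ℝ) • c - x) + b • ((2 : ℝ) • c - y) = (2 : ℝ) • c - (a • x + b • y) := by
    have hb' : b = 1 - a := by linarith
    rw [hb']
    module
  rwa [e] at h

theorem refl_S {K : Set (E n)} {c x : E n} (hx : x ∈ S K c) : (2 : ℝ) • c - x ∈ S K c := by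
  rw [mem_S] at hx ⊢
  exact ⟨hx.2, by simpa using hx.1⟩

theorem center_mem {K : Set (E n)} (hK : Convex ℝ K) (c : E n)
    (hv : 0 < volume.real (S K c)) : c ∈ interior K := by
  have hc := convex_S hK c
  have hne : (interior (S K c)).Nonempty := by
    by_contra hne
    rw [not_nonempty_iff_eq_empty] at hne
    have h1 : volume (frontier (S K c)) = 0 := hc.addHaar_frontier volume
    have h2 : S K c ⊆ frontier (S K c) := by
      intro x hx
      exact ⟨subset_closure hx, by rw [hne]; exact notMem_empty x⟩
    have h3 : volume (S K c) = 0 := measure_mono_null h2 h1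
    rw [measureReal_def, h3] at hv
    simp at hv
  obtain ⟨x, hx⟩ := hne
  have hx' := refl_S (interior_subset hx)
  have h := hc.combo_interior_self_mem_interior hx hx' (a := 1 / 2) (b := 1 / 2)
      (by norm_num) (by norm_num) (by norm_num)
  have e : (1 / 2 : ℝ) • x + (1 / 2 : ℝ) • ((2 : ℝ) • c - x) = c := by
    rw [smul_sub, smul_smul]
    norm_num
  rw [e] at h
  exact interior_mono (fun y hy => (mem_S.1 hy).1) h

theorem case1 (hF : T_FING) (K : Set (E n)) (c : E n) (hn : 1 ≤ n) (hc : IsCompact K)
    (hK : Convex ℝ K) (hv : 0 < volume.real (S K c))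
    (hbig : (1 / 2) ^ n * volume.real K ≤ volume.real (S K c)) :
    ∃ T : Finset (E n), (T.card : ℝ) ≤
      2 ^ n * n * (200 + 4 * Real.log (2 + Real.log (volume.real K / volume.real (S K c)))) ∧
      K ⊆ ⋃ t ∈ T, (fun x => t + x) '' interior K := by
  have hcK := center_mem hK c hv
  have hint : interior ((fun y => y + -c) '' K) = (fun y => y + -c) '' interior K := by
    have := (Homeomorph.addRight (-c)).image_interior K
    simpa using this.symm
  have hGB : GB ((fun y => y + -c) '' K) := by
    refine ⟨hc.image (by fun_prop), ?_, ?_⟩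
    · have := hK.translate (-c)
      have e : (fun y => y + -c) '' K = (fun x => -c + x) '' K := by
        ext x; simp [add_comm]
      rw [e]
      exact this
    · rw [hint]
      exact ⟨c, hcK, by simp⟩
  have hvolK : volume.real ((fun y => y + -c) '' K) = volume.real K := by
    rw [measureReal_def, measureReal_def, image_add_right, measure_preimage_add_right]
  have hsy : sy ((fun y => y + -c) '' K) = (fun y => y + -c) '' (S K c) := by
    ext x
    unfold sy
    simp only [image_add_right, neg_neg, mem_inter_iff, mem_preimage, Set.mem_neg]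
    rw [mem_S]
    have e : -x + c = (2 : ℝ) • c - (x + c) := by rw [two_smul]; abel
    rw [e]
  have hvolS : volume.real (sy ((fun y => y + -c) '' K)) = volume.real (S K c) := by
    rw [hsy, measureReal_def, measureReal_def, image_add_right, measure_preimage_add_right]
  obtain ⟨T, hT1, hT2⟩ := hF n _ hn hGB (by rw [hvolK, hvolS]; exact hbig)
  rw [hvolK, hvolS] at hT1
  refine ⟨T, hT1, fun x hx => ?_⟩
  have hx' : x + -c ∈ (fun y => y + -c) '' K := ⟨x, hx, rfl⟩
  have h := hT2 hx'
  rw [hint] at h
  simp only [mem_iUnion, exists_prop] at h ⊢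
  obtain ⟨t, ht, y, ⟨z, hz, hzy⟩, hy⟩ := h
  refine ⟨t, ht, z, hz, ?_⟩
  simp only at hzy hy ⊢
  rw [← hzy] at hy
  have : t + z + -c = x + -c := by rw [← hy]; abel
  exact add_right_cancel this

end ALL_

open ALL_

theorem p_ALL (hF : T_FING) : T_ALL := by
  intro n K c hn hc hK hne hv
  change 0 < volume.real (S K c) at hv
  by_cases hbig : (1 / 2) ^ n * volume.real K ≤ volume.real (S K c)
  · exact case1 hF K c hn hc hK hv hbig
  · push Not at hbig
    obtain ⟨c', -, hc'⟩ := FracH.centre hK hc hne
    rw [finrank_euclideanSpace_fin] at hc'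
    change volume.real K ≤ 2 ^ n * volume.real (S K c') at hc'
    have hbig' : (1 / 2) ^ n * volume.real K ≤ volume.real (S K c') := by
      have h1 : (1 / 2 : ℝ) ^ n * volume.real K ≤ (1 / 2) ^ n * (2 ^ n * volume.real (S K c')) :=
        mul_le_mul_of_nonneg_left hc' (by positivity)
      have h2 : (1 / 2 : ℝ) ^ n * (2 ^ n * volume.real (S K c')) = volume.real (S K c') := by
        rw [← mul_assoc, ← mul_pow]
        norm_num
      linarith
    have hvv : volume.real (S K c) < volume.real (S K c') := lt_of_lt_of_le hbig hbig'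
    have hv' : 0 < volume.real (S K c') := hv.trans hvv
    obtain ⟨T, hT1, hT2⟩ := case1 hF K c' hn hc hK hv' hbig'
    refine ⟨T, hT1.trans ?_, hT2⟩
    change 2 ^ n * (n : ℝ) * (200 + 4 * Real.log (2 + Real.log (volume.real K /
      volume.real (S K c')))) ≤ 2 ^ n * (n : ℝ) * (200 + 4 * Real.log (2 + Real.log
      (volume.real K / volume.real (S K c))))
    have hle : volume.real (S K c') ≤ volume.real K :=
      measureReal_mono inter_subset_left hc.measure_lt_top.ne
    have hKpos : 0 < volume.real K := lt_of_lt_of_le hv' hle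
    have h1 : 1 ≤ volume.real K / volume.real (S K c') := by
      rw [le_div_iff₀ hv', one_mul]
      exact hle
    have h2 : volume.real K / volume.real (S K c') ≤ volume.real K / volume.real (S K c) :=
      div_le_div_of_nonneg_left hKpos.le hv hvv.le
    have h3 : 0 ≤ Real.log (volume.real K / volume.real (S K c')) := Real.log_nonneg h1
    have h4 : Real.log (volume.real K / volume.real (S K c')) ≤
        Real.log (volume.real K / volume.real (S K c)) :=
      Real.log_le_log (by linarith) h2
    have h5 : Real.log (2 + Real.log (volume.real K / volume.real (S K c'))) ≤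
        Real.log (2 + Real.log (volume.real K / volume.real (S K c))) :=
      Real.log_le_log (by linarith) (by linarith)
    have h6 : (0 : ℝ) ≤ 2 ^ n * n := by positivity
    exact mul_le_mul_of_nonneg_left (by linarith) h6

end Pool.Agent.Rog
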