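import Pool.Agent.Rog.Targets

/-!
# CAPV: volume of caps
-/

set_option autoImplicit false

open MeasureTheory Set
open scoped Pointwise ENNReal

namespace Pool.Agent.Rog

namespace CAPV_

variable {n : ℕ}

lemma lint_two {g : E n → ℝ≥0∞} (hg : Measurable g) :
    ∫⁻ v, g v = ENNReal.ofReal (2 ^ n) * ∫⁻ w, g ((2 : ℝ) • w) := by
  have h := Measure.map_addHaar_smul (volume : Measure (E n)) (r := 2) (by norm_num)
  have hm : Measurable (fun w : E n => (2 : ℝ) • w) := by fun_prop
  have h2 : ∫⁻ w, g ((2 : ℝ) • w) = ∫⁻ v, g v ∂(Measure.map (fun w : E n => (2 : ℝ) • w) volume) := by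
    rw [lintegral_map hg hm]
  rw [h2, h, lintegral_smul_measure, smul_eq_mul, ← mul_assoc,
    ← ENNReal.ofReal_mul (by positivity), finrank_euclideanSpace_fin, abs_of_pos (by positivity),
    mul_inv_cancel₀ (by positivity), ENNReal.ofReal_one, one_mul]

lemma pow_le_exp {L s : ℝ} (hL : 0 ≤ L) (hs : 0 < s) :
    L ^ n ≤ (s * Real.exp (-1)) ^ n * Real.exp (n / s * L) := by
  have h1 : L / s ≤ Real.exp (L / s - 1) := by
    have := Real.add_one_le_exp (L / s - 1)
    linarith
  have h2 : L ≤ s * Real.exp (-1) * Real.exp (L / s) := by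
    rw [mul_assoc, ← Real.exp_add, show (-1 : ℝ) + L / s = L / s - 1 by ring]
    calc L = s * (L / s) := by field_simp
      _ ≤ s * Real.exp (L / s - 1) := by gcongr
  calc L ^ n ≤ (s * Real.exp (-1) * Real.exp (L / s)) ^ n := by gcongr
    _ = (s * Real.exp (-1)) ^ n * Real.exp (n / s * L) := by
        rw [mul_pow, ← Real.exp_nat_mul]
        congr 2
        ring

end CAPV_

open CAPV_ in
theorem p_CAPV (h : T_WC) : T_CAPV := by
  intro n K a g hn hK hW s hs
  obtain ⟨hvK, -, hW0, hmac, -, -, -⟩ := h n K hn hK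
  have hKm : MeasurableSet K := hK.cpt.measurableSet
  have hKfin : volume K ≠ ⊤ := hK.cpt.measure_ne_top
  set L : E n → ℝ := fun w => a - inner ℝ g w with hL
  have hLc : Continuous L := by
    rw [hL]
    fun_prop
  have hWL : ∀ w ∈ K, W K w ≤ L w := hW
  set r : ℝ := n / s with hr
  have hr0 : 0 < r := by
    have : (0 : ℝ) < n := by exact_mod_cast hn
    rw [hr]
    positivity
  set f : E n → ℝ≥0∞ := fun w => ENNReal.ofReal (Real.exp (-(r * L w))) with hf
  set hh : E n → ℝ≥0∞ := fun w => ENNReal.ofReal (Real.exp (-(2 * r * L w))) with hhh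
  have hfm : Measurable f := by
    have : Continuous (fun w => Real.exp (-(r * L w))) := by fun_prop
    exact this.measurable.ennreal_ofReal
  have hhm : Measurable hh := by
    have : Continuous (fun w => Real.exp (-(2 * r * L w))) := by fun_prop
    exact this.measurable.ennreal_ofReal
  have hmid : ∀ u v, f u * f v = hh ((1 / 2 : ℝ) • (u + v)) := by
    intro u v
    simp only [hf, hhh, hL]
    rw [← ENNReal.ofReal_mul (Real.exp_nonneg _), ← Real.exp_add, inner_smul_right, inner_add_right]
    congr 2
    ring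
  set ind : E n → ℝ≥0∞ := K.indicator 1 with hind
  have hindm : Measurable ind := measurable_const.indicator hKm
  set Z : ℝ≥0∞ := ∫⁻ w in K, f w with hZ
  have hset : ∀ F : E n → ℝ≥0∞, ∫⁻ v in K, F v = ∫⁻ v, ind v * F v := by
    intro F
    rw [← lintegral_indicator hKm]
    refine lintegral_congr fun v => ?_
    by_cases hv : v ∈ K
    · simp [hind, hv]
    · simp [hind, hv]
  have h2 : ∀ u, ∫⁻ v in K, f u * f v =
      ENNReal.ofReal (2 ^ n) * ∫⁻ w, ind ((2 : ℝ) • w - u) * hh w := by
    intro u
    rw [hset]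
    have e1 : ∫⁻ v, ind v * (f u * f v) = ∫⁻ v, ind (v - u) * hh ((1 / 2 : ℝ) • v) := by
      rw [← lintegral_sub_right_eq_self (fun v => ind v * (f u * f v)) u]
      refine lintegral_congr fun v => ?_
      rw [hmid, add_sub_cancel]
    have hm0 : Measurable (fun v : E n => ind (v - u) * hh ((1 / 2 : ℝ) • v)) :=
      (hindm.comp (by fun_prop)).mul (hhm.comp (by fun_prop))
    rw [e1, lint_two hm0]
    congr 1
    refine lintegral_congr fun w => ?_
    rw [smul_smul]
    norm_num
  have h3 : Z * Z = ENNReal.ofReal (2 ^ n) *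
      ∫⁻ w, hh w * volume {u | u ∈ K ∧ (2 : ℝ) • w - u ∈ K} := by
    have e1 : Z * Z = ∫⁻ u in K, ∫⁻ v in K, f u * f v := by
      have : ∀ u, ∫⁻ v in K, f u * f v = f u * Z := fun u => lintegral_const_mul _ hfm
      simp only [this]
      rw [lintegral_mul_const _ hfm]
    rw [e1]
    simp only [h2]
    have hm1 : Measurable (Function.uncurry fun (u w : E n) =>
        ind u * (ind ((2 : ℝ) • w - u) * hh w)) := by
      refine (hindm.comp measurable_fst).mul ((hindm.comp ?_).mul (hhm.comp measurable_snd))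
      fun_prop
    rw [hset]
    have e2 : ∀ u, ind u * (ENNReal.ofReal (2 ^ n) * ∫⁻ w, ind ((2 : ℝ) • w - u) * hh w) =
        ENNReal.ofReal (2 ^ n) * ∫⁻ w, ind u * (ind ((2 : ℝ) • w - u) * hh w) := by
      intro u
      rw [lintegral_const_mul]
      · ring
      · exact (hindm.comp (by fun_prop)).mul hhm
    simp only [e2]
    rw [lintegral_const_mul' _ _ ENNReal.ofReal_ne_top, lintegral_lintegral_swap hm1.aemeasurable]
    congr 1
    refine lintegral_congr fun w => ?_
    have hS : MeasurableSet {u | u ∈ K ∧ (2 : ℝ) • w - u ∈ K} :=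
      hKm.inter ((measurable_const.sub measurable_id) hKm)
    have hSi : Measurable ({u | u ∈ K ∧ (2 : ℝ) • w - u ∈ K}.indicator (1 : E n → ℝ≥0∞)) :=
      measurable_const.indicator hS
    rw [← lintegral_indicator_one hS, ← lintegral_const_mul _ hSi]
    refine lintegral_congr fun u => ?_
    by_cases h1 : u ∈ K
    · by_cases h2 : (2 : ℝ) • w - u ∈ K
      · simp [hind, h1, h2]
      · simp [hind, h1, h2]
    · simp [hind, h1]
  have hLnn : ∀ w ∈ K, 0 ≤ L w := fun w hw => (hW0 w).trans (hWL w hw)
  have h4 : ∀ w, hh w * volume {u | u ∈ K ∧ (2 : ℝ) • w - u ∈ K} ≤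
      ENNReal.ofReal ((s * Real.exp (-1)) ^ n * volume.real K) * (ind w * f w) := by
    intro w
    by_cases hw : w ∈ K
    · have e1 : volume {u | u ∈ K ∧ (2 : ℝ) • w - u ∈ K} =
          ENNReal.ofReal (volume.real K * W K w ^ n) := by
        rw [← hmac w]
        unfold mac
        exact (ofReal_measureReal
          (ne_top_of_le_ne_top hKfin (measure_mono fun u hu => hu.1))).symm
      rw [e1]
      simp only [hind, hhh, hf, indicator_of_mem hw, Pi.one_apply, one_mul]
      rw [← ENNReal.ofReal_mul (Real.exp_nonneg _), ← ENNReal.ofReal_mul (by positivity)]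
      apply ENNReal.ofReal_le_ofReal
      have e2 : W K w ^ n ≤ (s * Real.exp (-1)) ^ n * Real.exp (r * L w) :=
        (pow_le_pow_left₀ (hW0 w) (hWL w hw) n).trans (pow_le_exp (hLnn w hw) hs)
      have e3 : Real.exp (-(2 * r * L w)) * Real.exp (r * L w) = Real.exp (-(r * L w)) := by
        rw [← Real.exp_add]
        congr 1
        ring
      calc Real.exp (-(2 * r * L w)) * (volume.real K * W K w ^ n)
          ≤ Real.exp (-(2 * r * L w)) * (volume.real K *
            ((s * Real.exp (-1)) ^ n * Real.exp (r * L w))) := by gcongr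
        _ = (s * Real.exp (-1)) ^ n * volume.real K *
            (Real.exp (-(2 * r * L w)) * Real.exp (r * L w)) := by ring
        _ = (s * Real.exp (-1)) ^ n * volume.real K * Real.exp (-(r * L w)) := by rw [e3]
    · have e1 : {u | u ∈ K ∧ (2 : ℝ) • w - u ∈ K} = ∅ := by
        ext u
        simp only [mem_ofPred_eq, mem_empty_iff_false, iff_false, not_and]
        intro h1 h2
        apply hw
        have h3 := hK.cvx h1 h2 (a := 1 / 2) (b := 1 / 2) (by norm_num) (by norm_num) (by norm_num)
        have h4 : (1 / 2 : ℝ) • u + (1 / 2 : ℝ) • ((2 : ℝ) • w - u) = w := by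
          rw [smul_sub, smul_smul]
          norm_num
        rwa [h4] at h3
      rw [e1, measure_empty, mul_zero]
      exact bot_le
  have h5 : Z * Z ≤ ENNReal.ofReal (2 ^ n * ((s * Real.exp (-1)) ^ n * volume.real K)) * Z := by
    rw [h3, ENNReal.ofReal_mul (by positivity), mul_assoc]
    gcongr
    refine (lintegral_mono h4).trans ?_
    rw [lintegral_const_mul' _ _ ENNReal.ofReal_ne_top, ← hset]
  have hZtop : Z ≠ ⊤ := by
    refine ne_top_of_le_ne_top hKfin ?_
    calc Z ≤ ∫⁻ w in K, 1 := by
          refine setLIntegral_mono measurable_const fun w hw => ?_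
          simp only [hf]
          rw [ENNReal.ofReal_le_one, Real.exp_le_one_iff]
          have := mul_nonneg hr0.le (hLnn w hw)
          linarith
      _ = volume K := by simp
  have h6 : Z ≤ ENNReal.ofReal (2 ^ n * ((s * Real.exp (-1)) ^ n * volume.real K)) := by
    by_cases hZ0 : Z = 0
    · rw [hZ0]
      exact bot_le
    · exact (ENNReal.mul_le_mul_iff_left hZ0 hZtop).1 h5
  set S : Set (E n) := {w | w ∈ K ∧ a - inner ℝ g w ≤ s} with hS
  have hSm : MeasurableSet S := hKm.inter (measurableSet_le hLc.measurable measurable_const)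
  have hSfin : volume S ≠ ⊤ := ne_top_of_le_ne_top hKfin (measure_mono fun u hu => hu.1)
  have h7 : ENNReal.ofReal (Real.exp (-n)) * volume S ≤ Z := by
    calc ENNReal.ofReal (Real.exp (-n)) * volume S =
          ∫⁻ w in S, ENNReal.ofReal (Real.exp (-n)) := by simp
      _ ≤ ∫⁻ w in S, f w := by
          refine setLIntegral_mono hfm fun w hw => ?_
          apply ENNReal.ofReal_le_ofReal
          apply Real.exp_le_exp.2
          have e1 : r * L w ≤ r * s := mul_le_mul_of_nonneg_left hw.2 hr0.le
          have e2 : r * s = n := by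
            rw [hr]
            field_simp
          linarith
      _ ≤ Z := lintegral_mono_set fun w hw => hw.1
  have h8 := h7.trans h6
  rw [← ofReal_measureReal hSfin, ← ENNReal.ofReal_mul (Real.exp_nonneg _),
    ENNReal.ofReal_le_ofReal_iff (by positivity)] at h8
  have h9 : Real.exp (-n) = Real.exp (-1) ^ n := by
    rw [← Real.exp_nat_mul]
    congr 1
    ring
  rw [h9, mul_pow] at h8
  have h10 : Real.exp (-1) ^ n * volume.real S ≤
      Real.exp (-1) ^ n * ((2 * s) ^ n * volume.real K) := by
    refine h8.trans (le_of_eq ?_)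
    rw [mul_pow]
    ring
  exact le_of_mul_le_mul_left h10 (by positivity)

end Pool.Agent.Rog
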