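import Pool.Agent.Rog.Targets

set_option autoImplicit false

open MeasureTheory Set
open scoped Pointwise

namespace Pool.Agent.Rog

theorem p_DER : T_DER := by
  classical
  intro n m
  induction m with
  | zero =>
    intro K X A p hK hv hX hs
    refine ⟨fun i => i.elim0, fun i => i.elim0, ?_⟩
    intro x hx
    exfalso
    simp only [pow_zero, Finset.sum_const, nsmul_eq_mul, mul_one] at hs
    have h1 : X.card < 1 := by exact_mod_cast hs
    have h2 := Finset.card_pos.mpr ⟨x, hx⟩
    omega
  | succ m ih =>
    intro K X A p hK hv hX hs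
    set g : E n → ℝ := fun z => ∑ x ∈ X, (A x)ᶜ.indicator (fun _ => (1 - p x) ^ m) z with hg
    have hKfin : volume K ≠ ⊤ := hK.measure_lt_top.ne
    haveI : IsFiniteMeasure (volume.restrict K) :=
      ⟨by rw [Measure.restrict_apply_univ]; exact hK.measure_lt_top⟩
    have hint : ∀ x ∈ X, Integrable ((A x)ᶜ.indicator (fun _ => (1 - p x) ^ m))
        (volume.restrict K) := by
      intro x hx
      exact (integrable_const _).indicator (hX x hx).1.compl
    have hgi : IntegrableOn g K volume := integrable_finset_sum _ hint
    have hK0 : volume K ≠ 0 := by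
      intro h0
      rw [measureReal_def, h0] at hv
      simp at hv
    obtain ⟨z0, hz0, hz0le⟩ := exists_le_setAverage hK0 hKfin hgi
    have hI : ∫ z in K, g z ≤ (∑ x ∈ X, (1 - p x) ^ (m + 1)) * volume.real K := by
      rw [hg, integral_finset_sum _ hint, Finset.sum_mul]
      apply Finset.sum_le_sum
      intro x hx
      obtain ⟨hm, h0, h1, h2⟩ := hX x hx
      rw [integral_indicator_const _ hm.compl, smul_eq_mul,
        measureReal_restrict_apply hm.compl]
      have h3 : volume.real ((A x)ᶜ ∩ K) = volume.real K - volume.real (K ∩ A x) := by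
        have h4 := measureReal_inter_add_diff (μ := volume) (s := K) hm hKfin
        have h5 : (A x)ᶜ ∩ K = K \ A x := by
          ext y
          simp only [mem_inter_iff, mem_compl_iff, mem_diff]
          tauto
        rw [h5]
        linarith
      rw [h3, pow_succ]
      have h6 : 0 ≤ (1 - p x) ^ m := pow_nonneg (by linarith) _
      have h7 : volume.real K - volume.real (K ∩ A x) ≤ (1 - p x) * volume.real K := by
        linarith
      calc (volume.real K - volume.real (K ∩ A x)) * (1 - p x) ^ m
          ≤ ((1 - p x) * volume.real K) * (1 - p x) ^ m :=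
            mul_le_mul_of_nonneg_right h7 h6
        _ = (1 - p x) ^ m * (1 - p x) * volume.real K := by ring
    have hg0 : g z0 < 1 := by
      refine lt_of_le_of_lt hz0le ?_
      rw [setAverage_eq, smul_eq_mul]
      refine lt_of_le_of_lt ?_ hs
      rw [inv_mul_le_iff₀ hv, mul_comm]
      exact hI
    have hg0' : g z0 = ∑ x ∈ X.filter (fun x => z0 ∉ A x), (1 - p x) ^ m := by
      rw [hg, Finset.sum_filter]
      apply Finset.sum_congr rfl
      intro x _
      by_cases hx : z0 ∈ A x
      · simp [hx]
      · simp [hx]
    obtain ⟨z, hz, hcov⟩ := ih K (X.filter (fun x => z0 ∉ A x)) A p hK hv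
      (fun x hx => hX x (Finset.mem_filter.mp hx).1) (by rw [← hg0']; exact hg0)
    refine ⟨Fin.cons z0 z, ?_, ?_⟩
    · intro i
      refine Fin.cases ?_ (fun j => ?_) i
      · simpa using hz0
      · simpa using hz j
    · intro x hx
      by_cases hxz : z0 ∈ A x
      · exact ⟨0, by simpa using hxz⟩
      · obtain ⟨i, hi⟩ := hcov x (Finset.mem_filter.mpr ⟨hx, hxz⟩)
        exact ⟨i.succ, by simpa using hi⟩

end Pool.Agent.Rog
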