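import Pool.Agent.Rog.Targets

set_option autoImplicit false

open MeasureTheory Set

namespace Pool.Agent.Rog

namespace DINT_

theorem gauss_int (n : ℕ) (d : ℝ) (hd : 0 < d) :
    Integrable (fun x : E n => Real.exp (-(d * ‖x‖ ^ 2))) := by
  have h := GaussianFourier.integrable_cexp_neg_mul_sq_norm_add (V := E n) (b := (d : ℂ))
    (by simpa using hd) 0 0
  have h2 := h.norm
  refine h2.congr (Filter.Eventually.of_forall fun x => ?_)
  simp only [Complex.norm_exp]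
  congr 1
  simp [← Complex.ofReal_pow]

theorem gauss_int2 (n : ℕ) (d : ℝ) (hd : 0 < d) :
    Integrable (fun p : E n × E n => Real.exp (-(d * (‖p.1‖ ^ 2 + ‖p.2‖ ^ 2)))) := by
  have h := (gauss_int n d hd).mul_prod (gauss_int n d hd)
  refine h.congr (Filter.Eventually.of_forall fun p => ?_)
  simp only
  rw [← Real.exp_add]
  congr 1
  ring

end DINT_

open DINT_

theorem p_DINT (hC : T_COVR) : T_DINT := by
  intro n Q G hn hG c hc
  obtain ⟨C, hC0, hup⟩ := hG.upper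
  set d : ℝ := c / (2 * (1 + C ^ 2)) with hd
  have hCC : 0 < 2 * (1 + C ^ 2) := by positivity
  have hd0 : 0 < d := div_pos hc hCC
  obtain ⟨h1, -⟩ := hC n Q G hn hG _ (gauss_int2 n d hd0)
  have hSc : Continuous (Sm G) := by
    unfold Sm
    have := hG.contG
    fun_prop
  have hmeas : AEStronglyMeasurable (DD G) (volume : Measure (E n × E n)) := by
    have hm1 := h1.aestronglyMeasurable
    have hm2 : Continuous (fun p : E n × E n =>
        (Real.exp (-(d * (‖(Sm G p).1‖ ^ 2 + ‖(Sm G p).2‖ ^ 2))))⁻¹) := by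
      refine Continuous.inv₀ ?_ (fun p => (Real.exp_pos _).ne')
      have e1 : Continuous fun p : E n × E n => (Sm G p).1 := continuous_fst.comp hSc
      have e2 : Continuous fun p : E n × E n => (Sm G p).2 := continuous_snd.comp hSc
      exact Real.continuous_exp.comp ((continuous_const.mul ((e1.norm.pow 2).add
        (e2.norm.pow 2))).neg)
    refine (hm1.mul hm2.aestronglyMeasurable).congr (Filter.Eventually.of_forall fun p => ?_)
    simp only [Pi.mul_apply]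
    rw [mul_assoc, mul_inv_cancel₀ (Real.exp_pos _).ne', mul_one]
  have hDD : ∀ p, 0 ≤ DD G p := fun p => abs_nonneg _
  refine h1.mono' (hmeas.mul (Continuous.aestronglyMeasurable (by fun_prop))) ?_
  refine Filter.Eventually.of_forall fun p => ?_
  rw [Real.norm_of_nonneg (mul_nonneg (hDD p) (Real.exp_pos _).le)]
  refine mul_le_mul_of_nonneg_left (Real.exp_le_exp.mpr ?_) (hDD p)
  have ha : ‖(Sm G p).1‖ ≤ ‖p.1‖ + ‖p.2‖ := norm_add_le _ _
  have hb : ‖(Sm G p).2‖ ≤ C * ‖p.1‖ + C * ‖p.2‖ :=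
    (norm_sub_le _ _).trans (add_le_add (hup _).2 (hup _).2)
  have ha2 : ‖(Sm G p).1‖ ^ 2 ≤ 2 * (‖p.1‖ ^ 2 + ‖p.2‖ ^ 2) := by
    nlinarith [norm_nonneg (Sm G p).1, norm_nonneg p.1, norm_nonneg p.2,
      sq_nonneg (‖p.1‖ - ‖p.2‖)]
  have hb2 : ‖(Sm G p).2‖ ^ 2 ≤ 2 * C ^ 2 * (‖p.1‖ ^ 2 + ‖p.2‖ ^ 2) := by
    have h3 : ‖(Sm G p).2‖ ^ 2 ≤ (C * ‖p.1‖ + C * ‖p.2‖) ^ 2 :=
      pow_le_pow_left₀ (norm_nonneg _) hb 2
    nlinarith [sq_nonneg (C * ‖p.1‖ - C * ‖p.2‖)]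
  have hs : d * (‖(Sm G p).1‖ ^ 2 + ‖(Sm G p).2‖ ^ 2) ≤
      d * (2 * (1 + C ^ 2) * (‖p.1‖ ^ 2 + ‖p.2‖ ^ 2)) :=
    mul_le_mul_of_nonneg_left (by linarith) hd0.le
  have he : d * (2 * (1 + C ^ 2) * (‖p.1‖ ^ 2 + ‖p.2‖ ^ 2)) = c * (‖p.1‖ ^ 2 + ‖p.2‖ ^ 2) := by
    rw [hd]; field_simp
  linarith

end Pool.Agent.Rog
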