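import Pool.Agent.Rog.Targets

set_option autoImplicit false

open MeasureTheory Set
open scoped Pointwise

namespace Pool.Agent.Rog

namespace FIN_

lemma smul_int {n : ℕ} {K : Set (E n)} (hcv : Convex ℝ K) (h0 : (0 : E n) ∈ interior K) (c : ℝ)
    (hc0 : 0 ≤ c) (hc1 : c < 1) {k : E n} (hk : k ∈ K) : c • k ∈ interior K := by
  have := hcv.combo_interior_self_mem_interior h0 hk (a := 1 - c) (b := c) (by linarith) hc0
    (by ring)
  simpa using this

lemma quarter (n : ℕ) (hn : 2 ≤ n) : (1 : ℝ) / 4 ≤ (1 - 1 / (n : ℝ)) ^ n := by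
  have hn' : (2 : ℝ) ≤ n := by exact_mod_cast hn
  have hn0 : (0 : ℝ) < n := by linarith
  have h1 : (1 : ℝ) / n ≤ 1 / 2 := one_div_le_one_div_of_le (by norm_num) hn'
  have h2 := one_add_mul_self_le_rpow_one_add (s := -(1 / (n : ℝ))) (by linarith)
    (p := (n : ℝ) / 2) (by linarith)
  have h3 : 1 + (n : ℝ) / 2 * -(1 / (n : ℝ)) = 1 / 2 := by field_simp; norm_num
  rw [h3] at h2
  have h4 : (0 : ℝ) ≤ 1 + -(1 / (n : ℝ)) := by linarith
  have h5 : ((1 + -(1 / (n : ℝ))) ^ ((n : ℝ) / 2)) ^ 2 = (1 - 1 / (n : ℝ)) ^ n := by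
    rw [← Real.rpow_natCast, ← Real.rpow_mul h4, ← sub_eq_add_neg]
    have : (n : ℝ) / 2 * ((2 : ℕ) : ℝ) = (n : ℝ) := by push_cast; ring
    rw [this, Real.rpow_natCast]
  rw [← h5]
  nlinarith

end FIN_

open FIN_

theorem p_FIN (hWC : T_WC) (hPOLB : T_POLB) (hPACK : T_PACK) (hMAXN : T_MAXN) (hNETC : T_NETC)
    (hCONDP : T_CONDP) (hDER : T_DER) (hSUM : T_SUM) : T_FIN := by
  classical
  intro n K hn hK
  have h0 : (0 : E n) ∈ interior K := (hPOLB.2 n K hK).1
  rcases Nat.eq_or_lt_of_le hn with h1 | h2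
  · -- dimension one
    obtain ⟨X, hXK, hXs, hXn⟩ := hMAXN n K K (1 / 2) hK subset_rfl (by norm_num)
    have hcard := hPACK n K X 0 1 (1 / 2) hK (by norm_num) (by norm_num)
      (fun x hx => by simpa using hXK x hx) hXs
    refine ⟨X, ?_, ?_⟩
    · have h2 : ((2 * (1 : ℝ) + 1 / 2) / (1 / 2)) ^ n = 5 := by rw [← h1]; norm_num
      have h3 : 176 * n * 2 ^ n = 352 := by rw [← h1]; norm_num
      rw [h2] at hcard
      have h4 : X.card ≤ 5 := by exact_mod_cast hcard
      omega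
    · intro z hz
      obtain ⟨x, hx, k, hk, hkz⟩ := hXn z hz
      simp only [Set.mem_iUnion]
      refine ⟨x, hx, z - x, ?_, by simp⟩
      rw [← hkz]
      exact smul_int hK.cvx h0 _ (by norm_num) (by norm_num) hk
  · have hn2 : 2 ≤ n := h2
    have hn' : (2 : ℝ) ≤ n := by exact_mod_cast hn2
    have hn0 : (0 : ℝ) < n := by linarith
    obtain ⟨hvol, -, hW0, hmac, -, hWhalf, hW1⟩ := hWC n K hn hK
    obtain ⟨X, hXK, hXs, hXn⟩ := hMAXN n K K (1 / (2 * n)) hK subset_rfl (by positivity)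
    have hsum := hSUM n X (fun x => W K ((1 / 2 : ℝ) • x)) hn
      (fun x hx => ⟨hWhalf x (hXK x hx), hW1 _⟩) (by
        intro t Y hY ht hu
        exact hNETC n K Y t hn hK (fun x hx => ⟨hXK x (hY hx), hu x hx⟩)
          (fun x hx y hy hxy => hXs x (hY hx) y (hY hy) hxy) ht)
    have hq := quarter n hn2
    have h1n : (1 : ℝ) / n ≤ 1 / 2 := one_div_le_one_div_of_le (by norm_num) hn'
    have h1n0 : (0 : ℝ) < 1 / n := by positivity
    obtain ⟨z, hzK, hz⟩ := hDER n (176 * n * 2 ^ n) K X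
      (fun x => {z | x - z ∈ (1 - 1 / (n : ℝ)) • K})
      (fun x => W K ((1 / 2 : ℝ) • x) ^ n / 4) hK.cpt hvol (by
        intro x hx
        have hu0 : 0 ≤ W K ((1 / 2 : ℝ) • x) := hW0 _
        have hu1 : W K ((1 / 2 : ℝ) • x) ≤ 1 := hW1 _
        have hp0 : 0 ≤ W K ((1 / 2 : ℝ) • x) ^ n := pow_nonneg hu0 n
        have hp1 : W K ((1 / 2 : ℝ) • x) ^ n ≤ 1 := pow_le_one₀ hu0 hu1
        refine ⟨?_, by positivity, by linarith, ?_⟩
        · have hcl : IsClosed ((1 - 1 / (n : ℝ)) • K) := (hK.cpt.smul _).isClosed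
          exact (hcl.preimage (continuous_const.sub continuous_id)).measurableSet
        · refine le_trans ?_ (hCONDP n K x (1 - 1 / (n : ℝ)) hK (hXK x hx) (by linarith)
            (by linarith))
          rw [hmac]
          have h6 : 0 ≤ volume.real K * W K ((1 / 2 : ℝ) • x) ^ n := by positivity
          nlinarith [mul_le_mul_of_nonneg_right hq h6]) hsum
    refine ⟨Finset.univ.image z, ?_, ?_⟩
    · refine Finset.card_image_le.trans ?_
      simp
    · intro y hy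
      obtain ⟨x, hx, k, hk, hkz⟩ := hXn y hy
      obtain ⟨i, k', hk', hkz'⟩ := hz x hx
      simp only [Set.mem_iUnion]
      refine ⟨z i, Finset.mem_image_of_mem _ (Finset.mem_univ _), y - z i, ?_, by simp⟩
      have h7 : y - z i ∈ ((1 / (2 * (n : ℝ))) + (1 - 1 / (n : ℝ))) • K := by
        rw [hK.cvx.add_smul (by positivity) (by linarith)]
        have : y - z i = (y - x) + (x - z i) := by abel
        rw [this]
        exact Set.add_mem_add ⟨k, hk, hkz⟩ ⟨k', hk', hkz'⟩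
      obtain ⟨k2, hk2, hk2z⟩ := h7
      rw [← hk2z]
      have h8 : (1 : ℝ) / (2 * (n : ℝ)) = (1 / (n : ℝ)) / 2 := by field_simp
      refine smul_int hK.cvx h0 _ ?_ ?_ hk2
      · rw [h8]; linarith
      · rw [h8]; linarith

end Pool.Agent.Rog
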