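import Pool.Agent.Rog.Targets

/-!
# Number of sharp points of a net (MP_eba1ef_gt)
-/

set_option autoImplicit false

open MeasureTheory Set Filter Topology
open scoped Pointwise Real

namespace Pool.Agent.Rog

namespace NETC_

theorem c3_ge : (2 : ℝ) ≤ c3 := by
  unfold c3 cc; norm_num

end NETC_

open NETC_ in
theorem p_NETC (hC : T_CNT) (hP : T_PACK) (hM : T_MAXN) : T_NETC := by
  classical
  intro n K Y t hn hK hY hsep ht
  have hn' : (1 : ℝ) ≤ n := by exact_mod_cast hn
  have hn0 : (0 : ℝ) < n := by linarith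
  have hc3 := c3_ge
  have ht0 : 0 < t := lt_of_lt_of_le (by positivity) ht
  have hr0 : (0 : ℝ) < 1 / (2 * n) := by positivity
  have hnt : 1 ≤ n * t := by
    have := mul_le_mul_of_nonneg_left ht hn0.le
    rwa [mul_one_div_cancel hn0.ne'] at this
  rcases lt_or_ge (1 / 2) t with h | h
  · have h1 := hP n K Y 0 1 (1 / (2 * n)) hK hr0 (by norm_num)
      (by intro x hx; rw [sub_zero, one_smul]; exact (hY x hx).1) hsep
    refine h1.trans ?_
    have e1 : ((2 : ℝ) * 1 + 1 / (2 * n)) / (1 / (2 * n)) = 4 * n + 1 := by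
      field_simp; ring
    rw [e1]
    have h2 : (4 * (n : ℝ) + 1) ≤ 5 * c3 * n * t := by
      have : 1 ≤ c3 * t := by nlinarith
      nlinarith
    have h3 : (4 * (n : ℝ) + 1) ^ n ≤ (5 * c3 * n * t) ^ n :=
      pow_le_pow_left₀ (by positivity) h2 n
    have h4 : 0 ≤ (5 * c3 * n * t) ^ n := le_trans (by positivity) h3
    linarith
  · obtain ⟨X, hXY, hXsep, hXcov⟩ := hM n K (Y : Set (E n)) t hK
      (fun x hx => (hY x (Finset.mem_coe.mp hx)).1) ht0
    have hX : (X.card : ℝ) ≤ 4 * c3 ^ n :=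
      hC n K t X hn hK ht h (fun x hx => hY x (Finset.mem_coe.mp (hXY x hx))) hXsep
    have hsub : Y ⊆ X.biUnion (fun x => Y.filter (fun z => z - x ∈ t • K)) := by
      intro z hz
      obtain ⟨x, hx, hzx⟩ := hXcov z (Finset.mem_coe.mpr hz)
      exact Finset.mem_biUnion.mpr ⟨x, hx, Finset.mem_filter.mpr ⟨hz, hzx⟩⟩
    have hcard : (Y.card : ℝ) ≤ ∑ x ∈ X, ((Y.filter (fun z => z - x ∈ t • K)).card : ℝ) := by
      have := (Finset.card_le_card hsub).trans Finset.card_biUnion_le
      exact_mod_cast this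
    have heach : ∀ x ∈ X, ((Y.filter (fun z => z - x ∈ t • K)).card : ℝ) ≤ (5 * (n * t)) ^ n := by
      intro x _
      have h1 := hP n K (Y.filter (fun z => z - x ∈ t • K)) x t (1 / (2 * n)) hK hr0 ht0.le
        (by intro z hz; exact (Finset.mem_filter.mp hz).2)
        (by
          intro z hz w hw hne
          exact hsep z (Finset.mem_filter.mp hz).1 w (Finset.mem_filter.mp hw).1 hne)
      refine h1.trans ?_
      have e1 : (2 * t + 1 / (2 * (n : ℝ))) / (1 / (2 * n)) = 4 * (n * t) + 1 := by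
        field_simp; ring
      rw [e1]
      exact pow_le_pow_left₀ (by positivity) (by linarith) n
    calc (Y.card : ℝ) ≤ ∑ x ∈ X, ((Y.filter (fun z => z - x ∈ t • K)).card : ℝ) := hcard
      _ ≤ ∑ _x ∈ X, (5 * (n * t)) ^ n := Finset.sum_le_sum heach
      _ = X.card * (5 * (n * t)) ^ n := by rw [Finset.sum_const, nsmul_eq_mul]
      _ ≤ (4 * c3 ^ n) * (5 * (n * t)) ^ n := by
          apply mul_le_mul_of_nonneg_right hX; positivity
      _ = 4 * (5 * c3 * n * t) ^ n := by
          rw [mul_assoc, ← mul_pow]; congr 2; ring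

end Pool.Agent.Rog
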