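import Pool.Agent.Rog.Targets

/-!
# Covering general bodies by translates of the interior: the targets

The symmetric case is in `Pool/Agent/Rog/Targets.lean`; here the body is arbitrary and the bound
depends on the volume of its symmetric part. Complete proofs: `Pool/Agent/Rog/BlueprintG.lean.txt`.
-/

set_option autoImplicit false

open MeasureTheory Set Filter Topology
open scoped Pointwise Real

namespace Pool.Agent.Rog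

/-- Convex bodies with the origin in the interior. -/
structure GB {n : ℕ} (K : Set (E n)) : Prop where
  cpt : IsCompact K
  cvx : Convex ℝ K
  zero : (0 : E n) ∈ interior K

/-- The symmetric part. -/
def sy {n : ℕ} (K : Set (E n)) : Set (E n) := K ∩ (-K)

/-- Basic properties of the symmetric part. -/
def T_SYB : Prop := ∀ (n : ℕ) (K : Set (E n)), GB K → SymBody (sy K) ∧ 0 < volume.real (sy K) ∧
  volume.real (sy K) ≤ volume.real K ∧ pol K ⊆ pol (sy K) ∧ IsCompact (pol K) ∧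
  Convex ℝ (pol K) ∧ (0 : E n) ∈ interior (pol K)

/-- Basic properties of `W`. -/
def T_WCG : Prop := ∀ (n : ℕ) (K : Set (E n)), 1 ≤ n → GB K →
  0 < volume.real K ∧ 0 < W K 0 ∧ mac K 0 = volume.real (sy K) ∧ (∀ x, 0 ≤ W K x) ∧
  (∀ x, mac K x = volume.real K * W K x ^ n) ∧
  (∀ x ∈ K, ∀ y ∈ K, ∀ a b : ℝ, 0 ≤ a → 0 ≤ b → a + b = 1 →
    a * W K x + b * W K y ≤ W K (a • x + b • y)) ∧
  (∀ x ∈ K, W K 0 / 2 ≤ W K ((1 / 2 : ℝ) • x)) ∧ (∀ x, W K x ≤ 1)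

/-- The supporting affine function at half a sharp point. -/
def T_SUPPG : Prop := ∀ (n : ℕ) (K : Set (E n)) (x : E n) (t : ℝ), 1 ≤ n → GB K → x ∈ K →
  0 ≤ t → W K ((1 / 2 : ℝ) • x) ≤ (1 + t) / 2 * W K 0 →
  ∃ (a : ℝ) (g : E n), (∀ w ∈ K, W K w ≤ a - inner ℝ g w) ∧ a - inner ℝ g x ≤ t * W K 0 ∧
    W K 0 ≤ a ∧ a ≤ (1 + t) * W K 0

/-- The volume of caps. -/
def T_CAPVG : Prop := ∀ (n : ℕ) (K : Set (E n)) (a : ℝ) (g : E n), 1 ≤ n → GB K →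
  (∀ w ∈ K, W K w ≤ a - inner ℝ g w) → ∀ s : ℝ, 0 < s →
  volume.real {w | w ∈ K ∧ a - inner ℝ g w ≤ s} ≤ (2 * s) ^ n * volume.real K

/-- Volume of the polar of a translate. -/
def T_SHELLG : Prop := ∀ (n : ℕ) (K : Set (E n)) (x : E n) (t s : ℝ), GB K → x ∈ K →
  0 < t → t ≤ 1 / 2 → 0 < s →
  volume.real (pol ((fun y => y - (1 - t) • x) '' K)) ≤
    (2 / s) ^ n * volume.real (pol K) + (1 / t) ^ n * volume.real (shull K x s)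

/-- Peeling the star hull. -/
def T_PEELG : Prop := ∀ (n : ℕ) (K : Set (E n)) (x : E n) (s : ℝ), 1 ≤ n → GB K → x ∈ K →
  0 ≤ s → volume.real (shull K x s) ≤ 2 * volume.real (dcap K x (s + 1 / n))

/-- Dual caps at sharp points are big. -/
def T_DCAPG : Prop := ∀ (n : ℕ) (K : Set (E n)) (x : E n) (t : ℝ), 1 ≤ n → GB K → x ∈ K →
  1 / (n : ℝ) ≤ t → t ≤ 1 / 2 → W K ((1 / 2 : ℝ) • x) ≤ (1 + t) / 2 * W K 0 →
  1 / 4 * cc ^ n * volume.real (pol K) ≤ volume.real (dcap K x ((4 / cc + 1) * t))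

/-- Number of separated sharp points. -/
def T_CNTG : Prop := ∀ (n : ℕ) (K : Set (E n)) (t : ℝ) (X : Finset (E n)), 1 ≤ n → GB K →
  1 / (n : ℝ) ≤ t → t ≤ 1 / 2 → (∀ x ∈ X, x ∈ K ∧ W K ((1 / 2 : ℝ) • x) ≤ (1 + t) / 2 * W K 0) →
  (∀ x ∈ X, ∀ y ∈ X, x ≠ y → x - y ∉ t • sy K) → (X.card : ℝ) ≤ 4 * c3 ^ n

/-- Packing in the body. -/
def T_PACKK : Prop := ∀ (n : ℕ) (K : Set (E n)) (X : Finset (E n)) (r : ℝ), GB K →
  0 < r → (∀ x ∈ X, x ∈ K) → (∀ x ∈ X, ∀ z ∈ X, x ≠ z → x - z ∉ r • sy K) →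
  (X.card : ℝ) * volume.real (sy K) ≤ ((2 + r) / r) ^ n * volume.real K

/-- Maximal separated sets. -/
def T_MAXB : Prop := ∀ (n : ℕ) (M S : Set (E n)) (r : ℝ), SymBody M → Bornology.IsBounded S →
  0 < r → ∃ X : Finset (E n), (∀ x ∈ X, x ∈ S) ∧ (∀ x ∈ X, ∀ y ∈ X, x ≠ y → x - y ∉ r • M) ∧
    ∀ z ∈ S, ∃ x ∈ X, z - x ∈ r • M

/-- Number of sharp points of a net. -/
def T_NETG : Prop := ∀ (n : ℕ) (K : Set (E n)) (Y : Finset (E n)) (t : ℝ), 1 ≤ n → GB K →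
  (∀ x ∈ Y, x ∈ K ∧ W K ((1 / 2 : ℝ) • x) ≤ (1 + t) / 2 * W K 0) →
  (∀ x ∈ Y, ∀ y ∈ Y, x ≠ y → x - y ∉ (1 / (2 * n) : ℝ) • sy K) → 1 / (n : ℝ) ≤ t → t ≤ 1 / 2 →
  (Y.card : ℝ) ≤ 4 * (5 * c3 * n * t) ^ n

/-- The covering probability. -/
def T_CONDPG : Prop := ∀ (n : ℕ) (K : Set (E n)) (x : E n) (q : ℝ), IsCompact K → Convex ℝ K →
  x ∈ K → 0 ≤ q → q ≤ 1 →
  q ^ n * mac K ((1 / 2 : ℝ) • x) ≤ volume.real (K ∩ {z | x - z ∈ q • K})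

/-- The method of conditional expectations. -/
def T_DERG : Prop := ∀ (n m : ℕ) (K : Set (E n)) (X : Finset (E n)) (A : E n → Set (E n))
  (p : E n → ℝ), IsCompact K → 0 < volume.real K →
  (∀ x ∈ X, MeasurableSet (A x) ∧ 0 ≤ p x ∧ p x ≤ 1 ∧
    p x * volume.real K ≤ volume.real (K ∩ A x)) →
  ∃ (z : Fin m → E n) (Y : Finset (E n)), (∀ i, z i ∈ K) ∧ Y ⊆ X ∧
    (∀ x ∈ X, x ∉ Y → ∃ i, z i ∈ A x) ∧ (Y.card : ℝ) ≤ ∑ x ∈ X, (1 - p x) ^ m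

/-- The greedy algorithm for finite sets. -/
def T_GRE : Prop := ∀ (n m : ℕ) (K : Set (E n)) (Y : Finset (E n)) (q : ℝ), GB K → 0 < q →
  (∀ x ∈ Y, x ∈ K) → (Y.card : ℝ) * (1 - (q / (1 + q)) ^ n) ^ m < 1 →
  ∃ z : Fin m → E n, ∀ x ∈ Y, ∃ i, x - z i ∈ q • K

/-- The sum over the levels. -/
def T_SUMG : Prop := ∀ (n : ℕ) (X : Finset (E n)) (u : E n → ℝ) (ρ : ℝ), 1 ≤ n → 1 / 2 ≤ ρ →
  ρ ≤ 1 → (∀ x ∈ X, ρ / 2 ≤ u x ∧ u x ≤ 1) → (X.card : ℝ) ≤ (5 * n / ρ) ^ n →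
  (∀ (t : ℝ) (Y : Finset (E n)), Y ⊆ X → 1 / (n : ℝ) ≤ t → t ≤ 1 / 2 →
    (∀ x ∈ Y, u x ≤ (1 + t) / 2 * ρ) → (Y.card : ℝ) ≤ 4 * (5 * c3 * n * t) ^ n) →
  ∑ x ∈ X, (1 - u x ^ n / 4) ^ (4 * n * 2 ^ n) ≤ (200 * c3 * (2 + n * Real.log (1 / ρ))) ^ n

/-- The theorem for bodies containing the origin, whose symmetric part is not too small. -/
def T_FING : Prop := ∀ (n : ℕ) (K : Set (E n)), 1 ≤ n → GB K →
  (1 / 2) ^ n * volume.real K ≤ volume.real (sy K) →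
  ∃ T : Finset (E n), (T.card : ℝ) ≤
    2 ^ n * n * (200 + 4 * Real.log (2 + Real.log (volume.real K / volume.real (sy K)))) ∧
    K ⊆ ⋃ t ∈ T, (fun x => t + x) '' interior K

/-- The theorem. -/
def T_ALL : Prop := ∀ (n : ℕ) (K : Set (E n)) (c : E n), 1 ≤ n → IsCompact K → Convex ℝ K →
  (interior K).Nonempty → 0 < volume.real (K ∩ ((fun y => (2 : ℝ) • c - y) '' K)) →
  ∃ T : Finset (E n), (T.card : ℝ) ≤
    2 ^ n * n * (200 + 4 * Real.log (2 + Real.log (volume.real K /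
      volume.real (K ∩ ((fun y => (2 : ℝ) • c - y) '' K))))) ∧
    K ⊆ ⋃ t ∈ T, (fun x => t + x) '' interior K

end Pool.Agent.Rog
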