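import Pool.Agent.Rog.Targets

/-!
# Basic properties of `W`
-/

set_option autoImplicit false

open MeasureTheory Set Filter Topology
open scoped Pointwise Real

namespace Pool.Agent.Rog

namespace WC_

variable {n : ℕ} {K : Set (E n)}

/-- The set whose volume is `mac K x`. -/
def M (K : Set (E n)) (x : E n) : Set (E n) := {y | y ∈ K ∧ (2 : ℝ) • x - y ∈ K}

theorem M_sub (K : Set (E n)) (x : E n) : M K x ⊆ K := fun _ h => h.1

theorem mac_eq (K : Set (E n)) (x : E n) : mac K x = volume.real (M K x) := rfl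

theorem M_cpt (hK : SymBody K) (x : E n) : IsCompact (M K x) := by
  have hc : IsClosed ((fun y : E n => (2 : ℝ) • x - y) ⁻¹' K) :=
    hK.cpt.isClosed.preimage (by fun_prop)
  have : M K x = K ∩ (fun y : E n => (2 : ℝ) • x - y) ⁻¹' K := rfl
  rw [this]
  exact hK.cpt.inter_right hc

theorem M_cvx (hK : SymBody K) (x : E n) : Convex ℝ (M K x) := by
  intro y hy z hz a b ha hb hab
  refine ⟨hK.cvx hy.1 hz.1 ha hb hab, ?_⟩
  have h := hK.cvx hy.2 hz.2 ha hb hab
  have e : (2 : ℝ) • x - (a • y + b • z) = a • ((2 : ℝ) • x - y) + b • ((2 : ℝ) • x - z) := by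
    have h2 : (2 : ℝ) • x = (a + b) • (2 : ℝ) • x := by rw [hab, one_smul]
    rw [smul_sub, smul_sub]
    nth_rewrite 1 [h2]
    rw [add_smul]
    abel
  rw [e]
  exact h

theorem M_self {x : E n} (hx : x ∈ K) : x ∈ M K x := by
  refine ⟨hx, ?_⟩
  rw [two_smul, add_sub_cancel_right]
  exact hx

theorem M_add (hK : SymBody K) {x y : E n} {a b : ℝ} (ha : 0 ≤ a) (hb : 0 ≤ b)
    (hab : a + b = 1) : a • M K x + b • M K y ⊆ M K (a • x + b • y) := by
  intro z hz
  obtain ⟨u, hu, v, hv, rfl⟩ := Set.mem_add.1 hz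
  obtain ⟨u', hu', rfl⟩ := Set.mem_smul_set.1 hu
  obtain ⟨v', hv', rfl⟩ := Set.mem_smul_set.1 hv
  refine ⟨hK.cvx hu'.1 hv'.1 ha hb hab, ?_⟩
  have e : (2 : ℝ) • (a • x + b • y) - (a • u' + b • v') =
      a • ((2 : ℝ) • x - u') + b • ((2 : ℝ) • y - v') := by
    rw [smul_sub, smul_sub, smul_add, smul_comm (2 : ℝ) a x, smul_comm (2 : ℝ) b y]
    abel
  rw [e]
  exact hK.cvx hu'.2 hv'.2 ha hb hab

theorem vol_pos (hK : SymBody K) : 0 < volume.real K := by
  unfold Measure.real
  refine ENNReal.toReal_pos ?_ hK.cpt.measure_lt_top.ne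
  exact (Measure.measure_pos_of_nonempty_interior _ hK.int).ne'

theorem mac_le (hK : SymBody K) (x : E n) : mac K x ≤ volume.real K :=
  measureReal_mono (M_sub K x) hK.cpt.measure_lt_top.ne

theorem mac_nonneg (K : Set (E n)) (x : E n) : 0 ≤ mac K x := measureReal_nonneg

theorem W_nonneg (K : Set (E n)) (x : E n) : 0 ≤ W K x :=
  Real.rpow_nonneg (div_nonneg (mac_nonneg K x) measureReal_nonneg) _

theorem W_zero (hK : SymBody K) : W K 0 = 1 := by
  have : mac K 0 = volume.real K := by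
    have e : M K 0 = K := by
      ext y
      constructor
      · exact fun h => h.1
      · intro h
        refine ⟨h, ?_⟩
        rw [smul_zero, zero_sub]
        exact hK.symm y h
    rw [mac_eq, e]
  unfold W
  rw [this, div_self (vol_pos hK).ne', Real.one_rpow]

theorem conc (h : T_BMI) (hn : 1 ≤ n) (hK : SymBody K) {x y : E n} (hx : x ∈ K) (hy : y ∈ K)
    {a b : ℝ} (ha : 0 ≤ a) (hb : 0 ≤ b) (hab : a + b = 1) :
    a * W K x + b * W K y ≤ W K (a • x + b • y) := by
  have h1 := h n (M K x) (M K y) hn (M_cpt hK x) (M_cvx hK x) ⟨x, M_self hx⟩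
    (M_cpt hK y) (M_cvx hK y) ⟨y, M_self hy⟩ a b ha hb hab
  have hv := vol_pos hK
  have h2 : volume.real (a • M K x + b • M K y) ≤ mac K (a • x + b • y) :=
    measureReal_mono (M_add hK ha hb hab) (M_cpt hK _).measure_lt_top.ne
  have h3 : volume.real (a • M K x + b • M K y) ^ ((1 : ℝ) / n) ≤
      mac K (a • x + b • y) ^ ((1 : ℝ) / n) :=
    Real.rpow_le_rpow measureReal_nonneg h2 (by positivity)
  have hW : ∀ z, W K z = mac K z ^ ((1 : ℝ) / n) / volume.real K ^ ((1 : ℝ) / n) := fun z => by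
    unfold W
    rw [Real.div_rpow (mac_nonneg K z) hv.le]
  rw [hW, hW, hW, ← mul_div_assoc, ← mul_div_assoc, ← add_div]
  refine div_le_div_of_nonneg_right ?_ (Real.rpow_nonneg hv.le _)
  exact h1.trans h3

end WC_

open WC_ in
theorem p_WC (h : T_BMI) : T_WC := by
  intro n K hn hK
  have hv := vol_pos hK
  have h0 : (0 : E n) ∈ K := by
    obtain ⟨x, hx⟩ := hK.int
    have hx' := interior_subset hx
    have := hK.cvx hx' (hK.symm x hx') (a := 1 / 2) (b := 1 / 2) (by norm_num) (by norm_num)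
      (by norm_num)
    rwa [smul_neg, add_neg_cancel] at this
  refine ⟨hv, W_zero hK, W_nonneg K, ?_, ?_, ?_, ?_⟩
  · intro x
    unfold W
    rw [one_div, Real.rpow_inv_natCast_pow (div_nonneg (mac_nonneg K x) hv.le) (by omega)]
    field_simp
  · intro x hx y hy a b ha hb hab
    exact conc h hn hK hx hy ha hb hab
  · intro x hx
    have := conc h hn hK h0 hx (a := 1 / 2) (b := 1 / 2) (by norm_num) (by norm_num)
      (by norm_num)
    rw [smul_zero, zero_add, W_zero hK] at this
    have h2 := W_nonneg K x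
    linarith
  · intro x
    unfold W
    refine Real.rpow_le_one (div_nonneg (mac_nonneg K x) hv.le) ?_ (by positivity)
    rw [div_le_one hv]
    exact mac_le hK x

end Pool.Agent.Rog
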